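import Mathlib
import Pool.Agent.Lib.MP_2a816b_nt.Expo

/-!
# Definitions for the analytic part
-/

namespace Pool.Agent.Lib.MP_d57abb_nt.All

open Finset

/-- `log` on the primes -/
noncomputable def lp (n : ℕ) : ℝ := if n.Prime then Real.log n else 0

/-- the residues `s` modulo `q` with `W₁ s + n₀` prime to `q` -/
def Tq (W₁ n₀ q : ℕ) : Finset ℕ := (range q).filter (fun s => Nat.Coprime (W₁ * s + n₀) q)

/-- the density `W₁ / φ(W₁)` -/
noncomputable def dens (W₁ : ℕ) : ℝ := (W₁ : ℝ) / (Nat.totient W₁ : ℝ)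

end Pool.Agent.Lib.MP_d57abb_nt.All
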