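import Mathlib
import Pool.Agent.Lib.MP_d57abb_nt.All.FDefs
import Pool.Agent.Lib.MP_9c2ea5_nt.AMain
import Pool.Agent.Lib.MP_42948a_nt.AC.S9

/-!
# JOB SW: the Siegel-Walfisz theorem

PROOF.  `eq_large'` below is `MP_9c2ea5_nt.An.eq_large` with the hypothesis `hgood` only for the characters modulo the given `m` (the proof of `eq_large` uses it for this `m`
only: copy it).  In `sw` take `κ = 1`, `X = log y`: for large `X` (`par_main 1`, `par_rest 1`, in `AParM`, `AParR`, used in the same way in `theoremA` in `AMain`) `Scale 1 X` and `q1`, `q2` hold; `exp (X / 2) ≤ y ≤ exp (3 X)`;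
`M ≤ X ^ B = exp (B log X) ≤ exp (6 (log X)²)` for `log X ≥ B`.  Hypothesis on characters `χ` modulo `M`, `χ² = 1`, `χ ≠ 1`: `siegel (1 / (2 (B + 1)))` gives `c > 0` with
`‖L(1, χ)‖ ≥ c M ^ (-δ) ≥ c X ^ (-1/2) ≥ (log X)^28 / X` for `X` large (`(log X)^28 ≤ c √X`, `isLittleO_log_rpow_rpow_atTop` or
`Real.isLittleO_pow_log_id_atTop`).  Conclusion: the error is `≤ y exp (-1000 (log X)²) ≤ y / X ^ A` for `1000 log X ≥ A`.  All `eventually` statements are on `X = log y → ∞`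
(`Real.tendsto_log_atTop.comp tendsto_natCast_atTop_atTop`).  `lp = thN` by definition (`rfl` / `unfold`).
-/

open Complex Finset Filter

namespace Pool.Agent.Lib.MP_d57abb_nt.All

open Pool.Agent.Lib.MP_9c2ea5_nt Pool.Agent.Lib.MP_9c2ea5_nt.An

theorem eq_large' {κ X : ℝ} (h : Scale κ X)
    (q1 : 9 * X * Real.exp (6 * κ * (Real.log X) ^ 2) * Real.exp (1000 * κ * (Real.log X) ^ 2) ≤
      Real.exp (X / 2))
    (q2 : 18 * X * Real.exp (1000 * κ * (Real.log X) ^ 2) ≤ Real.exp (X / 4))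
    {m : ℕ} [NeZero m] (hm : (m : ℝ) ≤ Real.exp (6 * κ * (Real.log X) ^ 2))
    (hgood : ∀ (χ : DirichletCharacter ℂ m), χ ^ 2 = 1 → χ ≠ 1 →
      (Real.log X) ^ 28 / X ≤ ‖DirichletCharacter.LFunction χ 1‖)
    (c y : ℕ) (hc : Nat.Coprime c m) (hy : Real.exp (X / 2) ≤ y)
    (hy3 : (y : ℝ) ≤ Real.exp (3 * X)) :
    |∑ n ∈ (Finset.Ioc 0 y).filter (fun n => n ≡ c [MOD m]), thN n -
      (y : ℝ) / (Nat.totient m : ℝ)| ≤ y * Real.exp (-(1000 * κ * (Real.log X) ^ 2)) := by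
  have hX := h.X_pos
  have hyp : (50 : ℝ) ≤ y := h.y_ge hy
  have hy1 : 1 ≤ y := by
    have : (1 : ℝ) ≤ y := by linarith
    exact_mod_cast this
  set e := Real.exp (-(1000 * κ * (Real.log X) ^ 2)) with he
  have hepos : 0 < e := Real.exp_pos _
  have hee : e * Real.exp (1000 * κ * (Real.log X) ^ 2) = 1 := by
    rw [he, ← Real.exp_add]
    simp
  have hlogy : Real.log y ≤ 3 * X := by
    rw [Real.log_le_iff_le_exp (by linarith)]
    exact hy3
  have hlogy0 : 0 ≤ Real.log y := Real.log_nonneg (by linarith)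
  -- m log y
  have b1 : (m : ℝ) * Real.log y ≤ y * e / 3 := by
    have : 9 * X * (m : ℝ) * Real.exp (1000 * κ * (Real.log X) ^ 2) ≤ y := by
      refine le_trans ?_ (q1.trans hy)
      gcongr
    have h2 : 9 * X * (m : ℝ) ≤ y * e := by
      calc 9 * X * (m : ℝ) = 9 * X * (m : ℝ) * Real.exp (1000 * κ * (Real.log X) ^ 2) * e := by
            rw [mul_assoc _ _ e, mul_comm _ e, hee, mul_one]
        _ ≤ y * e := by gcongr
    have h3 : (m : ℝ) * Real.log y ≤ m * (3 * X) := by gcongr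
    nlinarith
  have b2 : 2 * Real.sqrt y * Real.log y ≤ y * e / 3 := by
    have hs : Real.exp (X / 4) ≤ Real.sqrt y := by
      apply Real.le_sqrt_of_sq_le
      rw [← Real.exp_nat_mul]
      refine le_trans (le_of_eq ?_) hy
      congr 1
      push_cast
      ring
    have h1 : 18 * X * Real.exp (1000 * κ * (Real.log X) ^ 2) ≤ Real.sqrt y := q2.trans hs
    have h2 : 18 * X ≤ Real.sqrt y * e := by
      calc 18 * X = 18 * X * Real.exp (1000 * κ * (Real.log X) ^ 2) * e := by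
            rw [mul_assoc _ _ e, mul_comm _ e, hee, mul_one]
        _ ≤ Real.sqrt y * e := by gcongr
    have h3 : Real.sqrt y * Real.sqrt y = y := Real.mul_self_sqrt (by linarith)
    have h4 : 0 ≤ Real.sqrt y := Real.sqrt_nonneg _
    calc 2 * Real.sqrt y * Real.log y ≤ 2 * Real.sqrt y * (3 * X) := by gcongr
      _ = Real.sqrt y * (18 * X) / 3 := by ring
      _ ≤ Real.sqrt y * (Real.sqrt y * e) / 3 := by gcongr
      _ = y * e / 3 := by rw [← mul_assoc, h3]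
  have b3 := theta_of_psi m c y hy1
  have b4 := orth (m := m) c y hc (y * e / 3 + y * e / 3 - 2 * Real.sqrt y * Real.log y + (y * e / 3 - y * e / 3) + 2 * Real.sqrt y * Real.log y)
    (by
      intro χ hχ
      have := h.psiC_le hm χ hχ (fun h2 => hgood χ h2 hχ) hy hy3
      rw [← he] at this
      refine this.trans ?_
      have : 0 ≤ y * e / 3 := by positivity
      linarith)
    (by
      have h1 := h.psi_le hy hy3
      rw [← he] at h1
      have h2 := psi_triv (m := m) y hy1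
      have h3 : psiC (1 : DirichletCharacter ℂ m) y - (y : ℂ) =
          (psiC (1 : DirichletCharacter ℂ m) y - ∑ n ∈ Finset.Ioc 0 y, aOne n) +
            (∑ n ∈ Finset.Ioc 0 y, aOne n - (y : ℂ)) := by ring
      rw [h3]
      refine (norm_add_le _ _).trans ?_
      linarith)
  rw [abs_le] at b3 b4 ⊢
  constructor <;> linarith [b3.1, b3.2, b4.1, b4.2]

theorem sw (A B : ℕ) : ∃ y₀ : ℕ, ∀ y : ℕ, y₀ ≤ y → ∀ M : ℕ, 0 < M → (M : ℝ) ≤ Real.log y ^ B →
    ∀ c : ℕ, Nat.Coprime c M →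
    |∑ n ∈ (Finset.Ioc 0 y).filter (fun n => n ≡ c [MOD M]), lp n - (y : ℝ) / (Nat.totient M : ℝ)| ≤
      y / Real.log y ^ A := by
  obtain ⟨c₀, hc₀, hsieg⟩ := Pool.Agent.Lib.MP_42948a_nt.AC.siegel (1 / (2 * ((B : ℝ) + 1))) (by positivity)
  -- the conditions on `X`
  have hev : ∀ᶠ X : ℝ in atTop,
      ((64 * 10 ^ 21 * (2010 * (1 : ℝ)) ^ 11 * (X ^ 3 / (Real.log X) ^ 6) *
      (Real.exp (-(2001 * (1 : ℝ) * (Real.log X) ^ 2)) +
        Real.exp (-((Real.log X) ^ 6 / (2 * 10 ^ 18 * (2010 * (1 : ℝ)) ^ 11)))) ≤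
      (Real.exp (-(1000 * (1 : ℝ) * (Real.log X) ^ 2)) / (60 * X)) ^ 2) ∧
      (1 ≤ Real.log X ∧
    Real.exp (6 * (1 : ℝ) * (Real.log X) ^ 2) * (2 * Real.exp (2001 * (1 : ℝ) * (Real.log X) ^ 2) + 5) ≤
      Real.exp (2010 * (1 : ℝ) * (Real.log X) ^ 2) ∧
    (Real.log X) ^ 28 ≤ X ∧
    2001 * (1 : ℝ) * (Real.log X) ^ 2 ≤ X ∧
    9 * X * Real.exp (6 * (1 : ℝ) * (Real.log X) ^ 2) * Real.exp (1000 * (1 : ℝ) * (Real.log X) ^ 2) ≤
      Real.exp (X / 2) ∧
    18 * X * Real.exp (1000 * (1 : ℝ) * (Real.log X) ^ 2) ≤ Real.exp (X / 4) ∧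
    X * Real.exp (1000 * (1 : ℝ) * (Real.log X) ^ 2) * Real.exp (X / 2) ≤ Real.exp X / 2 ∧
    Real.exp (4000 * (1 : ℝ) * (Real.log X) ^ 2) ≤ Real.exp X / 2 ∧
    100 ≤ X)) ∧ ((B : ℝ) ≤ Real.log X ∧ (A : ℝ) ≤ Real.log X ∧ 1 ≤ X ∧
      (Real.log X) ^ 28 / X ≤ c₀ * X ^ (-(1 / 2 : ℝ))) := by
    refine ((par_main 1 le_rfl).and (par_rest 1 le_rfl)).and ?_
    have e1 : ∀ᶠ X : ℝ in atTop, (B : ℝ) ≤ Real.log X := Real.tendsto_log_atTop.eventually_ge_atTop _
    have e2 : ∀ᶠ X : ℝ in atTop, (A : ℝ) ≤ Real.log X := Real.tendsto_log_atTop.eventually_ge_atTop _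
    have e4 : ∀ᶠ X : ℝ in atTop, (Real.log X) ^ (28 : ℝ) ≤ c₀ * X ^ (1 / 2 : ℝ) := by
      have h1 := (isLittleO_log_rpow_rpow_atTop (28 : ℝ) (show (0 : ℝ) < 1 / 2 by norm_num)).def hc₀
      filter_upwards [h1, eventually_ge_atTop (1 : ℝ)] with X hX hX1
      have hlog : 0 ≤ Real.log X := Real.log_nonneg hX1
      rw [Real.norm_of_nonneg (by positivity), Real.norm_of_nonneg (by positivity)] at hX
      exact hX
    filter_upwards [e1, e2, eventually_ge_atTop (1 : ℝ), e4] with X h1 h2 h3 h4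
    refine ⟨h1, h2, h3, ?_⟩
    have hX0 : 0 < X := by linarith
    rw [div_le_iff₀ hX0, mul_assoc]
    have h5 : X ^ (-(1 / 2 : ℝ)) * X = X ^ (1 / 2 : ℝ) := by
      have h6 : X ^ (-(1 / 2 : ℝ)) * X ^ (1 : ℝ) = X ^ (1 / 2 : ℝ) := by
        rw [← Real.rpow_add hX0]
        norm_num
      rwa [Real.rpow_one] at h6
    rw [h5]
    calc Real.log X ^ 28 = Real.log X ^ (28 : ℝ) := by
          rw [← Real.rpow_natCast]; norm_num
      _ ≤ _ := h4
  have hlog : Tendsto (fun y : ℕ => Real.log (y : ℝ)) atTop atTop :=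
    Real.tendsto_log_atTop.comp tendsto_natCast_atTop_atTop
  obtain ⟨y₀, hy₀⟩ := eventually_atTop.mp ((hlog.eventually hev).and (eventually_ge_atTop 2))
  refine ⟨y₀, ?_⟩
  intro y hy M hM0 hM c hc
  obtain ⟨⟨⟨pm, p1, p2, p3, p4, q1, q2, q3, q4, x100⟩, hB, hA, hX1, hL⟩, hy2⟩ := hy₀ y hy
  set X := Real.log (y : ℝ) with hX
  have hyR : (2 : ℝ) ≤ y := by exact_mod_cast hy2
  have hy0 : (0 : ℝ) < y := by linarith
  have hX0 : 0 < X := by linarith
  have h : Scale 1 X := ⟨le_rfl, x100, p1, p2, p3, p4, pm⟩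
  have hLX : 0 < Real.log X := by linarith
  have hey : Real.exp X = y := by rw [hX, Real.exp_log hy0]
  have : NeZero M := ⟨hM0.ne'⟩
  have hMR : (1 : ℝ) ≤ M := by exact_mod_cast hM0
  have hXB : X ^ B = Real.exp (B * Real.log X) := by
    rw [mul_comm, Real.exp_mul, Real.exp_log hX0, Real.rpow_natCast]
  have hmE : (M : ℝ) ≤ Real.exp (6 * 1 * (Real.log X) ^ 2) := by
    refine hM.trans ?_
    rw [hXB]
    apply Real.exp_le_exp.mpr
    nlinarith
  have hgood : ∀ (χ : DirichletCharacter ℂ M), χ ^ 2 = 1 → χ ≠ 1 →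
      (Real.log X) ^ 28 / X ≤ ‖DirichletCharacter.LFunction χ 1‖ := by
    intro χ h1 h2
    refine le_trans ?_ (hsieg M χ h1 h2)
    refine hL.trans ?_
    apply mul_le_mul_of_nonneg_left _ hc₀.le
    have h3 : (M : ℝ) ^ (1 / (2 * ((B : ℝ) + 1))) ≤ X ^ (1 / 2 : ℝ) := by
      calc (M : ℝ) ^ (1 / (2 * ((B : ℝ) + 1))) ≤ (X ^ B) ^ (1 / (2 * ((B : ℝ) + 1))) :=
            Real.rpow_le_rpow (by linarith) hM (by positivity)
        _ = X ^ ((B : ℝ) * (1 / (2 * ((B : ℝ) + 1)))) := by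
            rw [← Real.rpow_natCast, ← Real.rpow_mul hX0.le]
        _ ≤ X ^ (1 / 2 : ℝ) := by
            apply Real.rpow_le_rpow_of_exponent_le hX1
            have hb : (0 : ℝ) ≤ B := by positivity
            rw [mul_one_div, div_le_div_iff₀ (by positivity) (by norm_num)]
            linarith
    rw [Real.rpow_neg hX0.le, Real.rpow_neg (by linarith)]
    apply inv_anti₀ (by positivity) h3
  have hmain := eq_large' h q1 q2 hmE hgood c y hc (by rw [← hey]; exact Real.exp_le_exp.mpr (by linarith))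
    (by rw [← hey]; exact Real.exp_le_exp.mpr (by linarith))
  have hsum : ∑ n ∈ (Finset.Ioc 0 y).filter (fun n => n ≡ c [MOD M]), lp n =
      ∑ n ∈ (Finset.Ioc 0 y).filter (fun n => n ≡ c [MOD M]), thN n := rfl
  rw [hsum]
  refine hmain.trans ?_
  have hXA : X ^ A = Real.exp (A * Real.log X) := by
    rw [mul_comm, Real.exp_mul, Real.exp_log hX0, Real.rpow_natCast]
  rw [hXA, div_eq_mul_inv, ← Real.exp_neg]
  apply mul_le_mul_of_nonneg_left _ hy0.le
  apply Real.exp_le_exp.mpr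
  nlinarith

end Pool.Agent.Lib.MP_d57abb_nt.All
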