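import Mathlib
import Pool.Agent.Lib.MP_d57abb_nt.Basic

/-!
# Definitions
-/

namespace Pool.Agent.Lib.MP_d57abb_nt.All

open Pool.Agent.Lib.MP_d57abb_nt

/-- completely additive -/
def Add {m : ℕ} (h : ℕ → ZMod m) : Prop := ∀ a b : ℕ, 0 < a → 0 < b → h (a * b) = h a + h b

/-- `d` is a product of primes congruent to `± 1` modulo `5` -/
def Spl (d : ℕ) : Prop := 0 < d ∧ ∀ p : ℕ, p.Prime → p ∣ d → p % 5 = 1 ∨ p % 5 = 4

/-- the Ramsey property -/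
def PropB {m : ℕ} (h : ℕ → ZMod m) (c : ZMod m) : Prop :=
  ∃ X : ℕ, ∀ b : ℕ → ZMod m, ∃ t d : ℕ, Spl d ∧ d ∣ t ∧ t + d ≤ X ∧ b t + b (t + d) = c + 2 * h d

/-- the label of a vector -/
def lam {m : ℕ} (h : ℕ → ZMod m) (v : ℤ × ℤ) : ZMod m := h (nm v).natAbs

/-- the local property: near every direction `a` (up to finitely many rotations) there is an
adjacent pair `(v, w)` with `h (nm v) + h (nm w) = c` -/
def Loc {m : ℕ} (h : ℕ → ZMod m) (c : ZMod m) : Prop :=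
  ∃ (r B D : ℕ) (Θ : ℕ → ℝ), ∀ a : ℤ × ℤ, TP a → IsCoprime a.1 a.2 → (D : ℤ) ≤ nm a →
    ∃ i < r, ∃ v w z : ℤ × ℤ, ∃ x y : ℤ, TP v ∧ TP w ∧ TP z ∧ dt v w = 1 ∧
      lam h v + lam h w = c ∧ z = x • v + y • w ∧ |x| ≤ B ∧ |y| ≤ B ∧
      |an z - (an a + Θ i)| ≤ B / nm a ∧ nm v ≤ B * nm a ∧ nm w ≤ B * nm a

/-- the counting set -/
def FG {m : ℕ} (h : ℕ → ZMod m) (c : ZMod m) (N : ℕ) : Finset ℕ :=
  (Finset.Icc 1 N).filter (fun k => h (k ^ 2 + 3 * k + 1) = c)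

/-- the pairs `(k, u)` with `u ∣ k² + 3 k + 1` -/
def TG {m : ℕ} (h : ℕ → ZMod m) (c : ZMod m) (M : ℕ) : Finset (Σ _ : ℕ, ℕ) :=
  (FG h c M).sigma (fun k => (k ^ 2 + 3 * k + 1).divisors)

end Pool.Agent.Lib.MP_d57abb_nt.All
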