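import Mathlib
import Pool.Agent.Lib.MP_d57abb_nt.Three.Thue

/-!
# Root: elements of norm `p` for `p ≡ ± 1 (mod 5)`

PROOF of `exists_root`.  `p` is odd (`2 % 5 = 2`) and `p ≠ 5`.  `p` is a square modulo `5` (`p ≡ 1` or `4`), so `5` is a square modulo `p`
by quadratic reciprocity, `5 ≡ 1 (mod 4)`: Mathlib `ZMod.exists_sq_eq_prime_iff_of_mod_four_eq_one` (with `Fact (Nat.Prime 5)`,
`Fact p.Prime`): `IsSquare (p : ZMod 5) ↔ IsSquare (5 : ZMod p)` (`decide` for the first after rewriting `(p : ZMod 5)` by `p % 5`: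
`ZMod.natCast_mod` / `(ZMod.natCast_eq_natCast_iff ..)`).  Let `s * s = 5` in `ZMod p`; `2` is a unit in `ZMod p`.  Put `x = (s - 3) / 2`
(`2 x + 3 = s`), then `4 (x² + 3 x + 1) = (2 x + 3)² - 5 = 0`, so `x² + 3 x + 1 = 0`; take `k = x.val` (`ZMod.natCast_zmod_val`) and
`(ZMod.natCast_eq_zero_iff _ _)`.
PROOF of `exists_PI5`: `exists_PI` (file `Three/Thue`) with this `k`.
-/

namespace Pool.Agent.Lib.MP_d57abb_nt.All

open Pool.Agent.Lib.MP_d57abb_nt Pool.Agent.Lib.MP_d57abb_nt.Three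

private theorem Root_sq {p : ℕ} (h5 : p % 5 = 1 ∨ p % 5 = 4) : IsSquare ((p : ℕ) : ZMod 5) := by
  rcases h5 with h | h
  · refine ⟨1, ?_⟩
    rw [← ZMod.natCast_mod, h]
    decide
  · refine ⟨2, ?_⟩
    rw [← ZMod.natCast_mod, h]
    decide

theorem exists_root {p : ℕ} (hp : p.Prime) (h5 : p % 5 = 1 ∨ p % 5 = 4) :
    ∃ k : ℕ, p ∣ k ^ 2 + 3 * k + 1 := by
  have hp2 : p ≠ 2 := by
    rintro rfl
    omega
  have : Fact p.Prime := ⟨hp⟩
  have : Fact (Nat.Prime 5) := ⟨Nat.prime_five⟩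
  have h1 : IsSquare ((5 : ℕ) : ZMod p) :=
    (ZMod.exists_sq_eq_prime_iff_of_mod_four_eq_one (p := 5) (q := p) (by norm_num) hp2).1
      (Root_sq h5)
  obtain ⟨s, hs⟩ := h1
  have h2 : (2 : ZMod p) ≠ 0 := by
    intro h
    have h3 : ((2 : ℕ) : ZMod p) = 0 := by exact_mod_cast h
    rw [ZMod.natCast_eq_zero_iff] at h3
    exact hp2 ((Nat.prime_dvd_prime_iff_eq hp Nat.prime_two).1 h3)
  have hs' : s * s = 5 := by
    rw [← hs]
    norm_num
  have hx : ((s - 3) / 2) ^ 2 + 3 * ((s - 3) / 2) + 1 = 0 := by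
    field_simp
    linear_combination hs'
  refine ⟨((s - 3) / 2).val, ?_⟩
  rw [← ZMod.natCast_eq_zero_iff]
  push_cast
  rw [ZMod.natCast_zmod_val]
  exact hx

theorem exists_PI5 {p : ℕ} (hp : p.Prime) (h5 : p % 5 = 1 ∨ p % 5 = 4) : ∃ ϖ : ℤ × ℤ, PI p ϖ := by
  obtain ⟨k, hk⟩ := exists_root hp h5
  refine exists_PI hp ?_ hk
  rintro rfl
  omega

end Pool.Agent.Lib.MP_d57abb_nt.All
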