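import Mathlib
import Pool.Agent.Lib.MP_d57abb_nt.All.Defs
import Pool.Agent.Lib.MP_d57abb_nt.All.Root

/-!
# JOB Sys: a common multiple of elements of norm `d`

All products are `ml`; it is commutative and associative (`unfold ml; ext <;> simp <;> ring` or `Prod.ext (by simp [ml]; ring) ..`), with unit
`(1, 0)`; `nm_ml`, `TP.ml`, `nm_ml` are in `Basic`.  `PI`, `Bad`, `prim_ml`, `not_bad_ml`, `not_prime_dvd`, `isCoprime_of_prime` are in
`Three/Prim`.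

PROOF of `not_bad`.  If `p ∣ v ϖ` (both coordinates) then `p² ∣ nm (v ϖ) = nm v * nm ϖ = nm v * p` (`nm (x, y) = x² + 3xy + y²`, both
divisible by `p`), so `p ∣ nm v`.

PROOF of `bad_ml`.  Let `w' = (ϖ'.1 + 3 ϖ'.2, - ϖ'.2)` be the conjugate of `ϖ'`: `ml ϖ' w' = (nm ϖ', 0) = (q, 0)`, so
`ml (ml (ml v ϖ') ϖ) w' = q • ml v ϖ`.  If `p` divides both coordinates of `ml (ml v ϖ') ϖ` then it divides both coordinates of
`q • ml v ϖ`, and `p ≠ q` are primes, so it divides both coordinates of `ml v ϖ`.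

PROOF of `exists_sys`.  Fix a choice `ϖ p` with `PI p (ϖ p)` for the primes `p ≡ ± 1 (mod 5)` (`exists_PI5`, `choose`; e.g.
`ϖ : ℕ → ℤ × ℤ` by `if h : p.Prime ∧ (p % 5 = 1 ∨ p % 5 = 4) then (exists_PI5 h.1 h.2).choose else (1, 0)`).
Prove by induction on `X` the stronger statement: there are `M > 0`, `δ₀`, `dl`, `co` with the first two properties and
(*) for all `u` with `IsCoprime u.1 u.2`, `IsCoprime (nm u) M`: `IsCoprime (ml δ₀ u).1 (ml δ₀ u).2`, and for every prime `p ≡ ± 1 (mod 5)`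
with `¬ (p : ℤ) ∣ nm u`: `¬ Bad p (ϖ p) (ml δ₀ u)`.
`X = 0`: `M = 1`, `δ₀ = (1, 0)`, `dl = co = fun _ => (1, 0)` (`Spl d → 0 < d`, so nothing to check); (*) by `not_bad` as `ml (1,0) u = u`.
Step `X → X + 1`: if `X + 1` is not `Spl`, or `X + 1 = 1`: same `M, δ₀`; in the case `X + 1 = 1` put `dl 1 = (1, 0)`, `co 1 = δ₀`.  Otherwise
`X + 1 = p d'` with `p` prime (`Nat.minFac`), `p ≡ ± 1 (mod 5)`, `Spl d'`, `d' ≤ X`.  `M' = M p`, `δ₀' = ml δ₀ (ϖ p)`,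
`co' d = ml (co d) (ϖ p)` and `dl' d = dl d` for `d ≠ X + 1`; `dl' (X+1) = ml (dl d') (ϖ p)`, `co' (X+1) = co d'`.  For (*): `nm u` is prime to `M p`
so it is prime to `M` and `¬ (p : ℤ) ∣ nm u`; `ml δ₀' u = ml (ml δ₀ u) (ϖ p)`; it is primitive by `prim_ml`, not bad for `p` by `not_bad_ml`,
not bad for other primes `q` by `bad_ml`.
-/

namespace Pool.Agent.Lib.MP_d57abb_nt.All

open Pool.Agent.Lib.MP_d57abb_nt Pool.Agent.Lib.MP_d57abb_nt.Three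

private theorem Sys_comm (a b : ℤ × ℤ) : ml a b = ml b a := by
  unfold ml
  refine Prod.ext ?_ ?_
  · show a.1 * b.1 - a.2 * b.2 = b.1 * a.1 - b.2 * a.2
    ring
  · show a.1 * b.2 + b.1 * a.2 + 3 * a.2 * b.2 = b.1 * a.2 + a.1 * b.2 + 3 * b.2 * a.2
    ring

private theorem Sys_assoc (a b c : ℤ × ℤ) : ml (ml a b) c = ml a (ml b c) := by
  unfold ml
  refine Prod.ext ?_ ?_
  · show (a.1 * b.1 - a.2 * b.2) * c.1 - (a.1 * b.2 + b.1 * a.2 + 3 * a.2 * b.2) * c.2 =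
      a.1 * (b.1 * c.1 - b.2 * c.2) - a.2 * (b.1 * c.2 + c.1 * b.2 + 3 * b.2 * c.2)
    ring
  · show (a.1 * b.1 - a.2 * b.2) * c.2 + c.1 * (a.1 * b.2 + b.1 * a.2 + 3 * a.2 * b.2) +
        3 * (a.1 * b.2 + b.1 * a.2 + 3 * a.2 * b.2) * c.2 =
      a.1 * (b.1 * c.2 + c.1 * b.2 + 3 * b.2 * c.2) + (b.1 * c.1 - b.2 * c.2) * a.2 +
        3 * a.2 * (b.1 * c.2 + c.1 * b.2 + 3 * b.2 * c.2)
    ring

private theorem Sys_right (a b c : ℤ × ℤ) : ml (ml a b) c = ml (ml a c) b := by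
  rw [Sys_assoc, Sys_comm b c, ← Sys_assoc]

private theorem Sys_one (u : ℤ × ℤ) : ml (1, 0) u = u := by
  unfold ml
  refine Prod.ext ?_ ?_
  · show (1 : ℤ) * u.1 - 0 * u.2 = u.1
    ring
  · show (1 : ℤ) * u.2 + u.1 * 0 + 3 * 0 * u.2 = u.2
    ring

private theorem Sys_TP_one : TP ((1, 0) : ℤ × ℤ) := by
  constructor
  · unfold pp
    norm_num
  · unfold qq
    norm_num

private theorem Sys_nm_one : nm ((1, 0) : ℤ × ℤ) = 1 := by
  unfold nm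
  norm_num

theorem not_bad {p : ℕ} {ϖ : ℤ × ℤ} (h : PI p ϖ) {v : ℤ × ℤ} (hv : ¬ (p : ℤ) ∣ nm v) : ¬ Bad p ϖ v := by
  rintro ⟨⟨a, ha⟩, ⟨b, hb⟩⟩
  have hp0 : (p : ℤ) ≠ 0 := by exact_mod_cast h.pr.ne_zero
  have h1 : nm (ml v ϖ) = nm v * p := by rw [nm_ml, h.nm]
  have h2 : nm (ml v ϖ) = p * (p * (a ^ 2 + 3 * a * b + b ^ 2)) := by
    unfold nm
    rw [ha, hb]
    ring
  have h3 : (p : ℤ) * nm v = p * (p * (a ^ 2 + 3 * a * b + b ^ 2)) := by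
    rw [← h2, h1, mul_comm]
  exact hv ⟨_, mul_left_cancel₀ hp0 h3⟩

theorem bad_ml {p q : ℕ} {ϖ ϖ' : ℤ × ℤ} (h : PI p ϖ) (h' : PI q ϖ') (hpq : p ≠ q) {v : ℤ × ℤ}
    (hb : ¬ Bad p ϖ v) : ¬ Bad p ϖ (ml v ϖ') := by
  rintro ⟨h1, h2⟩
  rw [Sys_right] at h1 h2
  have hp : Prime (p : ℤ) := Nat.prime_iff_prime_int.mp h.pr
  have hn := h'.nm
  unfold Pool.Agent.Lib.MP_d57abb_nt.nm at hn
  have e1 : (q : ℤ) * (ml v ϖ).1 = (ϖ'.1 + 3 * ϖ'.2) * (ml (ml v ϖ) ϖ').1 +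
      ϖ'.2 * (ml (ml v ϖ) ϖ').2 := by
    rw [← hn]
    generalize ml v ϖ = x
    unfold ml
    ring
  have e2 : (q : ℤ) * (ml v ϖ).2 = ϖ'.1 * (ml (ml v ϖ) ϖ').2 - ϖ'.2 * (ml (ml v ϖ) ϖ').1 := by
    rw [← hn]
    generalize ml v ϖ = x
    unfold ml
    ring
  have k1 : (p : ℤ) ∣ q * (ml v ϖ).1 := by
    rw [e1]
    exact dvd_add (Dvd.dvd.mul_left h1 _) (Dvd.dvd.mul_left h2 _)
  have k2 : (p : ℤ) ∣ q * (ml v ϖ).2 := by
    rw [e2]
    exact dvd_sub (Dvd.dvd.mul_left h2 _) (Dvd.dvd.mul_left h1 _)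
  have hpq' : ¬ (p : ℤ) ∣ q := by
    intro hd
    have h3 : p ∣ q := by exact_mod_cast hd
    exact hpq ((Nat.prime_dvd_prime_iff_eq h.pr h'.pr).mp h3)
  exact hb ⟨(hp.dvd_or_dvd k1).resolve_left hpq', (hp.dvd_or_dvd k2).resolve_left hpq'⟩

private theorem Sys_choice : ∃ ϖ : ℕ → ℤ × ℤ, ∀ p : ℕ, p.Prime → (p % 5 = 1 ∨ p % 5 = 4) →
    PI p (ϖ p) := by
  have h : ∀ p : ℕ, ∃ w : ℤ × ℤ, p.Prime → (p % 5 = 1 ∨ p % 5 = 4) → PI p w := by
    intro p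
    by_cases hp : p.Prime ∧ (p % 5 = 1 ∨ p % 5 = 4)
    · obtain ⟨w, hw⟩ := exists_PI5 hp.1 hp.2
      exact ⟨w, fun _ _ => hw⟩
    · exact ⟨(1, 0), fun h1 h2 => absurd ⟨h1, h2⟩ hp⟩
  choose ϖ hϖ using h
  exact ⟨ϖ, hϖ⟩

private theorem Sys_ind (ϖ : ℕ → ℤ × ℤ) (hϖ : ∀ p : ℕ, p.Prime → (p % 5 = 1 ∨ p % 5 = 4) →
    PI p (ϖ p)) (X : ℕ) : ∃ (M : ℕ) (δ₀ : ℤ × ℤ) (dl co : ℕ → ℤ × ℤ), 0 < M ∧ TP δ₀ ∧
    (∀ d : ℕ, Spl d → d ≤ X → TP (dl d) ∧ nm (dl d) = d ∧ TP (co d) ∧ ml (dl d) (co d) = δ₀) ∧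
    (∀ u : ℤ × ℤ, IsCoprime u.1 u.2 → IsCoprime (nm u) (M : ℤ) →
      IsCoprime (ml δ₀ u).1 (ml δ₀ u).2 ∧ ∀ p : ℕ, p.Prime → (p % 5 = 1 ∨ p % 5 = 4) →
        ¬ (p : ℤ) ∣ nm u → ¬ Bad p (ϖ p) (ml δ₀ u)) := by
  induction X with
  | zero =>
    refine ⟨1, (1, 0), fun _ => (1, 0), fun _ => (1, 0), one_pos, Sys_TP_one, ?_, ?_⟩
    · intro d hd hd0
      exact absurd hd.1 (by omega)
    · intro u hu _
      rw [Sys_one]
      exact ⟨hu, fun p hp h5 hpu => not_bad (hϖ p hp h5) hpu⟩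
  | succ X ih =>
    obtain ⟨M, δ₀, dl, co, hM, hδ, hd, hu⟩ := ih
    by_cases hs : Spl (X + 1)
    · by_cases h1 : X + 1 = 1
      · refine ⟨M, δ₀, fun d => if d = X + 1 then (1, 0) else dl d,
          fun d => if d = X + 1 then δ₀ else co d, hM, hδ, ?_, hu⟩
        intro d hds hdX
        by_cases hdX' : d = X + 1
        · simp only [if_pos hdX']
          refine ⟨Sys_TP_one, ?_, hδ, Sys_one δ₀⟩
          rw [Sys_nm_one, hdX', h1]
          norm_num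
        · simp only [if_neg hdX']
          exact hd d hds (by omega)
      · obtain ⟨d', hd'⟩ := Nat.minFac_dvd (X + 1)
        have hp : (X + 1).minFac.Prime := Nat.minFac_prime h1
        set p := (X + 1).minFac with hpdef
        have h5 : p % 5 = 1 ∨ p % 5 = 4 := hs.2 p hp ⟨d', hd'⟩
        have hPI := hϖ p hp h5
        have hp2 : 2 ≤ p := hp.two_le
        have hd'0 : 0 < d' := by
          rcases Nat.eq_zero_or_pos d' with h | h
          · rw [h, mul_zero] at hd'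
            omega
          · exact h
        have hsd' : Spl d' := ⟨hd'0, fun q hq hqd => hs.2 q hq (by
          rw [hd']
          exact Dvd.dvd.mul_left hqd p)⟩
        have hd'X : d' ≤ X := by
          have h3 : 2 * d' ≤ p * d' := Nat.mul_le_mul_right d' hp2
          omega
        obtain ⟨hT1, hn1, hT2, hm1⟩ := hd d' hsd' hd'X
        refine ⟨M * p, ml δ₀ (ϖ p), fun d => if d = X + 1 then ml (dl d') (ϖ p) else dl d,
          fun d => if d = X + 1 then co d' else ml (co d) (ϖ p), Nat.mul_pos hM hp.pos,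
          hδ.ml hPI.tp, ?_, ?_⟩
        · intro d hds hdX
          by_cases hdX' : d = X + 1
          · simp only [if_pos hdX']
            refine ⟨hT1.ml hPI.tp, ?_, hT2, ?_⟩
            · rw [nm_ml, hn1, hPI.nm, hdX', hd']
              push_cast
              ring
            · rw [Sys_right, hm1]
          · simp only [if_neg hdX']
            obtain ⟨g1, g2, g3, g4⟩ := hd d hds (by omega)
            refine ⟨g1, g2, g3.ml hPI.tp, ?_⟩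
            rw [← Sys_assoc, g4]
        · intro u hu1 hu2
          rw [Nat.cast_mul] at hu2
          have hu3 : IsCoprime (nm u) (M : ℤ) := hu2.of_mul_right_left
          have hu4 : IsCoprime (nm u) (p : ℤ) := hu2.of_mul_right_right
          have hpu : ¬ (p : ℤ) ∣ nm u := by
            intro hdv
            exact not_prime_dvd hu4 hp hdv dvd_rfl
          obtain ⟨k1, k2⟩ := hu u hu1 hu3
          have hbp := k2 p hp h5 hpu
          have e : ml (ml δ₀ (ϖ p)) u = ml (ml δ₀ u) (ϖ p) := Sys_right _ _ _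
          rw [e]
          refine ⟨prim_ml hPI k1 hbp, fun q hq hq5 hqu => ?_⟩
          by_cases hqp : q = p
          · rw [hqp]
            exact not_bad_ml hPI hbp
          · exact bad_ml (hϖ q hq hq5) hPI hqp (k2 q hq hq5 hqu)
    · refine ⟨M, δ₀, dl, co, hM, hδ, fun d hds hdX => hd d hds ?_, hu⟩
      by_contra hcon
      have h2 : d = X + 1 := by omega
      exact hs (h2 ▸ hds)

theorem exists_sys (X : ℕ) : ∃ (M : ℕ) (δ₀ : ℤ × ℤ) (dl co : ℕ → ℤ × ℤ), 0 < M ∧ TP δ₀ ∧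
    (∀ d : ℕ, Spl d → d ≤ X → TP (dl d) ∧ nm (dl d) = d ∧ TP (co d) ∧ ml (dl d) (co d) = δ₀) ∧
    (∀ u : ℤ × ℤ, IsCoprime u.1 u.2 → IsCoprime (nm u) (M : ℤ) →
      IsCoprime (ml δ₀ u).1 (ml δ₀ u).2) := by
  obtain ⟨ϖ, hϖ⟩ := Sys_choice
  obtain ⟨M, δ₀, dl, co, h1, h2, h3, h4⟩ := Sys_ind ϖ hϖ X
  exact ⟨M, δ₀, dl, co, h1, h2, h3, fun u hu hu' => (h4 u hu hu').1⟩

end Pool.Agent.Lib.MP_d57abb_nt.All
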