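import Mathlib
import Pool.Agent.Lib.MP_d57abb_nt.All.Defs
import Pool.Agent.Lib.MP_d57abb_nt.Three.Tri

/-!
# Near: primitive vectors near `a` with norm prime to `M`

`exists_tri`, `Near`, `coprime_right` are in `Three/Tri`, `Three/Fan`.

PROOF of `step_prime`.  `dt a y = 1`, so `a` and `y` are primitive, and so is `a + t y` for every `t` (`dt (a + t y) y = 1`).
`nm (a + t y) = A + B t + C t²` with `A = nm a`, `C = nm y`, `B = 2 a.1 y.1 + 3 (a.1 y.2 + a.2 y.1) + 2 a.2 y.2` and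
`B² - 4 A C = 5 (dt a y)² = 5`.  Replace `t` by `j + i P`, `i = 0, 1, 2`: suppose `p` divides the three values at `i = 0, 1, 2`.
If `p = 2`: the norm `x² + 3xy + y²` of a primitive vector is odd (it is even only if `x, y` are both even): contradiction.  If `p ≥ 3`: with
`A' = nm (a + j y)`, `B' = (B + 2 C j) P`, `C' = C P²` the values are `A'`, `A' + B' + C'`, `A' + 2 B' + 4 C'`; so `p ∣ A'`,
`p ∣ B' + C'`, `p ∣ 2 B' + 4 C'`, hence `p ∣ 2 C'`, `p ∣ C'`, `p ∣ B'`, and `p² ∣ B'² - 4 A' C' = 5 P²`; but `p ∤ P`, so `p² ∣ 5`: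
impossible.  (`B'² - 4 A' C' = P² (B² - 4 A C)` by `ring`.)

PROOF of `exists_shift`: induction on the finset `S` (`Finset.induction_on`): for `insert p S` with the bound `J` for `S`, take `j ≤ J` for `S`, put
`P = ∏ q ∈ S, q` (not divisible by `p`: `p ∉ S` and all are primes) and `j' = j + i P`, `i ∈ {0,1,2}` from `step_prime`; `J' = J + 2 P`.  For `q ∈ S`
`nm (a + (j + iP) y) ≡ nm (a + j y) (mod q)` as `q ∣ P`.

PROOF of `near_coprime`.  `y` from `exists_tri`, `j ≤ J` from `exists_shift` for `S = M.primeFactors`, `u = a + j • y`.  `IsCoprime (nm u) M`: no prime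
divides both (`isCoprime_of_prime` in `Three/Prim`).  `pp u = pp a + j pp y ≥ pp a`, `qq u ≥ qq a`, so `nm u ≥ nm a` (`pp_mul_qq`).
`an a ≤ an u ≤ an y ≤ an a + 3 / nm a`: by `an = log (pp / qq)` and `pp a / qq a ≤ (pp a + j pp y) / (qq a + j qq y) ≤ pp y / qq y`
(from `an a ≤ an y`, i.e. `pp a * qq y ≤ pp y * qq a`).  Upper bound: `nm u = nm a + j (pp a qq y + pp y qq a) + j² nm y` and
`pp a qq y + pp y qq a = 2 kk a y + 3` (see the proof of `kk_nonneg` in `Basic`), `kk a y ≤ 12 nm a` (`kk_le`), `nm y ≤ 12 nm a`: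
`nm u ≤ (1 + J (24 + 3) + 12 J²) nm a` (`nm a ≥ 1`).
-/

namespace Pool.Agent.Lib.MP_d57abb_nt.All

open Pool.Agent.Lib.MP_d57abb_nt Pool.Agent.Lib.MP_d57abb_nt.Three

private theorem NearA_odd {u y : ℤ × ℤ} (h : dt u y = 1) : ¬ (2 : ℤ) ∣ nm u := by
  intro h2
  unfold dt at h
  unfold nm at h2
  have e1 : ((u.1 * y.2 - y.1 * u.2 : ℤ) : ZMod 2) = 1 := by rw [h, Int.cast_one]
  have e2 : ((u.1 ^ 2 + 3 * u.1 * u.2 + u.2 ^ 2 : ℤ) : ZMod 2) = 0 :=
    (ZMod.intCast_zmod_eq_zero_iff_dvd _ 2).2 h2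
  push_cast at e1 e2
  generalize (u.1 : ZMod 2) = x1 at e1 e2
  generalize (u.2 : ZMod 2) = x2 at e1 e2
  generalize (y.1 : ZMod 2) = x3 at e1 e2
  generalize (y.2 : ZMod 2) = x4 at e1 e2
  revert e1 e2
  revert x1 x2 x3 x4
  decide

private theorem NearA_val (a y : ℤ × ℤ) (j P : ℤ) (i : ℤ) :
    nm (a + (j + i * P) • y) = nm (a + j • y)
      + i * (P * (2 * (a.1 + j * y.1) * y.1 + 3 * ((a.1 + j * y.1) * y.2 + (a.2 + j * y.2) * y.1)
        + 2 * (a.2 + j * y.2) * y.2))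
      + i ^ 2 * (P ^ 2 * nm y) := by
  simp only [nm, Prod.fst_add, Prod.snd_add, Prod.smul_fst, Prod.smul_snd, smul_eq_mul]
  ring

private theorem NearA_disc (a y : ℤ × ℤ) (j P : ℤ) (hd : dt a y = 1) :
    (P * (2 * (a.1 + j * y.1) * y.1 + 3 * ((a.1 + j * y.1) * y.2 + (a.2 + j * y.2) * y.1)
        + 2 * (a.2 + j * y.2) * y.2)) ^ 2 - 4 * nm (a + j • y) * (P ^ 2 * nm y) = 5 * P ^ 2 := by
  have h : (dt a y) ^ 2 = 1 := by rw [hd, one_pow]
  simp only [nm, dt, Prod.fst_add, Prod.snd_add, Prod.smul_fst, Prod.smul_snd, smul_eq_mul] at h ⊢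
  linear_combination 5 * P ^ 2 * h

theorem step_prime {a y : ℤ × ℤ} (hd : dt a y = 1) {p : ℕ} (hp : p.Prime) {P : ℕ} (hP : ¬ p ∣ P) (j : ℕ) :
    ∃ i : ℕ, i ≤ 2 ∧ ¬ (p : ℤ) ∣ nm (a + ((j + i * P : ℕ) : ℤ) • y) := by
  rcases hp.eq_two_or_odd with h2 | hodd
  · subst h2
    refine ⟨0, by omega, ?_⟩
    have h1 : dt (a + ((j + 0 * P : ℕ) : ℤ) • y) y = 1 := by
      rw [← hd]
      simp only [dt, Prod.fst_add, Prod.snd_add, Prod.smul_fst, Prod.smul_snd, smul_eq_mul]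
      ring
    exact_mod_cast NearA_odd h1
  · by_contra hcon
    push Not at hcon
    have c0 := hcon 0 (by omega)
    have c1 := hcon 1 (by omega)
    have c2 := hcon 2 (by omega)
    push_cast at c0 c1 c2
    rw [NearA_val] at c0 c1 c2
    have hdisc := NearA_disc a y j P hd
    set B' : ℤ := (P : ℤ) * (2 * (a.1 + j * y.1) * y.1 + 3 * ((a.1 + j * y.1) * y.2
      + (a.2 + j * y.2) * y.1) + 2 * (a.2 + j * y.2) * y.2) with hB
    set C' : ℤ := (P : ℤ) ^ 2 * nm y with hC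
    set A' : ℤ := nm (a + (j : ℤ) • y) with hA
    have hpi : Prime (p : ℤ) := Nat.prime_iff_prime_int.1 hp
    have d0 : (p : ℤ) ∣ A' := by
      have : A' + 0 * B' + 0 ^ 2 * C' = A' := by ring
      rwa [this] at c0
    have d1 : (p : ℤ) ∣ 2 * C' := by
      have : 2 * C' = (A' + 2 * B' + 2 ^ 2 * C') - 2 * (A' + 1 * B' + 1 ^ 2 * C') + A' := by ring
      rw [this]
      exact dvd_add (dvd_sub c2 (Dvd.dvd.mul_left c1 2)) d0
    have d2 : (p : ℤ) ∣ C' := by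
      rcases hpi.dvd_or_dvd d1 with h | h
      · exfalso
        have h3 : p ∣ 2 := by exact_mod_cast h
        have h4 := (Nat.prime_dvd_prime_iff_eq hp Nat.prime_two).1 h3
        omega
      · exact h
    have d3 : (p : ℤ) ∣ B' := by
      have : B' = (A' + 1 * B' + 1 ^ 2 * C') - A' - C' := by ring
      rw [this]
      exact dvd_sub (dvd_sub c1 d0) d2
    have d4 : (p : ℤ) ^ 2 ∣ 5 * (P : ℤ) ^ 2 := by
      rw [← hdisc]
      refine dvd_sub (pow_dvd_pow_of_dvd d3 2) ?_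
      obtain ⟨x, hx⟩ := d0
      obtain ⟨z, hz⟩ := d2
      exact ⟨4 * x * z, by rw [hx, hz]; ring⟩
    have d5 : p ^ 2 ∣ 5 * P ^ 2 := by exact_mod_cast d4
    have d6 : Nat.Coprime (p ^ 2) (P ^ 2) :=
      Nat.Coprime.pow 2 2 ((Nat.Prime.coprime_iff_not_dvd hp).2 hP)
    have d7 : p ^ 2 ∣ 5 := d6.dvd_of_dvd_mul_right d5
    have d8 := Nat.le_of_dvd (by norm_num) d7
    have d9 := hp.two_le
    have d10 : p ≤ 2 := by nlinarith
    have d11 : p = 2 := by omega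
    omega

theorem exists_shift (S : Finset ℕ) (hS : ∀ p ∈ S, p.Prime) : ∃ J : ℕ, ∀ a y : ℤ × ℤ, dt a y = 1 →
    ∃ j : ℕ, j ≤ J ∧ ∀ p ∈ S, ¬ (p : ℤ) ∣ nm (a + (j : ℤ) • y) := by
  induction S using Finset.induction_on with
  | empty => exact ⟨0, fun a y _ => ⟨0, le_rfl, fun p hp => absurd hp (Finset.notMem_empty p)⟩⟩
  | insert p S hp ih =>
    obtain ⟨J, hJ⟩ := ih (fun q hq => hS q (Finset.mem_insert_of_mem hq))
    have hpp := hS p (Finset.mem_insert_self p S)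
    set P := ∏ q ∈ S, q with hPdef
    have hP : ¬ p ∣ P := by
      intro h
      rw [hPdef, hpp.prime.dvd_finsetProd_iff] at h
      obtain ⟨q, hq, hpq⟩ := h
      have h1 := (Nat.prime_dvd_prime_iff_eq hpp (hS q (Finset.mem_insert_of_mem hq))).1 hpq
      exact hp (h1 ▸ hq)
    refine ⟨J + 2 * P, fun a y hd => ?_⟩
    obtain ⟨j, hj, hjS⟩ := hJ a y hd
    obtain ⟨i, hi, hip⟩ := step_prime hd hpp hP j
    refine ⟨j + i * P, Nat.add_le_add hj (Nat.mul_le_mul_right P hi), ?_⟩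
    intro q hq
    rcases Finset.mem_insert.1 hq with rfl | hq
    · exact hip
    · intro h
      apply hjS q hq
      have h1 : (q : ℤ) ∣ (P : ℤ) := Int.natCast_dvd_natCast.2 (Finset.dvd_prod_of_mem _ hq)
      push_cast at h
      rw [NearA_val] at h
      obtain ⟨z, hz⟩ := h1
      obtain ⟨w, hw⟩ := h
      rw [hz] at hw
      refine ⟨w - ((i : ℤ) * (z * (2 * (a.1 + j * y.1) * y.1 + 3 * ((a.1 + j * y.1) * y.2
        + (a.2 + j * y.2) * y.1) + 2 * (a.2 + j * y.2) * y.2)) + (i : ℤ) ^ 2 * (q * z ^ 2 * nm y)), ?_⟩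
      linear_combination hw

end Pool.Agent.Lib.MP_d57abb_nt.All
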