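import Mathlib
import Pool.Agent.Lib.MP_d57abb_nt.All.Defs
import Pool.Agent.Lib.MP_d57abb_nt.Three.Tri
import Pool.Agent.Lib.MP_d57abb_nt.All.NearA

/-!
# JOB Near: primitive vectors near `a` with norm prime to `M`

`exists_tri`, `Near`, `coprime_right` are in `Three/Tri`, `Three/Fan`.

PROOF of `step_prime`.  `dt a y = 1`, so `a` and `y` are primitive, and so is `a + t y` for every `t` (`dt (a + t y) y = 1`).
`nm (a + t y) = A + B t + C t²` with `A = nm a`, `C = nm y`, `B = 2 a.1 y.1 + 3 (a.1 y.2 + a.2 y.1) + 2 a.2 y.2` and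
`B² - 4 A C = 5 (dt a y)² = 5`.  Replace `t` by `j + i P`, `i = 0, 1, 2`: suppose `p` divides the three values at `i = 0, 1, 2`.
If `p = 2`: the norm `x² + 3xy + y²` of a primitive vector is odd (it is even only if `x, y` are both even): contradiction.  If `p ≥ 3`: with
`A' = nm (a + j y)`, `B' = (B + 2 C j) P`, `C' = C P²` the values are `A'`, `A' + B' + C'`, `A' + 2 B' + 4 C'`; so `p ∣ A'`,
`p ∣ B' + C'`, `p ∣ 2 B' + 4 C'`, hence `p ∣ 2 C'`, `p ∣ C'`, `p ∣ B'`, and `p² ∣ B'² - 4 A' C' = 5 P²`; but `p ∤ P`, so `p² ∣ 5`: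
impossible.  (`B'² - 4 A' C' = P² (B² - 4 A C)` by `ring`.)

PROOF of `exists_shift`: induction on the finset `S` (`Finset.induction_on`): for `insert p S` with the bound `J` for `S`, take `j ≤ J` for `S`, put
`P = ∏ q ∈ S, q` (not divisible by `p`: `p ∉ S` and all are primes) and `j' = j + i P`, `i ∈ {0,1,2}` from `step_prime`; `J' = J + 2 P`.  For `q ∈ S`
`nm (a + (j + iP) y) ≡ nm (a + j y) (mod q)` as `q ∣ P`.

PROOF of `near_coprime`.  `y` from `exists_tri`, `j ≤ J` from `exists_shift` for `S = M.primeFactors`, `u = a + j • y`.  `IsCoprime (nm u) M`: no prime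
divides both (`isCoprime_of_prime` in `Three/Prim`).  `pp u = pp a + j pp y ≥ pp a`, `qq u ≥ qq a`, so `nm u ≥ nm a` (`pp_mul_qq`).
`an a ≤ an u ≤ an y ≤ an a + 3 / nm a`: by `an = log (pp / qq)` and `pp a / qq a ≤ (pp a + j pp y) / (qq a + j qq y) ≤ pp y / qq y`
(from `an a ≤ an y`, i.e. `pp a * qq y ≤ pp y * qq a`).  Upper bound: `nm u = nm a + j (pp a qq y + pp y qq a) + j² nm y` and
`pp a qq y + pp y qq a = 2 kk a y + 3` (see the proof of `kk_nonneg` in `Basic`), `kk a y ≤ 12 nm a` (`kk_le`), `nm y ≤ 12 nm a`: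
`nm u ≤ (1 + J (24 + 3) + 12 J²) nm a` (`nm a ≥ 1`).
-/

namespace Pool.Agent.Lib.MP_d57abb_nt.All

open Pool.Agent.Lib.MP_d57abb_nt Pool.Agent.Lib.MP_d57abb_nt.Three

private theorem near_an_le {v w : ℤ × ℤ} (hv : TP v) (hw : TP w)
    (h : pp v * qq w ≤ pp w * qq v) : an v ≤ an w := by
  have h1 : Real.log (pp v * qq w) ≤ Real.log (pp w * qq v) :=
    Real.log_le_log (mul_pos hv.1 hw.2) h
  rw [Real.log_mul hv.1.ne' hw.2.ne', Real.log_mul hw.1.ne' hv.2.ne'] at h1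
  unfold an
  linarith

private theorem near_nm_add (a y : ℤ × ℤ) (t : ℤ) :
    nm (a + t • y) = nm a + t * (2 * kk a y + 3 * dt a y) + t ^ 2 * nm y := by
  unfold nm kk dt
  simp only [Prod.fst_add, Prod.snd_add, Prod.smul_fst, Prod.smul_snd, smul_eq_mul]
  ring

theorem near_coprime (M : ℕ) (hM : 0 < M) : ∃ C : ℕ, ∀ a : ℤ × ℤ, TP a → IsCoprime a.1 a.2 → 3 ≤ nm a →
    ∃ u : ℤ × ℤ, TP u ∧ IsCoprime u.1 u.2 ∧ IsCoprime (nm u) (M : ℤ) ∧ nm a ≤ nm u ∧
      nm u ≤ C * nm a ∧ |an u - an a| ≤ 3 / nm a := by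
  obtain ⟨J, hJ⟩ := exists_shift M.primeFactors (fun p hp => Nat.prime_of_mem_primeFactors hp)
  refine ⟨1 + J * 27 + 12 * J ^ 2, ?_⟩
  intro a ha hc h3
  obtain ⟨y, hd, ny, _⟩ := exists_tri ha hc h3
  obtain ⟨ty, cy, a1, a2, n1, n2⟩ := ny
  obtain ⟨j, hj, hjp⟩ := hJ a y hd
  have hj0 : (0 : ℝ) ≤ (j : ℝ) := Nat.cast_nonneg j
  have hpu : pp (a + (j : ℤ) • y) = pp a + j * pp y := by
    rw [pp_add, pp_smul]; push_cast; ring
  have hqu : qq (a + (j : ℤ) • y) = qq a + j * qq y := by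
    rw [qq_add, qq_smul]; push_cast; ring
  obtain ⟨pa, qa⟩ := ha
  obtain ⟨py, qy⟩ := ty
  have ha : TP a := ⟨pa, qa⟩
  have hy : TP y := ⟨py, qy⟩
  have hjpp : 0 ≤ (j : ℝ) * pp y := mul_nonneg hj0 py.le
  have hjqq : 0 ≤ (j : ℝ) * qq y := mul_nonneg hj0 qy.le
  have hu : TP (a + (j : ℤ) • y) := ⟨by rw [hpu]; linarith, by rw [hqu]; linarith⟩
  have hcr : pp a * qq y ≤ pp y * qq a := by
    have h5 := dt_eq a y
    rw [hd] at h5
    have h6 : (0 : ℝ) ≤ √5 := Real.sqrt_nonneg 5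
    push_cast at h5
    linarith
  have hdu : dt (a + (j : ℤ) • y) y = 1 := by
    rw [dt_add_left, dt_smul_left, dt_self, hd]; ring
  have hkk0 : 0 ≤ kk a y := kk_nonneg ha hy hd
  have hna : 0 < nm a := ha.nm_pos
  have hnu : nm (a + (j : ℤ) • y) = nm a + j * (2 * kk a y + 3) + j ^ 2 * nm y := by
    rw [near_nm_add, hd]; ring
  refine ⟨a + (j : ℤ) • y, hu, coprime_left hdu, ?_, ?_, ?_, ?_⟩
  · apply isCoprime_of_prime
    intro l hl h1 h2
    have h4 : l ∣ M := by exact_mod_cast h2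
    exact hjp l (Nat.mem_primeFactors.mpr ⟨hl, h4, hM.ne'⟩) h1
  · rw [hnu]
    have h5 : (0 : ℤ) ≤ j * (2 * kk a y + 3) := by positivity
    have h6 : (0 : ℤ) ≤ (j : ℤ) ^ 2 * nm y := mul_nonneg (by positivity) hy.nm_pos.le
    linarith
  · have hk : kk a y ≤ 12 * nm a := by
      have h5 : (kk a y : ℝ) ≤ 12 * (nm a : ℝ) := by
        refine kk_le ha hy hd ?_ ?_ ?_
        · have : (0 : ℝ) < nm a := by exact_mod_cast hna
          linarith
        · have : (0 : ℝ) < nm a := by exact_mod_cast hna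
          linarith
        · exact_mod_cast n2
      exact_mod_cast h5
    have hjJ : (j : ℤ) ≤ J := by exact_mod_cast hj
    have hj0' : (0 : ℤ) ≤ j := Int.natCast_nonneg j
    rw [hnu]
    have h5 : (j : ℤ) * (2 * kk a y + 3) ≤ J * (27 * nm a) := by
      apply mul_le_mul hjJ ?_ (by positivity) (by positivity)
      omega
    have h6 : (j : ℤ) ^ 2 * nm y ≤ (J : ℤ) ^ 2 * (12 * nm a) :=
      mul_le_mul (pow_le_pow_left₀ hj0' hjJ 2) n2 hy.nm_pos.le (by positivity)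
    push_cast
    calc nm a + (j : ℤ) * (2 * kk a y + 3) + (j : ℤ) ^ 2 * nm y
        ≤ nm a + J * (27 * nm a) + (J : ℤ) ^ 2 * (12 * nm a) := by linarith
      _ = (1 + (J : ℤ) * 27 + 12 * (J : ℤ) ^ 2) * nm a := by ring
  · have h5 : an a ≤ an (a + (j : ℤ) • y) := by
      apply near_an_le ha hu
      rw [hpu, hqu]
      nlinarith [mul_le_mul_of_nonneg_left hcr hj0]
    have h6 : an (a + (j : ℤ) • y) ≤ an y := by
      apply near_an_le hu hy
      rw [hpu, hqu]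
      nlinarith [hcr]
    rw [abs_le]
    constructor
    · have h7 : (0 : ℝ) < nm a := by exact_mod_cast hna
      have h8 : 0 ≤ 3 / (nm a : ℝ) := by positivity
      linarith
    · linarith

end Pool.Agent.Lib.MP_d57abb_nt.All
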