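import Mathlib
import Pool.Agent.Lib.MP_d57abb_nt.All.Sys
import Pool.Agent.Lib.MP_d57abb_nt.All.Near

/-!
# JOB LocB: the local property from the Ramsey property

PROOF.  `X` from `PropB`; `M, δ₀, dl, co` from `exists_sys X`; `C` from `near_coprime M`.  Put `r = X + 1`, `Θ d = an (co d)`, `D = 3`, `B` large (below).
Let `a` be totally positive, primitive, `3 ≤ nm a`; `u` from `near_coprime`; `z₀ = ml δ₀ u`, totally positive and primitive, `nm z₀ = nm δ₀ * nm u ≥ 3`.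
`exists_tri` (`Three/Tri`) for `z₀` gives `v` with `dt z₀ v = 1`, `Near z₀ v` (so `TP v`, `nm v ≤ 12 nm z₀`).
Colouring: `b t = lam h (z₀ + (t : ℤ) • v)`.  `PropB` gives `t, d` with `Spl d`, `d ∣ t`, `t + d ≤ X`, `b t + b (t + d) = c + 2 h d`.
Write `t = d s`.  With `δ = dl d`, `δ' = (δ.1 + 3 δ.2, - δ.2)` (the conjugate: `ml δ δ' = (nm δ, 0) = (d, 0)`) put
`A = ml (co d) u`, `B' = ml δ' v`.  Then `ml δ A = z₀` and `ml δ B' = d • v`, so for every integer `k`: `ml δ (A + k • B') = z₀ + (k d) • v` (`ml` is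
additive in the second argument: `unfold ml; ext <;> simp <;> ring`).  Put `v' = A + s • B'`, `w' = A + (s + 1) • B'`, `z = A`.
* `ml δ v' = z₀ + t • v`, `ml δ w' = z₀ + (t + d) • v`; both right sides are totally positive (`z₀` and `v` are), `δ` is, so `v'`, `w'` are (`pp_ml`,
  `qq_ml`: `pp v' = pp (..) / pp δ`).  `z = ml (co d) u` is totally positive.
* `dt (ml δ x) (ml δ y) = nm δ * dt x y` (ring), so `d * dt A B' = dt z₀ (d • v) = d`, `dt A B' = 1`, `dt v' w' = dt A B' = 1`.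
* `lam h (ml δ v') = h d + lam h v'` (`nm_ml`, `Int.natAbs_mul`, additivity, positivity), so
  `lam h v' + lam h w' = b t + b (t + d) - 2 h d = c`.
* `z = A = (1 + s) • v' + (-s) • w'`, `|1 + s|, |-s| ≤ X + 1`.
* `an z = an (co d) + an u` (`an_ml`), so `|an z - (an a + Θ d)| = |an u - an a| ≤ 3 / nm a`.
* `nm v' = nm (z₀ + t • v) / d ≤ nm (z₀ + t • v)`, and with `Y = 12 nm z₀`: `nm (z₀ + t • v) = nm z₀ + t (pp z₀ qq v + pp v qq z₀) + t² nm v ≤ Y + t (2 Y + 3) + t² Y`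
  (`pp z₀ qq v + pp v qq z₀ = 2 kk z₀ v + 3`, see the proof of `kk_nonneg` in `Basic`, and `kk_le`) `≤ (1 + 5 X + X²) 12 nm δ₀ * C * nm a`, similarly for `w'` (`t + d ≤ X`).
-/

namespace Pool.Agent.Lib.MP_d57abb_nt.All

open Pool.Agent.Lib.MP_d57abb_nt Pool.Agent.Lib.MP_d57abb_nt.Three

private theorem LocB_ml_assoc (x y z : ℤ × ℤ) : ml x (ml y z) = ml (ml x y) z := by
  unfold ml
  ext
  · simp only
    ring
  · simp only
    ring

private theorem LocB_conj (x y : ℤ × ℤ) : ml x (ml (x.1 + 3 * x.2, -x.2) y) = nm x • y := by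
  unfold ml nm
  ext
  · simp only [Prod.smul_fst, smul_eq_mul]
    ring
  · simp only [Prod.smul_snd, smul_eq_mul]
    ring

private theorem LocB_lin (x A B : ℤ × ℤ) (k : ℤ) : ml x (A + k • B) = ml x A + k • ml x B := by
  unfold ml
  ext
  · simp only [Prod.fst_add, Prod.snd_add, Prod.smul_fst, Prod.smul_snd, smul_eq_mul]
    ring
  · simp only [Prod.fst_add, Prod.snd_add, Prod.smul_fst, Prod.smul_snd, smul_eq_mul]
    ring

private theorem LocB_dt (x y z : ℤ × ℤ) : dt (ml x y) (ml x z) = nm x * dt y z := by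
  unfold ml dt nm
  simp only
  ring

private theorem LocB_dt2 (A B : ℤ × ℤ) (k : ℤ) : dt (A + k • B) (A + (k + 1) • B) = dt A B := by
  unfold dt
  simp only [Prod.fst_add, Prod.snd_add, Prod.smul_fst, Prod.smul_snd, smul_eq_mul]
  ring

private theorem LocB_nm (x y : ℤ × ℤ) (t : ℤ) :
    nm (x + t • y) = nm x + t * (2 * kk x y + 3 * dt x y) + t ^ 2 * nm y := by
  unfold nm kk dt
  simp only [Prod.fst_add, Prod.snd_add, Prod.smul_fst, Prod.smul_snd, smul_eq_mul]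
  ring

private theorem LocB_TP_add {x y : ℤ × ℤ} (hx : TP x) (hy : TP y) (k : ℕ) : TP (x + (k : ℤ) • y) := by
  have h : (0 : ℝ) ≤ ((k : ℤ) : ℝ) := by positivity
  refine ⟨?_, ?_⟩
  · rw [pp_add, pp_smul]
    exact add_pos_of_pos_of_nonneg hx.1 (mul_nonneg h hy.1.le)
  · rw [qq_add, qq_smul]
    exact add_pos_of_pos_of_nonneg hx.2 (mul_nonneg h hy.2.le)

private theorem LocB_TP_of {x y : ℤ × ℤ} (hx : TP x) (hy : TP (ml x y)) : TP y := by
  obtain ⟨h1, h2⟩ := hy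
  rw [pp_ml] at h1
  rw [qq_ml] at h2
  exact ⟨(mul_pos_iff_of_pos_left hx.1).1 h1, (mul_pos_iff_of_pos_left hx.2).1 h2⟩

private theorem LocB_lam {m : ℕ} {h : ℕ → ZMod m} (hh : Add h) {x y : ℤ × ℤ} {d : ℕ} (hd : 0 < d)
    (hx : nm x = d) (hy : TP y) : lam h (ml x y) = h d + lam h y := by
  have hy0 := hy.nm_pos
  unfold lam
  rw [nm_ml, hx, Int.natAbs_mul, Int.natAbs_natCast]
  exact hh _ _ hd (Int.natAbs_pos.2 hy0.ne')

/-- the size of `nm (z₀ + t v)` -/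
private theorem LocB_size {z v : ℤ × ℤ} (hz : TP z) (hd : dt z v = 1) (hN : Near z v) {t X : ℕ}
    (ht : t ≤ X) : nm (z + (t : ℤ) • v) ≤ (1 + 5 * X + X ^ 2) * (12 * nm z) := by
  have hz0 := hz.nm_pos
  have hv := hN.1
  have hvle : nm v ≤ 12 * nm z := hN.2.2.2.2.2
  have hv0 := hv.nm_pos
  have hk := kk_le hz hv hd (X := 12 * (nm z : ℝ)) (by
    have : (0 : ℝ) < nm z := by exact_mod_cast hz0
    positivity) (by
    have : (0 : ℝ) < nm z := by exact_mod_cast hz0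
    linarith) (by exact_mod_cast hvle)
  have hk' : kk z v ≤ 12 * nm z := by exact_mod_cast hk
  rw [LocB_nm, hd]
  have ht0 : (0 : ℤ) ≤ t := Int.natCast_nonneg t
  have htX : (t : ℤ) ≤ X := by exact_mod_cast ht
  have h1 : (t : ℤ) * (2 * kk z v + 3 * 1) ≤ (X : ℤ) * (5 * (12 * nm z)) :=
    mul_le_mul htX (by linarith) (by
      have := kk_nonneg hz hv hd
      linarith) (by linarith)
  have h2 : (t : ℤ) ^ 2 * nm v ≤ (X : ℤ) ^ 2 * (12 * nm z) :=
    mul_le_mul (pow_le_pow_left₀ ht0 htX 2) hvle hv0.le (by positivity)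
  nlinarith

theorem loc_of_propB {m : ℕ} {h : ℕ → ZMod m} (hh : Add h) (c : ZMod m) (hB : PropB h c) :
    Loc h c := by
  obtain ⟨X, hX⟩ := hB
  obtain ⟨M, δ₀, dl, co, hM, hδ₀, hsys, hprim⟩ := exists_sys X
  obtain ⟨C, hC⟩ := near_coprime M hM
  obtain ⟨Nδ, hNδ⟩ : ∃ Nδ : ℕ, (Nδ : ℤ) = nm δ₀ := ⟨(nm δ₀).natAbs, Int.natAbs_of_nonneg hδ₀.nm_pos.le⟩
  refine ⟨X + 1, X + 4 + (1 + 5 * X + X ^ 2) * (12 * Nδ * C), 3, fun i => an (co i), ?_⟩
  intro a ha hac ha3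
  have ha0 := ha.nm_pos
  obtain ⟨u, hu, huc, huM, hua, huC, hanu⟩ := hC a ha hac ha3
  have hu0 := hu.nm_pos
  have hδ0 := hδ₀.nm_pos
  obtain ⟨z, hz⟩ : ∃ z, z = ml δ₀ u := ⟨_, rfl⟩
  have hzT : TP z := by rw [hz]; exact hδ₀.ml hu
  have hzc : IsCoprime z.1 z.2 := by rw [hz]; exact hprim u huc huM
  have hznm : nm z = nm δ₀ * nm u := by rw [hz, nm_ml]
  have ha3' : (3 : ℤ) ≤ nm a := by exact_mod_cast ha3
  have hz3 : 3 ≤ nm z := by
    rw [hznm]
    have h1 : nm u ≤ nm δ₀ * nm u := le_mul_of_one_le_left hu0.le hδ0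
    linarith
  obtain ⟨v, hdv, hNv, -⟩ := exists_tri hzT hzc hz3
  have hvT := hNv.1
  obtain ⟨t, d, hSpl, ⟨s, hs⟩, htd, hb⟩ := hX (fun t => lam h (z + (t : ℤ) • v))
  have hd0 : 0 < d := hSpl.1
  have hdX : d ≤ X := by omega
  have hsX : s ≤ X := by
    have : s ≤ d * s := Nat.le_mul_of_pos_left s hd0
    omega
  obtain ⟨hdl, hdln, hco, hdc⟩ := hsys d hSpl hdX
  obtain ⟨A, hA⟩ : ∃ A, A = ml (co d) u := ⟨_, rfl⟩
  obtain ⟨B', hB'⟩ : ∃ B', B' = ml ((dl d).1 + 3 * (dl d).2, -(dl d).2) v := ⟨_, rfl⟩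
  have hmA : ml (dl d) A = z := by rw [hA, LocB_ml_assoc, hdc, hz]
  have hmB : ml (dl d) B' = (d : ℤ) • v := by rw [hB', LocB_conj, hdln]
  have hmk : ∀ k : ℕ, ml (dl d) (A + (k : ℤ) • B') = z + ((d * k : ℕ) : ℤ) • v := by
    intro k
    rw [LocB_lin, hmA, hmB, smul_smul]
    congr 2
    push_cast
    ring
  have hkT : ∀ k : ℕ, TP (A + (k : ℤ) • B') := by
    intro k
    refine LocB_TP_of hdl ?_
    rw [hmk]
    exact LocB_TP_add hzT hvT _
  have hAB : dt A B' = 1 := by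
    have h1 := LocB_dt (dl d) A B'
    rw [hmA, hmB, dt_smul_right, hdv, hdln, mul_one] at h1
    have h2 : (d : ℤ) ≠ 0 := by exact_mod_cast hd0.ne'
    have h3 : (d : ℤ) * dt A B' = d * 1 := by rw [mul_one]; exact h1.symm
    exact mul_left_cancel₀ h2 h3
  have hlamk : ∀ k : ℕ, lam h (z + ((d * k : ℕ) : ℤ) • v) = h d + lam h (A + (k : ℤ) • B') := by
    intro k
    rw [← hmk, LocB_lam hh hd0 hdln (hkT k)]
  have hnmk : ∀ k : ℕ, d * k ≤ X → nm (A + (k : ℤ) • B') ≤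
      ((X + 4 + (1 + 5 * X + X ^ 2) * (12 * Nδ * C) : ℕ) : ℤ) * nm a := by
    intro k hk
    have h1 := LocB_size hzT hdv hNv hk
    have h2 : nm (z + ((d * k : ℕ) : ℤ) • v) = d * nm (A + (k : ℤ) • B') := by
      rw [← hmk, nm_ml, hdln]
    have h3 := (hkT k).nm_pos
    have h4 : (1 : ℤ) ≤ d := by exact_mod_cast hd0
    have h5 : nm (A + (k : ℤ) • B') ≤ d * nm (A + (k : ℤ) • B') := le_mul_of_one_le_left h3.le h4
    have h6 : 12 * nm z ≤ 12 * Nδ * C * nm a := by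
      rw [hznm, ← hNδ]
      have h7 : (Nδ : ℤ) * nm u ≤ Nδ * (C * nm a) :=
        mul_le_mul_of_nonneg_left huC (Int.natCast_nonneg _)
      linarith
    have h8 : (0 : ℤ) ≤ 1 + 5 * X + X ^ 2 := by positivity
    have h9 := mul_le_mul_of_nonneg_left h6 h8
    push_cast
    have h10 : (0 : ℤ) ≤ ((X : ℤ) + 4) * nm a := by positivity
    rw [h2] at h1
    calc nm (A + (k : ℤ) • B') ≤ d * nm (A + (k : ℤ) • B') := h5
      _ ≤ (1 + 5 * X + X ^ 2) * (12 * nm z) := h1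
      _ ≤ (1 + 5 * X + X ^ 2) * (12 * Nδ * C * nm a) := h9
      _ ≤ _ := by linarith
  have hBpos : (X : ℤ) + 1 ≤ ((X + 4 + (1 + 5 * X + X ^ 2) * (12 * Nδ * C) : ℕ) : ℤ) := by
    have : X + 1 ≤ X + 4 + (1 + 5 * X + X ^ 2) * (12 * Nδ * C) := by omega
    exact_mod_cast this
  have hB3 : (3 : ℝ) ≤ ((X + 4 + (1 + 5 * X + X ^ 2) * (12 * Nδ * C) : ℕ) : ℝ) := by
    have : 3 ≤ X + 4 + (1 + 5 * X + X ^ 2) * (12 * Nδ * C) := by omega
    exact_mod_cast this
  have hnaR : (0 : ℝ) < nm a := by exact_mod_cast ha0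
  have hAT : TP A := by
    have h1 := hkT 0
    simpa using h1
  refine ⟨d, by omega, A + (s : ℤ) • B', A + ((s + 1 : ℕ) : ℤ) • B', A, 1 + s, -s, hkT s, hkT (s + 1),
    hAT, ?_, ?_, ?_, ?_, ?_, ?_, ?_, ?_⟩
  · push_cast
    rw [LocB_dt2, hAB]
  · have e1 : lam h (z + (t : ℤ) • v) = h d + lam h (A + (s : ℤ) • B') := by
      rw [hs]
      exact hlamk s
    have e2 : lam h (z + ((t + d : ℕ) : ℤ) • v) = h d + lam h (A + ((s + 1 : ℕ) : ℤ) • B') := by
      rw [hs, show d * s + d = d * (s + 1) by ring]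
      exact hlamk (s + 1)
    have hb' : lam h (z + (t : ℤ) • v) + lam h (z + ((t + d : ℕ) : ℤ) • v) = c + 2 * h d := hb
    rw [e1, e2] at hb'
    linear_combination hb'
  · push_cast
    ext
    · simp only [Prod.fst_add, Prod.smul_fst, smul_eq_mul]
      ring
    · simp only [Prod.snd_add, Prod.smul_snd, smul_eq_mul]
      ring
  · rw [abs_of_nonneg (by positivity)]
    have : (s : ℤ) ≤ X := by exact_mod_cast hsX
    linarith
  · rw [abs_neg, abs_of_nonneg (by positivity)]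
    have : (s : ℤ) ≤ X := by exact_mod_cast hsX
    linarith
  · show |an A - (an a + an (co d))| ≤ _
    rw [hA, an_ml hco hu]
    have e1 : an (co d) + an u - (an a + an (co d)) = an u - an a := by ring
    rw [e1]
    exact hanu.trans (div_le_div_of_nonneg_right hB3 hnaR.le)
  · exact hnmk s (by omega)
  · refine hnmk (s + 1) ?_
    have e1 : d * (s + 1) = d * s + d := by ring
    omega

end Pool.Agent.Lib.MP_d57abb_nt.All
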