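import Mathlib
import Pool.Agent.Lib.MP_d57abb_nt.All.FDefs

/-!
# JOB Abel: Abel summation against `e (k β)`

PROOF: Abel summation: `∑_{k<u} E k e (k β) = S_u e ((u-1) β) + ∑_{k<u-1} S_{k+1} (e (k β) - e ((k+1) β))`, `S_v = ∑_{k<v} E k` (or by induction on `u` in the form
`∑_{k<u} E k e (k β) = S_u e (u β) + ∑_{k<u} S_{k+1} (e (k β) - e ((k+1) β))`); `‖e (k β) - e ((k+1) β)‖ = ‖e β - 1‖ = 2 |sin (π β)| ≤ 2 π |β|`
(`norm_e_sub_one` in `MP_2a816b_nt/Expo`, `Real.abs_sin_le`/`Real.sin_le`, `|sin x| ≤ |x|`).  (`δ ≥ 0` by `v = 0`.)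
-/

open Finset Filter

namespace Pool.Agent.Lib.MP_d57abb_nt.All

open Pool.Agent.Lib.MP_2a816b_nt (e norm_e e_add e_int e_nat nn D norm_D_le norm_D_mul_nn)

private lemma Abel_id (E : ℕ → ℂ) (β : ℝ) (u : ℕ) :
    ∑ k ∈ range u, E k * e (k * β) = (∑ k ∈ range u, E k) * e (u * β)
      + ∑ k ∈ range u, (∑ i ∈ range (k + 1), E i) * (e (k * β) - e ((k + 1 : ℕ) * β)) := by
  induction u with
  | zero => simp
  | succ u ih =>
    rw [sum_range_succ, ih, sum_range_succ (fun k => (∑ i ∈ range (k + 1), E i)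
      * (e (k * β) - e ((k + 1 : ℕ) * β))), sum_range_succ E u]
    ring

private lemma Abel_diff (k : ℕ) (β : ℝ) : ‖e (k * β) - e ((k + 1 : ℕ) * β)‖ ≤ 2 * Real.pi * |β| := by
  have h1 : e (((k + 1 : ℕ) : ℝ) * β) = e (k * β) * e β := by
    rw [← e_add]
    congr 1
    push_cast
    ring
  have h2 : e (k * β) - e ((k + 1 : ℕ) * β) = -(e (k * β) * (e β - 1)) := by
    rw [h1]
    ring
  rw [h2, norm_neg, norm_mul, norm_e, one_mul, Pool.Agent.Lib.MP_2a816b_nt.norm_e_sub_one]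
  have h3 : |Real.sin (Real.pi * β)| ≤ |Real.pi * β| := Real.abs_sin_le_abs
  rw [abs_mul, abs_of_pos Real.pi_pos] at h3
  linarith

theorem abel_e (E : ℕ → ℂ) (u : ℕ) (δ β : ℝ) (hE : ∀ v ≤ u, ‖∑ k ∈ range v, E k‖ ≤ δ) :
    ‖∑ k ∈ range u, E k * e (k * β)‖ ≤ δ * (1 + 2 * Real.pi * u * |β|) := by
  have hδ : 0 ≤ δ := (norm_nonneg _).trans (hE 0 (Nat.zero_le _))
  rw [Abel_id]
  have h1 : ‖(∑ k ∈ range u, E k) * e (u * β)‖ ≤ δ := by
    rw [norm_mul, norm_e, mul_one]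
    exact hE u le_rfl
  have h2 : ‖∑ k ∈ range u, (∑ i ∈ range (k + 1), E i) * (e (k * β) - e ((k + 1 : ℕ) * β))‖
      ≤ ∑ k ∈ range u, δ * (2 * Real.pi * |β|) := by
    refine norm_sum_le_of_le _ fun k hk => ?_
    rw [norm_mul]
    exact mul_le_mul (hE (k + 1) (mem_range.1 hk)) (Abel_diff k β) (norm_nonneg _) hδ
  rw [sum_const, card_range, nsmul_eq_mul] at h2
  calc _ ≤ _ := norm_add_le _ _
    _ ≤ δ + u * (δ * (2 * Real.pi * |β|)) := add_le_add h1 h2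
    _ = _ := by ring

end Pool.Agent.Lib.MP_d57abb_nt.All
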