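import Mathlib
import Pool.Agent.Lib.MP_d57abb_nt.All.FDefs

/-!
# JOB Cos: the residues `s` modulo `q` with `W₁ s + n₀` prime to `q`

`e (x) = exp (2 π i x)` (`MP_2a816b_nt/Expo`: `e_add`, `e_int`, `e_nat`, `norm_e`, `e_eq_one_iff`).

PROOF of `card_Tq`.  The homomorphism `f = ZMod.unitsMap (Dvd.intro q rfl : W₁ ∣ W₁ * q) : (ZMod (W₁ q))ˣ →* (ZMod W₁)ˣ` is surjective
(`ZMod.unitsMap_surjective`), so all its fibres have the same cardinality (`MonoidHom.card_fiber_eq_of_mem_range`, or cosets of the kernel) and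
`φ(W₁ q) = φ(W₁) * |f⁻¹(n₀)|` (`Finset.card_eq_sum_card_fiberwise`, `ZMod.card_units_eq_totient`).  And `f⁻¹(n₀)` is in bijection with `Tq W₁ n₀ q`: to `s` the unit
`W₁ s + n₀` (prime to `W₁` as `n₀` is, and to `q`), injective for `s < q` modulo `W₁ q`, surjective since a unit `x` of `ZMod (W₁ q)` with `x ≡ n₀ (mod W₁)` is `W₁ k + n₀` in `ZMod (W₁ q)` for
some natural number `k`, which may be reduced modulo `q`.

PROOF of `sum_shift`: if `T ⊆ range q`, `p ∣ q`, and `T` is invariant under `s ↦ (s + q / p) % q`, then `∑_{s ∈ T} e (a s / q) = 0` for `a` prime to `q`, `p` prime: the shift is a bijection of `T`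
(injective: `Finset.sum_nbij` / `Finset.sum_bij`; a self-injection of a finite set), and multiplies every term by `e (a / p) ≠ 1` (`p ∤ a`; `e (a (s + q/p) / q) = e (a s / q) e (a / p)`, and
`(s + q/p) % q` differs from `s + q/p` by a multiple of `q`).

PROOF of `cos_sum`.  Let `p` be a prime dividing `q` (`q > 1`).
(i) `p ∣ W₁`: `Tq` is invariant under the shift by `q / p`: for a prime `p'` dividing `q`: `W₁ (s + q/p) + n₀ ≡ W₁ s + n₀ (mod p')`, if `p' = p` because `p ∣ W₁`, if `p' ≠ p` because `p' ∣ q / p`.  (Use: coprime to `q`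
iff no prime factor `p'` of `q` divides it, `Nat.Coprime` / `Nat.coprime_primes`, `Nat.Coprime_of_...`, and adding a multiple of `q` does not change coprimality with `q`.)  So the sum is `0`.
(ii) `p ∤ W₁`; then `w < p`.  `p ∣ q / p`: `Tq` is invariant under the shift by `q / p` again (all primes dividing `q` divide `q / p`).  The sum is `0`.
(iii) `p ∤ W₁`, `p ∤ q / p`.  Let `T' = {s < q : W₁ s + n₀ prime to q / p}`; `Tq ⊆ T'`, `T'` is invariant under the shift by `q / p`, so `∑_{Tq} = - ∑_{T' \ Tq}`, and the norm is at most `|T' \ Tq|`.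
`T' \ Tq = {s ∈ T' : p ∣ W₁ s + n₀}`.  The map `(s, i) ↦ (s + i q / p) % q` from `(T' \ Tq) × {1, ..., p - 1}` to `Tq` is injective: `W₁ (s + i q/p) + n₀ ≡ i W₁ q/p ≢ 0 (mod p)`; from the value `s'` one
recovers `i` by `W₁ s' + n₀ ≡ i W₁ (q/p) (mod p)` and then `s`.  So `(p - 1) |T' \ Tq| ≤ |Tq|`, and `p - 1 ≥ w`.
-/

open Finset

namespace Pool.Agent.Lib.MP_d57abb_nt.All

open Pool.Agent.Lib.MP_2a816b_nt (e norm_e e_add e_int e_nat e_eq_one_iff)

private lemma Cos_inj {q : ℕ} (r : ℕ) {s s' : ℕ} (hs : s < q) (hs' : s' < q)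
    (h : (s + r) % q = (s' + r) % q) : s = s' := by
  have h1 : s + r ≡ s' + r [MOD q] := h
  have h2 : s ≡ s' [MOD q] := Nat.ModEq.add_right_cancel' r h1
  exact Nat.ModEq.eq_of_lt_of_lt h2 hs hs'

theorem sum_shift (q p : ℕ) (hq : 0 < q) (hp : p.Prime) (hpq : p ∣ q) (T : Finset ℕ) (hT : T ⊆ range q)
    (hinv : ∀ s ∈ T, (s + q / p) % q ∈ T) (a : ℤ) (ha : Int.gcd a q = 1) :
    ∑ s ∈ T, e (a * s / q) = 0 := by
  obtain ⟨r, hr⟩ := hpq
  have hp0 : 0 < p := hp.pos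
  have hr' : q / p = r := by rw [hr]; exact Nat.mul_div_cancel_left r hp0
  rw [hr'] at hinv
  have hinj : ∀ s ∈ T, ∀ s' ∈ T, (s + r) % q = (s' + r) % q → s = s' := fun s hs s' hs' h =>
    Cos_inj r (mem_range.1 (hT hs)) (mem_range.1 (hT hs')) h
  have himg : T.image (fun s => (s + r) % q) = T := by
    refine eq_of_subset_of_card_le ?_ ?_
    · intro x hx
      rw [mem_image] at hx
      obtain ⟨s, hs, rfl⟩ := hx
      exact hinv s hs
    · rw [card_image_of_injOn (fun s hs s' hs' h => hinj s hs s' hs' h)]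
  have hqR : (q : ℝ) ≠ 0 := by exact_mod_cast hq.ne'
  have hpR : (p : ℝ) ≠ 0 := by exact_mod_cast hp0.ne'
  have hterm : ∀ s : ℕ, e (a * ((s + r) % q : ℕ) / q) = e (a * s / q) * e (a / p) := by
    intro s
    obtain ⟨c, hc⟩ : ∃ c : ℕ, (s + r) % q + q * c = s + r := ⟨(s + r) / q, Nat.mod_add_div (s + r) q⟩
    have h1 : (((s + r) % q : ℕ) : ℝ) = (s : ℝ) + r - q * c := by
      have h3 : (((s + r) % q : ℕ) : ℝ) + q * c = (s : ℝ) + r := by
        exact_mod_cast hc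
      linarith
    have h4 : (r : ℝ) / q = 1 / p := by
      have h5 : (q : ℝ) = p * r := by exact_mod_cast hr
      have h6 : (r : ℝ) ≠ 0 := by
        intro h7
        apply hqR
        rw [h5, h7, mul_zero]
      rw [h5]
      field_simp
    have h7 : (a : ℝ) * ((s + r) % q : ℕ) / q
        = (a * s / q + a / p) + ((-(a * c) : ℤ) : ℝ) := by
      rw [h1]
      push_cast
      have h8 : (a : ℝ) * r / q = a / p := by
        rw [mul_div_assoc, h4, mul_one_div]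
      rw [← h8]
      field_simp
      ring
    rw [h7, e_add, e_int, mul_one, e_add]
  have h1 : ∑ s ∈ T, e (a * s / q) = e (a / p) * ∑ s ∈ T, e (a * s / q) := by
    calc ∑ s ∈ T, e (a * s / q) = ∑ s ∈ T.image (fun s => (s + r) % q), e (a * s / q) := by
          rw [himg]
      _ = ∑ s ∈ T, e (a * ((s + r) % q : ℕ) / q) :=
          sum_image (fun s hs s' hs' h => hinj s hs s' hs' h)
      _ = ∑ s ∈ T, e (a / p) * e (a * s / q) :=
          sum_congr rfl fun s _ => by rw [hterm, mul_comm]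
      _ = _ := by rw [mul_sum]
  have h2 : e (a / p) ≠ 1 := by
    rw [Ne, e_eq_one_iff]
    rintro ⟨m, hm⟩
    rw [div_eq_iff hpR] at hm
    have h3 : a = m * p := by exact_mod_cast hm
    have h4 : (p : ℤ) ∣ a := ⟨m, by rw [h3]; ring⟩
    have h5 : (p : ℤ) ∣ (q : ℤ) := ⟨r, by exact_mod_cast hr⟩
    have h6 : (p : ℤ) ∣ (Int.gcd a q : ℤ) := Int.dvd_coe_gcd h4 h5
    rw [ha] at h6
    have h7 : p ∣ 1 := by exact_mod_cast h6
    exact hp.one_lt.ne' (Nat.dvd_one.1 h7)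
  have h3 : (1 - e (a / p)) * ∑ s ∈ T, e (a * s / q) = 0 := by
    rw [sub_mul, one_mul, ← h1, sub_self]
  rcases mul_eq_zero.1 h3 with h | h
  · exact absurd (sub_eq_zero.1 h).symm h2
  · exact h

private lemma Cos_mod {W₁ n₀ q d r : ℕ} (hd : d ∣ q) (h : ∀ p' : ℕ, p'.Prime → p' ∣ d → p' ∣ W₁ * r)
    {s : ℕ} (hs : Nat.Coprime (W₁ * s + n₀) d) : Nat.Coprime (W₁ * ((s + r) % q) + n₀) d := by
  refine Nat.coprime_of_dvd fun k hk hk1 hk2 => ?_
  have h1 : (s + r) % q ≡ s + r [MOD k] := (Nat.mod_modEq (s + r) q).of_dvd (hk2.trans hd)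
  have h2 : W₁ * ((s + r) % q) + n₀ ≡ W₁ * (s + r) + n₀ [MOD k] := (h1.mul_left W₁).add_right n₀
  have h3 : k ∣ W₁ * (s + r) + n₀ := (Nat.ModEq.dvd_iff h2 (dvd_refl k)).1 hk1
  have h4 : W₁ * (s + r) + n₀ = (W₁ * s + n₀) + W₁ * r := by ring
  rw [h4] at h3
  have h5 : k ∣ W₁ * s + n₀ := (Nat.dvd_add_left (h k hk hk2)).1 h3
  exact Nat.not_coprime_of_dvd_of_dvd hk.one_lt h5 hk2 hs

private lemma Cos_card {W₁ n₀ p r : ℕ} (hp : p.Prime) (hpW : ¬ p ∣ W₁) (hpr : ¬ p ∣ r) (hr : 0 < r)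
    (T : Finset ℕ) (hT : ∀ s ∈ T, s < p * r ∧ Nat.Coprime (W₁ * s + n₀) r ∧ p ∣ W₁ * s + n₀) :
    T.card * (p - 1) ≤ (Tq W₁ n₀ (p * r)).card := by
  have hq : 0 < p * r := Nat.mul_pos hp.pos hr
  have h0 : T.card * (p - 1) = (T ×ˢ Ioo 0 p).card := by
    rw [card_product, Nat.card_Ioo, Nat.sub_zero]
  rw [h0]
  have hmod : ∀ s i : ℕ, W₁ * ((s + i * r) % (p * r)) + n₀ ≡ W₁ * s + n₀ + W₁ * (i * r) [MOD p] := by
    intro s i
    have h1 : (s + i * r) % (p * r) ≡ s + i * r [MOD p] :=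
      (Nat.mod_modEq (s + i * r) (p * r)).of_dvd (Dvd.intro r rfl)
    have h2 : W₁ * s + n₀ + W₁ * (i * r) = W₁ * (s + i * r) + n₀ := by ring
    rw [h2]
    exact (h1.mul_left W₁).add_right n₀
  refine card_le_card_of_injOn (fun x => (x.1 + x.2 * r) % (p * r)) ?_ ?_
  · rintro ⟨s, i⟩ hx
    rw [mem_coe, mem_product, mem_Ioo] at hx
    obtain ⟨hs, hi0, hip⟩ := hx
    obtain ⟨h1, h2, h3⟩ := hT s hs
    rw [mem_coe]
    unfold Tq
    rw [mem_filter, mem_range]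
    refine ⟨Nat.mod_lt _ hq, ?_⟩
    refine Nat.Coprime.mul_right ?_ ?_
    · rw [Nat.coprime_comm, hp.coprime_iff_not_dvd]
      intro h4
      have h5 : p ∣ W₁ * s + n₀ + W₁ * (i * r) := (Nat.ModEq.dvd_iff (hmod s i) (dvd_refl p)).1 h4
      have h6 : p ∣ W₁ * (i * r) := (Nat.dvd_add_right h3).1 h5
      rcases (hp.dvd_mul).1 h6 with h7 | h7
      · exact hpW h7
      · rcases (hp.dvd_mul).1 h7 with h8 | h8
        · exact absurd (Nat.le_of_dvd hi0 h8) (by simpa using hip)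
        · exact hpr h8
    · exact Cos_mod (q := p * r) (r := i * r) (Dvd.intro_left p rfl)
        (fun p' _ h5 => Dvd.dvd.mul_left (Dvd.dvd.mul_left h5 i) W₁) h2
  · rintro ⟨s, i⟩ hx ⟨s', i'⟩ hx' hxx
    rw [mem_coe, mem_product, mem_Ioo] at hx hx'
    simp only at hx hx' hxx
    obtain ⟨hs, hi0, hip⟩ := hx
    obtain ⟨hs', hi0', hip'⟩ := hx'
    obtain ⟨h1, h2, h3⟩ := hT s hs
    obtain ⟨h1', h2', h3'⟩ := hT s' hs'
    have h4 := hmod s i
    rw [hxx] at h4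
    have h5 := (h4.symm.trans (hmod s' i'))
    have h6 : W₁ * (i * r) ≡ W₁ * (i' * r) [MOD p] := by
      have a1 : W₁ * s + n₀ ≡ 0 [MOD p] := (Nat.modEq_zero_iff_dvd).2 h3
      have a2 : W₁ * s' + n₀ ≡ 0 [MOD p] := (Nat.modEq_zero_iff_dvd).2 h3'
      have a3 : W₁ * s + n₀ + W₁ * (i * r) ≡ 0 + W₁ * (i * r) [MOD p] := a1.add_right _
      have a4 : W₁ * s' + n₀ + W₁ * (i' * r) ≡ 0 + W₁ * (i' * r) [MOD p] := a2.add_right _
      rw [zero_add] at a3 a4
      exact (a3.symm.trans h5).trans a4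
    have hW : Nat.gcd p W₁ = 1 := (hp.coprime_iff_not_dvd).2 hpW
    have hr' : Nat.gcd p r = 1 := (hp.coprime_iff_not_dvd).2 hpr
    have h7 : i * r ≡ i' * r [MOD p] := Nat.ModEq.cancel_left_of_coprime hW h6
    have h8 : i ≡ i' [MOD p] := Nat.ModEq.cancel_right_of_coprime hr' h7
    have h9 : i = i' := Nat.ModEq.eq_of_lt_of_lt h8 hip hip'
    subst h9
    have h10 : s = s' := Cos_inj (i * r) h1 h1' hxx
    rw [h10]

theorem cos_sum (w W₁ n₀ q : ℕ) (hw0 : 0 < w) (hw : ∀ p : ℕ, p.Prime → p ≤ w → p ∣ W₁) (hW : 0 < W₁)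
    (hc : Nat.Coprime n₀ W₁) (hq : 1 < q) (a : ℤ) (ha : Int.gcd a q = 1) :
    ‖∑ s ∈ Tq W₁ n₀ q, e (a * s / q)‖ ≤ ((Tq W₁ n₀ q).card : ℝ) / w := by
  have hq0 : 0 < q := by omega
  obtain ⟨p, hp, hpq⟩ := Nat.exists_prime_and_dvd hq.ne'
  have hTr : Tq W₁ n₀ q ⊆ range q := filter_subset _ _
  have hrhs : (0 : ℝ) ≤ ((Tq W₁ n₀ q).card : ℝ) / w := by positivity
  obtain ⟨r, hr⟩ := hpq
  have hr' : q / p = r := by rw [hr]; exact Nat.mul_div_cancel_left r hp.pos
  by_cases hcase : p ∣ W₁ ∨ p ∣ r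
  · have hz : ∑ s ∈ Tq W₁ n₀ q, e (a * s / q) = 0 := by
      refine sum_shift q p hq0 hp ⟨r, hr⟩ _ hTr ?_ a ha
      intro s hs
      unfold Tq at hs ⊢
      rw [mem_filter, mem_range] at hs ⊢
      refine ⟨Nat.mod_lt _ hq0, ?_⟩
      rw [hr']
      refine Cos_mod (dvd_refl q) (fun p' hp' hd => ?_) hs.2
      by_cases hpp : p' = p
      · rw [hpp]
        rcases hcase with h | h
        · exact Dvd.dvd.mul_right h r
        · exact Dvd.dvd.mul_left h W₁
      · rw [hr] at hd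
        rcases (hp'.dvd_mul).1 hd with h | h
        · exact absurd ((Nat.prime_dvd_prime_iff_eq hp' hp).1 h) hpp
        · exact Dvd.dvd.mul_left h W₁
    rw [hz, norm_zero]
    exact hrhs
  · push Not at hcase
    obtain ⟨hpW, hpr⟩ := hcase
    have hr0 : 0 < r := by
      rcases Nat.eq_zero_or_pos r with h | h
      · rw [h, mul_zero] at hr
        omega
      · exact h
    set T' : Finset ℕ := (range q).filter (fun s => Nat.Coprime (W₁ * s + n₀) r) with hT'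
    have hsub : Tq W₁ n₀ q ⊆ T' := by
      intro s hs
      unfold Tq at hs
      rw [mem_filter] at hs
      rw [hT', mem_filter]
      refine ⟨hs.1, ?_⟩
      have h1 := hs.2
      rw [hr] at h1
      exact Nat.Coprime.coprime_mul_left_right h1
    have hz : ∑ s ∈ T', e (a * s / q) = 0 := by
      refine sum_shift q p hq0 hp ⟨r, hr⟩ _ (filter_subset _ _) ?_ a ha
      intro s hs
      rw [mem_filter, mem_range] at hs ⊢
      refine ⟨Nat.mod_lt _ hq0, ?_⟩
      rw [hr']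
      exact Cos_mod (hr ▸ Dvd.intro_left p rfl) (fun p' _ hd => Dvd.dvd.mul_left hd W₁) hs.2
    have h1 : ∑ s ∈ Tq W₁ n₀ q, e (a * s / q) = -∑ s ∈ T' \ Tq W₁ n₀ q, e (a * s / q) := by
      have h2 := sum_sdiff (f := fun s : ℕ => e (a * s / q)) hsub
      rw [hz] at h2
      exact eq_neg_of_add_eq_zero_right h2
    have h3 : ‖∑ s ∈ Tq W₁ n₀ q, e (a * s / q)‖ ≤ ((T' \ Tq W₁ n₀ q).card : ℝ) := by
      rw [h1, norm_neg]
      refine (norm_sum_le _ _).trans ?_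
      simp [norm_e]
    have h4 : (T' \ Tq W₁ n₀ q).card * (p - 1) ≤ (Tq W₁ n₀ (p * r)).card := by
      refine Cos_card hp hpW hpr hr0 _ fun s hs => ?_
      rw [mem_sdiff, hT', mem_filter, mem_range] at hs
      obtain ⟨⟨h5, h6⟩, h7⟩ := hs
      refine ⟨hr ▸ h5, h6, ?_⟩
      by_contra h8
      apply h7
      unfold Tq
      rw [mem_filter, mem_range]
      refine ⟨h5, ?_⟩
      rw [hr]
      refine Nat.Coprime.mul_right ?_ h6
      rw [Nat.coprime_comm, hp.coprime_iff_not_dvd]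
      exact h8
    rw [← hr] at h4
    have h5 : w ≤ p - 1 := by
      have h6 : ¬ p ≤ w := fun h => hpW (hw p hp h)
      omega
    have h6 : (T' \ Tq W₁ n₀ q).card * w ≤ (Tq W₁ n₀ q).card :=
      (Nat.mul_le_mul_left _ h5).trans h4
    have h7 : ((T' \ Tq W₁ n₀ q).card : ℝ) * w ≤ (Tq W₁ n₀ q).card := by exact_mod_cast h6
    have hw0' : (0 : ℝ) < w := by exact_mod_cast hw0
    rw [le_div_iff₀ hw0']
    exact (mul_le_mul_of_nonneg_right h3 hw0'.le).trans h7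

end Pool.Agent.Lib.MP_d57abb_nt.All
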