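import Mathlib
import Pool.Agent.Lib.MP_d57abb_nt.All.FDefs

/-!
# JOB Cos: the residues `s` modulo `q` with `W₁ s + n₀` prime to `q`

`e (x) = exp (2 π i x)` (`MP_2a816b_nt/Expo`: `e_add`, `e_int`, `e_nat`, `norm_e`, `e_eq_one_iff`).

PROOF of `card_Tq`.  The homomorphism `f = ZMod.unitsMap (Dvd.intro q rfl : W₁ ∣ W₁ * q) : (ZMod (W₁ q))ˣ →* (ZMod W₁)ˣ` is surjective
(`ZMod.unitsMap_surjective`), so all its fibres have the same cardinality (`MonoidHom.card_fiber_eq_of_mem_range`, or cosets of the kernel) and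
`φ(W₁ q) = φ(W₁) * |f⁻¹(n₀)|` (`Finset.card_eq_sum_card_fiberwise`, `ZMod.card_units_eq_totient`).  And `f⁻¹(n₀)` is in bijection with `Tq W₁ n₀ q`: to `s` the unit
`W₁ s + n₀` (prime to `W₁` as `n₀` is, and to `q`), injective for `s < q` modulo `W₁ q`, surjective since a unit `x` of `ZMod (W₁ q)` with `x ≡ n₀ (mod W₁)` is `W₁ k + n₀` in `ZMod (W₁ q)` for
some natural number `k`, which may be reduced modulo `q`.

PROOF of `sum_shift`: if `T ⊆ range q`, `p ∣ q`, and `T` is invariant under `s ↦ (s + q / p) % q`, then `∑_{s ∈ T} e (a s / q) = 0` for `a` prime to `q`, `p` prime: the shift is a bijection of `T`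
(injective: `Finset.sum_nbij` / `Finset.sum_bij`; a self-injection of a finite set), and multiplies every term by `e (a / p) ≠ 1` (`p ∤ a`; `e (a (s + q/p) / q) = e (a s / q) e (a / p)`, and
`(s + q/p) % q` differs from `s + q/p` by a multiple of `q`).

PROOF of `cos_sum`.  Let `p` be a prime dividing `q` (`q > 1`).
(i) `p ∣ W₁`: `Tq` is invariant under the shift by `q / p`: for a prime `p'` dividing `q`: `W₁ (s + q/p) + n₀ ≡ W₁ s + n₀ (mod p')`, if `p' = p` because `p ∣ W₁`, if `p' ≠ p` because `p' ∣ q / p`.  (Use: coprime to `q`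
iff no prime factor `p'` of `q` divides it, `Nat.Coprime` / `Nat.coprime_primes`, `Nat.Coprime_of_...`, and adding a multiple of `q` does not change coprimality with `q`.)  So the sum is `0`.
(ii) `p ∤ W₁`; then `w < p`.  `p ∣ q / p`: `Tq` is invariant under the shift by `q / p` again (all primes dividing `q` divide `q / p`).  The sum is `0`.
(iii) `p ∤ W₁`, `p ∤ q / p`.  Let `T' = {s < q : W₁ s + n₀ prime to q / p}`; `Tq ⊆ T'`, `T'` is invariant under the shift by `q / p`, so `∑_{Tq} = - ∑_{T' \ Tq}`, and the norm is at most `|T' \ Tq|`.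
`T' \ Tq = {s ∈ T' : p ∣ W₁ s + n₀}`.  The map `(s, i) ↦ (s + i q / p) % q` from `(T' \ Tq) × {1, ..., p - 1}` to `Tq` is injective: `W₁ (s + i q/p) + n₀ ≡ i W₁ q/p ≢ 0 (mod p)`; from the value `s'` one
recovers `i` by `W₁ s' + n₀ ≡ i W₁ (q/p) (mod p)` and then `s`.  So `(p - 1) |T' \ Tq| ≤ |Tq|`, and `p - 1 ≥ w`.
-/

open Finset

namespace Pool.Agent.Lib.MP_d57abb_nt.All

open Pool.Agent.Lib.MP_2a816b_nt (e norm_e e_add e_int e_nat e_eq_one_iff)

theorem card_Tq (W₁ n₀ q : ℕ) (hW : 0 < W₁) (hq : 0 < q) (hc : Nat.Coprime n₀ W₁) :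
    (Tq W₁ n₀ q).card * Nat.totient W₁ = Nat.totient (W₁ * q) := by
  classical
  have hm0 : W₁ * q ≠ 0 := Nat.mul_ne_zero hW.ne' hq.ne'
  have : NeZero (W₁ * q) := ⟨hm0⟩
  have : NeZero W₁ := ⟨hW.ne'⟩
  have hdvd : W₁ ∣ W₁ * q := Dvd.intro q rfl
  have hsurj := ZMod.unitsMap_surjective hdvd
  have hcop : ∀ s : ℕ, Nat.Coprime (W₁ * s + n₀) q → Nat.Coprime (W₁ * s + n₀) (W₁ * q) := by
    intro s hs
    refine Nat.Coprime.mul_right ?_ hs
    rw [Nat.coprime_mul_left_add_left]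
    exact hc
  have hfib : (Finset.univ.filter (fun x : (ZMod (W₁ * q))ˣ =>
      ZMod.unitsMap hdvd x = ZMod.unitOfCoprime n₀ hc)).card = (Tq W₁ n₀ q).card := by
    symm
    refine Finset.card_bij (fun s hs => ZMod.unitOfCoprime (W₁ * s + n₀)
      (hcop s (Finset.mem_filter.mp hs).2)) ?_ ?_ ?_
    · intro s hs
      rw [Finset.mem_filter]
      refine ⟨Finset.mem_univ _, ?_⟩
      apply Units.ext
      rw [ZMod.unitsMap_def, Units.coe_map, ZMod.coe_unitOfCoprime, ZMod.coe_unitOfCoprime]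
      simp
    · intro s hs s' hs' h
      have h1 := congrArg (fun u : (ZMod (W₁ * q))ˣ => (u : ZMod (W₁ * q))) h
      simp only [ZMod.coe_unitOfCoprime] at h1
      rw [ZMod.natCast_eq_natCast_iff] at h1
      have h2 := Nat.ModEq.add_right_cancel' n₀ h1
      have h3 : s ≡ s' [MOD q] := Nat.ModEq.mul_left_cancel' hW.ne' h2
      have h4 := Finset.mem_range.mp (Finset.mem_filter.mp hs).1
      have h5 := Finset.mem_range.mp (Finset.mem_filter.mp hs').1
      exact Nat.ModEq.eq_of_lt_of_lt h3 h4 h5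
    · intro x hx
      have hx2 := (Finset.mem_filter.mp hx).2
      have h1 : (((x : ZMod (W₁ * q)).val : ℕ) : ZMod W₁) = ((n₀ : ℕ) : ZMod W₁) := by
        have h2 := congrArg (fun u : (ZMod W₁)ˣ => (u : ZMod W₁)) hx2
        rw [ZMod.unitsMap_def, Units.coe_map, ZMod.coe_unitOfCoprime] at h2
        rw [← h2]
        simp [ZMod.castHom_apply, ZMod.natCast_val]
      obtain ⟨k, hk⟩ : ∃ k : ℕ, k = (x : ZMod (W₁ * q)).val := ⟨_, rfl⟩
      rw [← hk] at h1
      have hkx : ((k : ℕ) : ZMod (W₁ * q)) = (x : ZMod (W₁ * q)) := by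
        rw [hk]
        exact ZMod.natCast_zmod_val _
      have h3 : (W₁ : ℤ) ∣ (k : ℤ) - n₀ := by
        have h4 : (((k : ℤ) - (n₀ : ℤ) : ℤ) : ZMod W₁) = 0 := by
          push_cast
          rw [h1, sub_self]
        exact (ZMod.intCast_zmod_eq_zero_iff_dvd _ _).mp h4
      obtain ⟨j, hj⟩ := h3
      have hq' : (0 : ℤ) < q := by exact_mod_cast hq
      have hs0 : 0 ≤ j % q := Int.emod_nonneg _ hq'.ne'
      have hs1 : j % q < q := Int.emod_lt_of_pos _ hq'
      obtain ⟨s, hs⟩ := Int.eq_ofNat_of_zero_le hs0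
      have hcong : (((W₁ * s + n₀ : ℕ)) : ZMod (W₁ * q)) = (x : ZMod (W₁ * q)) := by
        rw [← hkx]
        have h5 : ((((W₁ * s + n₀ : ℕ) : ℤ) : ℤ) : ZMod (W₁ * q)) = (((k : ℤ)) : ZMod (W₁ * q)) := by
          rw [ZMod.intCast_eq_intCast_iff_dvd_sub]
          refine ⟨j / q, ?_⟩
          have h6 := Int.emod_add_mul_ediv j q
          rw [hs] at h6
          push_cast
          linear_combination hj - (W₁ : ℤ) * h6
        exact_mod_cast h5
      have hunit : IsUnit (((W₁ * s + n₀ : ℕ)) : ZMod (W₁ * q)) := by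
        rw [hcong]
        exact x.isUnit
      have hcp := (ZMod.isUnit_iff_coprime _ _).mp hunit
      have hcq : Nat.Coprime (W₁ * s + n₀) q := Nat.Coprime.coprime_mul_left_right hcp
      refine ⟨s, Finset.mem_filter.mpr ⟨Finset.mem_range.mpr ?_, hcq⟩, ?_⟩
      · have : (s : ℤ) < q := by rw [← hs]; exact hs1
        exact_mod_cast this
      · apply Units.ext
        rw [ZMod.coe_unitOfCoprime]
        exact hcong
  have hall : ∀ y : (ZMod W₁)ˣ, (Finset.univ.filter (fun x : (ZMod (W₁ * q))ˣ =>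
      ZMod.unitsMap hdvd x = y)).card = (Tq W₁ n₀ q).card := by
    intro y
    rw [← hfib]
    exact MonoidHom.card_fiber_eq_of_mem_range (ZMod.unitsMap hdvd) (hsurj y) (hsurj _)
  have htot := Finset.card_eq_sum_card_fiberwise (f := fun x : (ZMod (W₁ * q))ˣ => ZMod.unitsMap hdvd x)
    (s := (Finset.univ : Finset (ZMod (W₁ * q))ˣ)) (t := (Finset.univ : Finset (ZMod W₁)ˣ))
    (fun x _ => Finset.mem_coe.mpr (Finset.mem_univ _))
  rw [Finset.sum_congr rfl (fun y _ => hall y), Finset.sum_const, smul_eq_mul, Finset.card_univ,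
    Finset.card_univ, ZMod.card_units_eq_totient, ZMod.card_units_eq_totient] at htot
  rw [htot, mul_comm]

end Pool.Agent.Lib.MP_d57abb_nt.All
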