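import Mathlib

/-!
# Definitions for the entropy part
-/

namespace Pool.Agent.Lib.MP_d57abb_nt.All

open Finset

/-- the word of length `H` at `n` -/
def wd {κ : Type*} (β : ℕ → κ) (H n : ℕ) : ℕ → Option κ := fun i => if i < H then some (β (n + i)) else none

/-- the periodic extension with a gap -/
def bt {K : Type*} (β : ℕ → K) (N ℓ₁ : ℕ) : ℕ → Option K :=
  fun n => if n % N < N - 5 * ℓ₁ then some (β (n % N)) else none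

/-- the primes in `(ℓ, W' ℓ]` -/
def PS (W' ℓ : ℕ) : Finset ℕ := (Ioc ℓ (W' * ℓ)).filter Nat.Prime

/-- their product -/
def PP (W' ℓ : ℕ) : ℕ := ∏ p ∈ PS W' ℓ, p

/-- the hypotheses on the forbidden residues -/
structure Forb {K : Type*} (W' : ℕ) (c₁ : ℝ) (ℓ₀ : ℕ) (F : ℕ → (ℕ → K) → ℕ → Finset ℕ) : Prop where
  W1 : 1 ≤ W'
  c0 : 0 < c₁
  l0 : 2 ≤ ℓ₀
  dep : ∀ ℓ : ℕ, ℓ₀ ≤ ℓ → ∀ x y : ℕ → K, (∀ i < 5 * ℓ, x i = y i) → F ℓ x = F ℓ y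
  sub : ∀ (ℓ : ℕ) (x : ℕ → K) (p : ℕ), F ℓ x p ⊆ range p
  sum : ∀ ℓ : ℕ, ℓ₀ ≤ ℓ → ∀ x : ℕ → K,
    c₁ * ℓ / Real.log ℓ ≤ ∑ p ∈ PS W' ℓ, ((F ℓ x p).card : ℝ) / p

end Pool.Agent.Lib.MP_d57abb_nt.All
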