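import Mathlib
import Pool.Agent.Lib.MP_5e4520_nt.EntB
import Pool.Agent.Lib.MP_d57abb_nt.All.EDefs

/-!
# An entropy lemma (`ent_lip'`)

`ent S f` (base 2 entropy of `f` for the uniform measure on `S`) and its properties are in `MP_5e4520_nt/Defs`, `EntA`, `EntB`.

PROOF of `ent_lip'`: this is `ent_lip` (`EntA`) with a bound `κ₀ p` depending on `f p`; the same proof (read it): `log x ≤ x - 1` for
`w p = n_f(p) / n_{fg}(p) / κ₀ p`; the sum over the fibre of `f` over `v`, on which `κ₀` is constant, is `≤ n_f(v)`.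

PROOF of `ent_shift`: `n ↦ (n + s) % N` is a bijection of `range N` onto itself and `f ((n + s) % N) = f (n + s)` by periodicity, so the sums defining both entropies agree (`Finset.sum_bij`, and for the fibres: the cardinality of
`{x ∈ range N : f (x + s) = f (p + s)}` equals the cardinality of `{y ∈ range N : f y = f ((p + s) % N)}`).

PROOF of `ent_mod`: `ent (range N) (fun n => n % P) ≤ log₂ P` by `ent_le_of_card` with `T = range P`; `≥` by `ent_ge` with `t = log₂ P`: every fibre has `N / P` elements (`P ∣ N`).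

PROOF of `ent_step`.  Let `f_k n = wd β (k * H) n`, `g n = n % P`, `E = ent (f_1, g)`, `L = log₂ P = ent g`.  Claim: `ent (f_k, g) ≤ L + k (E - L)` for `k ≥ 0` (induction): `k = 0`: `f_0` is constant.  Step: `ent_sub` with `f = f_k`,
`g = (fun n => wd β H (n + k H))`, `h = g`: `ent (f_k, wd β H (· + kH), g) + L ≤ ent (f_k, g) + ent (wd β H (· + k H), g)`; the left triple is equivalent to `(f_{k+1}, g)` (`ent_congr`: the word of length `(k+1) H` at `n` is determined by and
determines the word of length `k H` at `n` and the word of length `H` at `n + k H`); `(wd β H (n + k H), n % P)` is equivalent to `(wd β H (n + k H), (n + k H) % P)` (`Nat.ModEq.add_right_cancel`), which is the shift by `k H` of `(f_1, g)`, periodic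
mod `N` (`P ∣ N`), so its entropy is `E` by `ent_shift`.  Then `ent f_k ≤ ent (f_k, g) ≤ L + k (E - L) ≤ L + k (ent f_1 - I)` by `ent_le_of_det` and the hypothesis `E ≤ ent f_1 + L - I`.
-/

open Finset

namespace Pool.Agent.Lib.MP_d57abb_nt.All

open MP_5e4520_nt (ent ent_nonneg ent_le_of_card ent_le_of_det ent_ge ent_congr ent_sub)

open Classical in
theorem ent_lip' {ι κ κ' : Type*} {S : Finset ι} (hS : S.Nonempty) (f : ι → κ) (g : ι → κ') (κ₀ : ι → ℝ)
    (hpos : ∀ p ∈ S, 0 < κ₀ p)
    (hk : ∀ p ∈ S, (((S.filter (fun x => f x = f p)).image g).card : ℝ) ≤ κ₀ p)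
    (hc : ∀ p ∈ S, ∀ q ∈ S, f p = f q → κ₀ p = κ₀ q) :
    ent S (fun x => (f x, g x)) ≤ ent S f + (∑ p ∈ S, Real.logb 2 (κ₀ p)) / S.card := by
  have hS0 : (0 : ℝ) < S.card := by exact_mod_cast hS.card_pos
  have hn : ∀ p ∈ S, (0 : ℝ) < ((S.filter (fun x => f x = f p)).card : ℝ) := fun p hp => by
    exact_mod_cast MP_5e4520_nt.entA_fib_pos f hp
  have hn2 : ∀ p ∈ S, (0 : ℝ) < ((S.filter (fun x => (f x, g x) = (f p, g p))).card : ℝ) :=
    fun p hp => by
      have h3 : p ∈ S.filter (fun x => (f x, g x) = (f p, g p)) := mem_filter.2 ⟨hp, rfl⟩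
      exact_mod_cast card_pos.2 ⟨p, h3⟩
  have h1 := MP_5e4520_nt.entA_sum_log (S := S)
    (fun p => ((S.filter (fun x => f x = f p)).card : ℝ) /
      ((S.filter (fun x => (f x, g x) = (f p, g p))).card : ℝ) / κ₀ p)
    (fun p hp => div_pos (div_pos (hn p hp) (hn2 p hp)) (hpos p hp)) (by
      rw [← sum_fiberwise_of_maps_to (s := S) (t := S.image f) (g := f)
        (fun x hx => mem_image_of_mem f hx)]
      have h2 : ∀ v ∈ S.image f, ∑ p ∈ S.filter (fun x => f x = v),
          ((S.filter (fun x => f x = f p)).card : ℝ) /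
          ((S.filter (fun x => (f x, g x) = (f p, g p))).card : ℝ) / κ₀ p ≤
          ((S.filter (fun x => f x = v)).card : ℝ) := by
        intro v hv
        obtain ⟨p₀, hp₀, rfl⟩ := mem_image.1 hv
        have hk0 := hpos p₀ hp₀
        have h3 : ∀ p ∈ S.filter (fun x => f x = f p₀), ((S.filter (fun x => f x = f p)).card : ℝ) /
            ((S.filter (fun x => (f x, g x) = (f p, g p))).card : ℝ) / κ₀ p =
            (((S.filter (fun x => f x = f p₀)).card : ℝ) / κ₀ p₀) *
              (1 / (((S.filter (fun x => f x = f p₀)).filter (fun x => g x = g p)).card : ℝ)) := by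
          intro p hp
          have hpv := (mem_filter.1 hp).2
          have h4 : S.filter (fun x => (f x, g x) = (f p, g p)) =
              (S.filter (fun x => f x = f p₀)).filter (fun x => g x = g p) := by
            ext x
            simp only [mem_filter, Prod.mk.injEq, hpv, and_assoc]
          rw [h4, hpv, hc p (mem_filter.1 hp).1 p₀ hp₀ hpv]
          ring
        rw [sum_congr rfl h3, ← mul_sum, MP_5e4520_nt.entA_sum_inv]
        have h5 := hk p₀ hp₀
        calc ((S.filter (fun x => f x = f p₀)).card : ℝ) / κ₀ p₀ *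
              ((((S.filter (fun x => f x = f p₀)).image g).card : ℕ) : ℝ)
            ≤ ((S.filter (fun x => f x = f p₀)).card : ℝ) / κ₀ p₀ * κ₀ p₀ :=
              mul_le_mul_of_nonneg_left h5 (by positivity)
          _ = _ := div_mul_cancel₀ _ hk0.ne'
      refine (sum_le_sum h2).trans ?_
      rw [← Nat.cast_sum, ← card_eq_sum_card_image])
  have h4 : ∀ p ∈ S, Real.logb 2 (((S.filter (fun x => f x = f p)).card : ℝ) /
      ((S.filter (fun x => (f x, g x) = (f p, g p))).card : ℝ) / κ₀ p) =
      Real.logb 2 ((S.card : ℝ) / ((S.filter (fun x => (f x, g x) = (f p, g p))).card : ℝ)) -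
      Real.logb 2 ((S.card : ℝ) / ((S.filter (fun x => f x = f p)).card : ℝ)) -
      Real.logb 2 (κ₀ p) := by
    intro p hp
    rw [Real.logb_div (div_pos (hn p hp) (hn2 p hp)).ne' (hpos p hp).ne',
      Real.logb_div (hn p hp).ne' (hn2 p hp).ne', Real.logb_div hS0.ne' (hn p hp).ne',
      Real.logb_div hS0.ne' (hn2 p hp).ne']
    ring
  rw [sum_congr rfl h4, sum_sub_distrib, sum_sub_distrib] at h1
  have h5 : ent S (fun x => (f x, g x)) * S.card = ∑ p ∈ S, Real.logb 2 ((S.card : ℝ) /
      ((S.filter (fun x => (f x, g x) = (f p, g p))).card : ℝ)) := by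
    unfold ent
    rw [div_mul_cancel₀ _ hS0.ne']
    refine sum_congr rfl fun p _ => ?_
    congr!
  have h6 : ent S f * S.card = ∑ p ∈ S, Real.logb 2 ((S.card : ℝ) /
      ((S.filter (fun x => f x = f p)).card : ℝ)) := by
    unfold ent
    rw [div_mul_cancel₀ _ hS0.ne']
  rw [← h5, ← h6] at h1
  have h7 : ent S (fun x => (f x, g x)) * S.card ≤
      (ent S f + (∑ p ∈ S, Real.logb 2 (κ₀ p)) / S.card) * S.card := by
    rw [add_mul, div_mul_cancel₀ _ hS0.ne']
    linarith
  exact le_of_mul_le_mul_right h7 hS0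

end Pool.Agent.Lib.MP_d57abb_nt.All
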