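import Mathlib
import Pool.Agent.Lib.MP_5e4520_nt.EntB
import Pool.Agent.Lib.MP_d57abb_nt.All.EDefs

/-!
# EntM (ent_shift, ent_mod): entropy lemmas

`ent S f` (base 2 entropy of `f` for the uniform measure on `S`) and its properties are in `MP_5e4520_nt/Defs`, `EntA`, `EntB`.

PROOF of `ent_lip'`: this is `ent_lip` (`EntA`) with a bound `κ₀ p` depending on `f p`; the same proof (read it): `log x ≤ x - 1` for
`w p = n_f(p) / n_{fg}(p) / κ₀ p`; the sum over the fibre of `f` over `v`, on which `κ₀` is constant, is `≤ n_f(v)`.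

PROOF of `ent_shift`: `n ↦ (n + s) % N` is a bijection of `range N` onto itself and `f ((n + s) % N) = f (n + s)` by periodicity, so the sums defining both entropies agree (`Finset.sum_bij`, and for the fibres: the cardinality of
`{x ∈ range N : f (x + s) = f (p + s)}` equals the cardinality of `{y ∈ range N : f y = f ((p + s) % N)}`).

PROOF of `ent_mod`: `ent (range N) (fun n => n % P) ≤ log₂ P` by `ent_le_of_card` with `T = range P`; `≥` by `ent_ge` with `t = log₂ P`: every fibre has `N / P` elements (`P ∣ N`).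

PROOF of `ent_step`.  Let `f_k n = wd β (k * H) n`, `g n = n % P`, `E = ent (f_1, g)`, `L = log₂ P = ent g`.  Claim: `ent (f_k, g) ≤ L + k (E - L)` for `k ≥ 0` (induction): `k = 0`: `f_0` is constant.  Step: `ent_sub` with `f = f_k`,
`g = (fun n => wd β H (n + k H))`, `h = g`: `ent (f_k, wd β H (· + kH), g) + L ≤ ent (f_k, g) + ent (wd β H (· + k H), g)`; the left triple is equivalent to `(f_{k+1}, g)` (`ent_congr`: the word of length `(k+1) H` at `n` is determined by and
determines the word of length `k H` at `n` and the word of length `H` at `n + k H`); `(wd β H (n + k H), n % P)` is equivalent to `(wd β H (n + k H), (n + k H) % P)` (`Nat.ModEq.add_right_cancel`), which is the shift by `k H` of `(f_1, g)`, periodic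
mod `N` (`P ∣ N`), so its entropy is `E` by `ent_shift`.  Then `ent f_k ≤ ent (f_k, g) ≤ L + k (E - L) ≤ L + k (ent f_1 - I)` by `ent_le_of_det` and the hypothesis `E ≤ ent f_1 + L - I`.
-/

open Finset

namespace Pool.Agent.Lib.MP_d57abb_nt.All

open MP_5e4520_nt (ent ent_nonneg ent_le_of_card ent_le_of_det ent_ge ent_congr ent_sub)

private theorem EntM_perm {κ : Type*} (S : Finset ℕ) (g : ℕ → κ) (σ : ℕ → ℕ)
    (hσ : ∀ x ∈ S, σ x ∈ S) (hi : ∀ x ∈ S, ∀ y ∈ S, σ x = σ y → x = y) :
    ent S (fun n => g (σ n)) = ent S g := by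
  classical
  have hinj : Set.InjOn σ S := fun x hx y hy h => hi x hx y hy h
  have himg : S.image σ = S := by
    refine Finset.eq_of_subset_of_card_le ?_ ?_
    · intro y hy
      obtain ⟨x, hx, rfl⟩ := Finset.mem_image.1 hy
      exact hσ x hx
    · rw [Finset.card_image_of_injOn hinj]
  have hfib : ∀ p : ℕ, (S.filter (fun x => g (σ x) = g (σ p))).card =
      (S.filter (fun y => g y = g (σ p))).card := by
    intro p
    have h1 : (S.filter (fun y => g y = g (σ p))) =
        (S.filter (fun x => g (σ x) = g (σ p))).image σ := by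
      ext y
      rw [Finset.mem_filter, Finset.mem_image]
      constructor
      · rintro ⟨hy, hy2⟩
        rw [← himg] at hy
        obtain ⟨x, hx, rfl⟩ := Finset.mem_image.1 hy
        exact ⟨x, Finset.mem_filter.2 ⟨hx, hy2⟩, rfl⟩
      · rintro ⟨x, hx, rfl⟩
        rw [Finset.mem_filter] at hx
        exact ⟨hσ x hx.1, hx.2⟩
    rw [h1, Finset.card_image_of_injOn (hinj.mono (Finset.coe_subset.2 (Finset.filter_subset _ _)))]
  unfold ent
  congr 1
  calc ∑ p ∈ S, Real.logb 2 ((S.card : ℝ) / ((S.filter (fun x => g (σ x) = g (σ p))).card : ℝ))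
      = ∑ p ∈ S, Real.logb 2 ((S.card : ℝ) / ((S.filter (fun y => g y = g (σ p))).card : ℝ)) :=
        Finset.sum_congr rfl fun p _ => by rw [hfib p]
    _ = ∑ q ∈ S.image σ, Real.logb 2 ((S.card : ℝ) / ((S.filter (fun y => g y = g q)).card : ℝ)) :=
        (Finset.sum_image (f := fun q => Real.logb 2 ((S.card : ℝ) /
          ((S.filter (fun y => g y = g q)).card : ℝ))) hinj).symm
    _ = _ := by rw [himg]

theorem ent_shift {κ : Type*} (N : ℕ) (f : ℕ → κ) (hf : ∀ n, f (n + N) = f n) (s : ℕ) :
    ent (range N) (fun n => f (n + s)) = ent (range N) f := by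
  rcases Nat.eq_zero_or_pos N with h0 | h0
  · subst h0
    simp [ent]
  have hper : Function.Periodic f N := hf
  have h1 : (fun n => f (n + s)) = fun n => f ((n + s) % N) := by
    funext n
    exact (hper.map_mod_nat (n + s)).symm
  rw [h1]
  refine EntM_perm (range N) f (fun n => (n + s) % N) (fun x _ => ?_) fun x hx y hy h => ?_
  · exact Finset.mem_range.2 (Nat.mod_lt _ h0)
  · rw [Finset.mem_range] at hx hy
    have h2 : x + s ≡ y + s [MOD N] := h
    have h3 : x ≡ y [MOD N] := Nat.ModEq.add_right_cancel' s h2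
    have h4 : x % N = y % N := h3
    rwa [Nat.mod_eq_of_lt hx, Nat.mod_eq_of_lt hy] at h4

theorem ent_mod (N P : ℕ) (hN : 0 < N) (hP : 0 < P) (hPN : P ∣ N) :
    ent (range N) (fun n => n % P) = Real.logb 2 P := by
  have hne : (range N).Nonempty := ⟨0, Finset.mem_range.2 hN⟩
  have hP' : (0 : ℝ) < P := by exact_mod_cast hP
  refine le_antisymm ?_ ?_
  · have h1 := ent_le_of_card hne (fun n => n % P) (range P)
      (fun p _ => Finset.mem_range.2 (Nat.mod_lt _ hP))
    rwa [Finset.card_range] at h1
  · refine ent_ge hne _ _ fun p _ => ?_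
    rw [Real.rpow_logb (by norm_num) (by norm_num) hP', Finset.card_range]
    have h2 : ((range N).filter (fun x => x % P = p % P)).card = N / P := by
      have h3 := Nat.count_modEq_card N hP p
      rw [Nat.mod_eq_zero_of_dvd hPN, if_neg (Nat.not_lt_zero _), add_zero,
        Nat.count_eq_card_filter_range] at h3
      exact h3
    have h4 : ((N / P : ℕ) : ℝ) = (N : ℝ) / P := Nat.cast_div hPN hP'.ne'
    rw [← h4]
    exact_mod_cast le_of_eq (by convert h2)

end Pool.Agent.Lib.MP_d57abb_nt.All
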