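import Mathlib
import Pool.Agent.Lib.MP_5e4520_nt.EntB
import Pool.Agent.Lib.MP_d57abb_nt.All.EDefs
import Pool.Agent.Lib.MP_d57abb_nt.All.EntM
import Pool.Agent.Lib.MP_d57abb_nt.All.EntK

/-!
# JOB EntL (ent_step): entropy lemmas

`ent S f` (base 2 entropy of `f` for the uniform measure on `S`) and its properties are in `MP_5e4520_nt/Defs`, `EntA`, `EntB`.

PROOF of `ent_lip'`: this is `ent_lip` (`EntA`) with a bound `κ₀ p` depending on `f p`; the same proof (read it): `log x ≤ x - 1` for
`w p = n_f(p) / n_{fg}(p) / κ₀ p`; the sum over the fibre of `f` over `v`, on which `κ₀` is constant, is `≤ n_f(v)`.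

PROOF of `ent_shift`: `n ↦ (n + s) % N` is a bijection of `range N` onto itself and `f ((n + s) % N) = f (n + s)` by periodicity, so the sums defining both entropies agree (`Finset.sum_bij`, and for the fibres: the cardinality of
`{x ∈ range N : f (x + s) = f (p + s)}` equals the cardinality of `{y ∈ range N : f y = f ((p + s) % N)}`).

PROOF of `ent_mod`: `ent (range N) (fun n => n % P) ≤ log₂ P` by `ent_le_of_card` with `T = range P`; `≥` by `ent_ge` with `t = log₂ P`: every fibre has `N / P` elements (`P ∣ N`).

PROOF of `ent_step`.  Let `f_k n = wd β (k * H) n`, `g n = n % P`, `E = ent (f_1, g)`, `L = log₂ P = ent g`.  Claim: `ent (f_k, g) ≤ L + k (E - L)` for `k ≥ 0` (induction): `k = 0`: `f_0` is constant.  Step: `ent_sub` with `f = f_k`,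
`g = (fun n => wd β H (n + k H))`, `h = g`: `ent (f_k, wd β H (· + kH), g) + L ≤ ent (f_k, g) + ent (wd β H (· + k H), g)`; the left triple is equivalent to `(f_{k+1}, g)` (`ent_congr`: the word of length `(k+1) H` at `n` is determined by and
determines the word of length `k H` at `n` and the word of length `H` at `n + k H`); `(wd β H (n + k H), n % P)` is equivalent to `(wd β H (n + k H), (n + k H) % P)` (`Nat.ModEq.add_right_cancel`), which is the shift by `k H` of `(f_1, g)`, periodic
mod `N` (`P ∣ N`), so its entropy is `E` by `ent_shift`.  Then `ent f_k ≤ ent (f_k, g) ≤ L + k (E - L) ≤ L + k (ent f_1 - I)` by `ent_le_of_det` and the hypothesis `E ≤ ent f_1 + L - I`.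
-/

open Finset

namespace Pool.Agent.Lib.MP_d57abb_nt.All

open MP_5e4520_nt (ent ent_nonneg ent_le_of_card ent_le_of_det ent_ge ent_congr ent_sub)

private theorem EntL_wd_iff {κ : Type*} (β : ℕ → κ) (H x y : ℕ) :
    wd β H x = wd β H y ↔ ∀ i < H, β (x + i) = β (y + i) := by
  constructor
  · intro h i hi
    have h1 := congrFun h i
    unfold wd at h1
    rw [if_pos hi, if_pos hi] at h1
    exact Option.some.inj h1
  · intro h
    funext i
    unfold wd
    by_cases hi : i < H
    · rw [if_pos hi, if_pos hi, h i hi]
    · rw [if_neg hi, if_neg hi]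

private theorem EntL_wd_succ {κ : Type*} (β : ℕ → κ) (H k x y : ℕ) :
    wd β ((k + 1) * H) x = wd β ((k + 1) * H) y ↔
      wd β (k * H) x = wd β (k * H) y ∧ wd β H (x + k * H) = wd β H (y + k * H) := by
  rw [EntL_wd_iff, EntL_wd_iff, EntL_wd_iff]
  have e : (k + 1) * H = k * H + H := by ring
  rw [e]
  constructor
  · intro h
    refine ⟨fun i hi => h i (by omega), fun i hi => ?_⟩
    rw [add_assoc, add_assoc]
    exact h _ (by omega)
  · rintro ⟨h1, h2⟩ i hi
    by_cases hik : i < k * H
    · exact h1 i hik
    · have h3 := h2 (i - k * H) (by omega)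
      rw [add_assoc, add_assoc, Nat.add_sub_cancel' (by omega)] at h3
      exact h3

theorem ent_step {κ : Type*} (N P : ℕ) (hN : 0 < N) (hP : 0 < P) (hPN : P ∣ N) (β : ℕ → κ)
    (hβ : ∀ n, β (n + N) = β n) (H k : ℕ) (I : ℝ)
    (hI : ent (range N) (fun n => (wd β H n, n % P)) ≤ ent (range N) (wd β H) + Real.logb 2 P - I) :
    ent (range N) (wd β (k * H)) ≤ k * (ent (range N) (wd β H) - I) + Real.logb 2 P := by
  set L := Real.logb 2 P with hL
  set E := ent (range N) (fun n => (wd β H n, n % P)) with hE
  have hmodL : ent (range N) (fun n => n % P) = L := ent_mod N P hN hP hPN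
  have hmod : ∀ s n m : ℕ, n % P = m % P ↔ (n + s) % P = (m + s) % P := by
    intro s n m
    constructor
    · exact fun h => Nat.ModEq.add_right s h
    · exact fun h => Nat.ModEq.add_right_cancel' s h
  have hclaim : ∀ k : ℕ, ent (range N) (fun n => (wd β (k * H) n, n % P)) ≤ L + k * (E - L) := by
    intro k
    induction k with
    | zero =>
      have h1 : ent (range N) (fun n => (wd β (0 * H) n, n % P)) =
          ent (range N) (fun n => n % P) := by
        apply ent_congr
        intro x _ y _
        rw [Prod.mk.injEq, EntL_wd_iff]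
        simp
      rw [h1, hmodL]
      simp
    | succ k ih =>
      have h1 := ent_sub (range N) (wd β (k * H)) (fun n => wd β H (n + k * H)) (fun n => n % P)
      have h2 : ent (range N) (fun n => (wd β (k * H) n, wd β H (n + k * H), n % P)) =
          ent (range N) (fun n => (wd β ((k + 1) * H) n, n % P)) := by
        apply ent_congr
        intro x _ y _
        rw [Prod.mk.injEq, Prod.mk.injEq, Prod.mk.injEq, EntL_wd_succ, and_assoc]
      have h3 : ent (range N) (fun n => (wd β H (n + k * H), n % P)) = E := by
        have h4 : ent (range N) (fun n => (wd β H (n + k * H), n % P)) =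
            ent (range N) (fun n => (wd β H (n + k * H), (n + k * H) % P)) := by
          apply ent_congr
          intro x _ y _
          rw [Prod.mk.injEq, Prod.mk.injEq, hmod (k * H) x y]
        rw [h4, hE]
        refine ent_shift N (fun n => (wd β H n, n % P)) ?_ (k * H)
        intro n
        refine Prod.ext ?_ ?_
        · show wd β H (n + N) = wd β H n
          rw [EntL_wd_iff]
          intro i _
          rw [add_right_comm]
          exact hβ _
        · show (n + N) % P = n % P
          obtain ⟨q, rfl⟩ := hPN
          rw [Nat.add_mul_mod_self_left]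
      rw [h2, h3, hmodL] at h1
      push_cast
      linarith
  have h5 : ent (range N) (wd β (k * H)) ≤ ent (range N) (fun n => (wd β (k * H) n, n % P)) :=
    ent_le_of_det (range N) (fun n => (wd β (k * H) n, n % P)) (wd β (k * H))
      (fun x _ y _ h => (Prod.mk.inj h).1)
  have h6 := hclaim k
  have h7 : (k : ℝ) * (E - L) ≤ k * (ent (range N) (wd β H) - I) :=
    mul_le_mul_of_nonneg_left (by linarith) (Nat.cast_nonneg k)
  linarith

end Pool.Agent.Lib.MP_d57abb_nt.All
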