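import Mathlib
import Pool.Agent.Lib.MP_d57abb_nt.All.EDefs

/-!
# JOB Sup: the number of allowed residues

PROOF.  The map `r ↦ (fun p _ => r % p)` from the set to `S.pi (fun p => range p \ F p)` (`Finset.pi`, or `Fintype.piFinset` over the subtype) is injective on `range (∏ p ∈ S, p)`: if `r ≡ r' (mod p)` for all `p ∈ S` then
`∏ p ∣ r - r'` (`Finset.prod_primes_dvd` / `Finset.prod_dvd_of_coprime`; `Nat.modEq_iff_dvd`), so `r = r'`.  Hence the cardinality is at most `∏ p ∈ S, (p - |F p|)`, and `p - |F p| = p (1 - |F p| / p) ≤ p exp (- |F p| / p)`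
(`Real.add_one_le_exp`), `Finset.prod_le_prod`, `Real.exp_sum`.
PROOF of `PP_le`: `PP W' ℓ` divides / is at most the primorial of `W' ℓ` which is `≤ 4 ^ (W' ℓ)` (`primorial_le_4_pow`).
-/

open Finset

namespace Pool.Agent.Lib.MP_d57abb_nt.All

theorem sup_card (S : Finset ℕ) (hS : ∀ p ∈ S, p.Prime) (F : ℕ → Finset ℕ) (hF : ∀ p ∈ S, F p ⊆ range p) :
    (((range (∏ p ∈ S, p)).filter (fun r => ∀ p ∈ S, r % p ∉ F p)).card : ℝ) ≤
      ((∏ p ∈ S, p : ℕ) : ℝ) * Real.exp (-∑ p ∈ S, ((F p).card : ℝ) / p) := by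
  classical
  have h1 : ((range (∏ p ∈ S, p)).filter (fun r => ∀ p ∈ S, r % p ∉ F p)).card ≤
      (S.pi (fun p => range p \ F p)).card := by
    refine Finset.card_le_card_of_injOn (fun r => fun p _ => r % p) ?_ ?_
    · intro r hr
      rw [Finset.mem_coe, Finset.mem_filter] at hr
      rw [Finset.mem_coe, Finset.mem_pi]
      intro p hp
      rw [Finset.mem_sdiff, Finset.mem_range]
      exact ⟨Nat.mod_lt _ (hS p hp).pos, hr.2 p hp⟩
    · intro r hr r' hr' h
      rw [Finset.mem_coe, Finset.mem_filter, Finset.mem_range] at hr hr'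
      have h2 : ((∏ p ∈ S, p : ℕ) : ℤ) ∣ (r' : ℤ) - r := by
        rw [Nat.cast_prod]
        refine Finset.prod_dvd_of_coprime ?_ ?_
        · intro p hp q hq hpq
          exact Nat.isCoprime_iff_coprime.2 ((Nat.coprime_primes (hS p hp) (hS q hq)).2 hpq)
        · intro p hp
          have h3 : r % p = r' % p := congrFun (congrFun h p) hp
          exact Nat.modEq_iff_dvd.1 h3
      exact Nat.ModEq.eq_of_lt_of_lt (Nat.modEq_iff_dvd.2 h2) hr.1 hr'.1
  rw [Finset.card_pi] at h1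
  have h4 : ∀ p ∈ S, ((range p \ F p).card : ℝ) ≤ (p : ℝ) * Real.exp (-(((F p).card : ℝ) / p)) := by
    intro p hp
    have hp0 : (0 : ℝ) < p := by exact_mod_cast (hS p hp).pos
    have h5 : (F p).card ≤ p := by
      have h6 := Finset.card_le_card (hF p hp)
      rwa [Finset.card_range] at h6
    rw [Finset.card_sdiff_of_subset (hF p hp), Finset.card_range, Nat.cast_sub h5]
    have h7 := Real.one_sub_le_exp_neg (((F p).card : ℝ) / p)
    calc (p : ℝ) - (F p).card = p * (1 - ((F p).card : ℝ) / p) := by field_simp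
      _ ≤ p * Real.exp (-(((F p).card : ℝ) / p)) := mul_le_mul_of_nonneg_left h7 hp0.le
  calc (((range (∏ p ∈ S, p)).filter (fun r => ∀ p ∈ S, r % p ∉ F p)).card : ℝ)
      ≤ ((∏ p ∈ S, (range p \ F p).card : ℕ) : ℝ) := by exact_mod_cast h1
    _ = ∏ p ∈ S, ((range p \ F p).card : ℝ) := by push_cast; rfl
    _ ≤ ∏ p ∈ S, ((p : ℝ) * Real.exp (-(((F p).card : ℝ) / p))) :=
        Finset.prod_le_prod (fun p _ => by positivity) h4
    _ = ((∏ p ∈ S, p : ℕ) : ℝ) * Real.exp (-∑ p ∈ S, ((F p).card : ℝ) / p) := by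
        rw [Finset.prod_mul_distrib, ← Real.exp_sum, Finset.sum_neg_distrib]
        push_cast
        rfl

theorem PP_le (W' ℓ : ℕ) : Real.logb 2 (PP W' ℓ) ≤ 2 * (W' * ℓ) := by
  have h1 : PP W' ℓ ∣ primorial (W' * ℓ) := by
    unfold PP PS primorial
    refine Finset.prod_dvd_prod_of_subset _ _ _ ?_
    intro p hp
    rw [Finset.mem_filter, Finset.mem_Ioc] at hp
    rw [Finset.mem_filter, Finset.mem_range]
    exact ⟨by omega, hp.2⟩
  have h2 : PP W' ℓ ≤ 4 ^ (W' * ℓ) :=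
    (Nat.le_of_dvd (primorial_pos _) h1).trans (primorial_le_four_pow _)
  have h3 : 0 < PP W' ℓ := Nat.pos_of_dvd_of_pos h1 (primorial_pos _)
  have h4 : ((PP W' ℓ : ℕ) : ℝ) ≤ (2 : ℝ) ^ ((2 * (W' * ℓ) : ℕ) : ℝ) := by
    rw [Real.rpow_natCast, pow_mul]
    have h5 : ((PP W' ℓ : ℕ) : ℝ) ≤ ((4 ^ (W' * ℓ) : ℕ) : ℝ) := by exact_mod_cast h2
    refine h5.trans (le_of_eq ?_)
    push_cast
    norm_num
  have h6 : Real.logb 2 (PP W' ℓ) ≤ ((2 * (W' * ℓ) : ℕ) : ℝ) := by
    rw [Real.logb_le_iff_le_rpow (by norm_num) (by exact_mod_cast h3)]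
    exact h4
  refine h6.trans (le_of_eq ?_)
  push_cast
  ring

end Pool.Agent.Lib.MP_d57abb_nt.All
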