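import Mathlib
import Pool.Agent.Lib.MP_d57abb_nt.All.EntL
import Pool.Agent.Lib.MP_d57abb_nt.All.Sup

/-!
# JOB Info: the information between the word and the residue

PROOF.  Let `β' = bt β N ℓ₁` (values in `Option K`), `f n = wd β' (5 ℓ) n` (a function `ℕ → Option (Option K)`), `g n = n % P`, `P = PP W' ℓ`.  For `n` let `x_n : ℕ → K`, `x_n i = (β' (n + i)).getD (default)` and call `n` genuine if
`β' (n + i) ≠ none` for all `i < 5 ℓ`.  Being genuine, and `F ℓ x_n` (by `hF.dep`), depend only on `f n`.  Put `σ_n = ∑ p ∈ PS W' ℓ, |F ℓ x_n p| / p` and `κ₀ n = P exp (-σ_n)` if `n` is genuine, `κ₀ n = P` otherwise.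
On the fibre of `f` through `n ∈ range N`, `g` takes at most `κ₀ n` values: clear if `n` is not genuine (`g < P`).  If `n` is genuine, let `n'` be in the fibre; `n'` is genuine, so
(`i = 0`, `ℓ ≥ 1`) `n' % N = n' < N - 5 ℓ₁`, hence `n' + i < N` for `i < 5 ℓ ≤ 5 ℓ₁` and `β' (n' + i) = some (β (n' + i))`, so `β (n' + i) = x_{n'} i = x_n i` for `i < 5 ℓ`.  By `hno` and `hF.dep`, `n' % p ∉ F ℓ (fun i => β (n' + i)) p = F ℓ x_n p` for all `p ∈ PS W' ℓ`.
As `(n' % P) % p = n' % p` (`p ∣ P`), `g n' = n' % P` lies in the set of `sup_card` (with `S = PS W' ℓ`, `F = F ℓ x_n`), which has at most `P exp (-σ_n)` elements.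
By `ent_lip'`: `ent (f, g) ≤ ent f + (1/N) ∑_{n<N} log₂ κ₀ n`, `log₂ κ₀ n = log₂ P - σ_n / log 2` for genuine `n`, `= log₂ P` otherwise, and `σ_n ≥ c₁ ℓ / log ℓ` by `hF.sum`.  All `n < N - 10 ℓ₁` are genuine
(`n + i < N - 5 ℓ₁`), and `N - 10 ℓ₁ ≥ N / 2`.  So the average is `≤ log₂ P - (1/2) c₁ ℓ / (log ℓ log 2)`.
-/

open Finset

namespace Pool.Agent.Lib.MP_d57abb_nt.All

open MP_5e4520_nt (ent)

private theorem Info_wd_eq {κ : Type*} {β : ℕ → κ} {H n n' : ℕ} (h : wd β H n = wd β H n') :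
    ∀ i < H, β (n + i) = β (n' + i) := by
  intro i hi
  have h1 := congrFun h i
  simp only [wd, if_pos hi] at h1
  exact Option.some.inj h1

private theorem Info_bt_ne {K : Type*} {β : ℕ → K} {N ℓ₁ n : ℕ} (h : bt β N ℓ₁ n ≠ none) :
    n % N < N - 5 * ℓ₁ := by
  by_contra hc
  exact h (by simp only [bt, if_neg hc])

private theorem Info_bt_eq {K : Type*} {β : ℕ → K} {N ℓ₁ n : ℕ} (h : bt β N ℓ₁ n ≠ none)
    (hn : n < N) : bt β N ℓ₁ n = some (β n) := by
  have h1 := Info_bt_ne h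
  simp only [bt, if_pos h1]
  rw [Nat.mod_eq_of_lt hn]

theorem info {K : Type} [Inhabited K] {W' : ℕ} {c₁ : ℝ} {ℓ₀ : ℕ} {F : ℕ → (ℕ → K) → ℕ → Finset ℕ}
    (hF : Forb W' c₁ ℓ₀ F) (β : ℕ → K) (N ℓ₁ ℓ : ℕ) (h0 : ℓ₀ ≤ ℓ) (h1 : ℓ ≤ ℓ₁) (hN : 20 * ℓ₁ ≤ N)
    (hno : ∀ n < N, ∀ p ∈ PS W' ℓ, n % p ∉ F ℓ (fun i => β (n + i)) p) :
    ent (range N) (fun n => (wd (bt β N ℓ₁) (5 * ℓ) n, n % PP W' ℓ)) ≤
      ent (range N) (wd (bt β N ℓ₁) (5 * ℓ)) + Real.logb 2 (PP W' ℓ) -
        c₁ / (2 * Real.log 2) * (ℓ / Real.log ℓ) := by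
  classical
  have hl0 : 2 ≤ ℓ := hF.l0.trans h0
  have hN0 : 0 < N := by omega
  set P := PP W' ℓ with hP
  have hP0 : 0 < P := by
    rw [hP]
    unfold PP
    exact Finset.prod_pos fun p hp => (mem_filter.1 hp).2.pos
  have hPr : (0 : ℝ) < P := by exact_mod_cast hP0
  set β' := bt β N ℓ₁ with hβ'
  let gen : ℕ → Prop := fun n => ∀ i < 5 * ℓ, β' (n + i) ≠ none
  let x : ℕ → ℕ → K := fun n i => (β' (n + i)).getD default
  let σ : ℕ → ℝ := fun n => ∑ p ∈ PS W' ℓ, ((F ℓ (x n) p).card : ℝ) / p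
  let κ₀ : ℕ → ℝ := fun n => if gen n then (P : ℝ) * Real.exp (-σ n) else P
  have hgen : ∀ n n', wd β' (5 * ℓ) n = wd β' (5 * ℓ) n' → gen n → gen n' := by
    intro n n' h hg i hi
    rw [← Info_wd_eq h i hi]
    exact hg i hi
  have hFx : ∀ n n', wd β' (5 * ℓ) n = wd β' (5 * ℓ) n' → F ℓ (x n) = F ℓ (x n') := by
    intro n n' h
    refine hF.dep ℓ h0 _ _ fun i hi => ?_
    simp only [x]
    rw [Info_wd_eq h i hi]
  have hpos : ∀ n ∈ range N, 0 < κ₀ n := by
    intro n _
    simp only [κ₀]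
    split_ifs
    · exact mul_pos hPr (Real.exp_pos _)
    · exact hPr
  have hk : ∀ n ∈ range N, ((((range N).filter (fun y => wd β' (5 * ℓ) y = wd β' (5 * ℓ) n)).image
      (fun n => n % P)).card : ℝ) ≤ κ₀ n := by
    intro n hn
    simp only [κ₀]
    split_ifs with hg
    · have h2 := sup_card (PS W' ℓ) (fun p hp => (mem_filter.1 hp).2) (F ℓ (x n))
        (fun p _ => hF.sub ℓ (x n) p)
      refine le_trans ?_ h2
      refine Nat.cast_le.2 (card_le_card ?_)
      intro r hr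
      rw [mem_image] at hr
      obtain ⟨n', hn', rfl⟩ := hr
      rw [mem_filter, mem_range] at hn'
      rw [mem_filter, mem_range]
      refine ⟨Nat.mod_lt _ hP0, fun p hp => ?_⟩
      have hpP : p ∣ P := by
        rw [hP]
        unfold PP
        exact Finset.dvd_prod_of_mem _ hp
      rw [Nat.mod_mod_of_dvd _ hpP]
      have hg' : gen n' := hgen n n' hn'.2.symm hg
      have h3 : n' < N - 5 * ℓ₁ := by
        have h4 := Info_bt_ne (hg' 0 (by omega))
        rwa [add_zero, Nat.mod_eq_of_lt hn'.1] at h4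
      have h5 : F ℓ (x n) = F ℓ (fun i => β (n' + i)) := by
        refine hF.dep ℓ h0 _ _ fun i hi => ?_
        simp only [x]
        rw [← Info_wd_eq hn'.2 i hi, hβ', Info_bt_eq (hg' i hi) (by omega)]
        rfl
      rw [h5]
      exact hno n' hn'.1 p hp
    · refine Nat.cast_le.2 (le_trans (card_le_card (t := range P) ?_) (card_range P).le)
      intro r hr
      rw [mem_image] at hr
      obtain ⟨n', -, rfl⟩ := hr
      exact mem_range.2 (Nat.mod_lt _ hP0)
  have hc : ∀ p ∈ range N, ∀ q ∈ range N, wd β' (5 * ℓ) p = wd β' (5 * ℓ) q → κ₀ p = κ₀ q := by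
    intro p _ q _ h
    have h1 : gen p ↔ gen q := ⟨hgen p q h, hgen q p h.symm⟩
    simp only [κ₀, σ]
    rw [hFx p q h]
    by_cases hg : gen p
    · rw [if_pos hg, if_pos (h1.1 hg)]
    · rw [if_neg hg, if_neg (fun hq => hg (h1.2 hq))]
  have hmain := ent_lip' (S := range N) (nonempty_range_iff.2 hN0.ne') (wd β' (5 * ℓ))
    (fun n => n % P) κ₀ hpos (by
      intro p hp
      refine le_trans (Nat.cast_le.2 (card_le_card fun r hr => ?_)) (hk p hp)
      simp only [mem_image, mem_filter] at hr ⊢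
      exact hr) hc
  have hlog2 : 0 < Real.log 2 := Real.log_pos (by norm_num)
  set s : ℝ := c₁ * ℓ / Real.log ℓ / Real.log 2 with hs
  have hlogl : 0 < Real.log ℓ := Real.log_pos (by exact_mod_cast (by omega : 1 < ℓ))
  have hs0 : 0 ≤ s := by
    have := hF.c0
    positivity
  have hterm : ∀ n ∈ range N, Real.logb 2 (κ₀ n) ≤
      Real.logb 2 P - (if n < N - 10 * ℓ₁ then s else 0) := by
    intro n hn
    rw [mem_range] at hn
    simp only [κ₀]
    split_ifs with hg h6 h6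
    · rw [Real.logb_mul hPr.ne' (Real.exp_pos _).ne']
      have h7 : Real.logb 2 (Real.exp (-σ n)) = -(σ n / Real.log 2) := by
        rw [Real.logb, Real.log_exp]
        ring
      rw [h7]
      have h8 : s ≤ σ n / Real.log 2 := by
        rw [hs]
        exact div_le_div_of_nonneg_right (hF.sum ℓ h0 (x n)) hlog2.le
      linarith
    · rw [Real.logb_mul hPr.ne' (Real.exp_pos _).ne']
      have h7 : Real.logb 2 (Real.exp (-σ n)) = -(σ n / Real.log 2) := by
        rw [Real.logb, Real.log_exp]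
        ring
      rw [h7]
      have h8 : s ≤ σ n / Real.log 2 := by
        rw [hs]
        exact div_le_div_of_nonneg_right (hF.sum ℓ h0 (x n)) hlog2.le
      linarith
    · exfalso
      refine hg fun i hi => ?_
      have h9 : (n + i) % N < N - 5 * ℓ₁ := by
        rw [Nat.mod_eq_of_lt (by omega)]
        omega
      simp only [hβ', bt, if_pos h9]
      exact Option.some_ne_none _
    · linarith
  have hsum : (∑ n ∈ range N, Real.logb 2 (κ₀ n)) / ((range N).card : ℝ) ≤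
      Real.logb 2 P - s / 2 := by
    have hNr : (0 : ℝ) < N := by exact_mod_cast hN0
    rw [card_range, div_le_iff₀ hNr]
    have h1' : ∑ n ∈ range N, (Real.logb 2 P - (if n < N - 10 * ℓ₁ then s else 0)) =
        N * Real.logb 2 P - ((N - 10 * ℓ₁ : ℕ) : ℝ) * s := by
      rw [sum_sub_distrib, sum_const, card_range, nsmul_eq_mul]
      congr 1
      rw [← sum_filter]
      have : (range N).filter (fun n => n < N - 10 * ℓ₁) = range (N - 10 * ℓ₁) := by
        ext n
        simp only [mem_filter, mem_range]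
        omega
      rw [this, sum_const, card_range, nsmul_eq_mul]
    have h2' := sum_le_sum hterm
    rw [h1'] at h2'
    have h3' : (N : ℝ) / 2 ≤ ((N - 10 * ℓ₁ : ℕ) : ℝ) := by
      rw [Nat.cast_sub (by omega)]
      push_cast
      have : (20 : ℝ) * ℓ₁ ≤ N := by exact_mod_cast hN
      linarith
    nlinarith [mul_le_mul_of_nonneg_right h3' hs0]
  have hfin : s / 2 = c₁ / (2 * Real.log 2) * (ℓ / Real.log ℓ) := by
    rw [hs]
    field_simp
  rw [← hfin]
  linarith

end Pool.Agent.Lib.MP_d57abb_nt.All
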