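import Mathlib

/-!
# JOB Seq: the sequence lemma

PROOF.  WLOG `c > 0`, `C ≥ 1` (replace `C` by `max C 1`), and `ℓ₀ ≥ 3` large enough that for all `x ≥ log ℓ₀`: `⌈2 C x / c⌉ ≤ x²` and `⌈2 C x / c⌉ ≥ 2` and `x ≥ 2` (we may increase `ℓ₀`).  Define `λ_0 = ℓ₀`, `λ_{j+1} = k_j λ_j` with `k_j = ⌈2 C log λ_j / c⌉₊`, `L_j = log λ_j`.
`C / k_j ≤ c / (2 L_j)`, so as long as `λ_{j+1} ≤ ℓ₁`, `r (λ_{j+1}) ≤ r (λ_j) - c / (2 L_j)`.  `k_j ≥ 2` gives `L_j ≥ L_0 + j log 2 → ∞`; `k_j ≤ L_j²` gives `L_{j+1} ≤ L_j + 2 log L_j`.  Potential: `log log` : by `log (1 + t) ≤ t`,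
`log L_{j+1} - log L_j ≤ 2 log L_j / L_j` and `log log L_{j+1} - log log L_j = log (log L_{j+1} / log L_j) ≤ (log L_{j+1} - log L_j) / log L_j ≤ 2 / L_j`.  So `∑_{i<j} 1 / L_i ≥ (1/2) (log log L_j - log log L_0) → ∞`: there is `J`
with `(c / 2) ∑_{i<J} 1 / L_i > E`; `ℓ₁ = λ_J`.  Then `r (λ_J) ≤ r (λ_0) - (c/2) ∑_{i<J} 1/L_i < E - E = 0`, a contradiction.  (`λ_j` is increasing, so `ℓ₀ ≤ λ_j ≤ ℓ₁` for all `j ≤ J`.)
Note: `ℓ₁` depends on `ℓ₀, c, C, E` only, not on `r`; if `ℓ₀` is increased to `ℓ₀'` the hypotheses on `[ℓ₀, ℓ₁]` contain those on `[ℓ₀', ℓ₁]`.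
-/

namespace Pool.Agent.Lib.MP_d57abb_nt.All

open Filter in
theorem seq_lemma (E c C : ℝ) (ℓ₀ : ℕ) (hc : 0 < c) : ∃ ℓ₁ : ℕ, ℓ₀ ≤ ℓ₁ ∧ ¬ ∃ r : ℕ → ℝ,
    (∀ ℓ : ℕ, ℓ₀ ≤ ℓ → ℓ ≤ ℓ₁ → 0 ≤ r ℓ ∧ r ℓ ≤ E) ∧
    (∀ ℓ k : ℕ, ℓ₀ ≤ ℓ → 1 ≤ k → k * ℓ ≤ ℓ₁ → r (k * ℓ) ≤ r ℓ - c / Real.log ℓ + C / k) := by
  set C' : ℝ := max C 1 with hC'
  have hC1 : 1 ≤ C' := le_max_right _ _
  have hCC : C ≤ C' := le_max_left _ _
  have hC0 : 0 < C' := by linarith
  set X₀ : ℝ := 2 + 2 * C' / c + c / (2 * C') with hX₀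
  have hq1 : 0 < 2 * C' / c := by positivity
  have hq2 : 0 < c / (2 * C') := by positivity
  have hX2 : 2 ≤ X₀ := by linarith
  -- the multipliers
  let K : ℝ → ℕ := fun x => ⌈2 * C' / c * x⌉₊
  have hK2 : ∀ x, X₀ ≤ x → 2 ≤ K x := by
    intro x hx
    have h1 : (1 : ℝ) < 2 * C' / c * x := by
      have h2 : 2 * C' / c * (c / (2 * C')) = 1 := by field_simp
      calc (1 : ℝ) = 2 * C' / c * (c / (2 * C')) := h2.symm
        _ < 2 * C' / c * x := mul_lt_mul_of_pos_left (by linarith) hq1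
    have h3 : ((1 : ℕ) : ℝ) < 2 * C' / c * x := by exact_mod_cast h1
    exact Nat.lt_ceil.2 h3
  have hKge : ∀ x, 2 * C' / c * x ≤ K x := fun x => Nat.le_ceil _
  have hKle : ∀ x, X₀ ≤ x → (K x : ℝ) ≤ x ^ 2 := by
    intro x hx
    have hx0 : 0 ≤ x := by linarith
    have h1 : (K x : ℝ) < 2 * C' / c * x + 1 := Nat.ceil_lt_add_one (by positivity)
    have h2 : 2 * C' / c * x + 1 ≤ x ^ 2 := by
      have h3 : 2 * C' / c + 1 ≤ x := by linarith
      nlinarith [mul_le_mul_of_nonneg_right h3 hx0]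
    linarith
  set ℓ' : ℕ := max ℓ₀ ⌈Real.exp X₀⌉₊ with hℓ'
  have hℓ'X : X₀ ≤ Real.log ℓ' := by
    rw [← Real.log_exp X₀]
    refine Real.log_le_log (Real.exp_pos _) ?_
    refine (Nat.le_ceil _).trans ?_
    exact_mod_cast le_max_right _ _
  have hℓ'0 : 0 < ℓ' := by
    refine lt_of_lt_of_le ?_ (le_max_right _ _)
    exact Nat.ceil_pos.2 (Real.exp_pos _)
  obtain ⟨lam, lam0, lamS⟩ : ∃ lam : ℕ → ℕ, lam 0 = ℓ' ∧
      ∀ j, lam (j + 1) = K (Real.log (lam j)) * lam j :=
    ⟨fun j => Nat.rec ℓ' (fun _ l => K (Real.log l) * l) j, rfl, fun _ => rfl⟩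
  have hge : ∀ j, ℓ' ≤ lam j := by
    intro j
    induction j with
    | zero => exact lam0.ge
    | succ j ih =>
      rw [lamS]
      have h1 : X₀ ≤ Real.log (lam j) := hℓ'X.trans (Real.log_le_log (by exact_mod_cast hℓ'0)
        (by exact_mod_cast ih))
      have h2 := hK2 _ h1
      exact ih.trans (Nat.le_mul_of_pos_left _ (by omega))
  have hpos : ∀ j, 0 < lam j := fun j => lt_of_lt_of_le hℓ'0 (hge j)
  have hposr : ∀ j, (0 : ℝ) < lam j := fun j => by exact_mod_cast hpos j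
  have hL : ∀ j, X₀ ≤ Real.log (lam j) := fun j =>
    hℓ'X.trans (Real.log_le_log (by exact_mod_cast hℓ'0) (by exact_mod_cast hge j))
  have hKpos : ∀ j, 0 < K (Real.log (lam j)) := fun j => by
    have := hK2 _ (hL j)
    omega
  have hmono : Monotone lam := by
    refine monotone_nat_of_le_succ fun j => ?_
    rw [lamS]
    exact Nat.le_mul_of_pos_left _ (hKpos j)
  have hLS : ∀ j, Real.log (lam (j + 1)) = Real.log (K (Real.log (lam j))) + Real.log (lam j) := by
    intro j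
    rw [lamS, Nat.cast_mul, Real.log_mul]
    · exact_mod_cast (hKpos j).ne'
    · exact (hposr j).ne'
  have hup : ∀ j, Real.log (lam (j + 1)) ≤ Real.log (lam j) + 2 * Real.log (Real.log (lam j)) := by
    intro j
    rw [hLS]
    have h1 : Real.log (K (Real.log (lam j))) ≤ Real.log (Real.log (lam j) ^ 2) :=
      Real.log_le_log (by exact_mod_cast hKpos j) (hKle _ (hL j))
    rw [Real.log_pow] at h1
    push_cast at h1
    linarith
  have hlow : ∀ j : ℕ, (j : ℝ) * Real.log 2 ≤ Real.log (lam j) := by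
    intro j
    induction j with
    | zero =>
      have := hL 0
      simp only [Nat.cast_zero, zero_mul]
      linarith
    | succ j ih =>
      rw [hLS]
      have h1 : Real.log 2 ≤ Real.log (K (Real.log (lam j))) :=
        Real.log_le_log (by norm_num) (by exact_mod_cast hK2 _ (hL j))
      push_cast
      linarith
  have hlog2 : 0 < Real.log 2 := Real.log_pos (by norm_num)
  have htend : Tendsto (fun j : ℕ => Real.log (Real.log (Real.log (lam j)))) atTop atTop := by
    refine Real.tendsto_log_atTop.comp (Real.tendsto_log_atTop.comp ?_)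
    refine tendsto_atTop_mono hlow ?_
    exact Tendsto.atTop_mul_const hlog2 tendsto_natCast_atTop_atTop
  -- the potential
  have hpot : ∀ j, Real.log (Real.log (Real.log (lam (j + 1)))) -
      Real.log (Real.log (Real.log (lam j))) ≤ 2 / Real.log (lam j) := by
    intro j
    set L := Real.log (lam j) with hLd
    set L' := Real.log (lam (j + 1)) with hLd'
    have h2 : 2 ≤ L := hX2.trans (hL j)
    have h2' : 2 ≤ L' := hX2.trans (hL (j + 1))
    have hl0 : 0 < Real.log L := Real.log_pos (by linarith)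
    have hl0' : 0 < Real.log L' := Real.log_pos (by linarith)
    have h3 : Real.log L' - Real.log L ≤ 2 * Real.log L / L := by
      rw [← Real.log_div (by linarith) (by linarith)]
      refine (Real.log_le_sub_one_of_pos (by positivity)).trans ?_
      have h4 := hup j
      rw [div_sub_one (by linarith)]
      exact div_le_div_of_nonneg_right (by linarith) (by linarith)
    rw [← Real.log_div hl0'.ne' hl0.ne']
    refine (Real.log_le_sub_one_of_pos (by positivity)).trans ?_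
    rw [div_sub_one hl0.ne', div_le_iff₀ hl0]
    calc Real.log L' - Real.log L ≤ 2 * Real.log L / L := h3
      _ = 2 / L * Real.log L := by ring
  obtain ⟨J, hJ⟩ := (htend.eventually_ge_atTop
    (Real.log (Real.log (Real.log (lam 0))) + 4 * (|E| + 1) / c)).exists
  refine ⟨lam J, (le_max_left _ _).trans (hge J), ?_⟩
  rintro ⟨r, hr1, hr2⟩
  have hℓ₀ : ∀ j, ℓ₀ ≤ lam j := fun j => (le_max_left _ _).trans (hge j)
  have main : ∀ j, j ≤ J → r (lam j) ≤ r (lam 0) - c / 4 *
      (Real.log (Real.log (Real.log (lam j))) - Real.log (Real.log (Real.log (lam 0)))) := by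
    intro j
    induction j with
    | zero =>
      intro _
      simp
    | succ j ih =>
      intro hj
      have h1 := ih (by omega)
      have hle : K (Real.log (lam j)) * lam j ≤ lam J := by
        rw [← lamS]
        exact hmono hj
      have h2 := hr2 (lam j) (K (Real.log (lam j))) (hℓ₀ j) (hKpos j) hle
      rw [← lamS] at h2
      have hLpos : 0 < Real.log (lam j) := by linarith [hL j]
      have hKr : (0 : ℝ) < K (Real.log (lam j)) := by exact_mod_cast hKpos j
      have h3 : C / K (Real.log (lam j)) ≤ c / 2 / Real.log (lam j) := by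
        rw [div_le_div_iff₀ hKr hLpos]
        have h4 := hKge (Real.log (lam j))
        have h5 : c / 2 * (2 * C' / c * Real.log (lam j)) = C' * Real.log (lam j) := by
          field_simp
        calc C * Real.log (lam j) ≤ C' * Real.log (lam j) :=
              mul_le_mul_of_nonneg_right hCC hLpos.le
          _ = c / 2 * (2 * C' / c * Real.log (lam j)) := h5.symm
          _ ≤ c / 2 * K (Real.log (lam j)) := mul_le_mul_of_nonneg_left h4 (by linarith)
      have h6 := hpot j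
      have h7 : c / 4 * (Real.log (Real.log (Real.log (lam (j + 1)))) -
          Real.log (Real.log (Real.log (lam j)))) ≤ c / 4 * (2 / Real.log (lam j)) :=
        mul_le_mul_of_nonneg_left h6 (by linarith)
      have h8 : c / 4 * (2 / Real.log (lam j)) = c / Real.log (lam j) - c / 2 / Real.log (lam j) := by
        field_simp
        ring
      linarith
  have h1 := main J le_rfl
  have h2 := (hr1 (lam 0) (hℓ₀ 0) (hmono (Nat.zero_le J))).2
  have h3 := (hr1 (lam J) (hℓ₀ J) le_rfl).1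
  have h4 : c / 4 * (4 * (|E| + 1) / c) = |E| + 1 := by
    field_simp
  have h5 : c / 4 * (4 * (|E| + 1) / c) ≤ c / 4 * (Real.log (Real.log (Real.log (lam J))) -
      Real.log (Real.log (Real.log (lam 0)))) :=
    mul_le_mul_of_nonneg_left (by linarith) (by linarith)
  have h6 := le_abs_self E
  linarith

end Pool.Agent.Lib.MP_d57abb_nt.All
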