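import Mathlib
import Pool.Agent.Lib.MP_d57abb_nt.All.Info
import Pool.Agent.Lib.MP_d57abb_nt.All.Seq

/-!
# JOB Decr: the entropy decrement

PROOF.  `c = c₁ / (2 log 2)`, `C = 2 W'`, `E = 5 log₂ (|K| + 1)`, `ℓ₁` from `seq_lemma E c C ℓ₀`.  `N = 20 ℓ₁ (W' ℓ₁)!`, `N₁ = N` (`ℓ₁ ≥ ℓ₀ ≥ 2`, so `N > 0`).  `PP W' ℓ ∣ (W' ℓ₁)! ∣ N` for `ℓ ≤ ℓ₁`
(`Finset.prod_primes_dvd`: the primes in `PS W' ℓ` are distinct and divide `(W' ℓ₁)!`).  Suppose for some `β` there are no `n, ℓ, p` as claimed.  Then `K` is inhabited by `β 0` and the hypothesis `hno` of `info` holds for all `ℓ` in `[ℓ₀, ℓ₁]`.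
Let `β' = bt β N ℓ₁` (periodic mod `N`: `Nat.add_mod_right`), `r ℓ = ent (range N) (wd β' (5 ℓ)) / ℓ`.  This contradicts `seq_lemma`:
* `0 ≤ r ℓ` (`ent_nonneg`), `r ℓ ≤ E`: `ent_le_of_card` with `T` the image of `Finset.univ : Finset (Fin (5 ℓ) → Option K)` under `w ↦ fun i => if h : i < 5 ℓ then some (w ⟨i, h⟩) else none`, of cardinality `≤ (|K| + 1)^(5 ℓ)`.
* for `ℓ₀ ≤ ℓ`, `1 ≤ k`, `k ℓ ≤ ℓ₁`: `ent_step` with `H = 5 ℓ`, `P = PP W' ℓ`, `I = c (ℓ / log ℓ)` from `info`; `k * (5 ℓ) = 5 (k ℓ)`; divide by `k ℓ`: `r (k ℓ) ≤ r ℓ - c / log ℓ + log₂ P / (k ℓ)`, and `log₂ P ≤ 2 W' ℓ` (`PP_le`).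
-/

open Finset

namespace Pool.Agent.Lib.MP_d57abb_nt.All

open MP_5e4520_nt (ent ent_nonneg ent_le_of_card)

private theorem Decr_PP_dvd {W' ℓ ℓ₁ : ℕ} (h : ℓ ≤ ℓ₁) : PP W' ℓ ∣ (W' * ℓ₁).factorial := by
  unfold PP
  refine Finset.prod_primes_dvd _ (fun p hp => (mem_filter.1 hp).2.prime) (fun p hp => ?_)
  have hp1 := mem_Ioc.1 (mem_filter.1 hp).1
  exact Nat.dvd_factorial (by omega) (hp1.2.trans (Nat.mul_le_mul_left _ h))

private theorem Decr_bt_periodic {K : Type*} (β : ℕ → K) (N ℓ₁ n : ℕ) :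
    bt β N ℓ₁ (n + N) = bt β N ℓ₁ n := by
  unfold bt
  rw [Nat.add_mod_right]

private theorem Decr_ent_le {K : Type} [Fintype K] (β : ℕ → Option K) (N H : ℕ) (hN : 0 < N) :
    ent (range N) (wd β H) ≤ H * Real.logb 2 (Fintype.card K + 1) := by
  classical
  let φ : (Fin H → Option K) → (ℕ → Option (Option K)) := fun w =>
    fun i => if h : i < H then some (w ⟨i, h⟩) else none
  have h1 := ent_le_of_card (S := range N) (nonempty_range_iff.2 hN.ne') (wd β H)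
    (Finset.univ.image φ) (fun n _ => by
      refine mem_image.2 ⟨fun i => β (n + i), mem_univ _, ?_⟩
      funext i
      simp only [φ, wd]
      split_ifs <;> rfl)
  refine h1.trans ?_
  have h2 : ((Finset.univ.image φ).card : ℝ) ≤ ((Fintype.card K : ℝ) + 1) ^ H := by
    have h3 : (Finset.univ.image φ).card ≤ (Fintype.card K + 1) ^ H := by
      refine card_image_le.trans ?_
      rw [card_univ, Fintype.card_fun, Fintype.card_fin, Fintype.card_option]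
    exact_mod_cast h3
  have h4 : (0 : ℝ) < ((Finset.univ.image φ).card : ℝ) := by
    have : (Finset.univ.image φ).Nonempty := ⟨φ (fun _ => none), mem_image_of_mem _ (mem_univ _)⟩
    exact_mod_cast this.card_pos
  calc Real.logb 2 ((Finset.univ.image φ).card : ℝ)
      ≤ Real.logb 2 (((Fintype.card K : ℝ) + 1) ^ H) :=
        Real.logb_le_logb_of_le (by norm_num) h4 h2
    _ = H * Real.logb 2 (Fintype.card K + 1) := Real.logb_pow _ _ _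

theorem decr {K : Type} [Fintype K] {W' : ℕ} {c₁ : ℝ} {ℓ₀ : ℕ} {F : ℕ → (ℕ → K) → ℕ → Finset ℕ}
    (hF : Forb W' c₁ ℓ₀ F) :
    ∃ N₁ : ℕ, ∀ β : ℕ → K, ∃ n ℓ p : ℕ, n < N₁ ∧ ℓ₀ ≤ ℓ ∧ ℓ ≤ N₁ ∧ p ∈ PS W' ℓ ∧
      n % p ∈ F ℓ (fun i => β (n + i)) p := by
  have hlog2 : 0 < Real.log 2 := Real.log_pos (by norm_num)
  set c : ℝ := c₁ / (2 * Real.log 2) with hc
  have hc0 : 0 < c := by
    have := hF.c0
    positivity
  obtain ⟨ℓ₁, hl1, hno⟩ := seq_lemma (5 * Real.logb 2 (Fintype.card K + 1)) c (2 * W') ℓ₀ hc0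
  have hl2 : 2 ≤ ℓ₁ := hF.l0.trans hl1
  set N := 20 * ℓ₁ * (W' * ℓ₁).factorial with hNdef
  have hfac : 0 < (W' * ℓ₁).factorial := Nat.factorial_pos _
  have hN0 : 0 < N := by positivity
  have hN20 : 20 * ℓ₁ ≤ N := Nat.le_mul_of_pos_right _ hfac
  refine ⟨N, fun β => ?_⟩
  by_contra hcon
  push Not at hcon
  apply hno
  have : Inhabited K := ⟨β 0⟩
  refine ⟨fun ℓ => ent (range N) (wd (bt β N ℓ₁) (5 * ℓ)) / ℓ, fun ℓ h0 h1 => ?_, fun ℓ k h0 hk h1 => ?_⟩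
  · have hl : (0 : ℝ) < ℓ := by exact_mod_cast (by have := hF.l0; omega : 0 < ℓ)
    refine ⟨div_nonneg (ent_nonneg _ _) hl.le, ?_⟩
    rw [div_le_iff₀ hl]
    refine (Decr_ent_le (bt β N ℓ₁) N (5 * ℓ) hN0).trans (le_of_eq ?_)
    push_cast
    ring
  · have hl : (0 : ℝ) < ℓ := by exact_mod_cast (by have := hF.l0; omega : 0 < ℓ)
    have hkr : (0 : ℝ) < k := by exact_mod_cast (by omega : 0 < k)
    have hll : ℓ ≤ ℓ₁ := (Nat.le_mul_of_pos_left ℓ (by omega : 0 < k)).trans h1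
    have hinfo := info hF β N ℓ₁ ℓ h0 hll hN20 (fun n hn p hp =>
      hcon n ℓ p hn h0 (hll.trans (le_trans (by omega) hN20)) hp)
    have hPpos : 0 < PP W' ℓ := by
      unfold PP
      exact Finset.prod_pos fun p hp => (mem_filter.1 hp).2.pos
    have hPN : PP W' ℓ ∣ N := (Decr_PP_dvd hll).trans (Dvd.intro_left _ rfl)
    have hstep := ent_step N (PP W' ℓ) hN0 hPpos hPN (bt β N ℓ₁) (Decr_bt_periodic β N ℓ₁) (5 * ℓ) k
      (c * (ℓ / Real.log ℓ)) hinfo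
    have hPle := PP_le W' ℓ
    have e1 : k * (5 * ℓ) = 5 * (k * ℓ) := by ring
    rw [e1] at hstep
    show ent (range N) (wd (bt β N ℓ₁) (5 * (k * ℓ))) / ((k * ℓ : ℕ) : ℝ) ≤
      ent (range N) (wd (bt β N ℓ₁) (5 * ℓ)) / ℓ - c / Real.log ℓ + 2 * W' / k
    push_cast
    rw [div_le_iff₀ (mul_pos hkr hl)]
    have e2 : (ent (range N) (wd (bt β N ℓ₁) (5 * ℓ)) / ℓ - c / Real.log ℓ + 2 * W' / k) * (k * ℓ) =
        k * (ent (range N) (wd (bt β N ℓ₁) (5 * ℓ)) - c * (ℓ / Real.log ℓ)) + 2 * (W' * ℓ) := by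
      field_simp
    rw [e2]
    linarith

end Pool.Agent.Lib.MP_d57abb_nt.All
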