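import Mathlib
import Pool.Agent.Lib.MP_d57abb_nt.All.SW

/-!
# JOB SWk: Siegel-Walfisz for the values `W₁ k + n₀`, `k < v`, `k ≡ s (mod q)`

PROOF.  Let `c = W₁ s + n₀`, `M = W₁ q`, `Λ = log ℓ`, `S = ∑_{k < v, k ≡ s (q)} lp (W₁ k + n₀)`.  The map `k ↦ W₁ k + n₀` is a bijection from `{k < v : k ≡ s (mod q)}` to
`{n : n₀ ≤ n < W₁ v + n₀, n ≡ c (mod W₁ q)}` (`W₁ k + n₀ ≡ W₁ s + n₀ (mod W₁ q) ↔ k ≡ s (mod q)`; conversely `n ≡ c (mod W₁ q)`, `n ≥ n₀` gives `n = W₁ k + n₀`).  So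
(1) `S = ∑_{n ∈ Ioc 0 y, n ≡ c (M)} lp n - ∑_{n < n₀, n ≡ c (M)} lp n`, `y = W₁ v + n₀ - 1` (for `v ≥ 1`; `lp 0 = 0`), the second sum is in `[0, n₀²]` (`lp n ≤ n`).
Also (2) `0 ≤ S ≤ v log (W₁ v + n₀)` and the main term is in `[0, v W₁]`.
Case A: `c` is not prime to `q`.  Let `r` be a prime dividing `c` and `q`; all `W₁ k + n₀` with `k ≡ s (mod q)` are divisible by `r`, so `lp (W₁ k + n₀) ≠ 0` only if
`W₁ k + n₀ = r`, at most one `k`: `0 ≤ S ≤ log r ≤ log q ≤ B log Λ ≤ ℓ / Λ^A` for large `ℓ`.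
Case B: `c` is prime to `q`, and `v ≤ ℓ / Λ^(A+2)`: by (2), `|S - main| ≤ v (log (W₁ v + n₀) + W₁) ≤ (ℓ / Λ^(A+2)) (2 Λ + W₁) ≤ ℓ / Λ^A` for large `ℓ`
(`log (5 W₁ ℓ + n₀) ≤ 2 log ℓ`).
Case C: `c` is prime to `q` (so to `M`, as `n₀` is prime to `W₁`) and `v > ℓ / Λ^(A+2) ≥ √ℓ + 1`: `y ≥ √ℓ`, `log y ≥ Λ / 2`, `y ≥ y₀`, and `M ≤ W₁ Λ^B ≤ (Λ / 2)^(B+1) ≤ (log y)^(B+1)`.  `sw (A+1) (B+1)` gives
`|∑_{n ≤ y, n ≡ c} lp n - y / φ(M)| ≤ y / (log y)^(A+1) ≤ (5 W₁ ℓ + n₀) 2^(A+1) / Λ^(A+1) ≤ ℓ / (2 Λ^A)`, and `|y / φ(M) - v W₁ / φ(M)| ≤ n₀ + 1`; add `n₀²`.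
All for large `ℓ` are filter statements: `Λ → ∞`, and `Λ^j / ℓ → 0` for fixed `j` (`Real.isLittleO_pow_log_id_atTop`).
-/

open Finset Filter

namespace Pool.Agent.Lib.MP_d57abb_nt.All

private theorem SWk_ev (C : ℝ) (j : ℕ) :
    ∀ᶠ ℓ : ℕ in atTop, C * Real.log (ℓ : ℝ) ^ j ≤ (ℓ : ℝ) := by
  have h1 := (Real.isLittleO_pow_log_id_atTop (n := j)).const_mul_left C
  have h2 := h1.bound (one_pos)
  have h3 := (tendsto_natCast_atTop_atTop (R := ℝ)).eventually h2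
  filter_upwards [h3] with ℓ hℓ
  have h4 : (0 : ℝ) ≤ (ℓ : ℝ) := Nat.cast_nonneg ℓ
  rw [one_mul, id, Real.norm_eq_abs, Real.norm_eq_abs, abs_of_nonneg h4] at hℓ
  exact le_trans (le_abs_self _) hℓ

private theorem SWk_ev' (C : ℝ) : ∀ᶠ ℓ : ℕ in atTop, C ≤ Real.log (ℓ : ℝ) :=
  (Real.tendsto_log_atTop.comp (tendsto_natCast_atTop_atTop (R := ℝ))).eventually_ge_atTop C

private theorem SWk_lp_nonneg (n : ℕ) : 0 ≤ lp n := by
  unfold lp
  split_ifs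
  · exact Real.log_natCast_nonneg n
  · exact le_rfl

private theorem SWk_lp_le (n : ℕ) : lp n ≤ n := by
  unfold lp
  split_ifs
  · exact Real.log_le_self (Nat.cast_nonneg n)
  · exact Nat.cast_nonneg n

private theorem SWk_lp_zero : lp 0 = 0 := by
  unfold lp
  rw [if_neg Nat.not_prime_zero]

private theorem SWk_lp_log {n y : ℕ} (h : n ≤ y) (_hy : 0 < y) : lp n ≤ Real.log y := by
  unfold lp
  split_ifs with hp
  · exact Real.log_le_log (by exact_mod_cast hp.pos) (by exact_mod_cast h)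
  · exact Real.log_natCast_nonneg y

/-- the bijection -/
private theorem SWk_bij (W₁ n₀ q s v : ℕ) (hW : 0 < W₁) (hv : 0 < v) :
    ∑ n ∈ ((Finset.Ioc 0 (W₁ * v + n₀ - 1)).filter
      (fun n => n ≡ W₁ * s + n₀ [MOD W₁ * q])).filter (fun n => n₀ ≤ n), lp n =
    ∑ k ∈ (range v).filter (fun k => k ≡ s [MOD q]), lp (W₁ * k + n₀) := by
  classical
  have hinj : Set.InjOn (fun k => W₁ * k + n₀)
      (((range v).filter (fun k => k ≡ s [MOD q]) : Finset ℕ) : Set ℕ) := by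
    intro a _ b _ hab
    have h1 : W₁ * a + n₀ = W₁ * b + n₀ := hab
    have h2 : W₁ * a = W₁ * b := by omega
    exact Nat.eq_of_mul_eq_mul_left hW h2
  rw [← Finset.sum_image (f := lp) hinj]
  refine Finset.sum_subset ?_ ?_
  · intro n hn
    rw [mem_filter, mem_filter, Finset.mem_Ioc] at hn
    obtain ⟨⟨⟨h1, h2⟩, h3⟩, h4⟩ := hn
    obtain ⟨e, he⟩ := Nat.exists_eq_add_of_le h4
    have h5 : n₀ + e ≡ W₁ * s + n₀ [MOD W₁ * q] := by rw [← he]; exact h3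
    have h6 : e ≡ W₁ * s [MOD W₁ * q] := by
      have h7 : e + n₀ ≡ W₁ * s + n₀ [MOD W₁ * q] := by rw [Nat.add_comm e n₀]; exact h5
      exact Nat.ModEq.add_right_cancel' n₀ h7
    have h7 : e ≡ W₁ * s [MOD W₁] := h6.of_mul_right q
    have h8 : W₁ ∣ e := by
      have h9 : e ≡ 0 [MOD W₁] := h7.trans ((Nat.modEq_zero_iff_dvd).mpr (Dvd.intro s rfl))
      exact (Nat.modEq_zero_iff_dvd).mp h9
    obtain ⟨k, rfl⟩ := h8
    rw [mem_image]
    refine ⟨k, ?_, by rw [he, Nat.add_comm]⟩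
    rw [mem_filter, mem_range]
    refine ⟨?_, Nat.ModEq.mul_left_cancel' hW.ne' h6⟩
    by_contra hk
    have h9 : W₁ * v ≤ W₁ * k := Nat.mul_le_mul_left W₁ (not_lt.mp hk)
    have h10 : 0 < W₁ * v := Nat.mul_pos hW hv
    omega
  · intro n hn hn'
    rw [mem_image] at hn
    obtain ⟨k, hk, rfl⟩ := hn
    rw [mem_filter, mem_range] at hk
    rcases Nat.eq_zero_or_pos (W₁ * k + n₀) with h0 | h0
    · rw [h0]; exact SWk_lp_zero
    · exfalso
      apply hn'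
      rw [mem_filter, mem_filter, Finset.mem_Ioc]
      refine ⟨⟨⟨h0, ?_⟩, ?_⟩, Nat.le_add_left _ _⟩
      · have h1 : W₁ * (k + 1) ≤ W₁ * v := Nat.mul_le_mul_left W₁ hk.1
        rw [Nat.mul_add, Nat.mul_one] at h1
        omega
      · exact Nat.ModEq.add_right n₀ (Nat.ModEq.mul_left' W₁ hk.2)

/-- case A -/
private theorem SWk_caseA (W₁ n₀ q s v : ℕ) (hW : 0 < W₁) (hq : 0 < q)
    (h : ¬ Nat.Coprime (W₁ * s + n₀) q) :
    ∑ k ∈ (range v).filter (fun k => k ≡ s [MOD q]), lp (W₁ * k + n₀) ≤ q := by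
  obtain ⟨r, hr, hr1, hr2⟩ := Nat.Prime.not_coprime_iff_dvd.mp h
  have h1 : ∀ k ∈ (range v).filter (fun k => k ≡ s [MOD q]),
      lp (W₁ * k + n₀) ≤ if W₁ * k + n₀ = r then Real.log r else 0 := by
    intro k hk
    rw [mem_filter] at hk
    have h2 : r ∣ W₁ * k + n₀ := by
      have h3 : W₁ * k + n₀ ≡ W₁ * s + n₀ [MOD r] :=
        Nat.ModEq.add_right n₀ (Nat.ModEq.mul_left W₁ (hk.2.of_dvd hr2))
      exact (h3.dvd_iff dvd_rfl).mpr hr1
    unfold lp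
    by_cases hp : (W₁ * k + n₀).Prime
    · rw [if_pos hp]
      have h4 : r = W₁ * k + n₀ := (Nat.prime_dvd_prime_iff_eq hr hp).mp h2
      rw [if_pos h4.symm, ← h4]
    · rw [if_neg hp]
      split_ifs
      · exact Real.log_natCast_nonneg r
      · exact le_rfl
  refine (Finset.sum_le_sum h1).trans ?_
  rw [← Finset.sum_filter, Finset.sum_const, nsmul_eq_mul]
  have h2 : (((range v).filter (fun k => k ≡ s [MOD q])).filter
      (fun k => W₁ * k + n₀ = r)).card ≤ 1 := by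
    rw [Finset.card_le_one]
    intro a ha b hb
    rw [mem_filter] at ha hb
    have h3 : W₁ * a = W₁ * b := by
      have := ha.2
      have := hb.2
      omega
    exact Nat.eq_of_mul_eq_mul_left hW h3
  have h3 : Real.log r ≤ q := by
    have h4 : (r : ℝ) ≤ q := by exact_mod_cast Nat.le_of_dvd hq hr2
    exact (Real.log_le_self (Nat.cast_nonneg r)).trans h4
  have h4 : (0 : ℝ) ≤ Real.log r := Real.log_natCast_nonneg r
  have h5 : (((((range v).filter (fun k => k ≡ s [MOD q])).filter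
      (fun k => W₁ * k + n₀ = r)).card : ℕ) : ℝ) ≤ 1 := by exact_mod_cast h2
  nlinarith

/-- the elementary bounds -/
private theorem SWk_triv (W₁ n₀ q s v : ℕ) (hW : 0 < W₁) (hv : 0 < v) :
    ∑ k ∈ (range v).filter (fun k => k ≡ s [MOD q]), lp (W₁ * k + n₀) ≤
      v * Real.log ((W₁ * v + n₀ : ℕ) : ℝ) := by
  have h0 : 0 < W₁ * v + n₀ := Nat.add_pos_left (Nat.mul_pos hW hv) _
  have h1 : ∀ k ∈ (range v).filter (fun k => k ≡ s [MOD q]),
      lp (W₁ * k + n₀) ≤ Real.log ((W₁ * v + n₀ : ℕ) : ℝ) := by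
    intro k hk
    rw [mem_filter, mem_range] at hk
    have h2 : W₁ * k ≤ W₁ * v := Nat.mul_le_mul_left W₁ hk.1.le
    exact SWk_lp_log (by omega) h0
  refine (Finset.sum_le_card_nsmul _ _ _ h1).trans ?_
  rw [nsmul_eq_mul]
  refine mul_le_mul_of_nonneg_right ?_ (Real.log_natCast_nonneg _)
  have h2 : ((range v).filter (fun k => k ≡ s [MOD q])).card ≤ v :=
    (Finset.card_filter_le _ _).trans (by rw [card_range])
  exact_mod_cast h2

private theorem SWk_rest (W₁ n₀ q s y : ℕ) :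
    ∑ n ∈ ((Finset.Ioc 0 y).filter (fun n => n ≡ W₁ * s + n₀ [MOD W₁ * q])).filter
      (fun n => ¬ n₀ ≤ n), lp n ≤ (n₀ : ℝ) ^ 2 := by
  have h1 : ((Finset.Ioc 0 y).filter (fun n => n ≡ W₁ * s + n₀ [MOD W₁ * q])).filter
      (fun n => ¬ n₀ ≤ n) ⊆ range n₀ := by
    intro n hn
    rw [mem_filter] at hn
    rw [mem_range]
    exact not_le.mp hn.2
  refine (Finset.sum_le_sum_of_subset_of_nonneg h1 (fun n _ _ => SWk_lp_nonneg n)).trans ?_
  have h2 : ∀ n ∈ range n₀, lp n ≤ (n₀ : ℝ) := by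
    intro n hn
    have h3 : (n : ℝ) ≤ n₀ := by exact_mod_cast (mem_range.mp hn).le
    exact (SWk_lp_le n).trans h3
  refine (Finset.sum_le_card_nsmul _ _ _ h2).trans ?_
  rw [card_range, nsmul_eq_mul, sq]

theorem swk (W₁ n₀ : ℕ) (hW : 0 < W₁) (hc : Nat.Coprime n₀ W₁) (A B : ℕ) : ∃ ℓ₀ : ℕ, ∀ ℓ : ℕ, ℓ₀ ≤ ℓ →
    ∀ q : ℕ, 0 < q → (q : ℝ) ≤ Real.log ℓ ^ B → ∀ s v : ℕ, v ≤ 5 * ℓ →
    |∑ k ∈ (range v).filter (fun k => k ≡ s [MOD q]), lp (W₁ * k + n₀) -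
      (if Nat.Coprime (W₁ * s + n₀) q then (v : ℝ) * W₁ / (Nat.totient (W₁ * q) : ℝ) else 0)| ≤
      ℓ / Real.log ℓ ^ A := by
  obtain ⟨y₀, hy₀⟩ := sw (A + 1) (B + 1)
  have hev := (((((((((SWk_ev 1 (A + B)).and (SWk_ev 4 (2 * A + 4))).and
    (SWk_ev (2 * ((n₀ : ℝ) ^ 2 + n₀ + 1)) A)).and (SWk_ev' 2)).and (SWk_ev' (W₁ : ℝ))).and
    (SWk_ev' ((W₁ : ℝ) * 2 ^ (B + 1)))).and (SWk_ev' ((5 * (W₁ : ℝ) + n₀) * 2 ^ (A + 2)))).and
    (Filter.eventually_ge_atTop (y₀ ^ 2))).and (Filter.eventually_ge_atTop (5 * W₁ + n₀ + 1)))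
  obtain ⟨ℓ₀, hℓ₀⟩ := Filter.eventually_atTop.mp hev
  refine ⟨ℓ₀, fun ℓ hℓ q hq hqB s v hv => ?_⟩
  obtain ⟨⟨⟨⟨⟨⟨⟨⟨e1, e4⟩, e8⟩, eL⟩, eW⟩, e6⟩, e7⟩, e5⟩, e2⟩ := hℓ₀ ℓ hℓ
  set Λ : ℝ := Real.log ℓ with hΛ
  have hΛ0 : 0 < Λ := by linarith
  have hΛA : 0 < Λ ^ A := pow_pos hΛ0 A
  have hℓ1 : (1 : ℝ) ≤ ℓ := by
    have : 1 ≤ ℓ := by omega
    exact_mod_cast this
  have hℓ0 : (0 : ℝ) < ℓ := by linarith
  have hS0 : 0 ≤ ∑ k ∈ (range v).filter (fun k => k ≡ s [MOD q]), lp (W₁ * k + n₀) :=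
    Finset.sum_nonneg fun k _ => SWk_lp_nonneg _
  have hM : 0 < W₁ * q := Nat.mul_pos hW hq
  have hφ : (1 : ℝ) ≤ (Nat.totient (W₁ * q) : ℝ) := by
    exact_mod_cast Nat.totient_pos.mpr hM
  by_cases hcop : Nat.Coprime (W₁ * s + n₀) q
  · rw [if_pos hcop]
    have hmain0 : 0 ≤ (v : ℝ) * W₁ / (Nat.totient (W₁ * q) : ℝ) := by positivity
    by_cases hvs : (v : ℝ) ≤ ℓ / Λ ^ (A + 2)
    · -- case B
      have h1 : (v : ℝ) * Λ ^ 2 ≤ ℓ / Λ ^ A := by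
        rw [le_div_iff₀ hΛA]
        rw [le_div_iff₀ (pow_pos hΛ0 _)] at hvs
        calc (v : ℝ) * Λ ^ 2 * Λ ^ A = v * Λ ^ (A + 2) := by ring
          _ ≤ ℓ := hvs
      have hmain : (v : ℝ) * W₁ / (Nat.totient (W₁ * q) : ℝ) ≤ ℓ / Λ ^ A := by
        refine le_trans (div_le_self (by positivity) hφ) (le_trans ?_ h1)
        refine mul_le_mul_of_nonneg_left ?_ (Nat.cast_nonneg v)
        nlinarith
      have hS : ∑ k ∈ (range v).filter (fun k => k ≡ s [MOD q]), lp (W₁ * k + n₀) ≤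
          ℓ / Λ ^ A := by
        rcases Nat.eq_zero_or_pos v with rfl | hv0
        · simp only [range_zero, filter_empty, sum_empty]
          positivity
        · refine le_trans (SWk_triv W₁ n₀ q s v hW hv0) (le_trans ?_ h1)
          refine mul_le_mul_of_nonneg_left ?_ (Nat.cast_nonneg v)
          have h2 : W₁ * v + n₀ ≤ ℓ * ℓ := by
            have h3 : W₁ * v ≤ W₁ * (5 * ℓ) := Nat.mul_le_mul_left _ hv
            have h4 : (5 * W₁ + n₀) * ℓ ≤ ℓ * ℓ := Nat.mul_le_mul_right _ (by omega)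
            have h5 : n₀ ≤ n₀ * ℓ := Nat.le_mul_of_pos_right _ (by omega)
            nlinarith
          have h3 : ((W₁ * v + n₀ : ℕ) : ℝ) ≤ (ℓ : ℝ) * ℓ := by exact_mod_cast h2
          have h4 : (0 : ℝ) < ((W₁ * v + n₀ : ℕ) : ℝ) := by
            exact_mod_cast Nat.add_pos_left (Nat.mul_pos hW hv0) _
          have h5 := Real.log_le_log h4 h3
          rw [Real.log_mul hℓ0.ne' hℓ0.ne'] at h5
          nlinarith
      rw [abs_le]
      constructor <;> linarith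
    · -- case C
      rw [not_le] at hvs
      have hsq : Real.sqrt ℓ * Real.sqrt ℓ = ℓ := Real.mul_self_sqrt hℓ0.le
      have hs1 : 1 ≤ Real.sqrt ℓ := Real.one_le_sqrt.mpr hℓ1
      have h1 : 2 * Λ ^ (A + 2) ≤ Real.sqrt ℓ := by
        apply Real.le_sqrt_of_sq_le
        calc (2 * Λ ^ (A + 2)) ^ 2 = 4 * Λ ^ (2 * A + 4) := by ring
          _ ≤ ℓ := e4
      have h2 : Real.sqrt ℓ + 1 ≤ ℓ / Λ ^ (A + 2) := by
        have hp : 0 < Λ ^ (A + 2) := pow_pos hΛ0 _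
        rw [le_div_iff₀ hp]
        nlinarith
      have hv1 : Real.sqrt ℓ + 1 < v := lt_of_le_of_lt h2 hvs
      have hv0 : 0 < v := by
        have : (0 : ℝ) < v := by linarith
        exact_mod_cast this
      set y : ℕ := W₁ * v + n₀ - 1 with hy
      have hWv : 0 < W₁ * v := Nat.mul_pos hW hv0
      have hy1 : (y : ℝ) = (W₁ : ℝ) * v + n₀ - 1 := by
        have : y + 1 = W₁ * v + n₀ := by omega
        have h3 : (y : ℝ) + 1 = (W₁ : ℝ) * v + n₀ := by exact_mod_cast this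
        linarith
      have hW1 : (1 : ℝ) ≤ W₁ := by exact_mod_cast hW
      have hn0 : (0 : ℝ) ≤ n₀ := Nat.cast_nonneg n₀
      have hvr : (0 : ℝ) ≤ v := Nat.cast_nonneg v
      have hyl : Real.sqrt ℓ ≤ y := by
        rw [hy1]
        nlinarith
      have hlogy : Λ / 2 ≤ Real.log y := by
        rw [hΛ, ← Real.log_sqrt hℓ0.le]
        exact Real.log_le_log (by linarith) hyl
      have hyy : y₀ ≤ y := by
        have h3 : (y₀ : ℝ) ≤ Real.sqrt ℓ := by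
          apply Real.le_sqrt_of_sq_le
          exact_mod_cast e5
        have h4 : (y₀ : ℝ) ≤ y := h3.trans hyl
        exact_mod_cast h4
      have hMle : ((W₁ * q : ℕ) : ℝ) ≤ Real.log y ^ (B + 1) := by
        have h3 : (W₁ : ℝ) * Λ ^ B ≤ (Λ / 2) ^ (B + 1) := by
          have h4 : (Λ / 2) ^ (B + 1) = Λ * Λ ^ B / 2 ^ (B + 1) := by
            rw [div_pow, pow_succ Λ B, mul_comm]
          rw [h4, le_div_iff₀ (by positivity)]
          calc (W₁ : ℝ) * Λ ^ B * 2 ^ (B + 1) = (W₁ * 2 ^ (B + 1)) * Λ ^ B := by ring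
            _ ≤ Λ * Λ ^ B := mul_le_mul_of_nonneg_right e6 (by positivity)
        have h4 : (Λ / 2) ^ (B + 1) ≤ Real.log y ^ (B + 1) :=
          pow_le_pow_left₀ (by positivity) hlogy _
        have h5 : ((W₁ * q : ℕ) : ℝ) ≤ (W₁ : ℝ) * Λ ^ B := by
          push_cast
          exact mul_le_mul_of_nonneg_left hqB (by positivity)
        linarith
      have hcM : Nat.Coprime (W₁ * s + n₀) (W₁ * q) := by
        refine Nat.Coprime.mul_right ?_ hcop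
        rw [Nat.add_comm, Nat.coprime_add_mul_left_left]
        exact hc
      have hsw := hy₀ y hyy (W₁ * q) hM hMle (W₁ * s + n₀) hcM
      have hbij := SWk_bij W₁ n₀ q s v hW hv0
      have hrest := SWk_rest W₁ n₀ q s y
      have hrest0 : 0 ≤ ∑ n ∈ ((Finset.Ioc 0 y).filter
          (fun n => n ≡ W₁ * s + n₀ [MOD W₁ * q])).filter (fun n => ¬ n₀ ≤ n), lp n :=
        Finset.sum_nonneg fun n _ => SWk_lp_nonneg n
      have hsplit := Finset.sum_filter_add_sum_filter_not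
        ((Finset.Ioc 0 y).filter (fun n => n ≡ W₁ * s + n₀ [MOD W₁ * q])) (fun n => n₀ ≤ n) lp
      rw [hbij] at hsplit
      have hbig : (y : ℝ) / Real.log y ^ (A + 1) ≤ ℓ / Λ ^ A / 2 := by
        have h3 : (Λ / 2) ^ (A + 1) ≤ Real.log y ^ (A + 1) :=
          pow_le_pow_left₀ (by positivity) hlogy _
        have h4 : (y : ℝ) / Real.log y ^ (A + 1) ≤ y / (Λ / 2) ^ (A + 1) :=
          div_le_div_of_nonneg_left (Nat.cast_nonneg y) (by positivity) h3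
        refine h4.trans ?_
        have h5 : (y : ℝ) ≤ (5 * W₁ + n₀) * ℓ := by
          have h6 : (v : ℝ) ≤ 5 * ℓ := by exact_mod_cast hv
          rw [hy1]
          nlinarith
        have h6 : ℓ / Λ ^ A / 2 = (ℓ * Λ / 2 ^ (A + 2)) / (Λ / 2) ^ (A + 1) := by
          rw [div_pow, pow_succ Λ A, pow_succ (2 : ℝ) A, pow_succ (2 : ℝ) (A + 1),
            pow_succ (2 : ℝ) A]
          field_simp
        rw [h6]
        refine div_le_div_of_nonneg_right ?_ (by positivity)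
        rw [le_div_iff₀ (by positivity)]
        calc (y : ℝ) * 2 ^ (A + 2) ≤ ((5 * W₁ + n₀) * ℓ) * 2 ^ (A + 2) :=
              mul_le_mul_of_nonneg_right h5 (by positivity)
          _ = ℓ * ((5 * W₁ + n₀) * 2 ^ (A + 2)) := by ring
          _ ≤ ℓ * Λ := mul_le_mul_of_nonneg_left e7 hℓ0.le
      have hsmall : (n₀ : ℝ) ^ 2 + n₀ + 1 ≤ ℓ / Λ ^ A / 2 := by
        rw [div_div, le_div_iff₀ (by positivity)]
        linarith
      have hdiff : |(y : ℝ) / (Nat.totient (W₁ * q) : ℝ) -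
          (v : ℝ) * W₁ / (Nat.totient (W₁ * q) : ℝ)| ≤ n₀ + 1 := by
        rw [← sub_div, abs_div, abs_of_nonneg (by linarith : (0 : ℝ) ≤ (Nat.totient (W₁ * q) : ℝ))]
        refine (div_le_self (abs_nonneg _) hφ).trans ?_
        rw [hy1, abs_le]
        constructor <;> nlinarith
      rw [abs_le] at hsw hdiff ⊢
      constructor
      · linarith [hsw.1, hsw.2, hdiff.1, hdiff.2]
      · linarith [hsw.1, hsw.2, hdiff.1, hdiff.2]
  · rw [if_neg hcop, sub_zero, abs_of_nonneg hS0]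
    refine (SWk_caseA W₁ n₀ q s v hW hq hcop).trans ?_
    rw [le_div_iff₀ hΛA]
    calc (q : ℝ) * Λ ^ A ≤ Λ ^ B * Λ ^ A := mul_le_mul_of_nonneg_right hqB hΛA.le
      _ = 1 * Λ ^ (A + B) := by ring
      _ ≤ ℓ := e1

end Pool.Agent.Lib.MP_d57abb_nt.All
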