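import Mathlib
import Pool.Agent.Lib.MP_d57abb_nt.All.SWk
import Pool.Agent.Lib.MP_d57abb_nt.All.Cos
import Pool.Agent.Lib.MP_d57abb_nt.All.CosA
import Pool.Agent.Lib.MP_d57abb_nt.All.Abel

/-!
# JOB Maj: the major arcs

PROOF of `abel_e`: Abel summation; `‖e (k β) - e ((k+1) β)‖ ≤ 2 π |β|` (`norm_e_sub_one` in `MP_2a816b_nt/Expo`, `|sin x| ≤ |x|`).

PROOF of `maj`.  `d = dens W₁ = W₁ / φ(W₁) ≥ 1`, `g k = lp (W₁ k + n₀)`, `Λ = log ℓ`, `T = Tq W₁ n₀ q`, `D_u(x) = ∑_{k<u} e (k x)`.  Let `θ = a / q + β`.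
`swk W₁ n₀ (2 B + 1) B` for large `ℓ`.  For `s < q` put `E_s k = (if k ≡ s [MOD q] then g k else 0) - (if s ∈ T then W₁ / φ(W₁ q) else 0)`, its initial sums over `k < v` are bounded by `ℓ / Λ^(2B+1)` for all `v ≤ 5 ℓ`.
Since `e (k θ) = e (a s / q) e (k β)` for `k ≡ s (mod q)`,
`∑_{k<u} g k e (k θ) = ∑_{s<q} e (a s / q) ∑_{k<u, k ≡ s} g k e (k β) = (W₁ / φ(W₁ q)) (∑_{s ∈ T} e (a s / q)) D_u(β) + ∑_{s<q} e (a s / q) ∑_{k<u} E_s k e (k β)`,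
and by `abel_e` the last term is at most `q (ℓ / Λ^(2B+1)) (1 + 2 π u |β|) ≤ Λ^B (ℓ / Λ^(2B+1)) (1 + 10 π Λ^B) ≤ 33 ℓ / Λ ≤ (ε / 2) ℓ` (`1 + 10 π Λ^B ≤ 33 Λ^B`, `Λ ≥ 1`).
`q = 1`: `T = {0}`, `a s / q = 0`, `W₁ / φ(W₁ q) = d`, and `e (k β) = e (k θ)` (`k a` is an integer), so the first term is exactly `∑_{k<u} d e (k θ)`.
`q > 1`: `cos_sum` and `card_Tq`: `|(W₁ / φ(W₁ q)) ∑_T e (a s / q)| ≤ (W₁ / φ(W₁ q)) |T| / w = d / w` (`|T| φ(W₁) = φ(W₁ q)`), times `|D_u(β)| ≤ u ≤ 5 ℓ`.  And `‖∑_{k<u} d e (k θ)‖ = d ‖D_u(θ)‖ ≤ d / (2 nn θ)`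
(`norm_D_mul_nn`), `nn θ ≥ 1/q - |β| ≥ 1/(2q)` (`|a/q - m| ≥ 1/q` for every integer `m` as `q ∤ a`; `|β| ≤ Λ^B / ℓ ≤ 1 / (2 Λ^B) ≤ 1/(2q)` for large `ℓ`), so it is at most `d q ≤ d Λ^B ≤ (ε/2) ℓ` for large `ℓ`.
(`D`, `nn` are those of `MP_2a816b_nt/Expo`: `D u x = ∑ k ∈ range u, e (k * x)`.)
-/

open Finset Filter

namespace Pool.Agent.Lib.MP_d57abb_nt.All

open Pool.Agent.Lib.MP_2a816b_nt (e norm_e e_add e_int e_nat nn D norm_D_le norm_D_mul_nn)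

private theorem Maj_split (q : ℕ) (hq : 0 < q) (a : ℤ) (θ : ℝ) (G : ℕ → ℂ) (u : ℕ) :
    ∑ k ∈ range u, G k * e (k * θ) = ∑ s ∈ range q, e (a * s / q) *
      ∑ k ∈ range u, (if k ≡ s [MOD q] then G k else 0) * e (k * (θ - a / q)) := by
  have hq0 : (q : ℝ) ≠ 0 := by exact_mod_cast hq.ne'
  simp only [Finset.mul_sum]
  rw [Finset.sum_comm]
  refine Finset.sum_congr rfl fun k _ => ?_
  rw [Finset.sum_eq_single (k % q)]
  · rw [if_pos ((Nat.mod_modEq k q).symm)]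
    obtain ⟨t, ht⟩ : ∃ t, t = k / q := ⟨_, rfl⟩
    obtain ⟨r, hr⟩ : ∃ r, r = k % q := ⟨_, rfl⟩
    have h0 : q * t + r = k := by rw [ht, hr]; exact Nat.div_add_mod k q
    have h1 : (k : ℝ) = q * t + r := by exact_mod_cast h0.symm
    rw [← hr]
    have h2 : (k : ℝ) * θ = a * r / q + k * (θ - a / q) + ((a * (t : ℤ) : ℤ) : ℝ) := by
      have h4 : (k : ℝ) * (a / q) = a * r / q + a * t := by
        rw [h1]
        field_simp
        ring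
      push_cast
      linear_combination h4
    rw [h2, e_add, e_add, e_int]
    ring
  · intro b hb hbk
    rw [mem_range] at hb
    rw [if_neg, zero_mul, mul_zero]
    intro h
    apply hbk
    have h5 : k % q = b % q := h
    rw [h5, Nat.mod_eq_of_lt hb]
  · intro h
    exact absurd (mem_range.2 (Nat.mod_lt k hq)) h

private theorem Maj_abel (g : ℕ → ℝ) (q s u : ℕ) (c δ β : ℝ)
    (h : ∀ v ≤ u, |∑ k ∈ (range v).filter (fun k => k ≡ s [MOD q]), g k - v * c| ≤ δ) :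
    ‖∑ k ∈ range u, (if k ≡ s [MOD q] then ((g k : ℝ) : ℂ) else 0) * e (k * β) - (c : ℂ) * D u β‖ ≤
      δ * (1 + 2 * Real.pi * u * |β|) := by
  have h1 : ∑ k ∈ range u, (if k ≡ s [MOD q] then ((g k : ℝ) : ℂ) else 0) * e (k * β) -
      (c : ℂ) * D u β = ∑ k ∈ range u, (((if k ≡ s [MOD q] then g k else 0) - c : ℝ) : ℂ) * e (k * β) := by
    unfold D
    rw [Finset.mul_sum, ← Finset.sum_sub_distrib]
    refine Finset.sum_congr rfl fun k _ => ?_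
    split_ifs
    · push_cast
      ring
    · push_cast
      ring
  rw [h1]
  refine abel_e _ u δ β fun v hv => ?_
  rw [← Complex.ofReal_sum, Complex.norm_real, Real.norm_eq_abs, Finset.sum_sub_distrib,
    Finset.sum_const, card_range, nsmul_eq_mul, ← Finset.sum_filter]
  exact h v hv

private theorem Maj_num {Λ ε ℓ q u β : ℝ} {B : ℕ} (hε : 0 < ε) (hℓ : 0 < ℓ) (hΛ : 1 ≤ Λ)
    (hΛε : 66 / ε ≤ Λ) (hq0 : 0 ≤ q) (hq : q ≤ Λ ^ B) (hβ : |β| ≤ Λ ^ B / ℓ) (hu0 : 0 ≤ u)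
    (hu : u ≤ 5 * ℓ) : q * (ℓ / Λ ^ (2 * B + 1) * (1 + 2 * Real.pi * u * |β|)) ≤ ε / 2 * ℓ := by
  have hΛ0 : 0 < Λ := by linarith
  have hP : 0 < Λ ^ B := by positivity
  have hP1 : 1 ≤ Λ ^ B := one_le_pow₀ hΛ
  have h1 : u * |β| ≤ 5 * Λ ^ B := by
    have h2 : u * |β| ≤ 5 * ℓ * (Λ ^ B / ℓ) :=
      mul_le_mul hu hβ (abs_nonneg _) (by positivity)
    have h3 : 5 * ℓ * (Λ ^ B / ℓ) = 5 * Λ ^ B := by field_simp
    linarith
  have h4 : 1 + 2 * Real.pi * u * |β| ≤ 33 * Λ ^ B := by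
    have h5 : 2 * Real.pi * u * |β| = 2 * Real.pi * (u * |β|) := by ring
    have h6 : 2 * Real.pi * (u * |β|) ≤ 2 * 3.15 * (5 * Λ ^ B) :=
      mul_le_mul (by linarith [Real.pi_lt_d2]) h1 (mul_nonneg hu0 (abs_nonneg _)) (by norm_num)
    rw [h5]
    linarith
  have h7 : q * (ℓ / Λ ^ (2 * B + 1) * (1 + 2 * Real.pi * u * |β|)) ≤
      Λ ^ B * (ℓ / Λ ^ (2 * B + 1) * (33 * Λ ^ B)) := by
    refine mul_le_mul hq (mul_le_mul_of_nonneg_left h4 (by positivity)) ?_ hP.le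
    refine mul_nonneg (by positivity) ?_
    have := Real.pi_pos
    positivity
  have h8 : Λ ^ B * (ℓ / Λ ^ (2 * B + 1) * (33 * Λ ^ B)) = 33 * ℓ / Λ := by
    have h9 : Λ ^ (2 * B + 1) = Λ ^ B * Λ ^ B * Λ := by ring
    rw [h9]
    field_simp
  rw [h8] at h7
  refine h7.trans ?_
  rw [div_le_iff₀ hΛ0]
  have h10 : 66 ≤ Λ * ε := (div_le_iff₀ hε).1 hΛε
  nlinarith

private theorem Maj_nn {θ : ℝ} {q : ℕ} {a : ℤ} (hq : 1 < q) (ha : Int.gcd a q = 1)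
    (hβ : |θ - a / q| ≤ 1 / (2 * q)) : 1 ≤ 2 * nn θ * q := by
  have hq0 : (0 : ℝ) < q := by exact_mod_cast (by omega : 0 < q)
  have hne : a - round θ * (q : ℤ) ≠ 0 := by
    intro h
    have h1 : (q : ℤ) ∣ a := ⟨round θ, by linarith⟩
    have h2 : (q : ℤ) ∣ (Int.gcd a q : ℤ) := Int.dvd_coe_gcd h1 (dvd_refl _)
    rw [ha] at h2
    have h3 : q ∣ 1 := by exact_mod_cast h2
    have h4 := Nat.dvd_one.1 h3
    omega
  have h1 : (1 : ℝ) ≤ |(a : ℝ) - round θ * q| := by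
    have h2 : (1 : ℤ) ≤ |a - round θ * (q : ℤ)| := Int.one_le_abs hne
    exact_mod_cast h2
  have h2 : |(a : ℝ) / q - round θ| * q = |(a : ℝ) - round θ * q| := by
    rw [← abs_of_pos hq0, ← abs_mul, abs_of_pos hq0]
    congr 1
    field_simp
  have h3 : |(a : ℝ) / q - round θ| ≤ |θ - a / q| + nn θ := by
    have h4 : (a : ℝ) / q - round θ = -(θ - a / q) + (θ - round θ) := by ring
    rw [h4]
    refine (abs_add_le _ _).trans ?_
    rw [abs_neg]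
    rfl
  have h5 : |(a : ℝ) / q - round θ| * q ≤ (1 / (2 * q) + nn θ) * q :=
    mul_le_mul_of_nonneg_right (h3.trans (by linarith)) hq0.le
  have h6 : (1 / (2 * (q : ℝ)) + nn θ) * q = 1 / 2 + nn θ * q := by field_simp
  linarith

private theorem Maj_first (W₁ n₀ q : ℕ) (a : ℤ) (κ : ℝ) (Z : ℂ) :
    ∑ s ∈ range q, e (a * s / q) * (((if Nat.Coprime (W₁ * s + n₀) q then κ else 0 : ℝ) : ℂ) * Z) =
      (κ : ℂ) * (∑ s ∈ Tq W₁ n₀ q, e (a * s / q)) * Z := by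
  unfold Tq
  rw [Finset.sum_filter, Finset.mul_sum, Finset.sum_mul]
  refine Finset.sum_congr rfl fun s _ => ?_
  split_ifs
  · ring
  · push_cast
    ring

theorem maj (w W₁ n₀ : ℕ) (hw0 : 0 < w) (hw : ∀ p : ℕ, p.Prime → p ≤ w → p ∣ W₁) (hW : 0 < W₁)
    (hc : Nat.Coprime n₀ W₁) (B : ℕ) (ε : ℝ) (hε : 0 < ε) : ∃ ℓ₀ : ℕ, ∀ ℓ : ℕ, ℓ₀ ≤ ℓ →
    ∀ (q : ℕ) (a : ℤ) (θ : ℝ), 0 < q → (q : ℝ) ≤ Real.log ℓ ^ B → Int.gcd a q = 1 →
    |θ - a / q| ≤ Real.log ℓ ^ B / ℓ → ∀ u : ℕ, u ≤ 5 * ℓ →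
    ‖∑ k ∈ range u, ((lp (W₁ * k + n₀) - dens W₁ : ℝ) : ℂ) * e (k * θ)‖ ≤ (5 * dens W₁ / w + ε) * ℓ := by
  obtain ⟨ℓ₁, hsw⟩ := swk W₁ n₀ hW hc (2 * B + 1) B
  have hφ : (0 : ℝ) < (Nat.totient W₁ : ℝ) := by exact_mod_cast Nat.totient_pos.2 hW
  have hd0 : 0 < dens W₁ := by
    unfold dens
    have : (0 : ℝ) < W₁ := by exact_mod_cast hW
    positivity
  have hcast := tendsto_natCast_atTop_atTop (R := ℝ)
  have g1 : ∀ᶠ ℓ : ℕ in atTop, max 1 (66 / ε) ≤ Real.log ℓ :=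
    (Real.tendsto_log_atTop.comp hcast).eventually_ge_atTop _
  have g2 : ∀ᶠ ℓ : ℕ in atTop, 2 * Real.log ℓ ^ (2 * B) ≤ (ℓ : ℝ) := by
    have h1 := (Real.isLittleO_pow_log_id_atTop (n := 2 * B)).def (c := 1 / 2) (by norm_num)
    filter_upwards [hcast.eventually h1, eventually_ge_atTop 1] with ℓ h2 h3
    have h4 : (1 : ℝ) ≤ ℓ := by exact_mod_cast h3
    rw [Real.norm_of_nonneg (pow_nonneg (Real.log_nonneg h4) _), id, Real.norm_of_nonneg (by linarith)] at h2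
    linarith
  have g3 : ∀ᶠ ℓ : ℕ in atTop, dens W₁ * Real.log ℓ ^ B ≤ ε / 2 * (ℓ : ℝ) := by
    have h1 := (Real.isLittleO_pow_log_id_atTop (n := B)).def (c := ε / 2 / dens W₁) (by positivity)
    filter_upwards [hcast.eventually h1, eventually_ge_atTop 1] with ℓ h2 h3
    have h4 : (1 : ℝ) ≤ ℓ := by exact_mod_cast h3
    rw [Real.norm_of_nonneg (pow_nonneg (Real.log_nonneg h4) _), id, Real.norm_of_nonneg (by linarith)] at h2
    have h5 := mul_le_mul_of_nonneg_left h2 hd0.le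
    have h6 : dens W₁ * (ε / 2 / dens W₁ * (ℓ : ℝ)) = ε / 2 * ℓ := by field_simp
    linarith
  obtain ⟨ℓ₂, hℓ₂⟩ := eventually_atTop.1 (g1.and (g2.and (g3.and (eventually_ge_atTop 1))))
  refine ⟨max ℓ₁ ℓ₂, fun ℓ hℓ q a θ hq hqB ha hθ u hu => ?_⟩
  obtain ⟨h1, h2, h3, h4⟩ := hℓ₂ ℓ ((le_max_right _ _).trans hℓ)
  have hs := hsw ℓ ((le_max_left _ _).trans hℓ) q hq hqB
  have hℓ1 : (1 : ℝ) ≤ ℓ := by exact_mod_cast h4
  have hℓ0 : (0 : ℝ) < ℓ := by linarith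
  have hΛ1 : 1 ≤ Real.log ℓ := (le_max_left _ _).trans h1
  have hΛε : 66 / ε ≤ Real.log ℓ := (le_max_right _ _).trans h1
  have huR : (u : ℝ) ≤ 5 * ℓ := by exact_mod_cast hu
  have hqR : (0 : ℝ) < q := by exact_mod_cast hq
  obtain ⟨κ, hκ⟩ : ∃ κ : ℝ, κ = (W₁ : ℝ) / (Nat.totient (W₁ * q) : ℝ) := ⟨_, rfl⟩
  have hκ0 : 0 ≤ κ := by rw [hκ]; positivity
  -- splitting
  have hsplit := Maj_split q hq a θ (fun k => ((lp (W₁ * k + n₀) : ℝ) : ℂ)) u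
  obtain ⟨F, hF⟩ : ∃ F : ℂ, F = ∑ s ∈ range q, e (a * s / q) *
    (((if Nat.Coprime (W₁ * s + n₀) q then κ else 0 : ℝ) : ℂ) * D u (θ - a / q)) := ⟨_, rfl⟩
  have hclose : ‖∑ k ∈ range u, ((lp (W₁ * k + n₀) : ℝ) : ℂ) * e (k * θ) - F‖ ≤ ε / 2 * ℓ := by
    rw [hsplit, hF, ← Finset.sum_sub_distrib]
    refine (norm_sum_le _ _).trans ?_
    have h5 : ∀ s ∈ range q, ‖e (a * s / q) * ∑ k ∈ range u,
        (if k ≡ s [MOD q] then ((lp (W₁ * k + n₀) : ℝ) : ℂ) else 0) * e (k * (θ - a / q)) -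
        e (a * s / q) * (((if Nat.Coprime (W₁ * s + n₀) q then κ else 0 : ℝ) : ℂ) * D u (θ - a / q))‖ ≤
        ℓ / Real.log ℓ ^ (2 * B + 1) * (1 + 2 * Real.pi * u * |θ - a / q|) := by
      intro s _
      rw [← mul_sub, norm_mul, norm_e, one_mul]
      refine Maj_abel (fun k => lp (W₁ * k + n₀)) q s u _ _ _ fun v hv => ?_
      have h6 := hs s v (hv.trans hu)
      have h7 : (if Nat.Coprime (W₁ * s + n₀) q then (v : ℝ) * W₁ / (Nat.totient (W₁ * q) : ℝ) else 0) =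
          v * (if Nat.Coprime (W₁ * s + n₀) q then κ else 0) := by
        split_ifs
        · rw [hκ]; ring
        · ring
      rw [h7] at h6
      exact h6
    refine (Finset.sum_le_sum h5).trans ?_
    rw [Finset.sum_const, card_range, nsmul_eq_mul]
    exact Maj_num hε hℓ0 hΛ1 hΛε hqR.le hqB hθ (Nat.cast_nonneg _) huR
  have hS : ∑ k ∈ range u, ((lp (W₁ * k + n₀) - dens W₁ : ℝ) : ℂ) * e (k * θ) =
      ∑ k ∈ range u, ((lp (W₁ * k + n₀) : ℝ) : ℂ) * e (k * θ) - (dens W₁ : ℂ) * D u θ := by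
    unfold D
    rw [Finset.mul_sum, ← Finset.sum_sub_distrib]
    refine Finset.sum_congr rfl fun k _ => ?_
    push_cast
    ring
  rw [Maj_first] at hF
  have hT := card_Tq W₁ n₀ q hW hq hc
  have hTR : ((Tq W₁ n₀ q).card : ℝ) * κ = dens W₁ := by
    have h5 : ((Tq W₁ n₀ q).card : ℝ) * (Nat.totient W₁ : ℝ) = (Nat.totient (W₁ * q) : ℝ) := by
      exact_mod_cast hT
    have h6 : (0 : ℝ) < (Nat.totient (W₁ * q) : ℝ) := by
      exact_mod_cast Nat.totient_pos.2 (Nat.mul_pos hW hq)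
    rw [hκ]
    unfold dens
    rw [← h5] at h6 ⊢
    have h7 : ((Tq W₁ n₀ q).card : ℝ) ≠ 0 := by
      intro h
      rw [h, zero_mul] at h6
      exact lt_irrefl _ h6
    field_simp
  have hw1 : (0 : ℝ) < w := by exact_mod_cast hw0
  have hpos : 0 ≤ 5 * dens W₁ / w * ℓ := by positivity
  rw [hS]
  rcases Nat.lt_or_ge 1 q with hq1 | hq1
  · have h8 : ‖F‖ ≤ 5 * dens W₁ / w * ℓ := by
      rw [hF, norm_mul, norm_mul, Complex.norm_real, Real.norm_of_nonneg hκ0]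
      have h9 := cos_sum w W₁ n₀ q hw0 hw hW hc hq1 a ha
      have h10 := norm_D_le u (θ - a / q)
      calc κ * ‖∑ s ∈ Tq W₁ n₀ q, e (a * s / q)‖ * ‖D u (θ - a / q)‖
          ≤ κ * (((Tq W₁ n₀ q).card : ℝ) / w) * (5 * ℓ) :=
            mul_le_mul (mul_le_mul_of_nonneg_left h9 hκ0) (h10.trans huR) (norm_nonneg _) (by positivity)
        _ = 5 * (((Tq W₁ n₀ q).card : ℝ) * κ) / w * ℓ := by ring
        _ = 5 * dens W₁ / w * ℓ := by rw [hTR]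
    have h11 : |θ - a / q| ≤ 1 / (2 * q) := by
      refine hθ.trans ?_
      rw [div_le_div_iff₀ hℓ0 (by positivity)]
      have h12 : Real.log ℓ ^ B * (2 * (q : ℝ)) ≤ Real.log ℓ ^ B * (2 * Real.log ℓ ^ B) :=
        mul_le_mul_of_nonneg_left (by linarith) (by positivity)
      have h13 : Real.log ℓ ^ B * (2 * Real.log ℓ ^ B) = 2 * Real.log ℓ ^ (2 * B) := by ring
      linarith
    have h14 := Maj_nn hq1 ha h11
    have h15 := norm_D_mul_nn u θ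
    have h16 : ‖D u θ‖ ≤ q := by
      have h17 : ‖D u θ‖ * 1 ≤ ‖D u θ‖ * (2 * nn θ * q) :=
        mul_le_mul_of_nonneg_left h14 (norm_nonneg _)
      have h18 : ‖D u θ‖ * (2 * nn θ * q) = ‖D u θ‖ * (2 * nn θ) * q := by ring
      have h19 : ‖D u θ‖ * (2 * nn θ) * q ≤ 1 * q := mul_le_mul_of_nonneg_right h15 hqR.le
      linarith
    have h20 : ‖(dens W₁ : ℂ) * D u θ‖ ≤ ε / 2 * ℓ := by
      rw [norm_mul, Complex.norm_real, Real.norm_of_nonneg hd0.le]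
      exact (mul_le_mul_of_nonneg_left (h16.trans hqB) hd0.le).trans h3
    have h21 : ∑ k ∈ range u, ((lp (W₁ * k + n₀) : ℝ) : ℂ) * e (k * θ) - (dens W₁ : ℂ) * D u θ =
      (∑ k ∈ range u, ((lp (W₁ * k + n₀) : ℝ) : ℂ) * e (k * θ) - F) + F - (dens W₁ : ℂ) * D u θ := by
      ring
    rw [h21]
    refine (norm_sub_le _ _).trans ?_
    have h22 := norm_add_le (∑ k ∈ range u, ((lp (W₁ * k + n₀) : ℝ) : ℂ) * e (k * θ) - F) F
    linarith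
  · have hq2 : q = 1 := by omega
    subst hq2
    have h8 : F = (dens W₁ : ℂ) * D u θ := by
      have h9 : D u (θ - a / (1 : ℕ)) = D u θ := by
        unfold D
        refine Finset.sum_congr rfl fun k _ => ?_
        have h10 : (k : ℝ) * θ = k * (θ - a / (1 : ℕ)) + (((k : ℤ) * a : ℤ) : ℝ) := by
          push_cast
          ring
        rw [h10, e_add, e_int, mul_one]
      have h11 : Tq W₁ n₀ 1 = {0} := by
        unfold Tq
        ext x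
        simp
      have h12 : κ = dens W₁ := by
        rw [hκ, mul_one]
        rfl
      rw [hF, h9, h11, h12, Finset.sum_singleton]
      simp [Pool.Agent.Lib.MP_2a816b_nt.e_zero]
    rw [← h8]
    have h13 : 0 ≤ ε / 2 * ℓ := by positivity
    linarith

end Pool.Agent.Lib.MP_d57abb_nt.All
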