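import Mathlib
import Pool.Agent.Lib.MP_d57abb_nt.All.FDefs

/-!
# JOB MnrA: expansion of the congruence by additive characters

PROOF.  Let `y = W₁ u + n₀ - 1`, `α_b = (θ + b) / W₁`.  The map `k ↦ W₁ k + n₀` is a bijection of `range u` with `{n : n₀ ≤ n ≤ y, n ≡ n₀ (mod W₁)}` (`u ≥ 1`), and `e (k θ) = e ((n - n₀) θ / W₁)` for `n = W₁ k + n₀`.
For an integer `x`: `∑_{b < W₁} e (b x / W₁) = W₁` if `W₁ ∣ x` and `0` otherwise (geometric sum, `e_eq_one_iff`, `e_nat_mul`).  So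
`∑_{n ∈ Ioc 0 y, n ≡ n₀ (W₁)} lp n e ((n - n₀) θ / W₁) = (1 / W₁) ∑_{b < W₁} ∑_{n ∈ Ioc 0 y} lp n e ((n - n₀) (θ + b) / W₁) = (1/W₁) ∑_b e (-n₀ α_b) ∑_{n ∈ Ioc 0 y} lp n e (n α_b)`,
and the left side differs from `∑_{k<u} lp (W₁ k + n₀) e (k θ)` by the terms with `n < n₀` (`n = 0` does not matter, `lp 0 = 0`), at most `∑_{n<n₀} lp n ≤ n₀ * n₀` (`lp n ≤ log n ≤ n`).
-/

open Finset

namespace Pool.Agent.Lib.MP_d57abb_nt.All

open Pool.Agent.Lib.MP_2a816b_nt (e norm_e e_add e_int e_nat e_nat_mul e_eq_one_iff)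

private lemma MnrA_mult (W u : ℕ) (hW : 0 < W) (g : ℕ → ℂ) (hg : ∀ x, ¬ W ∣ x → g x = 0) :
    ∑ x ∈ range (W * u), g x = ∑ k ∈ range u, g (W * k) := by
  induction u with
  | zero => simp
  | succ u ih =>
    rw [Nat.mul_succ, Finset.sum_range_add, ih, Finset.sum_range_succ]
    congr 1
    rw [Finset.sum_eq_single 0]
    · rw [add_zero]
    · intro i hi h0
      apply hg
      intro hd
      have h1 : W ∣ i := (Nat.dvd_add_right (dvd_mul_right W u)).1 hd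
      have h2 := Nat.le_of_dvd (Nat.pos_of_ne_zero h0) h1
      have h3 := mem_range.1 hi
      omega
    · intro h
      exact absurd (mem_range.2 hW) h

private lemma MnrA_orth (W x : ℕ) (hW : 0 < W) :
    ∑ b ∈ range W, e ((x : ℝ) * b / W) = if W ∣ x then (W : ℂ) else 0 := by
  have hW0 : (W : ℝ) ≠ 0 := by positivity
  split_ifs with h
  · obtain ⟨c, rfl⟩ := h
    have h1 : ∀ b ∈ range W, e (((W * c : ℕ) : ℝ) * b / W) = 1 := by
      intro b _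
      have h2 : ((W * c : ℕ) : ℝ) * b / W = ((c * b : ℕ) : ℝ) := by
        push_cast
        field_simp
      rw [h2, e_nat]
    rw [sum_congr rfl h1, sum_const, card_range, nsmul_eq_mul, mul_one]
  · have h1 : ∀ b ∈ range W, e ((x : ℝ) * b / W) = (e ((x : ℝ) / W)) ^ b := by
      intro b _
      rw [← e_nat_mul]
      congr 1
      ring
    have hne : e ((x : ℝ) / W) ≠ 1 := by
      intro h2
      rw [e_eq_one_iff] at h2
      obtain ⟨m, hm⟩ := h2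
      rw [div_eq_iff hW0] at hm
      apply h
      have h3 : (x : ℤ) = m * W := by exact_mod_cast hm
      have h4 : (W : ℤ) ∣ (x : ℤ) := ⟨m, by rw [h3]; ring⟩
      exact_mod_cast h4
    rw [sum_congr rfl h1, geom_sum_eq hne, ← e_nat_mul]
    have h5 : (W : ℝ) * ((x : ℝ) / W) = (x : ℝ) := by field_simp
    rw [h5, e_nat, sub_self, zero_div]

private noncomputable def MnrA_K (W n₀ : ℕ) (θ : ℝ) (n : ℕ) : ℂ :=
  (1 / (W : ℂ)) * ∑ b ∈ range W, e (((n : ℝ) - n₀) * ((θ + b) / W))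

private lemma MnrA_K_norm (W n₀ : ℕ) (hW : 0 < W) (θ : ℝ) (n : ℕ) : ‖MnrA_K W n₀ θ n‖ ≤ 1 := by
  unfold MnrA_K
  have hW0 : (0 : ℝ) < W := by exact_mod_cast hW
  rw [norm_mul]
  have h1 : ‖∑ b ∈ range W, e (((n : ℝ) - n₀) * ((θ + b) / W))‖ ≤ W := by
    refine (norm_sum_le _ _).trans (le_of_eq ?_)
    rw [sum_congr rfl (fun b _ => norm_e _), sum_const, card_range, nsmul_eq_mul, mul_one]
  have h2 : ‖(1 / (W : ℂ))‖ = 1 / (W : ℝ) := by
    rw [norm_div, norm_one, Complex.norm_natCast]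
  rw [h2]
  calc 1 / (W : ℝ) * ‖∑ b ∈ range W, e (((n : ℝ) - n₀) * ((θ + b) / W))‖ ≤ 1 / (W : ℝ) * W := by
        gcongr
    _ = 1 := by field_simp

private lemma MnrA_K_val (W n₀ : ℕ) (hW : 0 < W) (θ : ℝ) (x : ℕ) :
    MnrA_K W n₀ θ (n₀ + x) = if W ∣ x then e ((x : ℝ) * θ / W) else 0 := by
  unfold MnrA_K
  have hW0 : (W : ℂ) ≠ 0 := by
    have : W ≠ 0 := by omega
    exact_mod_cast this
  have h1 : ∀ b ∈ range W, e ((((n₀ + x : ℕ) : ℝ) - n₀) * ((θ + b) / W)) =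
      e ((x : ℝ) * θ / W) * e ((x : ℝ) * b / W) := by
    intro b _
    rw [← e_add]
    congr 1
    push_cast
    ring
  rw [sum_congr rfl h1, ← mul_sum, MnrA_orth W x hW]
  split_ifs
  · field_simp
  · simp

private lemma MnrA_lp (n : ℕ) : 0 ≤ lp n ∧ lp n ≤ n := by
  unfold lp
  split_ifs with h
  · exact ⟨Real.log_natCast_nonneg n, (Real.log_le_sub_one_of_pos (by exact_mod_cast h.pos)).trans (by linarith)⟩
  · exact ⟨le_rfl, Nat.cast_nonneg n⟩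

theorem expand (W₁ n₀ u : ℕ) (hW : 0 < W₁) (hu : 0 < u) (θ : ℝ) :
    ‖∑ k ∈ range u, (lp (W₁ * k + n₀) : ℂ) * e (k * θ)‖ ≤
      (1 / (W₁ : ℝ)) * ∑ b ∈ range W₁, ‖∑ n ∈ Ioc 0 (W₁ * u + n₀ - 1), (lp n : ℂ) * e (n * ((θ + b) / W₁))‖ +
        (n₀ : ℝ) ^ 2 := by
  have hWR : (0 : ℝ) < W₁ := by exact_mod_cast hW
  have hWC : (W₁ : ℂ) ≠ 0 := by
    have : W₁ ≠ 0 := by omega
    exact_mod_cast this
  have hy : W₁ * u + n₀ - 1 + 1 = n₀ + W₁ * u := by
    have : 0 < W₁ * u := Nat.mul_pos hW hu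
    omega
  -- range instead of Ioc
  have hr : ∀ F : ℕ → ℂ, F 0 = 0 → ∑ n ∈ Ioc 0 (W₁ * u + n₀ - 1), F n = ∑ n ∈ range (n₀ + W₁ * u), F n := by
    intro F hF
    rw [← hy, Finset.sum_range_succ', hF, add_zero]
    rw [Finset.range_eq_Ico, Finset.sum_Ico_add' F 0 (W₁ * u + n₀ - 1) 1]
    apply sum_congr _ fun _ _ => rfl
    ext n
    rw [mem_Ioc, mem_Ico]
    omega
  have hlp0 : lp 0 = 0 := by
    unfold lp
    rw [if_neg Nat.not_prime_zero]
  -- the sum with the kernel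
  have h1 : ∑ n ∈ range (n₀ + W₁ * u), (lp n : ℂ) * MnrA_K W₁ n₀ θ n =
      ∑ n ∈ range n₀, (lp n : ℂ) * MnrA_K W₁ n₀ θ n +
        ∑ k ∈ range u, (lp (W₁ * k + n₀) : ℂ) * e (k * θ) := by
    rw [Finset.sum_range_add]
    congr 1
    rw [MnrA_mult W₁ u hW (fun x => (lp (n₀ + x) : ℂ) * MnrA_K W₁ n₀ θ (n₀ + x))]
    · apply sum_congr rfl
      intro k _
      rw [MnrA_K_val W₁ n₀ hW, if_pos (dvd_mul_right W₁ k), add_comm n₀]
      congr 2
      push_cast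
      field_simp
    · intro x hx
      rw [MnrA_K_val W₁ n₀ hW, if_neg hx, mul_zero]
  have h2 : ∑ n ∈ range (n₀ + W₁ * u), (lp n : ℂ) * MnrA_K W₁ n₀ θ n =
      (1 / (W₁ : ℂ)) * ∑ b ∈ range W₁, e (-(n₀ * ((θ + b) / W₁))) *
        ∑ n ∈ Ioc 0 (W₁ * u + n₀ - 1), (lp n : ℂ) * e (n * ((θ + b) / W₁)) := by
    have h3 : ∀ b ∈ range W₁, e (-(n₀ * ((θ + b) / W₁))) *
        ∑ n ∈ Ioc 0 (W₁ * u + n₀ - 1), (lp n : ℂ) * e (n * ((θ + b) / W₁)) =
        ∑ n ∈ range (n₀ + W₁ * u), (lp n : ℂ) * e (((n : ℝ) - n₀) * ((θ + b) / W₁)) := by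
      intro b _
      rw [hr _ (by rw [hlp0]; simp), mul_sum]
      apply sum_congr rfl
      intro n _
      have h4 : e (((n : ℝ) - n₀) * ((θ + b) / W₁)) =
          e (-(n₀ * ((θ + b) / W₁))) * e (n * ((θ + b) / W₁)) := by
        rw [← e_add]
        congr 1
        ring
      rw [h4]
      ring
    rw [sum_congr rfl h3, sum_comm, mul_sum]
    apply sum_congr rfl
    intro n _
    unfold MnrA_K
    rw [← mul_sum]
    ring
  have h5 : ∑ k ∈ range u, (lp (W₁ * k + n₀) : ℂ) * e (k * θ) =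
      (1 / (W₁ : ℂ)) * (∑ b ∈ range W₁, e (-(n₀ * ((θ + b) / W₁))) *
        ∑ n ∈ Ioc 0 (W₁ * u + n₀ - 1), (lp n : ℂ) * e (n * ((θ + b) / W₁))) -
        ∑ n ∈ range n₀, (lp n : ℂ) * MnrA_K W₁ n₀ θ n := by
    rw [← h2, h1]
    ring
  rw [h5]
  refine (norm_sub_le _ _).trans (add_le_add ?_ ?_)
  · rw [norm_mul, norm_div, norm_one, Complex.norm_natCast]
    refine mul_le_mul_of_nonneg_left ?_ (by positivity)
    refine (norm_sum_le _ _).trans (le_of_eq ?_)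
    apply sum_congr rfl
    intro b _
    rw [norm_mul, norm_e, one_mul]
  · refine (norm_sum_le _ _).trans ?_
    calc ∑ n ∈ range n₀, ‖(lp n : ℂ) * MnrA_K W₁ n₀ θ n‖ ≤ ∑ n ∈ range n₀, (n₀ : ℝ) := by
          apply sum_le_sum
          intro n hn
          have h6 := MnrA_lp n
          rw [norm_mul, Complex.norm_real, Real.norm_of_nonneg h6.1]
          have h7 : (n : ℝ) ≤ n₀ := by
            have := mem_range.1 hn
            exact_mod_cast this.le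
          calc lp n * ‖MnrA_K W₁ n₀ θ n‖ ≤ lp n * 1 :=
                mul_le_mul_of_nonneg_left (MnrA_K_norm W₁ n₀ hW θ n) h6.1
            _ ≤ n₀ := by linarith [h6.2]
      _ = (n₀ : ℝ) ^ 2 := by
          rw [sum_const, card_range, nsmul_eq_mul]
          ring

end Pool.Agent.Lib.MP_d57abb_nt.All
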