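import Mathlib
import Pool.Agent.Lib.MP_d57abb_nt.All.FDefs
import Pool.Agent.Lib.MP_2a816b_nt.LargeSieve
import Pool.Agent.Lib.MP_2a816b_nt.CoreGen

/-!
# JOB VinI: type I sums (and, in VinB, the operator bound) for `e (m n α)`

`e`, `nn`, `D`, `norm_D_mul_nn`, `norm_D_le`, `nn_le` are in `MP_2a816b_nt/Expo`, `Sep` and `large_sieve` in `MP_2a816b_nt/LargeSieve`, `OpB` in `MP_2a816b_nt/Trunc`.

PROOF of `nn_far`: let `r ≥ 1`, `2 r ≤ q`.  For every integer `k`: `|r a / q - k| ≥ 1 / q` because `r a - k q ≠ 0` (`q ∣ r a` would give `q ∣ r`, but `0 < r < q`), and `|r α - r a / q| ≤ r / q² ≤ 1 / (2 q)`,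
so `|r α - k| ≥ 1 / (2q)`; `k = round (r α)`.

PROOF of `typeI_e`.  `m = 0`: all terms are `kapV α N 0 = 0`.  `1 ≤ m`, `2 m ≤ q`: the sum is over `1 ≤ d < t`, `d ≤ N / m`, so it is `D K (m α) - 1` for `K = min t (N / m + 1)` (or `0` if `t = 0`);
`‖D K (m α)‖ ≤ 1 / (2 nn (m α)) ≤ q` by `norm_D_mul_nn` and `nn_far`.  `2 m > q`: at most `N / m ≤ 2 N / q` nonzero terms, each of norm `1`.

PROOF of `opB_e`.  By Cauchy-Schwarz over `m` it suffices that `∑_{m < M'} ‖∑_{n < N'} y n e (m n α)‖² ≤ 9 (2 M' / q + 1) (N' + 2 q) ∑ ‖y n‖²`.  Let `b = q / 2 + 1` (natural division).  The integers `m < M'` are split into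
the `≤ M' / b + 1 ≤ 2 M' / q + 1` blocks `m / b = i`; in one block two different `m, m'` satisfy `0 < |m - m'| ≤ b - 1 ≤ q / 2`, so `nn (m α - m' α) ≥ 1 / (2q)` by `nn_far` (`nn` is even: `nn (-x) = nn x`), which is `Sep` with
`δ = 1 / (2 q)`; `large_sieve` (with `α i = i * α`) gives `9 (N' + 2 q) ∑ ‖y n‖²` for the block (`M' / b + 1 ≤ 2 M' / q + 1` since `b ≥ q / 2` as reals).
-/

open Finset Real

namespace Pool.Agent.Lib.MP_d57abb_nt.All

open Pool.Agent.Lib.MP_2a816b_nt (e norm_e e_add e_int e_nat nn D norm_D_le norm_D_mul_nn OpB Sep)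

/-- the kernel -/
noncomputable def kapV (α : ℝ) (N n : ℕ) : ℂ := if 0 < n ∧ n ≤ N then e (n * α) else 0

theorem nn_far (q : ℕ) (hq : 0 < q) (a : ℤ) (ha : Int.gcd a q = 1) (α : ℝ)
    (hα : |α - a / q| ≤ 1 / (q : ℝ) ^ 2) (r : ℕ) (hr : 0 < r) (hrq : 2 * r ≤ q) :
    1 / (2 * (q : ℝ)) ≤ nn (r * α) := by
  have hq0 : (0 : ℝ) < q := by exact_mod_cast hq
  have hr0 : (0 : ℝ) < r := by exact_mod_cast hr
  set k : ℤ := round (r * α) with hk
  have hne : (r : ℤ) * a - k * q ≠ 0 := by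
    intro h
    have h1 : (q : ℤ) ∣ (r : ℤ) * a := ⟨k, by linarith⟩
    have h2 : IsCoprime (q : ℤ) a := by
      rw [Int.isCoprime_iff_gcd_eq_one, Int.gcd_comm]
      exact ha
    have h3 : (q : ℤ) ∣ (r : ℤ) := h2.dvd_of_dvd_mul_right h1
    have h4 : q ∣ r := by exact_mod_cast h3
    have h5 := Nat.le_of_dvd hr h4
    omega
  have h1 : (1 : ℝ) ≤ |((r : ℤ) * a - k * q : ℤ)| := by
    exact_mod_cast Int.one_le_abs hne
  have h2 : 1 / (q : ℝ) ≤ |(r : ℝ) * a / q - k| := by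
    have e1 : (r : ℝ) * a / q - k = (((r : ℤ) * a - k * q : ℤ) : ℝ) / q := by
      push_cast
      field_simp
    rw [e1, abs_div, abs_of_pos hq0, ← Int.cast_abs]
    exact div_le_div_of_nonneg_right h1 hq0.le
  have h3 : |(r : ℝ) * α - r * a / q| ≤ 1 / (2 * q) := by
    have e1 : (r : ℝ) * α - r * a / q = r * (α - a / q) := by ring
    rw [e1, abs_mul, abs_of_pos hr0]
    have h4 : (2 : ℝ) * r ≤ q := by exact_mod_cast hrq
    calc (r : ℝ) * |α - a / q| ≤ r * (1 / (q : ℝ) ^ 2) := mul_le_mul_of_nonneg_left hα hr0.le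
      _ = (2 * r) * (1 / (2 * (q : ℝ) ^ 2)) := by field_simp
      _ ≤ q * (1 / (2 * (q : ℝ) ^ 2)) := mul_le_mul_of_nonneg_right h4 (by positivity)
      _ = 1 / (2 * q) := by field_simp
  have h5 : |(r : ℝ) * a / q - k| ≤ |(r : ℝ) * α - r * a / q| + |(r : ℝ) * α - k| := by
    have e1 : (r : ℝ) * a / q - k = -((r : ℝ) * α - r * a / q) + ((r : ℝ) * α - k) := by ring
    rw [e1]
    refine (abs_add_le _ _).trans ?_
    rw [abs_neg]
  have h6 : (1 : ℝ) / q = 1 / (2 * q) + 1 / (2 * q) := by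
    field_simp
    norm_num
  show 1 / (2 * (q : ℝ)) ≤ |(r : ℝ) * α - k|
  linarith

private lemma VinI_card (N m t : ℕ) (hm : 0 < m) :
    ((range t).filter (fun d => 0 < m * d ∧ m * d ≤ N)).card ≤ N / m := by
  have h1 : (range t).filter (fun d => 0 < m * d ∧ m * d ≤ N) ⊆ Ioc 0 (N / m) := by
    intro d hd
    rw [mem_filter] at hd
    rw [mem_Ioc]
    refine ⟨Nat.pos_of_mul_pos_left hd.2.1, ?_⟩
    rw [Nat.le_div_iff_mul_le hm, mul_comm]
    exact hd.2.2
  have h2 := card_le_card h1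
  rwa [Nat.card_Ioc, Nat.sub_zero] at h2

private lemma VinI_eq (N m t : ℕ) (hm : 0 < m) (α : ℝ) :
    ∑ d ∈ range t, kapV α N (m * d)
      = if t = 0 then 0 else D (min t (N / m + 1)) (m * α) - 1 := by
  split_ifs with ht
  · subst ht
    simp
  · set K := min t (N / m + 1) with hK
    have hKt : K ≤ t := min_le_left _ _
    have hK0 : 0 < K := lt_min (Nat.pos_of_ne_zero ht) (Nat.succ_pos _)
    have h1 : ∑ d ∈ range t, kapV α N (m * d) = ∑ d ∈ range K, kapV α N (m * d) := by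
      symm
      refine sum_subset (range_subset_range.2 hKt) fun d hd hd' => ?_
      rw [mem_range] at hd hd'
      unfold kapV
      rw [if_neg]
      rintro ⟨-, h3⟩
      have h4 : d ≤ N / m := by
        rw [Nat.le_div_iff_mul_le hm, mul_comm]
        exact h3
      apply hd'
      rw [hK, lt_min_iff]
      exact ⟨hd, by omega⟩
    rw [h1]
    unfold D
    obtain ⟨K', hK'⟩ : ∃ K', K = K' + 1 := ⟨K - 1, by omega⟩
    rw [hK', sum_range_succ', sum_range_succ' (fun u : ℕ => e (u * (m * α)))]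
    have h2 : kapV α N (m * 0) = 0 := by
      unfold kapV
      simp
    have h3 : e (((0 : ℕ) : ℝ) * (m * α)) = 1 := by simp
    rw [h2, h3, add_zero, add_sub_cancel_right]
    refine sum_congr rfl fun d hd => ?_
    rw [mem_range] at hd
    unfold kapV
    rw [if_pos]
    · congr 1
      push_cast
      ring
    · refine ⟨by positivity, ?_⟩
      have h4 : d + 1 < N / m + 1 := by
        have : K ≤ N / m + 1 := min_le_right _ _
        omega
      have h5 : d + 1 ≤ N / m := by omega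
      rw [Nat.le_div_iff_mul_le hm, mul_comm] at h5
      exact h5

theorem typeI_e (N q : ℕ) (hq : 0 < q) (a : ℤ) (ha : Int.gcd a q = 1) (α : ℝ)
    (hα : |α - a / q| ≤ 1 / (q : ℝ) ^ 2) (m t : ℕ) :
    ‖∑ d ∈ range t, kapV α N (m * d)‖ ≤ (q : ℝ) + 1 + 2 * N / q := by
  have hq0 : (0 : ℝ) < q := by exact_mod_cast hq
  have hNq : (0 : ℝ) ≤ 2 * N / q := by positivity
  rcases Nat.eq_zero_or_pos m with hm | hm
  · subst hm
    have h1 : ∀ d ∈ range t, kapV α N (0 * d) = 0 := by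
      intro d _
      unfold kapV
      rw [if_neg]
      simp
    rw [sum_eq_zero h1, norm_zero]
    positivity
  have hm0 : (0 : ℝ) < m := by exact_mod_cast hm
  by_cases h2m : 2 * m ≤ q
  · rw [VinI_eq N m t hm α]
    split_ifs with ht
    · rw [norm_zero]
      positivity
    · have h1 := nn_far q hq a ha α hα m hm h2m
      have h2 := norm_D_mul_nn (min t (N / m + 1)) (m * α)
      have h3 : ‖D (min t (N / m + 1)) (m * α)‖ * (2 * (1 / (2 * (q : ℝ)))) ≤ 1 :=
        (mul_le_mul_of_nonneg_left (by linarith) (norm_nonneg _)).trans h2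
      have h4 : ‖D (min t (N / m + 1)) (m * α)‖ ≤ q := by
        have e1 : 2 * (1 / (2 * (q : ℝ))) = 1 / q := by field_simp
        rw [e1, mul_one_div, div_le_one hq0] at h3
        exact h3
      calc ‖D (min t (N / m + 1)) (m * α) - 1‖ ≤ ‖D (min t (N / m + 1)) (m * α)‖ + ‖(1 : ℂ)‖ :=
            norm_sub_le _ _
        _ ≤ q + 1 := by rw [norm_one]; linarith
        _ ≤ _ := by linarith
  · have h1 : ‖∑ d ∈ range t, kapV α N (m * d)‖
        ≤ (((range t).filter (fun d => 0 < m * d ∧ m * d ≤ N)).card : ℝ) := by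
      have e1 : ∑ d ∈ range t, kapV α N (m * d)
          = ∑ d ∈ (range t).filter (fun d => 0 < m * d ∧ m * d ≤ N), e (((m * d : ℕ) : ℝ) * α) := by
        rw [sum_filter]
        rfl
      rw [e1]
      refine (norm_sum_le _ _).trans ?_
      simp [norm_e]
    have h2 : (((range t).filter (fun d => 0 < m * d ∧ m * d ≤ N)).card : ℝ) ≤ (N / m : ℕ) := by
      exact_mod_cast VinI_card N m t hm
    have h3 : ((N / m : ℕ) : ℝ) ≤ N / m := Nat.cast_div_le
    have h4 : (N : ℝ) / m ≤ 2 * N / q := by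
      rw [div_le_div_iff₀ hm0 hq0]
      have h5 : (q : ℝ) ≤ 2 * m := by
        have : q ≤ 2 * m := by omega
        exact_mod_cast this
      have h6 : (0 : ℝ) ≤ N := Nat.cast_nonneg _
      nlinarith
    linarith

end Pool.Agent.Lib.MP_d57abb_nt.All
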