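import Mathlib
import Pool.Agent.Lib.MP_d57abb_nt.All.FDefs
import Pool.Agent.Lib.MP_2a816b_nt.LargeSieve
import Pool.Agent.Lib.MP_2a816b_nt.CoreGen
import Pool.Agent.Lib.MP_d57abb_nt.All.VinI

/-!
# JOB VinB: the operator bound for `e (m n α)`

`e`, `nn`, `D`, `norm_D_mul_nn`, `norm_D_le`, `nn_le` are in `MP_2a816b_nt/Expo`, `Sep` and `large_sieve` in `MP_2a816b_nt/LargeSieve`, `OpB` in `MP_2a816b_nt/Trunc`.

PROOF of `nn_far`: let `r ≥ 1`, `2 r ≤ q`.  For every integer `k`: `|r a / q - k| ≥ 1 / q` because `r a - k q ≠ 0` (`q ∣ r a` would give `q ∣ r`, but `0 < r < q`), and `|r α - r a / q| ≤ r / q² ≤ 1 / (2 q)`,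
so `|r α - k| ≥ 1 / (2q)`; `k = round (r α)`.

PROOF of `typeI_e`.  `m = 0`: all terms are `kapV α N 0 = 0`.  `1 ≤ m`, `2 m ≤ q`: the sum is over `1 ≤ d < t`, `d ≤ N / m`, so it is `D K (m α) - 1` for `K = min t (N / m + 1)` (or `0` if `t = 0`);
`‖D K (m α)‖ ≤ 1 / (2 nn (m α)) ≤ q` by `norm_D_mul_nn` and `nn_far`.  `2 m > q`: at most `N / m ≤ 2 N / q` nonzero terms, each of norm `1`.

PROOF of `opB_e`.  By Cauchy-Schwarz over `m` it suffices that `∑_{m < M'} ‖∑_{n < N'} y n e (m n α)‖² ≤ 9 (2 M' / q + 1) (N' + 2 q) ∑ ‖y n‖²`.  Let `b = q / 2 + 1` (natural division).  The integers `m < M'` are split into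
the `≤ M' / b + 1 ≤ 2 M' / q + 1` blocks `m / b = i`; in one block two different `m, m'` satisfy `0 < |m - m'| ≤ b - 1 ≤ q / 2`, so `nn (m α - m' α) ≥ 1 / (2q)` by `nn_far` (`nn` is even: `nn (-x) = nn x`), which is `Sep` with
`δ = 1 / (2 q)`; `large_sieve` (with `α i = i * α`) gives `9 (N' + 2 q) ∑ ‖y n‖²` for the block (`M' / b + 1 ≤ 2 M' / q + 1` since `b ≥ q / 2` as reals).
-/

open Finset Real

namespace Pool.Agent.Lib.MP_d57abb_nt.All

open Pool.Agent.Lib.MP_2a816b_nt (e norm_e e_add e_int e_nat nn D norm_D_le norm_D_mul_nn OpB Sep)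

private theorem VinB_sep (q : ℕ) (hq : 0 < q) (a : ℤ) (ha : Int.gcd a q = 1) (α : ℝ)
    (hα : |α - a / q| ≤ 1 / (q : ℝ) ^ 2) (M' i : ℕ) :
    Sep ((range M').filter fun m => m / (q / 2 + 1) = i) (fun m : ℕ => (m : ℝ) * α)
      (1 / (2 * (q : ℝ))) := by
  -- one half
  have key : ∀ m m' : ℕ, m' < m → m / (q / 2 + 1) = m' / (q / 2 + 1) → ∀ k : ℤ,
      1 / (2 * (q : ℝ)) ≤ |(m : ℝ) * α - m' * α - k| := by
    intro m m' hlt hdiv k
    have hr0 : 0 < m - m' := Nat.sub_pos_of_lt hlt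
    have hb : m - m' < q / 2 + 1 := by
      have h1 := Nat.div_add_mod m (q / 2 + 1)
      have h2 := Nat.div_add_mod m' (q / 2 + 1)
      have h3 := Nat.mod_lt m (show 0 < q / 2 + 1 by omega)
      rw [hdiv] at h1
      omega
    have hrq : 2 * (m - m') ≤ q := by omega
    have h := nn_far q hq a ha α hα (m - m') hr0 hrq
    have h2 := Pool.Agent.Lib.MP_2a816b_nt.nn_le (((m - m' : ℕ) : ℝ) * α) k
    have h3 : (((m - m' : ℕ) : ℝ)) = (m : ℝ) - m' := by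
      rw [Nat.cast_sub hlt.le]
    rw [h3] at h h2
    have h4 : ((m : ℝ) - m') * α - k = (m : ℝ) * α - m' * α - k := by ring
    rw [h4] at h2
    exact h.trans h2
  intro m hm m' hm' hne k
  rw [mem_filter] at hm hm'
  have hdiv : m / (q / 2 + 1) = m' / (q / 2 + 1) := hm.2.trans hm'.2.symm
  rcases lt_or_gt_of_ne hne with h | h
  · have h1 := key m' m h hdiv.symm (-k)
    have h2 : (m' : ℝ) * α - m * α - ((-k : ℤ) : ℝ) = -((m : ℝ) * α - m' * α - k) := by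
      push_cast
      ring
    rw [h2, abs_neg] at h1
    exact h1
  · exact key m m' h hdiv k

private theorem VinB_sum (q : ℕ) (hq : 0 < q) (a : ℤ) (ha : Int.gcd a q = 1) (α : ℝ)
    (hα : |α - a / q| ≤ 1 / (q : ℝ) ^ 2) (M' N' : ℕ) (y : ℕ → ℂ) :
    ∑ m ∈ range M', ‖∑ n ∈ range N', y n * e (n * (m * α))‖ ^ 2 ≤
      9 * (2 * M' / q + 1) * (N' + 2 * q) * ∑ n ∈ range N', ‖y n‖ ^ 2 := by
  classical
  have hq0 : (0 : ℝ) < q := by exact_mod_cast hq
  have hq1 : (1 : ℝ) ≤ q := by exact_mod_cast hq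
  obtain ⟨b, hb⟩ : ∃ b : ℕ, b = q / 2 + 1 := ⟨_, rfl⟩
  have hY : 0 ≤ ∑ n ∈ range N', ‖y n‖ ^ 2 := sum_nonneg fun _ _ => by positivity
  have hfib := Finset.sum_fiberwise_of_maps_to (s := range M') (t := range (M' / b + 1))
    (g := fun m => m / b) (fun m hm => by
      rw [mem_range] at hm ⊢
      exact Nat.lt_succ_of_le (Nat.div_le_div_right hm.le))
    (fun m => ‖∑ n ∈ range N', y n * e (n * (m * α))‖ ^ 2)
  rw [← hfib]
  have hδ1 : 1 / (2 * (q : ℝ)) ≤ 1 := by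
    rw [div_le_one (by positivity)]
    linarith
  have hblock : ∀ i ∈ range (M' / b + 1),
      ∑ m ∈ (range M').filter (fun m => m / b = i),
        ‖∑ n ∈ range N', y n * e (n * (m * α))‖ ^ 2 ≤
      9 * (N' + 2 * q) * ∑ n ∈ range N', ‖y n‖ ^ 2 := by
    intro i _
    have hsep := VinB_sep q hq a ha α hα M' i
    rw [← hb] at hsep
    have h1 := Pool.Agent.Lib.MP_2a816b_nt.large_sieve _ _ _ (by positivity) hδ1 hsep N' y
    rw [one_div_one_div] at h1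
    exact h1
  refine (sum_le_sum hblock).trans ?_
  rw [sum_const, card_range, nsmul_eq_mul]
  have hcard : ((M' / b + 1 : ℕ) : ℝ) ≤ 2 * M' / q + 1 := by
    push_cast
    have h1 : ((M' / b : ℕ) : ℝ) ≤ (M' : ℝ) / b := Nat.cast_div_le
    have hbq : (q : ℝ) / 2 ≤ b := by
      have h2 : q ≤ 2 * b := by omega
      have h3 : (q : ℝ) ≤ 2 * b := by exact_mod_cast h2
      linarith
    have h4 : (M' : ℝ) / b ≤ M' / ((q : ℝ) / 2) := by
      apply div_le_div_of_nonneg_left (Nat.cast_nonneg _) (by positivity) hbq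
    have h5 : (M' : ℝ) / ((q : ℝ) / 2) = 2 * M' / q := by
      field_simp
    linarith
  have h6 : 0 ≤ 9 * ((N' : ℝ) + 2 * q) * ∑ n ∈ range N', ‖y n‖ ^ 2 := by positivity
  calc ((M' / b + 1 : ℕ) : ℝ) * (9 * ((N' : ℝ) + 2 * q) * ∑ n ∈ range N', ‖y n‖ ^ 2)
      ≤ (2 * M' / q + 1) * (9 * ((N' : ℝ) + 2 * q) * ∑ n ∈ range N', ‖y n‖ ^ 2) :=
        mul_le_mul_of_nonneg_right hcard h6
    _ = _ := by ring

theorem opB_e (q : ℕ) (hq : 0 < q) (a : ℤ) (ha : Int.gcd a q = 1) (α : ℝ)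
    (hα : |α - a / q| ≤ 1 / (q : ℝ) ^ 2) (M' N' : ℕ) :
    OpB (fun m n => e (m * n * α)) M' N' (√(9 * (2 * M' / q + 1) * (N' + 2 * q))) := by
  intro x y
  have h1 : ∑ m ∈ range M', ∑ n ∈ range N', x m * y n * e (m * n * α) =
      ∑ m ∈ range M', x m * ∑ n ∈ range N', y n * e (n * (m * α)) := by
    refine sum_congr rfl fun m _ => ?_
    rw [mul_sum]
    refine sum_congr rfl fun n _ => ?_
    have h2 : (m : ℝ) * n * α = n * (m * α) := by ring
    rw [h2, mul_assoc]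
  change ‖∑ m ∈ range M', ∑ n ∈ range N', x m * y n * e (m * n * α)‖ ≤ _
  rw [h1]
  have hA : 0 ≤ 9 * (2 * (M' : ℝ) / q + 1) * (N' + 2 * q) := by positivity
  calc ‖∑ m ∈ range M', x m * ∑ n ∈ range N', y n * e (n * (m * α))‖
      ≤ ∑ m ∈ range M', ‖x m‖ * ‖∑ n ∈ range N', y n * e (n * (m * α))‖ := by
        refine (norm_sum_le _ _).trans (le_of_eq ?_)
        exact sum_congr rfl fun m _ => norm_mul _ _
    _ ≤ √(∑ m ∈ range M', ‖x m‖ ^ 2) *
        √(∑ m ∈ range M', ‖∑ n ∈ range N', y n * e (n * (m * α))‖ ^ 2) :=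
        Real.sum_mul_le_sqrt_mul_sqrt _ _ _
    _ ≤ √(∑ m ∈ range M', ‖x m‖ ^ 2) *
        √(9 * (2 * M' / q + 1) * (N' + 2 * q) * ∑ n ∈ range N', ‖y n‖ ^ 2) := by
        gcongr
        exact VinB_sum q hq a ha α hα M' N' y
    _ = _ := by
        rw [Real.sqrt_mul hA]
        ring

end Pool.Agent.Lib.MP_d57abb_nt.All
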