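import Mathlib
import Pool.Agent.Lib.MP_d57abb_nt.All.VinI
import Pool.Agent.Lib.MP_d57abb_nt.All.VinB

/-!
# JOB Vin: Vinogradov's bound for the exponential sum over primes

See `MP_50b5e1_nt/X/PS.lean` for a similar use of `core1` and `typeII1` (`MP_2a816b_nt/CoreGen`, read the statements there).

PROOF.  `U² ≤ q`, `U² q ≤ N`, so `U⁴ ≤ N`, `U³ ≤ N`.  Apply `core1 (kapV α N) N U L` with `C = 4 N / U²` and `T = L² L² T₀`, `T₀ = 20 N / √U`:
* `kapV α N 0 = 0`; `‖kapV α N n‖ ≤ 1 ≤ C` (`U² ≤ N`).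
* type I: `typeI_e`: `q + 1 + 2 N / q ≤ N / U² + N / U² + 2 N / U²` (`q ≤ N / U²`, `1 ≤ N / U²`, `N / q ≤ N / U²`).
* type II: for `m, n ≥ 1`, `m n ≤ N` the kernel is `kapV α N (m n) = e (m n α)`; in the double sum `m ∈ Ioc 0 N`, `n ∈ Ioc 0 (N / m)` replace it and use `typeII1 (fun m n => e (m * n * α)) N U L` with
  `Bd i = √(9 (2 * 2^(i+1) / q + 1) ((N / 2^i + 1 : ℕ) + 2 q))` (`opB_e`), `A = L`, and
  `Bd i * (√(2^i) * √(2 N / 2^i)) = Bd i √(2 N) ≤ T₀`: with `x = 2^i`, `U / 2 < x ≤ N / U`: `2 N * 9 (4 x / q + 1) (N / x + 1 + 2 q) ≤ 18 N (4 N / q + 12 x + N / x + 3 q)` (`1 + 2 q ≤ 3 q`)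
  `≤ 18 N (4 N / U² + 12 N / U + 2 N / U + 3 N / U²) ≤ 18 * 21 N² / U ≤ (20 N / √U)²`.
  The statement `hBT` of `typeII1` is needed only for the `i` with `2^i ≤ N`, `U < 2^(i+1)`, `2^i U ≤ N`.
Result: `4 L U C + 2 T = 16 L N / U + 40 L⁴ N / √U ≤ 60 L⁴ N / √U` (`U ≥ √U`, `L ≥ 1`).  Finally `tw N (kapV α N) vM = ∑ n ∈ Ioc 0 N, vM n * e (n α)` (unfold `tw`).
PROOF of `vin_lp`: `vM n ≥ lp n ≥ 0` and `∑_{n ≤ N} (vM n - lp n) = ψ(N) - θ(N) ≤ 2 √N log N` (see `ATh_thN_le` and `theta_of_psi` in `MP_9c2ea5_nt/ATh`: Mathlib `Chebyshev.psi_sub_theta_le`; `vM` is the von Mangoldt function).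
-/

open Finset Real

namespace Pool.Agent.Lib.MP_d57abb_nt.All

open Pool.Agent.Lib.MP_2a816b_nt (e norm_e OpB tw vM core1 typeII1)

private lemma Vin_real {N U q x : ℝ} (hU : 1 ≤ U) (hUq : U ^ 2 ≤ q) (hqN : U ^ 2 * q ≤ N)
    (hx : 0 < x) (h1 : U ≤ 2 * x) (h2 : x * U ≤ N) {N' : ℝ} (hN' : N' ≤ N / x + 1) :
    9 * (4 * x / q + 1) * (N' + 2 * q) * (2 * N) ≤ (20 * N / √U) ^ 2 := by
  have hU0 : 0 < U := by linarith
  have hU2 : 1 ≤ U ^ 2 := one_le_pow₀ hU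
  have hq1 : 1 ≤ q := hU2.trans hUq
  have hq0 : 0 < q := by linarith
  have hN0 : 0 ≤ N := by
    have : 0 ≤ x * U := by positivity
    linarith
  have hNU : N / U ^ 2 ≤ N / U := by
    apply div_le_div_of_nonneg_left hN0 hU0
    nlinarith
  have a1 : N / q ≤ N / U ^ 2 := div_le_div_of_nonneg_left hN0 (by positivity) hUq
  have a2 : x ≤ N / U := by rwa [le_div_iff₀ hU0]
  have a3 : N / x ≤ 2 * (N / U) := by
    rw [div_le_iff₀ hx]
    calc N = N / U * U := by field_simp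
      _ ≤ N / U * (2 * x) := by gcongr
      _ = 2 * (N / U) * x := by ring
  have a4 : q ≤ N / U ^ 2 := by
    rw [le_div_iff₀ (by positivity)]
    linarith
  have b1 : N' + 2 * q ≤ N / x + 3 * q := by linarith
  have b2 : (4 * x / q + 1) * (N' + 2 * q) ≤ (4 * x / q + 1) * (N / x + 3 * q) :=
    mul_le_mul_of_nonneg_left b1 (by positivity)
  have b3 : (4 * x / q + 1) * (N / x + 3 * q) = 4 * (N / q) + 12 * x + N / x + 3 * q := by
    field_simp
    ring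
  have b4 : (4 * x / q + 1) * (N' + 2 * q) ≤ 21 * (N / U) := by
    rw [b3] at b2
    linarith
  have b5 : (20 * N / √U) ^ 2 = 400 * (N / U) * N := by
    rw [div_pow, Real.sq_sqrt hU0.le]
    ring
  rw [b5]
  calc 9 * (4 * x / q + 1) * (N' + 2 * q) * (2 * N)
      = ((4 * x / q + 1) * (N' + 2 * q)) * (18 * N) := by ring
    _ ≤ (21 * (N / U)) * (18 * N) := by gcongr
    _ = 378 * (N / U) * N := by ring
    _ ≤ 400 * (N / U) * N := by
        have : 0 ≤ N / U * N := by positivity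
        nlinarith

private lemma Vin_tw (N : ℕ) (α : ℝ) :
    tw N (kapV α N) vM = ∑ n ∈ Ioc 0 N, (vM n : ℂ) * e (n * α) := by
  unfold tw
  apply sum_congr rfl
  intro n hn
  rw [mem_Ioc] at hn
  unfold kapV
  rw [if_pos hn]

theorem vin (N U q L : ℕ) (a : ℤ) (α : ℝ) (hU : 1 ≤ U) (hUq : U ^ 2 ≤ q) (hqN : U ^ 2 * q ≤ N)
    (hL : N + 1 < 2 ^ L) (ha : Int.gcd a q = 1) (hα : |α - a / q| ≤ 1 / (q : ℝ) ^ 2) :
    ‖∑ n ∈ Ioc 0 N, (vM n : ℂ) * e (n * α)‖ ≤ 60 * (L : ℝ) ^ 4 * N / √U := by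
  have hq : 0 < q := lt_of_lt_of_le (by positivity) hUq
  have hUr : (1 : ℝ) ≤ U := by exact_mod_cast hU
  have hU0 : (0 : ℝ) < U := by linarith
  have hUqr : (U : ℝ) ^ 2 ≤ q := by exact_mod_cast hUq
  have hqNr : (U : ℝ) ^ 2 * q ≤ N := by exact_mod_cast hqN
  have hqr : (1 : ℝ) ≤ q := by exact_mod_cast hq
  have hNr : (0 : ℝ) ≤ N := Nat.cast_nonneg N
  have hU2 : (1 : ℝ) ≤ (U : ℝ) ^ 2 := one_le_pow₀ hUr
  have hU3 : U * U * U ≤ N := by
    have h1 : U ≤ q := le_trans (by nlinarith) hUq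
    calc U * U * U = U ^ 2 * U := by ring
      _ ≤ U ^ 2 * q := Nat.mul_le_mul_left _ h1
      _ ≤ N := hqN
  have hL1 : (1 : ℝ) ≤ L := by
    have : 1 ≤ L := by
      rcases Nat.eq_zero_or_pos L with h | h
      · subst h
        simp at hL
      · exact h
    exact_mod_cast this
  have hUU : (U : ℝ) ^ 2 ≤ N := by nlinarith
  have hkap : ∀ n, ‖kapV α N n‖ ≤ 1 := by
    intro n
    unfold kapV
    split_ifs
    · rw [norm_e]
    · rw [norm_zero]
      norm_num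
  have hone : (1 : ℝ) ≤ N / (U : ℝ) ^ 2 := by
    rw [le_div_iff₀ (by positivity), one_mul]
    exact hUU
  have hC4 : 4 * (N : ℝ) / (U : ℝ) ^ 2 = 4 * (N / (U : ℝ) ^ 2) := by ring
  have hsU : 0 < √(U : ℝ) := Real.sqrt_pos.2 hU0
  have hmain : ‖tw N (kapV α N) vM‖ ≤ 4 * L * U * (4 * (N : ℝ) / (U : ℝ) ^ 2) +
      2 * ((L : ℝ) ^ 2 * (L : ℝ) ^ 2 * (20 * N / √U)) := by
    apply core1 (kapV α N) N U L hU3 hL
    · simp [kapV]
    · intro n
      refine (hkap n).trans ?_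
      rw [hC4]
      linarith
    · intro m t
      refine (typeI_e N q hq a ha α hα m t).trans ?_
      have a4 : (q : ℝ) ≤ N / (U : ℝ) ^ 2 := by
        rw [le_div_iff₀ (by positivity)]
        linarith
      have a1 : 2 * (N : ℝ) / q ≤ 2 * (N / (U : ℝ) ^ 2) := by
        have : (N : ℝ) / q ≤ N / (U : ℝ) ^ 2 := div_le_div_of_nonneg_left hNr (by positivity) hUqr
        calc 2 * (N : ℝ) / q = 2 * (N / q) := by ring
          _ ≤ _ := by linarith
      rw [hC4]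
      linarith
    · intro f g hf hg hf0
      have hk : ∑ m ∈ Ioc 0 N, ∑ n ∈ Ioc 0 (N / m), (f m : ℂ) * (g n : ℂ) * kapV α N (m * n) =
          ∑ m ∈ Ioc 0 N, ∑ n ∈ Ioc 0 (N / m), (f m : ℂ) * (g n : ℂ) * e (m * n * α) := by
        apply sum_congr rfl
        intro m hm
        apply sum_congr rfl
        intro n hn
        rw [mem_Ioc] at hm hn
        have h1 : 0 < m * n ∧ m * n ≤ N := by
          refine ⟨Nat.mul_pos hm.1 hn.1, ?_⟩
          have := (Nat.le_div_iff_mul_le hm.1).1 hn.2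
          rwa [mul_comm] at this
        unfold kapV
        rw [if_pos h1]
        congr 2
        push_cast
        ring
      rw [hk]
      refine typeII1 (fun m n => e (m * n * α)) N U L hL (20 * N / √U) (by positivity)
        (fun i => √(9 * (2 * ((2 ^ (i + 1) : ℕ) : ℝ) / q + 1) * (((N / 2 ^ i + 1 : ℕ) : ℝ) + 2 * q)))
        (fun i => Real.sqrt_nonneg _) ?_ ?_ f g L (by positivity) hf hg hf0
      · intro i _ _ _
        exact opB_e q hq a ha α hα (2 ^ (i + 1)) (N / 2 ^ i + 1)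
      · intro i _ h2 h3
        have hx : (0 : ℝ) < 2 ^ i := by positivity
        have h2r : (U : ℝ) ≤ 2 * 2 ^ i := by
          have : (U : ℝ) ≤ ((2 ^ (i + 1) : ℕ) : ℝ) := by exact_mod_cast h2.le
          rw [pow_succ] at this
          push_cast at this
          linarith
        have h3r : (2 : ℝ) ^ i * U ≤ N := by exact_mod_cast h3
        have hN' : ((N / 2 ^ i + 1 : ℕ) : ℝ) ≤ N / 2 ^ i + 1 := by
          push_cast
          have := @Nat.cast_div_le ℝ _ _ _ N (2 ^ i)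
          push_cast at this
          linarith
        have hkey := Vin_real hUr hUqr hqNr hx h2r h3r hN'
        have e1 : √((2 : ℝ) ^ i) * √(2 * N / 2 ^ i) = √(2 * N) := by
          rw [← Real.sqrt_mul hx.le]
          congr 1
          field_simp
        have e2 : 2 * ((2 ^ (i + 1) : ℕ) : ℝ) / q = 4 * 2 ^ i / q := by
          push_cast
          rw [pow_succ]
          ring
        rw [e1, ← Real.sqrt_mul (by positivity), e2]
        exact (Real.sqrt_le_left (by positivity)).2 hkey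
  rw [Vin_tw] at hmain
  refine hmain.trans ?_
  have hsU1 : √(U : ℝ) ≤ U := by
    rw [Real.sqrt_le_left hU0.le]
    nlinarith
  have hLL : (L : ℝ) ≤ (L : ℝ) ^ 4 := by
    calc (L : ℝ) = (L : ℝ) ^ 1 := (pow_one _).symm
      _ ≤ (L : ℝ) ^ 4 := pow_le_pow_right₀ hL1 (by norm_num)
  have c1 : 4 * (L : ℝ) * U * (4 * (N : ℝ) / (U : ℝ) ^ 2) = 16 * (L * (N / U)) := by
    field_simp
    try ring
  have c2 : (L : ℝ) * (N / U) ≤ (L : ℝ) ^ 4 * (N / √U) := by
    apply mul_le_mul hLL (div_le_div_of_nonneg_left hNr hsU hsU1) (by positivity) (by positivity)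
  have c3 : 0 ≤ (L : ℝ) ^ 4 * (N / √U) := by positivity
  calc 4 * (L : ℝ) * U * (4 * (N : ℝ) / (U : ℝ) ^ 2) +
      2 * ((L : ℝ) ^ 2 * (L : ℝ) ^ 2 * (20 * N / √U))
      = 16 * (L * (N / U)) + 40 * ((L : ℝ) ^ 4 * (N / √U)) := by
        rw [c1]
        ring
    _ ≤ 60 * ((L : ℝ) ^ 4 * (N / √U)) := by linarith
    _ = 60 * (L : ℝ) ^ 4 * N / √U := by ring

theorem vin_lp (N U q L : ℕ) (a : ℤ) (α : ℝ) (hU : 1 ≤ U) (hUq : U ^ 2 ≤ q) (hqN : U ^ 2 * q ≤ N)
    (hL : N + 1 < 2 ^ L) (ha : Int.gcd a q = 1) (hα : |α - a / q| ≤ 1 / (q : ℝ) ^ 2) :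
    ‖∑ n ∈ Ioc 0 N, (lp n : ℂ) * e (n * α)‖ ≤ 60 * (L : ℝ) ^ 4 * N / √U + 2 * √N * Real.log N := by
  have hN1 : 1 ≤ N := by
    have h1 : 0 < U ^ 2 := by positivity
    have h2 : 0 < q := lt_of_lt_of_le h1 hUq
    exact lt_of_lt_of_le (Nat.mul_pos h1 h2) hqN
  have h0 : ∀ n : ℕ, 0 ≤ vM n - lp n := by
    intro n
    unfold lp
    split_ifs with h
    · have : vM n = Real.log n := ArithmeticFunction.vonMangoldt_apply_prime h
      rw [this, sub_self]
    · rw [sub_zero]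
      exact ArithmeticFunction.vonMangoldt_nonneg
  have h1 : ∑ n ∈ Ioc 0 N, (lp n : ℂ) * e (n * α) =
      ∑ n ∈ Ioc 0 N, (vM n : ℂ) * e (n * α) - ∑ n ∈ Ioc 0 N, ((vM n - lp n : ℝ) : ℂ) * e (n * α) := by
    rw [← sum_sub_distrib]
    apply sum_congr rfl
    intro n _
    push_cast
    ring
  rw [h1]
  refine (norm_sub_le _ _).trans (add_le_add (vin N U q L a α hU hUq hqN hL ha hα) ?_)
  calc ‖∑ n ∈ Ioc 0 N, ((vM n - lp n : ℝ) : ℂ) * e (n * α)‖
      ≤ ∑ n ∈ Ioc 0 N, ‖((vM n - lp n : ℝ) : ℂ) * e (n * α)‖ := norm_sum_le _ _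
    _ = ∑ n ∈ Ioc 0 N, (vM n - lp n) := by
        apply sum_congr rfl
        intro n _
        rw [norm_mul, norm_e, mul_one, Complex.norm_real, Real.norm_of_nonneg (h0 n)]
    _ = Chebyshev.psi (N : ℝ) - Chebyshev.theta (N : ℝ) := by
        rw [Chebyshev.psi, Chebyshev.theta, Nat.floor_natCast, Finset.sum_filter,
          ← Finset.sum_sub_distrib]
        apply sum_congr rfl
        intro n _
        rfl
    _ ≤ 2 * √N * Real.log N := Chebyshev.psi_sub_theta_le (by exact_mod_cast hN1)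

end Pool.Agent.Lib.MP_d57abb_nt.All
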