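import Mathlib
import Pool.Agent.Lib.MP_d57abb_nt.All.Vin
import Pool.Agent.Lib.MP_d57abb_nt.All.MnrA

/-!
# JOB Mnr: the minor arcs

PROOF.  `Λ = log ℓ`, `d = dens W₁`, `g k = lp (W₁ k + n₀)`.
(a) `‖∑_{k<u} d e (k θ)‖ = d ‖D u θ‖ ≤ d / (2 nn θ)` (`norm_D_mul_nn`), and the hypothesis with `q = 1`, `a = round θ` gives `nn θ > Λ^24 / ℓ`: it is `≤ d ℓ / Λ^24 ≤ (ε/2) ℓ` for large `ℓ`.
(b) If `u ≤ ℓ / Λ²`: `‖∑_{k<u} g k e (k θ)‖ ≤ u log (W₁ u + n₀) ≤ (ℓ / Λ²) 2 Λ ≤ (ε/2) ℓ`.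
(c) `ℓ / Λ² < u ≤ 5 ℓ`.  Let `y = W₁ u + n₀ - 1`, `α_b = (θ + b) / W₁`.  By `expand` (file `MnrA`) it suffices to bound `∑_{n ∈ Ioc 0 y} lp n e (n α_b)` by `(ε/4) ℓ` for every `b < W₁` (and `n₀² ≤ (ε/4) ℓ`).
Fix `b`.  Let `U = ⌊Λ^10⌋` and `Q₁ = y / U²` (natural division, `≥ 1`).  Dirichlet's theorem (`Real.exists_rat_abs_sub_le_and_den_le α_b (n_pos : 0 < Q₁)`: a rational `a / q`, `q ≤ Q₁`, `|α_b - a/q| ≤ 1 / ((Q₁ + 1) q)`).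
If `q < U²`: `θ = W₁ α_b - b`, so `|θ - (W₁ a - b q) / q| ≤ W₁ / ((Q₁ + 1) q) ≤ W₁ U² / y ≤ 2 U² / u ≤ 2 Λ^20 Λ² / ℓ ≤ Λ^24 / ℓ` (`y ≥ W₁ u - 1 ≥ W₁ u / 2`) and `q ≤ Λ^20 ≤ Λ^24`, contradicting the hypothesis.
So `q ≥ U²`, `U² q ≤ y`, `|α_b - a / q| ≤ 1/q²`, and `vin_lp` with `N = y`, `L = Nat.log 2 (y + 1) + 1` (`≤ 2 log y + 2 ≤ 5 Λ`) gives `≤ 60 (5 Λ)^4 y / √U + 2 √y log y`; `√U ≥ Λ^5 / 2`, `y ≤ 6 W₁ ℓ`:
`≤ C ℓ / Λ + ... ≤ (ε/4) ℓ` for large `ℓ`.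
-/

open Finset Filter

namespace Pool.Agent.Lib.MP_d57abb_nt.All

open Pool.Agent.Lib.MP_2a816b_nt (e norm_e e_add e_int e_nat nn D norm_D_le norm_D_mul_nn)

private theorem Mnr_ev (W₁ n₀ : ℕ) (hW : 0 < W₁) (ε : ℝ) (hε : 0 < ε) (B : ℝ) : ∃ ℓ₀ : ℕ, ∀ ℓ : ℕ, ℓ₀ ≤ ℓ →
    2 ≤ ℓ ∧ B ≤ Real.log ℓ ∧ (5 * W₁ * ℓ + n₀ : ℝ) ≤ (ℓ : ℝ) ^ 2 ∧ (n₀ : ℝ) ≤ W₁ * ℓ ∧
    (n₀ : ℝ) ^ 2 ≤ ε / 4 * ℓ ∧ 2 * Real.log ℓ ^ 22 ≤ ℓ ∧ 6144 * W₁ * Real.log ℓ ^ 2 ≤ ε ^ 2 * ℓ := by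
  have hW' : (1 : ℝ) ≤ W₁ := by exact_mod_cast hW
  have hcast : Tendsto (fun n : ℕ => (n : ℝ)) atTop atTop := tendsto_natCast_atTop_atTop
  have h1 : ∀ᶠ ℓ : ℕ in atTop, 2 ≤ ℓ := eventually_ge_atTop 2
  have h2 : ∀ᶠ ℓ : ℕ in atTop, B ≤ Real.log ℓ := (Real.tendsto_log_atTop.comp hcast).eventually_ge_atTop B
  have h3 : ∀ᶠ ℓ : ℕ in atTop, (5 * W₁ + n₀ : ℝ) ≤ (ℓ : ℝ) := hcast.eventually_ge_atTop _
  have h4 : ∀ᶠ ℓ : ℕ in atTop, (n₀ : ℝ) ^ 2 / (ε / 4) ≤ (ℓ : ℝ) := hcast.eventually_ge_atTop _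
  have h5 : ∀ᶠ ℓ : ℕ in atTop, ‖Real.log (ℓ : ℝ) ^ 22‖ ≤ (1 / 2) * ‖(ℓ : ℝ)‖ :=
    hcast.eventually ((Real.isLittleO_pow_log_id_atTop (n := 22)).def (by norm_num : (0 : ℝ) < 1 / 2))
  have h6 : ∀ᶠ ℓ : ℕ in atTop, ‖Real.log (ℓ : ℝ) ^ 2‖ ≤ (ε ^ 2 / (6144 * W₁)) * ‖(ℓ : ℝ)‖ :=
    hcast.eventually ((Real.isLittleO_pow_log_id_atTop (n := 2)).def (by positivity))
  obtain ⟨ℓ₀, h⟩ := eventually_atTop.1 (h1.and (h2.and (h3.and (h4.and (h5.and h6)))))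
  refine ⟨ℓ₀, fun ℓ hℓ => ?_⟩
  obtain ⟨g1, g2, g3, g4, g5, g6⟩ := h ℓ hℓ
  have hℓ1 : (2 : ℝ) ≤ ℓ := by exact_mod_cast g1
  have hn0 : (0 : ℝ) ≤ n₀ := Nat.cast_nonneg _
  refine ⟨g1, g2, ?_, ?_, ?_, ?_, ?_⟩
  · nlinarith [mul_le_mul_of_nonneg_right g3 (by linarith : (0 : ℝ) ≤ ℓ), mul_nonneg hn0 (by linarith : (0 : ℝ) ≤ ℓ)]
  · nlinarith
  · rw [div_le_iff₀ (by positivity)] at g4
    linarith
  · rw [Real.norm_of_nonneg (by positivity : (0 : ℝ) ≤ (ℓ : ℝ))] at g5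
    have := (Real.le_norm_self _).trans g5
    linarith
  · rw [Real.norm_of_nonneg (by positivity : (0 : ℝ) ≤ (ℓ : ℝ))] at g6
    have h7 := (Real.le_norm_self _).trans g6
    have h8 : (0 : ℝ) < 6144 * W₁ := by positivity
    calc 6144 * W₁ * Real.log ℓ ^ 2 ≤ 6144 * W₁ * (ε ^ 2 / (6144 * W₁) * ℓ) := mul_le_mul_of_nonneg_left h7 h8.le
      _ = ε ^ 2 * ℓ := by field_simp

private theorem Mnr_lp (n : ℕ) (y : ℝ) (h : (n : ℝ) ≤ y) (hy : 1 ≤ y) : 0 ≤ lp n ∧ lp n ≤ Real.log y := by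
  unfold lp
  split_ifs with hp
  · have h1 : (1 : ℝ) ≤ n := by exact_mod_cast hp.one_lt.le
    exact ⟨Real.log_nonneg h1, Real.log_le_log (by linarith) h⟩
  · exact ⟨le_rfl, Real.log_nonneg hy⟩

/-- the sum over the primes -/
private theorem Mnr_b (W₁ n₀ ℓ u b : ℕ) (hW : 0 < W₁) (ε : ℝ) (hε : 0 < ε) (θ : ℝ) (hℓ2 : 2 ≤ ℓ)
    (hΛ2 : 2 ≤ Real.log ℓ) (hΛε : 3600000 * W₁ / ε ≤ Real.log ℓ) (hsq : (5 * W₁ * ℓ + n₀ : ℝ) ≤ (ℓ : ℝ) ^ 2)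
    (hn1 : (n₀ : ℝ) ≤ W₁ * ℓ) (h22 : 2 * Real.log ℓ ^ 22 ≤ ℓ)
    (hl2 : 6144 * W₁ * Real.log ℓ ^ 2 ≤ ε ^ 2 * ℓ)
    (hyp : ∀ q : ℕ, 0 < q → (q : ℝ) ≤ Real.log ℓ ^ 24 → ∀ a : ℤ, Real.log ℓ ^ 24 / ℓ < |θ - a / q|)
    (hu5 : u ≤ 5 * ℓ) (hu : (ℓ : ℝ) / Real.log ℓ ^ 2 < u) :
    ‖∑ n ∈ Ioc 0 (W₁ * u + n₀ - 1), (lp n : ℂ) * e (n * ((θ + b) / W₁))‖ ≤ ε / 4 * ℓ := by
  set Λ : ℝ := Real.log ℓ with hΛdef
  have hW' : (1 : ℝ) ≤ W₁ := by exact_mod_cast hW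
  have hℓ0 : (2 : ℝ) ≤ ℓ := by exact_mod_cast hℓ2
  have hℓpos : (0 : ℝ) < ℓ := by linarith
  have hΛpos : 0 < Λ := by linarith
  have hu5' : (u : ℝ) ≤ 5 * ℓ := by exact_mod_cast hu5
  have hn0 : (0 : ℝ) ≤ n₀ := Nat.cast_nonneg _
  -- the size of `u`
  have hpow1 : ∀ i j : ℕ, i ≤ j → Λ ^ i ≤ Λ ^ j := fun i j hij => pow_le_pow_right₀ (by linarith) hij
  have hulow : 2 * Λ ^ 20 < u := by
    refine lt_of_le_of_lt ?_ hu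
    rw [le_div_iff₀ (by positivity)]
    calc 2 * Λ ^ 20 * Λ ^ 2 = 2 * Λ ^ 22 := by ring
      _ ≤ (ℓ : ℝ) := h22
  have hΛ20 : 1 ≤ Λ ^ 20 := one_le_pow₀ (by linarith)
  have hu2 : (2 : ℝ) < u := by linarith
  have hu2' : 2 < u := by exact_mod_cast hu2
  set y : ℕ := W₁ * u + n₀ - 1 with hydef
  have hWu : 2 < W₁ * u := lt_of_lt_of_le hu2' (Nat.le_mul_of_pos_left u hW)
  have hy1 : y + 1 = W₁ * u + n₀ := by omega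
  have hy1' : (y : ℝ) + 1 = W₁ * u + n₀ := by exact_mod_cast hy1
  have hyhalf : (W₁ : ℝ) * u / 2 ≤ y := by
    have h1 : (2 : ℝ) < W₁ * u := by exact_mod_cast hWu
    linarith
  have huy : (u : ℝ) / 2 ≤ y := by nlinarith
  have hylow : Λ ^ 20 ≤ y := by linarith
  have hypos : (0 : ℝ) < y := by linarith
  have hyup : (y : ℝ) ≤ 6 * W₁ * ℓ := by nlinarith [mul_le_mul_of_nonneg_left hu5' (by linarith : (0 : ℝ) ≤ W₁)]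
  have hysq : (y : ℝ) + 1 ≤ (ℓ : ℝ) ^ 2 := by
    rw [hy1']
    refine le_trans ?_ hsq
    nlinarith [mul_le_mul_of_nonneg_left hu5' (by linarith : (0 : ℝ) ≤ W₁)]
  have hlogy1 : Real.log ((y : ℝ) + 1) ≤ 2 * Λ := by
    refine (Real.log_le_log (by linarith) hysq).trans (le_of_eq ?_)
    rw [Real.log_pow, hΛdef]
    norm_num
  have hlogy : Real.log (y : ℝ) ≤ 2 * Λ := (Real.log_le_log hypos (by linarith)).trans hlogy1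
  -- the parameter `U`
  set U : ℕ := ⌊Λ ^ 10⌋₊ with hUdef
  have hΛ10 : (1024 : ℝ) ≤ Λ ^ 10 := by
    calc (1024 : ℝ) = 2 ^ 10 := by norm_num
      _ ≤ Λ ^ 10 := pow_le_pow_left₀ (by norm_num) hΛ2 10
  have hUle : (U : ℝ) ≤ Λ ^ 10 := Nat.floor_le (by positivity)
  have hUlow : Λ ^ 10 / 4 ≤ U := by
    have h1 := Nat.lt_floor_add_one (Λ ^ 10)
    rw [← hUdef] at h1
    linarith
  have hU1 : 1 ≤ U := by
    rw [hUdef, Nat.one_le_floor_iff]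
    linarith
  have hU1' : (1 : ℝ) ≤ U := by exact_mod_cast hU1
  have hU2le : (U : ℝ) ^ 2 ≤ Λ ^ 20 := by
    calc (U : ℝ) ^ 2 ≤ (Λ ^ 10) ^ 2 := pow_le_pow_left₀ (by linarith) hUle 2
      _ = Λ ^ 20 := by ring
  have hU2y : U ^ 2 ≤ y := by
    have : ((U ^ 2 : ℕ) : ℝ) ≤ y := by
      rw [Nat.cast_pow]
      linarith
    exact_mod_cast this
  have hU2pos : 0 < U ^ 2 := by positivity
  set Q₁ : ℕ := y / U ^ 2 with hQdef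
  have hQpos : 0 < Q₁ := Nat.div_pos hU2y hU2pos
  have hQ1 : y < (Q₁ + 1) * U ^ 2 := by
    rw [mul_comm]
    exact Nat.lt_mul_div_succ y hU2pos
  have hQ1' : (y : ℝ) < ((Q₁ : ℝ) + 1) * (U : ℝ) ^ 2 := by exact_mod_cast hQ1
  set α : ℝ := (θ + b) / W₁ with hαdef
  obtain ⟨r, hr1, hr2⟩ := Real.exists_rat_abs_sub_le_and_den_le α hQpos
  have hqpos : 0 < r.den := r.den_pos
  have hqpos' : (0 : ℝ) < r.den := by exact_mod_cast hqpos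
  have hrcast : ((r : ℚ) : ℝ) = (r.num : ℝ) / (r.den : ℝ) := Rat.cast_def r
  rw [hrcast] at hr1
  have hQ0 : (0 : ℝ) < (Q₁ : ℝ) + 1 := by positivity
  have hcase : U ^ 2 ≤ r.den := by
    by_contra hlt
    push Not at hlt
    have hlt' : (r.den : ℝ) < (U : ℝ) ^ 2 := by exact_mod_cast hlt
    have h1 := hyp r.den hqpos (by
      have : Λ ^ 20 ≤ Λ ^ 24 := hpow1 _ _ (by norm_num)
      linarith) (W₁ * r.num - b * r.den)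
    have h2 : θ - ((W₁ * r.num - b * r.den : ℤ) : ℝ) / r.den = W₁ * (α - r.num / r.den) := by
      rw [hαdef]
      push_cast
      field_simp
      ring
    rw [h2, abs_mul, abs_of_pos (by linarith : (0 : ℝ) < W₁)] at h1
    have h3 : (W₁ : ℝ) * |α - r.num / r.den| ≤ W₁ * (1 / ((Q₁ + 1) * r.den)) :=
      mul_le_mul_of_nonneg_left hr1 (by linarith)
    have h4 : (1 : ℝ) / ((Q₁ + 1) * r.den) ≤ (U : ℝ) ^ 2 / y := by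
      rw [div_le_div_iff₀ (by positivity) hypos, one_mul]
      have h5 : (1 : ℝ) ≤ r.den := by exact_mod_cast hqpos
      calc (y : ℝ) ≤ ((Q₁ : ℝ) + 1) * (U : ℝ) ^ 2 := hQ1'.le
        _ = (U : ℝ) ^ 2 * ((Q₁ + 1) * 1) := by ring
        _ ≤ (U : ℝ) ^ 2 * ((Q₁ + 1) * r.den) := by gcongr
    have h6 : (W₁ : ℝ) * ((U : ℝ) ^ 2 / y) ≤ 2 * Λ ^ 20 / u := by
      rw [← mul_div_assoc, div_le_div_iff₀ hypos (by linarith)]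
      calc (W₁ : ℝ) * (U : ℝ) ^ 2 * u = 2 * (U : ℝ) ^ 2 * (W₁ * u / 2) := by ring
        _ ≤ 2 * Λ ^ 20 * y := by gcongr
    have h7 : 2 * Λ ^ 20 / u ≤ Λ ^ 24 / ℓ := by
      have h8 : (ℓ : ℝ) < u * Λ ^ 2 := by
        rwa [div_lt_iff₀ (by positivity)] at hu
      rw [div_le_div_iff₀ (by linarith) hℓpos]
      have h9 : (2 : ℝ) ≤ Λ ^ 2 := by nlinarith
      calc 2 * Λ ^ 20 * (ℓ : ℝ) ≤ 2 * Λ ^ 20 * (u * Λ ^ 2) := by gcongr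
        _ = Λ ^ 22 * u * 2 := by ring
        _ ≤ Λ ^ 22 * u * Λ ^ 2 := by gcongr
        _ = Λ ^ 24 * u := by ring
    have h10 : (W₁ : ℝ) * (1 / ((Q₁ + 1) * r.den)) ≤ W₁ * ((U : ℝ) ^ 2 / y) := by gcongr
    linarith
  have hUqy : U ^ 2 * r.den ≤ y := by
    calc U ^ 2 * r.den ≤ U ^ 2 * Q₁ := Nat.mul_le_mul_left _ hr2
      _ ≤ y := Nat.mul_div_le y (U ^ 2)
  have hαq : |α - r.num / (r.den : ℝ)| ≤ 1 / (r.den : ℝ) ^ 2 := by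
    refine hr1.trans ?_
    have h1 : (r.den : ℝ) ≤ Q₁ := by exact_mod_cast hr2
    apply one_div_le_one_div_of_le (by positivity)
    rw [pow_two]
    exact mul_le_mul_of_nonneg_right (by linarith) hqpos'.le
  have hgcd : Int.gcd r.num r.den = 1 := by
    rw [Int.gcd, Int.natAbs_natCast]
    exact r.reduced
  set L : ℕ := Nat.log 2 (y + 1) + 1 with hLdef
  have hL : y + 1 < 2 ^ L := Nat.lt_pow_succ_log_self (by norm_num) _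
  have hv := vin_lp y U r.den L r.num α hU1 hcase hUqy hL hgcd hαq
  have hLle : (L : ℝ) ≤ 5 * Λ := by
    have h1 : 2 ^ (Nat.log 2 (y + 1)) ≤ y + 1 := Nat.pow_log_le_self 2 (by omega)
    have h2 : (2 : ℝ) ^ (Nat.log 2 (y + 1)) ≤ (y : ℝ) + 1 := by exact_mod_cast h1
    have h3 := Real.log_le_log (by positivity) h2
    rw [Real.log_pow] at h3
    have h4 : (1 : ℝ) / 2 ≤ Real.log 2 := by
      have := Real.log_two_gt_d9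
      linarith
    have h5 : (Nat.log 2 (y + 1) : ℝ) * (1 / 2) ≤ Nat.log 2 (y + 1) * Real.log 2 :=
      mul_le_mul_of_nonneg_left h4 (Nat.cast_nonneg _)
    rw [hLdef]
    push_cast
    linarith
  have hsU : Λ ^ 5 / 2 ≤ √(U : ℝ) := by
    apply Real.le_sqrt_of_sq_le
    calc (Λ ^ 5 / 2) ^ 2 = Λ ^ 10 / 4 := by ring
      _ ≤ (U : ℝ) := hUlow
  have hL0 : (0 : ℝ) ≤ L := Nat.cast_nonneg _
  have hT1 : 60 * (L : ℝ) ^ 4 * y / √(U : ℝ) ≤ ε / 8 * ℓ := by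
    have h1 : 60 * (L : ℝ) ^ 4 * y ≤ 60 * (5 * Λ) ^ 4 * (6 * W₁ * ℓ) := by gcongr
    have h2 : 60 * (L : ℝ) ^ 4 * y / √(U : ℝ) ≤ 60 * (5 * Λ) ^ 4 * (6 * W₁ * ℓ) / (Λ ^ 5 / 2) := by
      apply div_le_div₀ (by positivity) h1 (by positivity) hsU
    refine h2.trans ?_
    rw [div_le_iff₀ (by positivity)]
    have h3 : 3600000 * (W₁ : ℝ) ≤ ε * Λ := by
      rw [div_le_iff₀ hε] at hΛε
      linarith
    calc 60 * (5 * Λ) ^ 4 * (6 * W₁ * ℓ) = (3600000 * (W₁ : ℝ)) * (Λ ^ 4 * ℓ / 16) := by ring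
      _ ≤ (ε * Λ) * (Λ ^ 4 * ℓ / 16) := by gcongr
      _ = ε / 8 * ℓ * (Λ ^ 5 / 2) := by ring
  have hT2 : 2 * √(y : ℝ) * Real.log y ≤ ε / 8 * ℓ := by
    have h1 : 2 * √(y : ℝ) * Real.log y ≤ 2 * √(y : ℝ) * (2 * Λ) :=
      mul_le_mul_of_nonneg_left hlogy (by positivity)
    have h2 : √(y : ℝ) ≤ ε * ℓ / (32 * Λ) := by
      rw [Real.sqrt_le_left (by positivity), div_pow, le_div_iff₀ (by positivity)]
      calc (y : ℝ) * (32 * Λ) ^ 2 ≤ (6 * W₁ * ℓ) * (32 * Λ) ^ 2 := by gcongr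
        _ = (6144 * W₁ * Λ ^ 2) * ℓ := by ring
        _ ≤ (ε ^ 2 * ℓ) * ℓ := by gcongr
        _ = (ε * ℓ) ^ 2 := by ring
    calc 2 * √(y : ℝ) * Real.log y ≤ 2 * √(y : ℝ) * (2 * Λ) := h1
      _ ≤ 2 * (ε * ℓ / (32 * Λ)) * (2 * Λ) := by gcongr
      _ = ε / 8 * ℓ := by
        field_simp
        ring
  linarith

theorem mnr (W₁ n₀ : ℕ) (hW : 0 < W₁) (ε : ℝ) (hε : 0 < ε) : ∃ ℓ₀ : ℕ, ∀ ℓ : ℕ, ℓ₀ ≤ ℓ → ∀ θ : ℝ,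
    (∀ q : ℕ, 0 < q → (q : ℝ) ≤ Real.log ℓ ^ 24 → ∀ a : ℤ, Real.log ℓ ^ 24 / ℓ < |θ - a / q|) →
    ∀ u : ℕ, u ≤ 5 * ℓ →
    ‖∑ k ∈ range u, ((lp (W₁ * k + n₀) - dens W₁ : ℝ) : ℂ) * e (k * θ)‖ ≤ ε * ℓ := by
  have hW' : (1 : ℝ) ≤ W₁ := by exact_mod_cast hW
  have hd0 : 0 ≤ dens W₁ := by unfold dens; positivity
  obtain ⟨ℓ₀, hℓ₀⟩ := Mnr_ev W₁ n₀ hW ε hε (max (max 2 (dens W₁ / ε)) (max (4 / ε) (3600000 * W₁ / ε)))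
  refine ⟨ℓ₀, fun ℓ hℓ θ hyp u hu5 => ?_⟩
  obtain ⟨hℓ2, hB, hsq, hn1, hn2, h22, hl2⟩ := hℓ₀ ℓ hℓ
  set Λ : ℝ := Real.log ℓ with hΛdef
  have hΛ2 : 2 ≤ Λ := ((le_max_left _ _).trans (le_max_left _ _)).trans hB
  have hΛd : dens W₁ / ε ≤ Λ := ((le_max_right _ _).trans (le_max_left _ _)).trans hB
  have hΛ4 : 4 / ε ≤ Λ := ((le_max_left _ _).trans (le_max_right _ _)).trans hB
  have hΛW : 3600000 * W₁ / ε ≤ Λ := ((le_max_right _ _).trans (le_max_right _ _)).trans hB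
  have hΛpos : 0 < Λ := by linarith
  have hℓ0 : (2 : ℝ) ≤ ℓ := by exact_mod_cast hℓ2
  have hℓpos : (0 : ℝ) < ℓ := by linarith
  have hu5' : (u : ℝ) ≤ 5 * ℓ := by exact_mod_cast hu5
  have hn0 : (0 : ℝ) ≤ n₀ := Nat.cast_nonneg _
  -- splitting
  have hsplit : ∑ k ∈ range u, ((lp (W₁ * k + n₀) - dens W₁ : ℝ) : ℂ) * e (k * θ) =
      ∑ k ∈ range u, (lp (W₁ * k + n₀) : ℂ) * e (k * θ) - (dens W₁ : ℂ) * D u θ := by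
    unfold D
    rw [Finset.mul_sum, ← Finset.sum_sub_distrib]
    refine Finset.sum_congr rfl (fun k _ => ?_)
    push_cast
    ring
  -- (a)
  have ha : ‖(dens W₁ : ℂ) * D u θ‖ ≤ ε / 2 * ℓ := by
    have h24 : 1 ≤ Λ ^ 24 := one_le_pow₀ (by linarith)
    have h1 := hyp 1 one_pos (by simpa using h24) (round θ)
    have h2 : Λ ^ 24 / ℓ < nn θ := by
      unfold nn
      simpa using h1
    have h3 := norm_D_mul_nn u θ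
    have h4 : ‖D u θ‖ * (2 * (Λ ^ 24 / ℓ)) ≤ 1 :=
      (mul_le_mul_of_nonneg_left (by linarith) (norm_nonneg _)).trans h3
    have h5 : Λ ≤ Λ ^ 24 := by
      calc Λ = Λ ^ 1 := (pow_one _).symm
        _ ≤ Λ ^ 24 := pow_le_pow_right₀ (by linarith) (by norm_num)
    have h6 : ‖D u θ‖ * Λ ≤ ℓ / 2 := by
      have h7 : ‖D u θ‖ * Λ ^ 24 ≤ ℓ / 2 := by
        calc ‖D u θ‖ * Λ ^ 24 = ‖D u θ‖ * (2 * (Λ ^ 24 / (ℓ : ℝ))) * ((ℓ : ℝ) / 2) := by field_simp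
          _ ≤ 1 * ((ℓ : ℝ) / 2) := mul_le_mul_of_nonneg_right h4 (by positivity)
          _ = (ℓ : ℝ) / 2 := one_mul _
      exact (mul_le_mul_of_nonneg_left h5 (norm_nonneg _)).trans h7
    have h8 : dens W₁ ≤ ε * Λ := by
      rw [div_le_iff₀ hε] at hΛd
      linarith
    rw [norm_mul, Complex.norm_real, Real.norm_of_nonneg hd0]
    calc dens W₁ * ‖D u θ‖ ≤ (ε * Λ) * ‖D u θ‖ := mul_le_mul_of_nonneg_right h8 (norm_nonneg _)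
      _ = ε * (‖D u θ‖ * Λ) := by ring
      _ ≤ ε * (ℓ / 2) := by gcongr
      _ = ε / 2 * ℓ := by ring
  have hb : ‖∑ k ∈ range u, (lp (W₁ * k + n₀) : ℂ) * e (k * θ)‖ ≤ ε / 2 * ℓ := by
    rcases le_or_gt (u : ℝ) ((ℓ : ℝ) / Λ ^ 2) with hsmall | hlarge
    · have hterm : ∀ k ∈ range u, ‖(lp (W₁ * k + n₀) : ℂ) * e (k * θ)‖ ≤ 2 * Λ := by
        intro k hk
        have hku : (k : ℝ) ≤ u := by exact_mod_cast (Finset.mem_range.1 hk).le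
        have h1 : ((W₁ * k + n₀ : ℕ) : ℝ) ≤ (ℓ : ℝ) ^ 2 := by
          push_cast
          refine le_trans ?_ hsq
          nlinarith [mul_le_mul_of_nonneg_left (hku.trans hu5') (by linarith : (0 : ℝ) ≤ W₁)]
        have h2 := Mnr_lp (W₁ * k + n₀) _ h1 (by nlinarith)
        rw [norm_mul, norm_e, mul_one, Complex.norm_real, Real.norm_of_nonneg h2.1]
        refine h2.2.trans (le_of_eq ?_)
        rw [Real.log_pow, hΛdef]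
        norm_num
      have h1 : ‖∑ k ∈ range u, (lp (W₁ * k + n₀) : ℂ) * e (k * θ)‖ ≤ u * (2 * Λ) := by
        refine (norm_sum_le_of_le _ hterm).trans (le_of_eq ?_)
        rw [Finset.sum_const, Finset.card_range, nsmul_eq_mul]
      have h2 : (4 : ℝ) ≤ ε * Λ := by
        rw [div_le_iff₀ hε] at hΛ4
        linarith
      calc ‖∑ k ∈ range u, (lp (W₁ * k + n₀) : ℂ) * e (k * θ)‖ ≤ u * (2 * Λ) := h1
        _ ≤ (ℓ : ℝ) / Λ ^ 2 * (2 * Λ) := by gcongr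
        _ = (ℓ / (2 * Λ)) * 4 := by
          field_simp
          ring
        _ ≤ (ℓ / (2 * Λ)) * (ε * Λ) := by gcongr
        _ = ε / 2 * ℓ := by
          field_simp
    · have hupos : 0 < u := by
        have h1 : (0 : ℝ) < u := lt_of_le_of_lt (by positivity) hlarge
        exact_mod_cast h1
      refine (expand W₁ n₀ u hW hupos θ).trans ?_
      have h1 : ∑ b ∈ range W₁, ‖∑ n ∈ Ioc 0 (W₁ * u + n₀ - 1), (lp n : ℂ) * e (n * ((θ + b) / W₁))‖ ≤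
          W₁ * (ε / 4 * ℓ) := by
        refine (Finset.sum_le_sum (fun b _ => Mnr_b W₁ n₀ ℓ u b hW ε hε θ hℓ2 hΛ2 hΛW hsq hn1 h22 hl2 hyp
          hu5 hlarge)).trans (le_of_eq ?_)
        rw [Finset.sum_const, Finset.card_range, nsmul_eq_mul]
      have h2 : (1 / (W₁ : ℝ)) * ∑ b ∈ range W₁, ‖∑ n ∈ Ioc 0 (W₁ * u + n₀ - 1), (lp n : ℂ) *
          e (n * ((θ + b) / W₁))‖ ≤ (1 / (W₁ : ℝ)) * (W₁ * (ε / 4 * ℓ)) :=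
        mul_le_mul_of_nonneg_left h1 (by positivity)
      have h3 : (1 / (W₁ : ℝ)) * (W₁ * (ε / 4 * ℓ)) = ε / 4 * ℓ := by
        field_simp
      linarith
  rw [hsplit]
  refine (norm_sub_le _ _).trans ?_
  linarith

end Pool.Agent.Lib.MP_d57abb_nt.All
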