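import Mathlib
import Pool.Agent.Lib.MP_d57abb_nt.All.Maj
import Pool.Agent.Lib.MP_d57abb_nt.All.Mnr

/-!
# Fourier uniformity of the primes `W₁ k + n₀`
-/

open Finset Filter

namespace Pool.Agent.Lib.MP_d57abb_nt.All

open Pool.Agent.Lib.MP_2a816b_nt (e)

theorem one_le_dens (W₁ : ℕ) (hW : 0 < W₁) : 1 ≤ dens W₁ := by
  unfold dens
  have h1 : (0 : ℝ) < (Nat.totient W₁ : ℝ) := by exact_mod_cast Nat.totient_pos.mpr hW
  rw [le_div_iff₀ h1, one_mul]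
  exact_mod_cast Nat.totient_le W₁

theorem fu (η : ℝ) (hη : 0 < η) : ∃ w : ℕ, 0 < w ∧ ∀ W₁ n₀ : ℕ, 0 < W₁ →
    (∀ p : ℕ, p.Prime → p ≤ w → p ∣ W₁) → Nat.Coprime n₀ W₁ → ∃ ℓ₀ : ℕ, ∀ ℓ : ℕ, ℓ₀ ≤ ℓ → ∀ θ : ℝ,
    ∀ u : ℕ, u ≤ 5 * ℓ →
    ‖∑ k ∈ range u, ((lp (W₁ * k + n₀) - dens W₁ : ℝ) : ℂ) * e (k * θ)‖ ≤ η * dens W₁ * ℓ := by
  obtain ⟨w, hw⟩ := exists_nat_gt (10 / η)
  have hw0 : (0 : ℝ) < w := lt_trans (by positivity) hw
  refine ⟨w, by exact_mod_cast hw0, ?_⟩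
  intro W₁ n₀ hW hpr hc
  obtain ⟨ℓ₁, h1⟩ := maj w W₁ n₀ (by exact_mod_cast hw0) hpr hW hc 24 (η / 2) (by positivity)
  obtain ⟨ℓ₂, h2⟩ := mnr W₁ n₀ hW η hη
  refine ⟨max ℓ₁ ℓ₂, ?_⟩
  intro ℓ hℓ θ u hu
  have hd := one_le_dens W₁ hW
  have hℓ0 : (0 : ℝ) ≤ ℓ := by positivity
  by_cases hcase : ∀ q : ℕ, 0 < q → (q : ℝ) ≤ Real.log ℓ ^ 24 → ∀ a : ℤ,
      Real.log ℓ ^ 24 / ℓ < |θ - a / q|
  · refine (h2 ℓ ((le_max_right _ _).trans hℓ) θ hcase u hu).trans ?_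
    have : η * 1 * (ℓ : ℝ) ≤ η * dens W₁ * ℓ := by gcongr
    linarith
  · push Not at hcase
    obtain ⟨q, hq, hqL, a, ha⟩ := hcase
    -- lowest terms
    set g := Int.gcd a q with hg
    have hg0 : 0 < g := Int.gcd_pos_of_ne_zero_right _ (by exact_mod_cast hq.ne')
    obtain ⟨a', ha'⟩ : (g : ℤ) ∣ a := Int.gcd_dvd_left ..
    obtain ⟨q', hq'⟩ : g ∣ q := by
      have : (g : ℤ) ∣ (q : ℤ) := Int.gcd_dvd_right ..
      exact_mod_cast this
    have hq'0 : 0 < q' := by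
      rcases Nat.eq_zero_or_pos q' with h | h
      · rw [h, mul_zero] at hq'; omega
      · exact h
    have hgc : Int.gcd a' q' = 1 := by
      have h3 : g = g * Int.gcd a' q' := by
        conv_lhs => rw [hg, ha', hq']
        push_cast
        rw [Int.gcd_mul_left]
        simp
      have h4 : g * 1 = g * Int.gcd a' q' := by omega
      exact (Nat.eq_of_mul_eq_mul_left hg0 h4).symm
    have hgr : (0 : ℝ) < g := by exact_mod_cast hg0
    have hfrac : (a : ℝ) / q = (a' : ℝ) / q' := by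
      have e1 : (a : ℝ) = g * a' := by exact_mod_cast ha'
      have e2 : (q : ℝ) = g * q' := by exact_mod_cast hq'
      have hq'r : (0 : ℝ) < q' := by exact_mod_cast hq'0
      rw [e1, e2]
      field_simp
    have hqle : (q' : ℝ) ≤ q := by
      have : q' ≤ q := by
        rw [hq']; exact Nat.le_mul_of_pos_left _ hg0
      exact_mod_cast this
    rw [hfrac] at ha
    refine (h1 ℓ ((le_max_left _ _).trans hℓ) q' a' θ hq'0 (hqle.trans hqL) hgc ha u hu).trans ?_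
    apply mul_le_mul_of_nonneg_right _ hℓ0
    have h5 : 5 * dens W₁ / w ≤ η / 2 * dens W₁ := by
      rw [div_le_iff₀ hw0]
      have h6 : 10 < η * w := by
        rw [div_lt_iff₀ hη] at hw
        linarith
      nlinarith
    have h7 : η / 2 * 1 ≤ η / 2 * dens W₁ := by gcongr
    linarith

end Pool.Agent.Lib.MP_d57abb_nt.All
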