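import Mathlib
import Pool.Agent.Lib.MP_d57abb_nt.All.Defs
import Pool.Agent.Lib.MP_d57abb_nt.Three.Num

/-!
# NumA: the local property gives many pairs `(k, u)`

This is a generalisation of `card_AQ_le` in `Three/Num` (read that file: `mem_AQ`, `exists_J3`, `J3_inj`, `uniq3`, `card_T0`, `CP.mem`); `AQ Q` and `uniq3`, `dt_sq_le`,
`eq_of_dt_zero`, `kk_nonneg`, `kk_le` are reused.

PROOF.  Let `r, B, D, Θ` be the data of `Loc` (take `B ≥ 1`, by replacing `B` with `B + 1`).  For `a ∈ AQ Q`, `Q ≥ K₁`, `mem_AQ` gives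
`Q²/64 ≤ nm a ≤ 5 Q²`, `0 ≤ an a < 2 log al`.  `K₁` is such that `K₁² / 64 ≥ D` and `64 B / K₁² ≤ 1/10` (e.g. `K₁ = 64 (D + 10 B + 1)`).
`K₂ = 5 B`, so that `nm v, nm w ≤ B nm a ≤ K₂ Q²`.  `R = 10^4 * (B + 1)` (any number larger than twice `4 Q² * 2 * 64 B / Q² + 2 = 512 B + 2`).
Attach to `a` (with the `i, v, w, z, x, y` of `Loc`) the datum `(i, x, y, bit, f, (k, u))`, `i < r`, `x, y ∈ [-B, B]`, `bit` = whether `an a < log al`,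
`f = ⌊4 Q² an a⌋ mod R`, `k = kk v w`, `u = nm v`; `(k, u) ∈ T0' := {k ≤ K₂ Q² (k = 0 allowed), h (k² + 3k + 1) = c, u ∣ k² + 3k + 1}` by `kk_eq`, `kk_le`
(`h (k² + 3 k + 1) = lam h v + lam h w = c`).  At most one `a` for every datum: as in `J3_inj`: two such `a, a'` with the same datum have
`|an a - an a'| ≤ log al` (bit), `|an z - an z'| ≤ log al + 2 * (1/10) < 2 log al` (`log_al_lower`; the same `Θ i`), so `z = z'` by `uniq3`, then `|an a - an a'| ≤ 128 B / Q²`, so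
the two floors differ by less than `R / 2` and are equal mod `R`, hence equal, `|an a - an a'| ≤ 1/(4 Q²)`, `dt a a' = 0` by `dt_sq_le`, and `a = a'`.
The number of data is `r * (2B+1)² * 2 * R * |T0'|`, `|T0'| ≤ |TG h c (K₂ Q²)| + 1` (only `(0, 1)` is lost), so `K₃ = r (2B+1)² 2 R`.
(`Finset.card_le_card_of_forall_subsingleton` as in `card_AQ_le`.)
-/

namespace Pool.Agent.Lib.MP_d57abb_nt.All

open Pool.Agent.Lib.MP_d57abb_nt Pool.Agent.Lib.MP_d57abb_nt.Three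

/-- the pairs `(k, u)` with `k = 0` allowed -/
private def NumA_T0 {m : ℕ} (h : ℕ → ZMod m) (c : ZMod m) (M : ℕ) : Finset (Σ _ : ℕ, ℕ) :=
  ((Finset.Icc 0 M).filter (fun k => h (k ^ 2 + 3 * k + 1) = c)).sigma
    (fun k => (k ^ 2 + 3 * k + 1).divisors)

private theorem NumA_card_T0 {m : ℕ} (h : ℕ → ZMod m) (c : ZMod m) (M : ℕ) :
    (NumA_T0 h c M).card ≤ (TG h c M).card + 1 := by
  have hsub : NumA_T0 h c M ⊆ TG h c M ∪ {⟨0, 1⟩} := by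
    rintro ⟨k, u⟩ hk
    unfold NumA_T0 at hk
    rw [Finset.mem_sigma, Finset.mem_filter, Finset.mem_Icc] at hk
    obtain ⟨⟨⟨_, h1⟩, h2⟩, h3⟩ := hk
    rcases Nat.eq_zero_or_pos k with h0 | h0
    · apply Finset.mem_union_right
      simp only at h0 h3
      subst h0
      simp at h3
      rw [h3]; simp
    · apply Finset.mem_union_left
      unfold TG FG
      rw [Finset.mem_sigma, Finset.mem_filter, Finset.mem_Icc]
      exact ⟨⟨⟨h0, h1⟩, h2⟩, h3⟩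
  refine (Finset.card_le_card hsub).trans ((Finset.card_union_le _ _).trans ?_)
  simp

private theorem NumA_mem {m : ℕ} {h : ℕ → ZMod m} (hh : Add h) {c : ZMod m} {v w : ℤ × ℤ}
    {M : ℕ} (tv : TP v) (tw : TP w) (hd : dt v w = 1) (hsum : lam h v + lam h w = c)
    (nv : (nm v : ℝ) ≤ M) (nw : (nm w : ℝ) ≤ M) :
    ∃ p ∈ NumA_T0 h c M, kk v w = p.1 ∧ nm v = p.2 := by
  obtain ⟨k, hk⟩ := Int.eq_ofNat_of_zero_le (kk_nonneg tv tw hd)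
  obtain ⟨u, hu⟩ := Int.eq_ofNat_of_zero_le tv.nm_pos.le
  obtain ⟨u', hu'⟩ := Int.eq_ofNat_of_zero_le tw.nm_pos.le
  have hf : k ^ 2 + 3 * k + 1 = u * u' := by
    have := kk_eq hd
    rw [hk, hu, hu'] at this
    exact_mod_cast this
  have hupos : 0 < u := by
    have := tv.nm_pos; rw [hu] at this; exact_mod_cast this
  have hupos' : 0 < u' := by
    have := tw.nm_pos; rw [hu'] at this; exact_mod_cast this
  refine ⟨⟨k, u⟩, ?_, hk, hu⟩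
  unfold NumA_T0
  rw [Finset.mem_sigma]
  refine ⟨Finset.mem_filter.mpr ⟨Finset.mem_Icc.mpr ⟨Nat.zero_le _, ?_⟩, ?_⟩, ?_⟩
  · have := kk_le tv tw hd (X := (M : ℝ)) (by positivity) nv nw
    rw [hk] at this
    exact_mod_cast this
  · simp only
    rw [hf, hh _ _ hupos hupos']
    have e1 : lam h v = h u := by unfold lam; rw [hu]; simp
    have e2 : lam h w = h u' := by unfold lam; rw [hu']; simp
    rw [e1, e2] at hsum
    exact hsum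
  · rw [Nat.mem_divisors]
    exact ⟨⟨u', hf⟩, by positivity⟩

/-- the data attached to a primitive vector -/
private def NumA_J (Θ : ℕ → ℝ) (b Q R : ℕ) (a : ℕ × ℕ)
    (x : ℕ × (ℤ × ℤ) × Fin 2 × ℕ × (Σ _ : ℕ, ℕ)) : Prop :=
  ∃ z v w : ℤ × ℤ, TP z ∧ TP v ∧ TP w ∧ dt v w = 1 ∧
    |an z - (an ((a.1 : ℤ), (a.2 : ℤ)) + Θ x.1)| ≤ b / nm ((a.1 : ℤ), (a.2 : ℤ)) ∧
    z = x.2.1.1 • v + x.2.1.2 • w ∧
    (x.2.2.1 = 0 ↔ an ((a.1 : ℤ), (a.2 : ℤ)) < Real.log al) ∧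
    ⌊4 * (Q : ℝ) ^ 2 * an ((a.1 : ℤ), (a.2 : ℤ))⌋ % (R : ℤ) = (x.2.2.2.1 : ℤ) ∧
    kk v w = x.2.2.2.2.1 ∧ nm v = x.2.2.2.2.2

/-- all data over a set of pairs `(k, u)` -/
private noncomputable def NumA_DS (r b R : ℕ) (S : Finset (Σ _ : ℕ, ℕ)) :
    Finset (ℕ × (ℤ × ℤ) × Fin 2 × ℕ × (Σ _ : ℕ, ℕ)) :=
  Finset.range r ×ˢ (Finset.Icc (-(b : ℤ)) b ×ˢ Finset.Icc (-(b : ℤ)) b) ×ˢ Finset.univ ×ˢ
    Finset.range R ×ˢ S

private theorem NumA_card_DS (r b R : ℕ) (S : Finset (Σ _ : ℕ, ℕ)) :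
    (NumA_DS r b R S).card = r * ((2 * b + 1) ^ 2 * (2 * R)) * S.card := by
  unfold NumA_DS
  rw [Finset.card_product, Finset.card_product, Finset.card_product, Finset.card_product,
    Finset.card_product, Finset.card_range, Finset.card_range, Int.card_Icc, Finset.card_univ,
    Fintype.card_fin]
  have h1 : ((b : ℤ) + 1 - -(b : ℤ)).toNat = 2 * b + 1 := by omega
  rw [h1]
  ring

private theorem NumA_exists {m : ℕ} {h : ℕ → ZMod m} (hh : Add h) {c : ZMod m} {r b D : ℕ}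
    {Θ : ℕ → ℝ} (hL : ∀ a : ℤ × ℤ, TP a → IsCoprime a.1 a.2 → (D : ℤ) ≤ nm a →
    ∃ i < r, ∃ v w z : ℤ × ℤ, ∃ x y : ℤ, TP v ∧ TP w ∧ TP z ∧ dt v w = 1 ∧
      lam h v + lam h w = c ∧ z = x • v + y • w ∧ |x| ≤ b ∧ |y| ≤ b ∧
      |an z - (an a + Θ i)| ≤ b / nm a ∧ nm v ≤ b * nm a ∧ nm w ≤ b * nm a)
    {Q R : ℕ} (hR : 0 < R) (hQ : 64 * (D : ℝ) ≤ (Q : ℝ) ^ 2) {a : ℕ × ℕ} (ha : a ∈ AQ Q) :
    ∃ x ∈ NumA_DS r b R (NumA_T0 h c (5 * b * Q ^ 2)), NumA_J Θ b Q R a x := by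
  obtain ⟨ta, ca, n1, n2, r1, r2⟩ := mem_AQ ha
  have hD : (D : ℤ) ≤ nm ((a.1 : ℤ), (a.2 : ℤ)) := by
    have h1 : (D : ℝ) ≤ nm ((a.1 : ℤ), (a.2 : ℤ)) := by linarith
    exact_mod_cast h1
  obtain ⟨i, hi, v, w, z, x, y, tv, tw, tz, hd, hsum, hz, hx, hy, hang, nv, nw⟩ := hL _ ta ca hD
  have hb0 : (0 : ℝ) ≤ b := by positivity
  have hbd : (b : ℝ) * nm ((a.1 : ℤ), (a.2 : ℤ)) ≤ ((5 * b * Q ^ 2 : ℕ) : ℝ) := by
    push_cast
    calc (b : ℝ) * nm ((a.1 : ℤ), (a.2 : ℤ)) ≤ b * (5 * (Q : ℝ) ^ 2) :=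
          mul_le_mul_of_nonneg_left n2 hb0
      _ = 5 * b * (Q : ℝ) ^ 2 := by ring
  have nv' : (nm v : ℝ) ≤ ((5 * b * Q ^ 2 : ℕ) : ℝ) := by
    have h1 : (nm v : ℝ) ≤ b * nm ((a.1 : ℤ), (a.2 : ℤ)) := by exact_mod_cast nv
    exact h1.trans hbd
  have nw' : (nm w : ℝ) ≤ ((5 * b * Q ^ 2 : ℕ) : ℝ) := by
    have h1 : (nm w : ℝ) ≤ b * nm ((a.1 : ℤ), (a.2 : ℤ)) := by exact_mod_cast nw
    exact h1.trans hbd
  obtain ⟨⟨k, u⟩, hku, e1, e2⟩ := NumA_mem hh tv tw hd hsum nv' nw'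
  set fl : ℤ := ⌊4 * (Q : ℝ) ^ 2 * an ((a.1 : ℤ), (a.2 : ℤ))⌋ % (R : ℤ) with hfl
  have hR' : (0 : ℤ) < R := by exact_mod_cast hR
  have fl0 : 0 ≤ fl := Int.emod_nonneg _ hR'.ne'
  have fl1 : fl < R := Int.emod_lt_of_pos _ hR'
  obtain ⟨f, hf⟩ := Int.eq_ofNat_of_zero_le fl0
  have hf6 : f < R := by omega
  refine ⟨(i, (x, y), (if an ((a.1 : ℤ), (a.2 : ℤ)) < Real.log al then 0 else 1), f,
    ⟨k, u⟩), ?_, z, v, w, tz, tv, tw, hd, hang, hz, ?_, hf, e1, e2⟩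
  · unfold NumA_DS
    simp only [Finset.mem_product, Finset.mem_univ, true_and, Finset.mem_range, Finset.mem_Icc]
    rw [abs_le] at hx hy
    exact ⟨hi, ⟨hx, hy⟩, hf6, hku⟩
  · simp only
    by_cases hb : an ((a.1 : ℤ), (a.2 : ℤ)) < Real.log al
    · simp [hb]
    · simp [hb]

private theorem NumA_inj {Θ : ℕ → ℝ} {b Q R : ℕ} (hb1 : 1 ≤ b) (hR : R = 512 * b + 2)
    (hQ : 640 * (b : ℝ) ≤ (Q : ℝ) ^ 2)
    {a a' : ℕ × ℕ} (ha : a ∈ AQ Q) (ha' : a' ∈ AQ Q)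
    {x : ℕ × (ℤ × ℤ) × Fin 2 × ℕ × (Σ _ : ℕ, ℕ)} (hJ : NumA_J Θ b Q R a x)
    (hJ' : NumA_J Θ b Q R a' x) : a = a' := by
  obtain ⟨ta, ca, n1, n2, r1, r2⟩ := mem_AQ ha
  obtain ⟨ta', ca', n1', n2', r1', r2'⟩ := mem_AQ ha'
  obtain ⟨z, v, w, tz, tv, tw, hd, hang, hz, hbit, hfl, hk, hu⟩ := hJ
  obtain ⟨z', v', w', tz', tv', tw', hd', hang', hz', hbit', hfl', hk', hu'⟩ := hJ'
  set A : ℤ × ℤ := ((a.1 : ℤ), (a.2 : ℤ)) with hA
  set A' : ℤ × ℤ := ((a'.1 : ℤ), (a'.2 : ℤ)) with hA'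
  have hbr : (1 : ℝ) ≤ b := by exact_mod_cast hb1
  have hQ2 : (640 : ℝ) ≤ (Q : ℝ) ^ 2 := by linarith
  have hQ0 : (0 : ℝ) < (Q : ℝ) ^ 2 := by linarith
  have hQn : (Q : ℝ) ≠ 0 := by
    intro h0
    rw [h0] at hQ0
    norm_num at hQ0
  have b1 : b / (nm A : ℝ) ≤ 64 * b / (Q : ℝ) ^ 2 := by
    rw [div_le_div_iff₀ (by linarith) hQ0]
    nlinarith
  have b2 : b / (nm A' : ℝ) ≤ 64 * b / (Q : ℝ) ^ 2 := by
    rw [div_le_div_iff₀ (by linarith) hQ0]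
    nlinarith
  have b3 : 64 * b / (Q : ℝ) ^ 2 ≤ 1 / 10 := by
    rw [div_le_div_iff₀ hQ0 (by norm_num)]
    linarith
  have hlog := log_al_lower
  rw [abs_le] at hang hang'
  have hcl : |an A - an A'| ≤ Real.log al := by
    rw [abs_le]
    by_cases hb : an A < Real.log al
    · have hb' : an A' < Real.log al := hbit'.mp (hbit.mpr hb)
      constructor <;> linarith
    · have hb' : ¬ an A' < Real.log al := fun hb' => hb (hbit.mp (hbit'.mpr hb'))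
      push Not at hb hb'
      constructor <;> linarith
  rw [abs_le] at hcl
  have hzz : z = z' := by
    refine uniq3 tv tw tv' tw' tz hd hd' (by rw [hk, hk']) (by rw [hu, hu']) hz hz' ?_
    rw [abs_lt]
    constructor <;> linarith [hang.1, hang.2, hang'.1, hang'.2, hcl.1, hcl.2]
  rw [← hzz] at hang'
  set B := 4 * (Q : ℝ) ^ 2 * an A with hB
  set B' := 4 * (Q : ℝ) ^ 2 * an A' with hB'
  have hQB : 4 * (Q : ℝ) ^ 2 * (2 * (64 * b / (Q : ℝ) ^ 2)) = 512 * b := by field_simp; norm_num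
  have k1 : B - B' ≤ 512 * b := by
    have : an A - an A' ≤ 2 * (64 * b / (Q : ℝ) ^ 2) := by linarith
    have h4 : 4 * (Q : ℝ) ^ 2 * (an A - an A') ≤ 4 * (Q : ℝ) ^ 2 * (2 * (64 * b / (Q : ℝ) ^ 2)) :=
      mul_le_mul_of_nonneg_left this (by positivity)
    rw [hB, hB']
    linarith
  have k2 : B' - B ≤ 512 * b := by
    have : an A' - an A ≤ 2 * (64 * b / (Q : ℝ) ^ 2) := by linarith
    have h4 : 4 * (Q : ℝ) ^ 2 * (an A' - an A) ≤ 4 * (Q : ℝ) ^ 2 * (2 * (64 * b / (Q : ℝ) ^ 2)) :=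
      mul_le_mul_of_nonneg_left this (by positivity)
    rw [hB, hB']
    linarith
  have f1 := Int.floor_le B
  have f2 := Int.lt_floor_add_one B
  have f1' := Int.floor_le B'
  have f2' := Int.lt_floor_add_one B'
  have m1 : (⌊B⌋ : ℝ) - ⌊B'⌋ < 512 * b + 1 := by linarith
  have m2 : (⌊B'⌋ : ℝ) - ⌊B⌋ < 512 * b + 1 := by linarith
  have m1' : ⌊B⌋ - ⌊B'⌋ < 512 * b + 1 := by exact_mod_cast m1
  have m2' : ⌊B'⌋ - ⌊B⌋ < 512 * b + 1 := by exact_mod_cast m2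
  have hfe : ⌊B⌋ = ⌊B'⌋ := by
    have h1 : (R : ℤ) ∣ ⌊B⌋ - ⌊B'⌋ :=
      Int.ModEq.dvd (show (⌊B'⌋ : ℤ) ≡ ⌊B⌋ [ZMOD (R : ℤ)] from hfl'.trans hfl.symm)
    have h2 : |⌊B⌋ - ⌊B'⌋| < (R : ℤ) := by
      rw [abs_lt, hR]
      push_cast
      constructor <;> omega
    have h3 := Int.eq_zero_of_abs_lt_dvd h1 h2
    omega
  rw [hfe] at f1 f2
  have hsmall : |an A - an A'| ≤ 1 / (4 * (Q : ℝ) ^ 2) := by
    rw [le_div_iff₀ (by positivity)]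
    calc |an A - an A'| * (4 * (Q : ℝ) ^ 2) = |B - B'| := by
          have hq4 : (0 : ℝ) < 4 * (Q : ℝ) ^ 2 := by positivity
          calc |an A - an A'| * (4 * (Q : ℝ) ^ 2) = |an A - an A'| * |4 * (Q : ℝ) ^ 2| := by
                rw [abs_of_pos hq4]
            _ = |(an A - an A') * (4 * (Q : ℝ) ^ 2)| := (abs_mul _ _).symm
            _ = |B - B'| := by rw [hB, hB']; congr 1; ring
      _ ≤ 1 := by rw [abs_le]; constructor <;> linarith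
  have h5 := dt_sq_le ta ta' (η := 1 / (4 * (Q : ℝ) ^ 2))
    (by rw [div_le_one (by positivity)]; linarith) hsmall
  have h6 : 2 * (1 / (4 * (Q : ℝ) ^ 2)) ^ 2 * nm A * nm A' ≤ 50 / 16 := by
    have hA0 : (0 : ℝ) ≤ nm A := by linarith
    have hA0' : (0 : ℝ) ≤ nm A' := by linarith
    have hprod : (nm A : ℝ) * nm A' ≤ (5 * (Q : ℝ) ^ 2) * (5 * (Q : ℝ) ^ 2) :=
      mul_le_mul n2 n2' hA0' (by positivity)
    calc 2 * (1 / (4 * (Q : ℝ) ^ 2)) ^ 2 * nm A * nm A'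
        = 2 * (1 / (4 * (Q : ℝ) ^ 2)) ^ 2 * (nm A * nm A') := by ring
      _ ≤ 2 * (1 / (4 * (Q : ℝ) ^ 2)) ^ 2 * ((5 * (Q : ℝ) ^ 2) * (5 * (Q : ℝ) ^ 2)) :=
          mul_le_mul_of_nonneg_left hprod (by positivity)
      _ = 50 / 16 := by field_simp; norm_num
  have h7 : (dt A A' : ℝ) ^ 2 < 1 := by linarith
  have h8 : dt A A' = 0 := by
    have h9 : (dt A A') ^ 2 < 1 := by exact_mod_cast h7
    by_contra hne
    have := Int.one_le_abs hne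
    nlinarith [sq_abs (dt A A')]
  have h9 := eq_of_dt_zero ta ta' ca ca' h8
  rw [hA, hA', Prod.mk.injEq] at h9
  ext
  · exact_mod_cast h9.1
  · exact_mod_cast h9.2

theorem card_AQ_le' {m : ℕ} {h : ℕ → ZMod m} (hh : Add h) {c : ZMod m} (hL : Loc h c) :
    ∃ K₁ K₂ K₃ : ℕ, 0 < K₂ ∧ ∀ Q : ℕ, K₁ ≤ Q → (AQ Q).card ≤ K₃ * ((TG h c (K₂ * Q ^ 2)).card + 1) := by
  obtain ⟨r, B, D, Θ, hloc⟩ := hL
  obtain ⟨b, hb⟩ : ∃ b : ℕ, b = B + 1 := ⟨_, rfl⟩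
  have hBb : (B : ℤ) ≤ b := by omega
  have hBr : (B : ℝ) ≤ b := by exact_mod_cast hBb
  have hL' : ∀ a : ℤ × ℤ, TP a → IsCoprime a.1 a.2 → (D : ℤ) ≤ nm a →
    ∃ i < r, ∃ v w z : ℤ × ℤ, ∃ x y : ℤ, TP v ∧ TP w ∧ TP z ∧ dt v w = 1 ∧
      lam h v + lam h w = c ∧ z = x • v + y • w ∧ |x| ≤ b ∧ |y| ≤ b ∧
      |an z - (an a + Θ i)| ≤ b / nm a ∧ nm v ≤ b * nm a ∧ nm w ≤ b * nm a := by
    intro a ta ca hD
    obtain ⟨i, hi, v, w, z, x, y, tv, tw, tz, hd, hsum, hz, hx, hy, hang, nv, nw⟩ := hloc a ta ca hD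
    have hn := ta.nm_pos
    have hnr : (0 : ℝ) < nm a := by exact_mod_cast hn
    exact ⟨i, hi, v, w, z, x, y, tv, tw, tz, hd, hsum, hz, hx.trans hBb, hy.trans hBb,
      hang.trans (div_le_div_of_nonneg_right hBr hnr.le),
      nv.trans (mul_le_mul_of_nonneg_right hBb hn.le),
      nw.trans (mul_le_mul_of_nonneg_right hBb hn.le)⟩
  obtain ⟨R, hR⟩ : ∃ R : ℕ, R = 512 * b + 2 := ⟨_, rfl⟩
  refine ⟨64 * (D + 10 * b + 1), 5 * b, r * ((2 * b + 1) ^ 2 * (2 * R)), by omega, fun Q hQ => ?_⟩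
  have hQr : (64 * (D + 10 * b + 1) : ℝ) ≤ Q := by exact_mod_cast hQ
  have hD0 : (0 : ℝ) ≤ D := by positivity
  have hb0 : (0 : ℝ) ≤ b := by positivity
  have hQ1 : (1 : ℝ) ≤ Q := by linarith
  have hQQ : (Q : ℝ) ≤ (Q : ℝ) ^ 2 := by nlinarith
  have h1 : (AQ Q).card ≤ (NumA_DS r b R (NumA_T0 h c (5 * b * Q ^ 2))).card := by
    apply Finset.card_le_card_of_forall_subsingleton (NumA_J Θ b Q R)
    · intro u hu
      obtain ⟨x, hx, hJ⟩ := NumA_exists hh hL' (R := R) (by omega) (by linarith) hu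
      exact ⟨x, hx, hJ⟩
    · intro x _ u hu u' hu'
      exact NumA_inj (by omega) hR (by linarith) hu.1 hu'.1 hu.2 hu'.2
  rw [NumA_card_DS] at h1
  exact h1.trans (Nat.mul_le_mul_left _ (NumA_card_T0 h c _))

end Pool.Agent.Lib.MP_d57abb_nt.All
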