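import Mathlib
import Pool.Agent.Lib.MP_d57abb_nt.All.Defs
import Pool.Agent.Lib.MP_d57abb_nt.Three.Num

/-!
# NumB: from pairs to values `k`

This is a generalisation of `main_case` in `Three/Num` (with `T1_sq_le`, `card_T1`, `T1_mono`; `moment` is in `Three/Mom`, `card_AQ` in `Three/Num`).  Copy these proofs with
`FG`, `TG` in place of `F3`, `T1` and with `D = K₂`, `80 p² → K₁ + 2`, `540000 → K₃` (`B = 4 * K₂ * 8 * (K₃ + 1)` or any constant with `N ≤ B (T + 1)`).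
-/

namespace Pool.Agent.Lib.MP_d57abb_nt.All

open Pool.Agent.Lib.MP_d57abb_nt Pool.Agent.Lib.MP_d57abb_nt.Three

private theorem NumB_mono {m : ℕ} (h : ℕ → ZMod m) (c : ZMod m) {M M' : ℕ} (hM : M ≤ M') :
    (TG h c M).card ≤ (TG h c M').card := by
  apply Finset.card_le_card
  unfold TG FG
  apply Finset.sigma_mono
  · apply Finset.filter_subset_filter
    exact Finset.Icc_subset_Icc_right hM
  · intro i; exact Finset.Subset.refl _

private theorem NumB_card {m : ℕ} (h : ℕ → ZMod m) (c : ZMod m) (N : ℕ) :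
    ((TG h c N).card : ℝ) = ∑ k ∈ FG h c N, (dv (k ^ 2 + 3 * k + 1) : ℝ) := by
  unfold TG dv
  rw [Finset.card_sigma]
  push_cast
  rfl

/-- Cauchy-Schwarz -/
private theorem NumB_sq_le {m : ℕ} (h : ℕ → ZMod m) (c : ZMod m) {N : ℕ} (hN : 1 ≤ N) :
    ((TG h c N).card : ℝ) ^ 2 ≤ (FG h c N).card * (800 * N * (1 + Real.log N) ^ 32) := by
  rw [NumB_card]
  refine sq_sum_le_card_mul_sum_sq.trans ?_
  apply mul_le_mul_of_nonneg_left _ (by positivity)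
  refine le_trans ?_ (moment hN)
  apply Finset.sum_le_sum_of_subset_of_nonneg
  · unfold FG; exact Finset.filter_subset _ _
  · intro i _ _; positivity

theorem count_of_card {m : ℕ} {h : ℕ → ZMod m} {c : ZMod m} (K₁ K₂ K₃ : ℕ) (hK : 0 < K₂)
    (hA : ∀ Q : ℕ, K₁ ≤ Q → (AQ Q).card ≤ K₃ * ((TG h c (K₂ * Q ^ 2)).card + 1)) :
    ∃ N₀ : ℕ, ∀ N : ℕ, N₀ ≤ N → (N : ℝ) / Real.log N ^ 33 ≤ (FG h c N).card := by
  have hK2 : (1 : ℝ) ≤ K₂ := by exact_mod_cast hK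
  have hK3 : (0 : ℝ) ≤ K₃ := by positivity
  set B : ℝ := 32 * (K₂ : ℝ) * (K₃ + 1) with hB
  have hB1 : 1 ≤ B := by rw [hB]; nlinarith
  have ht : Filter.Tendsto (fun N : ℕ => Real.log (N : ℝ)) Filter.atTop Filter.atTop :=
    Real.tendsto_log_atTop.comp tendsto_natCast_atTop_atTop
  have ht2 : Filter.Tendsto (fun N : ℕ => (N : ℝ)) Filter.atTop Filter.atTop :=
    tendsto_natCast_atTop_atTop
  obtain ⟨N₀, hN₀⟩ := Filter.eventually_atTop.mp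
    ((ht.eventually_ge_atTop (3200 * B ^ 2 * 2 ^ 32)).and ((ht2.eventually_ge_atTop (2 * B)).and
      (Filter.eventually_ge_atTop (K₂ * (K₁ + 2) ^ 2))))
  refine ⟨N₀, fun N hN => ?_⟩
  obtain ⟨e1, e2, e3⟩ := hN₀ N hN
  set L := Real.log (N : ℝ) with hL
  set Q : ℕ := Nat.sqrt (N / K₂) with hQ
  have hQK : K₁ + 2 ≤ Q := by
    rw [hQ, Nat.le_sqrt', Nat.le_div_iff_mul_le hK, mul_comm]
    exact e3
  have hM : K₂ * Q ^ 2 ≤ N := by
    have h1 : Q ^ 2 ≤ N / K₂ := Nat.sqrt_le' _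
    calc K₂ * Q ^ 2 ≤ K₂ * (N / K₂) := Nat.mul_le_mul_left _ h1
      _ ≤ N := Nat.mul_div_le _ _
  have hN2 : N < K₂ * (Q + 1) ^ 2 := by
    have h1 : N / K₂ < (Q + 1) ^ 2 := Nat.lt_succ_sqrt' _
    rw [Nat.div_lt_iff_lt_mul hK] at h1
    rw [mul_comm]; exact h1
  have h1 := card_AQ (Q := Q) (by omega)
  have h2 := hA Q (by omega)
  have h3 : ((AQ Q).card : ℝ) ≤ K₃ * ((TG h c (K₂ * Q ^ 2)).card + 1) := by exact_mod_cast h2
  have h4 : ((TG h c (K₂ * Q ^ 2)).card : ℝ) ≤ (TG h c N).card := by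
    exact_mod_cast NumB_mono h c hM
  set T : ℝ := ((TG h c N).card : ℝ) with hT
  have hT0 : 0 ≤ T := by positivity
  have h5 : (Q : ℝ) ^ 2 ≤ 8 * (K₃ + 1) * (T + 1) := by
    have h6 : (K₃ : ℝ) * ((TG h c (K₂ * Q ^ 2)).card + 1) ≤ K₃ * (T + 1) :=
      mul_le_mul_of_nonneg_left (by linarith) hK3
    nlinarith
  have h6 : (N : ℝ) ≤ B * (T + 1) := by
    have h7 : (N : ℝ) ≤ K₂ * ((Q : ℝ) + 1) ^ 2 := by exact_mod_cast hN2.le
    have h8 : ((Q : ℝ) + 1) ^ 2 ≤ 4 * (Q : ℝ) ^ 2 := by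
      have : (1 : ℝ) ≤ Q := by exact_mod_cast (by omega : 1 ≤ Q)
      nlinarith
    calc (N : ℝ) ≤ K₂ * ((Q : ℝ) + 1) ^ 2 := h7
      _ ≤ K₂ * (4 * (8 * (K₃ + 1) * (T + 1))) := by
          apply mul_le_mul_of_nonneg_left _ (by positivity)
          linarith
      _ = B * (T + 1) := by rw [hB]; ring
  have h7 : (N : ℝ) ≤ 2 * B * T := by linarith
  have hNpos : 1 ≤ N := by
    have : (1 : ℝ) ≤ N := by linarith
    exact_mod_cast this
  have hN0 : (0 : ℝ) < N := by exact_mod_cast hNpos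
  have h8 := NumB_sq_le h c hNpos
  set S : ℝ := ((FG h c N).card : ℝ) with hS
  have hS0 : 0 ≤ S := by positivity
  have hB2 : 1 ≤ B ^ 2 := one_le_pow₀ hB1
  have hL1 : 1 ≤ L := by nlinarith
  have h9 : (1 + L) ^ 32 ≤ 2 ^ 32 * L ^ 32 := by
    rw [← mul_pow]; exact pow_le_pow_left₀ (by linarith) (by linarith) 32
  have h10 : (N : ℝ) * N ≤ N * (S * (3200 * B ^ 2 * 2 ^ 32) * L ^ 32) := by
    calc (N : ℝ) * N = (N : ℝ) ^ 2 := by ring
      _ ≤ (2 * B * T) ^ 2 := pow_le_pow_left₀ hN0.le h7 2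
      _ = 4 * B ^ 2 * T ^ 2 := by ring
      _ ≤ 4 * B ^ 2 * (S * (800 * N * (1 + L) ^ 32)) := by gcongr
      _ ≤ 4 * B ^ 2 * (S * (800 * N * (2 ^ 32 * L ^ 32))) := by gcongr
      _ = N * (S * (3200 * B ^ 2 * 2 ^ 32) * L ^ 32) := by ring
  have h11 : (N : ℝ) ≤ S * (3200 * B ^ 2 * 2 ^ 32) * L ^ 32 := le_of_mul_le_mul_left h10 hN0
  rw [div_le_iff₀ (by positivity)]
  calc (N : ℝ) ≤ S * (3200 * B ^ 2 * 2 ^ 32) * L ^ 32 := h11
    _ ≤ S * L * L ^ 32 := by gcongr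
    _ = S * L ^ 33 := by ring

end Pool.Agent.Lib.MP_d57abb_nt.All
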