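import Mathlib
import Pool.Agent.Lib.MP_d57abb_nt.All.FDefs

/-!
# JOB Toe: a bilinear sum from its exponential sums

PROOF.  Let `M` be a natural number larger than `U + ∑ A + ∑ B` (or than `U` plus every element of `A` and `B`), `M > 0`.  For an integer `x`, `|x| < M`: `∑_{r < M} e (x r / M) = M` if `x = 0`, and `0` otherwise
(geometric sum: `z = e (x / M)`, `z ≠ 1` by `e_eq_one_iff`, `z ^ M = 1`).  Put `ĝ r = ∑_{k<U} g k e (k r / M)`, `Â r = ∑_{j ∈ A} e (j r / M)`, `B̂ r = ∑_{j' ∈ B} e (j' r / M)`.  Then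
`∑_{r<M} ĝ r * Â r * conj (B̂ r) = ∑_{k, j, j'} g k ∑_r e ((k + j - j') r / M) = M ∑_{j, j'} g (j' - j)`  (for given `j ∈ A`, `j' ∈ B` the only `k < U` with `k + j - j' = 0` is `k = j' - j`, and `|k + j - j'| < M`).
So `M ‖∑∑ g (j' - j)‖ ≤ S ∑_r ‖Â r‖ ‖B̂ r‖ ≤ S √(∑_r ‖Â r‖²) √(∑_r ‖B̂ r‖²)` (Cauchy-Schwarz, `Finset.sum_mul_le_sqrt_mul_sqrt` or `Real.sum_mul_le_sqrt_mul_sqrt`), and `∑_r ‖Â r‖² = M |A|` in the same way.
-/

open Finset

namespace Pool.Agent.Lib.MP_d57abb_nt.All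

open Pool.Agent.Lib.MP_2a816b_nt (e norm_e e_add e_int e_nat e_neg conj_e e_eq_one_iff)

private theorem Toe_orth (M : ℕ) (hM : 0 < M) (x : ℤ) (hx : |x| < (M : ℤ)) :
    ∑ r ∈ range M, e ((x : ℝ) * ((r : ℝ) / M)) = if x = 0 then (M : ℂ) else 0 := by
  have hM0 : (M : ℝ) ≠ 0 := by positivity
  split_ifs with h0
  · subst h0
    have h1 : ∀ r ∈ range M, e (((0 : ℤ) : ℝ) * ((r : ℝ) / M)) = 1 := by
      intro r _
      rw [Int.cast_zero, zero_mul]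
      exact Pool.Agent.Lib.MP_2a816b_nt.e_zero
    rw [Finset.sum_congr rfl h1, Finset.sum_const, card_range, nsmul_eq_mul, mul_one]
  · have h1 : ∀ r ∈ range M, e ((x : ℝ) * ((r : ℝ) / M)) = e ((x : ℝ) / M) ^ r := by
      intro r _
      rw [← Pool.Agent.Lib.MP_2a816b_nt.e_nat_mul]
      congr 1
      ring
    rw [Finset.sum_congr rfl h1]
    have h2 : e ((x : ℝ) / M) ^ M = 1 := by
      rw [← Pool.Agent.Lib.MP_2a816b_nt.e_nat_mul, mul_div_cancel₀ _ hM0, e_int]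
    have h3 : e ((x : ℝ) / M) ≠ 1 := by
      intro h4
      obtain ⟨m, hm⟩ := (e_eq_one_iff _).1 h4
      have h5 : (x : ℝ) = (m * (M : ℤ) : ℤ) := by
        push_cast
        rw [← hm, div_mul_cancel₀ _ hM0]
      have h6 : x = m * (M : ℤ) := by exact_mod_cast h5
      have h7 : m ≠ 0 := by
        rintro rfl
        exact h0 (by rw [h6, zero_mul])
      have h8 : (1 : ℤ) ≤ |m| := Int.one_le_abs h7
      rw [h6, abs_mul, Nat.abs_cast] at hx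
      nlinarith
    have h4 := geom_sum_mul (e ((x : ℝ) / M)) M
    rw [h2, sub_self] at h4
    rcases mul_eq_zero.1 h4 with h5 | h5
    · exact h5
    · exact absurd (sub_eq_zero.1 h5) h3

private theorem Toe_pars (M : ℕ) (hM : 0 < M) (A : Finset ℕ) (hA : ∀ j ∈ A, j < M) :
    ∑ r ∈ range M, ‖∑ j ∈ A, e ((j : ℝ) * ((r : ℝ) / M))‖ ^ 2 = (M : ℝ) * A.card := by
  have h1 : ∀ r ∈ range M, ((‖∑ j ∈ A, e ((j : ℝ) * ((r : ℝ) / M))‖ ^ 2 : ℝ) : ℂ) =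
      ∑ j ∈ A, ∑ j' ∈ A, e ((((j : ℤ) - (j' : ℤ) : ℤ) : ℝ) * ((r : ℝ) / M)) := by
    intro r _
    rw [Complex.ofReal_pow, ← Complex.mul_conj', map_sum, Finset.sum_mul_sum]
    refine Finset.sum_congr rfl fun j _ => Finset.sum_congr rfl fun j' _ => ?_
    rw [conj_e, ← e_add]
    congr 1
    push_cast
    ring
  have h2 : ((∑ r ∈ range M, ‖∑ j ∈ A, e ((j : ℝ) * ((r : ℝ) / M))‖ ^ 2 : ℝ) : ℂ) = (((M : ℝ) * A.card : ℝ) : ℂ) := by
    rw [Complex.ofReal_sum, Finset.sum_congr rfl h1, Finset.sum_comm]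
    have h3 : ∀ j ∈ A, ∑ r ∈ range M, ∑ j' ∈ A, e ((((j : ℤ) - (j' : ℤ) : ℤ) : ℝ) * ((r : ℝ) / M)) = (M : ℂ) := by
      intro j hj
      rw [Finset.sum_comm]
      have h4 : ∀ j' ∈ A, ∑ r ∈ range M, e ((((j : ℤ) - (j' : ℤ) : ℤ) : ℝ) * ((r : ℝ) / M)) =
          if j = j' then (M : ℂ) else 0 := by
        intro j' hj'
        have h5 := hA j hj
        have h6 := hA j' hj'
        rw [Toe_orth M hM _ (by rw [abs_lt]; constructor <;> omega)]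
        by_cases h7 : j = j'
        · rw [if_pos (by omega), if_pos h7]
        · rw [if_neg (by omega), if_neg h7]
      rw [Finset.sum_congr rfl h4, Finset.sum_ite_eq, if_pos hj]
    rw [Finset.sum_congr rfl h3, Finset.sum_const, nsmul_eq_mul]
    push_cast
    ring
  exact Complex.ofReal_injective h2

theorem toeplitz (U : ℕ) (g : ℕ → ℂ) (S : ℝ) (hS : ∀ θ : ℝ, ‖∑ k ∈ range U, g k * e (k * θ)‖ ≤ S)
    (A B : Finset ℕ) (hAB : ∀ j ∈ A, ∀ j' ∈ B, j ≤ j' ∧ j' - j < U) :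
    ‖∑ j ∈ A, ∑ j' ∈ B, g (j' - j)‖ ≤ S * √((A.card : ℝ) * B.card) := by
  obtain ⟨M, hMdef⟩ : ∃ M : ℕ, M = U + ∑ j ∈ A, j + ∑ j ∈ B, j + 1 := ⟨_, rfl⟩
  have hM : 0 < M := by omega
  have hMr : (0 : ℝ) < (M : ℝ) := by exact_mod_cast hM
  have hA : ∀ j ∈ A, j + U < M := by
    intro j hj
    have := Finset.single_le_sum (f := fun j : ℕ => j) (fun _ _ => Nat.zero_le _) hj
    omega
  have hB : ∀ j ∈ B, j < M := by
    intro j hj
    have := Finset.single_le_sum (f := fun j : ℕ => j) (fun _ _ => Nat.zero_le _) hj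
    omega
  have hS0 : 0 ≤ S := (norm_nonneg _).trans (hS 0)
  have h1 : ∀ r ∈ range M, (∑ j ∈ A, e ((j : ℝ) * ((r : ℝ) / M))) *
      (starRingEnd ℂ) (∑ j' ∈ B, e ((j' : ℝ) * ((r : ℝ) / M))) * (∑ k ∈ range U, g k * e (k * ((r : ℝ) / M))) =
      ∑ j ∈ A, ∑ j' ∈ B, ∑ k ∈ range U, g k * e ((((k : ℤ) + (j : ℤ) - (j' : ℤ) : ℤ) : ℝ) * ((r : ℝ) / M)) := by
    intro r _
    rw [map_sum, Finset.sum_mul_sum, Finset.sum_mul]
    refine Finset.sum_congr rfl fun j _ => ?_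
    rw [Finset.sum_mul]
    refine Finset.sum_congr rfl fun j' _ => ?_
    rw [Finset.mul_sum]
    refine Finset.sum_congr rfl fun k _ => ?_
    have h2 : e ((((k : ℤ) + (j : ℤ) - (j' : ℤ) : ℤ) : ℝ) * ((r : ℝ) / M)) =
        e ((j : ℝ) * ((r : ℝ) / M)) * e (-((j' : ℝ) * ((r : ℝ) / M))) * e (k * ((r : ℝ) / M)) := by
      rw [← e_add, ← e_add]
      congr 1
      push_cast
      ring
    rw [conj_e, h2]
    ring
  have h2 : ∑ r ∈ range M, (∑ j ∈ A, e ((j : ℝ) * ((r : ℝ) / M))) *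
      (starRingEnd ℂ) (∑ j' ∈ B, e ((j' : ℝ) * ((r : ℝ) / M))) * (∑ k ∈ range U, g k * e (k * ((r : ℝ) / M))) =
      (M : ℂ) * ∑ j ∈ A, ∑ j' ∈ B, g (j' - j) := by
    rw [Finset.sum_congr rfl h1, Finset.sum_comm, Finset.mul_sum]
    refine Finset.sum_congr rfl fun j hj => ?_
    rw [Finset.sum_comm, Finset.mul_sum]
    refine Finset.sum_congr rfl fun j' hj' => ?_
    rw [Finset.sum_comm]
    obtain ⟨h3, h4⟩ := hAB j hj j' hj'
    have h5 := hA j hj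
    have h6 := hB j' hj'
    have h7 : ∀ k ∈ range U, ∑ r ∈ range M, g k * e ((((k : ℤ) + (j : ℤ) - (j' : ℤ) : ℤ) : ℝ) * ((r : ℝ) / M)) =
        if k = j' - j then g k * (M : ℂ) else 0 := by
      intro k hk
      rw [Finset.mem_range] at hk
      rw [← Finset.mul_sum, Toe_orth M hM _ (by rw [abs_lt]; constructor <;> omega)]
      by_cases h8 : k = j' - j
      · rw [if_pos (by omega), if_pos h8]
      · rw [if_neg (by omega), if_neg h8, mul_zero]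
    rw [Finset.sum_congr rfl h7, Finset.sum_ite_eq', if_pos (Finset.mem_range.2 h4), mul_comm]
  have h3 : (M : ℝ) * ‖∑ j ∈ A, ∑ j' ∈ B, g (j' - j)‖ ≤
      ∑ r ∈ range M, ‖∑ j ∈ A, e ((j : ℝ) * ((r : ℝ) / M))‖ * ‖∑ j' ∈ B, e ((j' : ℝ) * ((r : ℝ) / M))‖ * S := by
    have h4 : (M : ℝ) * ‖∑ j ∈ A, ∑ j' ∈ B, g (j' - j)‖ = ‖(M : ℂ) * ∑ j ∈ A, ∑ j' ∈ B, g (j' - j)‖ := by
      rw [norm_mul, Complex.norm_natCast]
    rw [h4, ← h2]
    refine (norm_sum_le _ _).trans (Finset.sum_le_sum fun r _ => ?_)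
    rw [norm_mul, norm_mul, RCLike.norm_conj]
    exact mul_le_mul_of_nonneg_left (hS _) (by positivity)
  have h4 : ∑ r ∈ range M, ‖∑ j ∈ A, e ((j : ℝ) * ((r : ℝ) / M))‖ * ‖∑ j' ∈ B, e ((j' : ℝ) * ((r : ℝ) / M))‖ ≤
      (M : ℝ) * √((A.card : ℝ) * B.card) := by
    refine (Real.sum_mul_le_sqrt_mul_sqrt _ _ _).trans (le_of_eq ?_)
    rw [Toe_pars M hM A (fun j hj => by have := hA j hj; omega), Toe_pars M hM B hB,
      ← Real.sqrt_mul (by positivity)]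
    have h5 : (M : ℝ) * A.card * ((M : ℝ) * B.card) = (M : ℝ) ^ 2 * ((A.card : ℝ) * B.card) := by ring
    rw [h5, Real.sqrt_mul (by positivity), Real.sqrt_sq hMr.le]
  rw [← Finset.sum_mul] at h3
  have h5 : (M : ℝ) * ‖∑ j ∈ A, ∑ j' ∈ B, g (j' - j)‖ ≤ (M : ℝ) * (S * √((A.card : ℝ) * B.card)) := by
    refine h3.trans ((mul_le_mul_of_nonneg_right h4 hS0).trans (le_of_eq ?_))
    ring
  exact le_of_mul_le_mul_left h5 hMr

end Pool.Agent.Lib.MP_d57abb_nt.All
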