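import Mathlib
import Pool.Agent.Lib.MP_d57abb_nt.All.FU
import Pool.Agent.Lib.MP_d57abb_nt.All.Toe

/-!
# JOB Pair: many pairs at prime distance

PROOF.  `d = dens W₁ ≥ 1` (`one_le_dens`), `g k = lp (W₁ k + n₀)`.  `toeplitz (5 ℓ) (fun k => (g k - d : ℝ)) (d ℓ / (2 m)) ...` (the hypothesis `hfu` with `u = 5 ℓ`): for `A ⊆ [0, ℓ)`, `B ⊆ [3 ℓ, 4 ℓ)`, `|A|, |B| ≥ ℓ / m`,
`|∑∑ (g (j' - j) - d)| ≤ (d ℓ / (2m)) √(|A||B|) ≤ (d / 2) |A| |B|` as `√(|A||B|) ≥ ℓ / m` (the sum is real: `Complex.ofReal`).  So `∑∑ g (j' - j) ≥ (d / 2) |A| |B| ≥ ℓ² / (2 m²)`.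
`g k ≤ log (5 W₁ ℓ + n₀) ≤ 2 log ℓ` for `k < 5 ℓ`, `ℓ ≥ ℓ₀`, and `g k ≠ 0` only if `W₁ k + n₀` is prime, so the number of the pairs is `≥ ℓ² / (4 m² log ℓ)`.
For the prime `p = W₁ (j' - j) + n₀` the pair `(j, j')` is determined by `j` and `p` (`W₁ > 0`), so the number of pairs is `∑_{p} |R p|`, `R p = {j ∈ A : ∃ j' ∈ B, W₁ (j' - j) + n₀ = p}`; all these `p` satisfy
`ℓ < p ≤ Y` with `Y = 5 W ℓ`: `j' - j > 2 ℓ - 1`, so `p ≥ 2 ℓ > ℓ`; and `p ≤ 4 W₁ ℓ + n₀ ≤ 4 W ℓ + n₀ ≤ 5 W ℓ` for `ℓ ≥ n₀`.  Hence `∑_p |R p| / p ≥ (1/(5 W ℓ)) ∑_p |R p| ≥ ℓ / (20 W m² log ℓ)`.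
-/

open Finset Filter

namespace Pool.Agent.Lib.MP_d57abb_nt.All

open Pool.Agent.Lib.MP_2a816b_nt (e)

/-- the pairs are counted by the primes and the first element -/
private theorem Pair_count (W W₁ n₀ ℓ : ℕ) (hW : 0 < W₁) (hWW : W₁ ≤ W) (hn : n₀ ≤ ℓ) (A B : Finset ℕ)
    (hA : A ⊆ range ℓ) (hB : B ⊆ Ico (3 * ℓ) (4 * ℓ)) :
    ∑ j ∈ A, (B.filter (fun j' => (W₁ * (j' - j) + n₀).Prime)).card ≤
      ∑ p ∈ (Ioc ℓ (5 * W * ℓ)).filter Nat.Prime,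
        (A.filter (fun j => ∃ j' ∈ B, W₁ * (j' - j) + n₀ = p)).card := by
  have h1 := Finset.sum_card_bipartiteAbove_eq_sum_card_bipartiteBelow
    (s := A) (t := (Ioc ℓ (5 * W * ℓ)).filter Nat.Prime)
    (fun j p : ℕ => ∃ j' ∈ B, W₁ * (j' - j) + n₀ = p)
  unfold Finset.bipartiteAbove Finset.bipartiteBelow at h1
  rw [← h1]
  refine Finset.sum_le_sum fun j hj => ?_
  have hj1 := Finset.mem_range.1 (hA hj)
  refine Finset.card_le_card_of_injOn (fun j' => W₁ * (j' - j) + n₀) ?_ ?_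
  · intro j' hj'
    rw [Finset.mem_coe, Finset.mem_filter] at hj'
    have h2 := Finset.mem_Ico.1 (hB hj'.1)
    rw [Finset.mem_coe, Finset.mem_filter, Finset.mem_filter, Finset.mem_Ioc]
    refine ⟨⟨⟨?_, ?_⟩, hj'.2⟩, j', hj'.1, rfl⟩
    · have h3 : 1 * (j' - j) ≤ W₁ * (j' - j) := Nat.mul_le_mul_right _ hW
      change ℓ < W₁ * (j' - j) + n₀
      omega
    · have h3 : W₁ * (j' - j) ≤ W * (4 * ℓ) := Nat.mul_le_mul hWW (by omega)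
      have h4 : 1 * ℓ ≤ W * ℓ := Nat.mul_le_mul_right _ (by omega)
      have h5 : 5 * W * ℓ = W * (4 * ℓ) + W * ℓ := by ring
      change W₁ * (j' - j) + n₀ ≤ 5 * W * ℓ
      omega
  · intro x hx y hy hxy
    rw [Finset.mem_coe, Finset.mem_filter] at hx hy
    have h2 := Finset.mem_Ico.1 (hB hx.1)
    have h3 := Finset.mem_Ico.1 (hB hy.1)
    have h4 : W₁ * (x - j) = W₁ * (y - j) := Nat.add_right_cancel hxy
    have h5 := Nat.eq_of_mul_eq_mul_left hW h4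
    omega

/-- the bound of `lp` -/
private theorem Pair_lp (W W₁ n₀ ℓ k : ℕ) (hWW : W₁ ≤ W) (hn : n₀ ≤ ℓ) (hℓ : 5 * W ≤ ℓ) (hW : 0 < W₁)
    (hk : k ≤ 4 * ℓ) :
    lp (W₁ * k + n₀) ≤ 2 * Real.log ℓ * (if (W₁ * k + n₀).Prime then 1 else 0) := by
  unfold lp
  split_ifs with h
  · have h1 : W₁ * k + n₀ ≤ ℓ * ℓ := by
      have h2 : W₁ * k ≤ W * (4 * ℓ) := Nat.mul_le_mul hWW hk
      have h3 : 1 * ℓ ≤ W * ℓ := Nat.mul_le_mul_right _ (by omega)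
      have h4 : 5 * W * ℓ ≤ ℓ * ℓ := Nat.mul_le_mul_right _ hℓ
      have h5 : 5 * W * ℓ = W * (4 * ℓ) + W * ℓ := by ring
      omega
    have h6 : (0 : ℝ) < ((W₁ * k + n₀ : ℕ) : ℝ) := by exact_mod_cast h.pos
    have hℓ0 : (0 : ℝ) < ℓ := by
      have : 0 < ℓ := by omega
      exact_mod_cast this
    have h7 : ((W₁ * k + n₀ : ℕ) : ℝ) ≤ (ℓ : ℝ) * ℓ := by exact_mod_cast h1
    have h8 := Real.log_le_log h6 h7
    rw [Real.log_mul hℓ0.ne' hℓ0.ne'] at h8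
    linarith
  · rw [mul_zero]

private theorem Pair_sum (m W₁ n₀ ℓ : ℕ) (hm : 0 < m) (hW : 0 < W₁) (hℓ : 0 < ℓ)
    (hfu : ∀ θ : ℝ, ‖∑ k ∈ range (5 * ℓ), ((lp (W₁ * k + n₀) - dens W₁ : ℝ) : ℂ) * e (k * θ)‖ ≤
      (1 / (2 * m)) * dens W₁ * ℓ) (A B : Finset ℕ)
    (hA : A ⊆ range ℓ) (hB : B ⊆ Ico (3 * ℓ) (4 * ℓ))
    (hAc : (ℓ : ℝ) / m ≤ A.card) (hBc : (ℓ : ℝ) / m ≤ B.card) :
    ((ℓ : ℝ) / m) ^ 2 / 2 ≤ ∑ j ∈ A, ∑ j' ∈ B, lp (W₁ * (j' - j) + n₀) := by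
  have ht := toeplitz (5 * ℓ) (fun k => ((lp (W₁ * k + n₀) - dens W₁ : ℝ) : ℂ))
    ((1 / (2 * m)) * dens W₁ * ℓ) hfu A B (by
      intro j hj j' hj'
      have h1 := Finset.mem_range.1 (hA hj)
      have h2 := Finset.mem_Ico.1 (hB hj')
      omega)
  have hd := one_le_dens W₁ hW
  set d := dens W₁ with hdd
  have e1 : ∑ j ∈ A, ∑ j' ∈ B, ((lp (W₁ * (j' - j) + n₀) - d : ℝ) : ℂ) =
      ((∑ j ∈ A, ∑ j' ∈ B, (lp (W₁ * (j' - j) + n₀) - d) : ℝ) : ℂ) := by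
    push_cast
    rfl
  have e2 : ∑ j ∈ A, ∑ j' ∈ B, (lp (W₁ * (j' - j) + n₀) - d) =
      ∑ j ∈ A, ∑ j' ∈ B, lp (W₁ * (j' - j) + n₀) - d * ((A.card : ℝ) * B.card) := by
    simp only [Finset.sum_sub_distrib, Finset.sum_const, nsmul_eq_mul]
    ring
  change ‖∑ j ∈ A, ∑ j' ∈ B, ((lp (W₁ * (j' - j) + n₀) - d : ℝ) : ℂ)‖ ≤ _ at ht
  rw [e1, e2, Complex.norm_real, Real.norm_eq_abs] at ht
  have hL : (0 : ℝ) < (ℓ : ℝ) / m := by positivity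
  set L := (ℓ : ℝ) / m with hLL
  have hab : L * L ≤ (A.card : ℝ) * B.card := mul_le_mul hAc hBc hL.le (hL.le.trans hAc)
  have hs : L ≤ √((A.card : ℝ) * B.card) := Real.le_sqrt_of_sq_le (by rw [pow_two]; exact hab)
  have hs2 : √((A.card : ℝ) * B.card) * √((A.card : ℝ) * B.card) = (A.card : ℝ) * B.card :=
    Real.mul_self_sqrt (by positivity)
  have h3 : 1 / (2 * (m : ℝ)) * d * ℓ * √((A.card : ℝ) * B.card) ≤ d / 2 * ((A.card : ℝ) * B.card) := by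
    have h4 : 1 / (2 * (m : ℝ)) * d * ℓ * √((A.card : ℝ) * B.card)
        = d / 2 * (L * √((A.card : ℝ) * B.card)) := by
      rw [hLL]
      field_simp
    rw [h4]
    refine mul_le_mul_of_nonneg_left ?_ (by positivity)
    calc L * √((A.card : ℝ) * B.card) ≤ √((A.card : ℝ) * B.card) * √((A.card : ℝ) * B.card) :=
          mul_le_mul_of_nonneg_right hs (Real.sqrt_nonneg _)
      _ = _ := hs2
  have h5 := (abs_le.1 (ht.trans h3)).1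
  have h6 : 1 / 2 * (L * L) ≤ d / 2 * ((A.card : ℝ) * B.card) :=
    mul_le_mul (by linarith) hab (by positivity) (by positivity)
  rw [pow_two]
  linarith

theorem pairs (m W W₁ n₀ : ℕ) (hm : 0 < m) (hW : 0 < W₁) (hWW : W₁ ≤ W)
    (hfu : ∃ ℓ₀ : ℕ, ∀ ℓ : ℕ, ℓ₀ ≤ ℓ → ∀ θ : ℝ, ∀ u : ℕ, u ≤ 5 * ℓ →
      ‖∑ k ∈ range u, ((lp (W₁ * k + n₀) - dens W₁ : ℝ) : ℂ) * e (k * θ)‖ ≤ (1 / (2 * m)) * dens W₁ * ℓ) :
    ∃ ℓ₀ : ℕ, ∀ ℓ : ℕ, ℓ₀ ≤ ℓ → ∀ A B : Finset ℕ, A ⊆ range ℓ → B ⊆ Ico (3 * ℓ) (4 * ℓ) →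
      (ℓ : ℝ) / m ≤ A.card → (ℓ : ℝ) / m ≤ B.card →
      1 / (20 * W * (m : ℝ) ^ 2) * ℓ / Real.log ℓ ≤ ∑ p ∈ (Ioc ℓ (5 * W * ℓ)).filter Nat.Prime,
        ((A.filter (fun j => ∃ j' ∈ B, W₁ * (j' - j) + n₀ = p)).card : ℝ) / p := by
  obtain ⟨ℓ₀, hfu⟩ := hfu
  refine ⟨max (max ℓ₀ n₀) (max (5 * W) 2), ?_⟩
  intro ℓ hℓ A B hA hB hAc hBc
  have g1 : ℓ₀ ≤ ℓ := ((le_max_left _ _).trans (le_max_left _ _)).trans hℓ
  have g2 : n₀ ≤ ℓ := ((le_max_right _ _).trans (le_max_left _ _)).trans hℓ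
  have g3 : 5 * W ≤ ℓ := ((le_max_left _ _).trans (le_max_right _ _)).trans hℓ
  have g4 : 2 ≤ ℓ := ((le_max_right _ _).trans (le_max_right _ _)).trans hℓ
  have hℓ2 : (2 : ℝ) ≤ ℓ := by exact_mod_cast g4
  have hℓ0 : (0 : ℝ) < ℓ := by linarith
  have hlog : 0 < Real.log ℓ := Real.log_pos (by linarith)
  have hW0 : (0 : ℝ) < W := by
    have : 0 < W := by omega
    exact_mod_cast this
  have hm0 : (0 : ℝ) < m := by exact_mod_cast hm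
  have s1 := Pair_sum m W₁ n₀ ℓ hm hW (by omega) (fun θ => hfu ℓ g1 θ (5 * ℓ) le_rfl) A B hA hB hAc hBc
  have s2 : ∑ j ∈ A, ∑ j' ∈ B, lp (W₁ * (j' - j) + n₀) ≤
      2 * Real.log ℓ * ((∑ j ∈ A, (B.filter (fun j' => (W₁ * (j' - j) + n₀).Prime)).card : ℕ) : ℝ) := by
    rw [Nat.cast_sum, Finset.mul_sum]
    refine Finset.sum_le_sum fun j hj => ?_
    rw [Finset.card_filter, Nat.cast_sum, Finset.mul_sum]
    refine Finset.sum_le_sum fun j' hj' => ?_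
    have h1 := Finset.mem_Ico.1 (hB hj')
    refine (Pair_lp W W₁ n₀ ℓ (j' - j) hWW g2 g3 hW (by omega)).trans (le_of_eq ?_)
    push_cast
    rfl
  have s3 : ((∑ j ∈ A, (B.filter (fun j' => (W₁ * (j' - j) + n₀).Prime)).card : ℕ) : ℝ) ≤
      ((∑ p ∈ (Ioc ℓ (5 * W * ℓ)).filter Nat.Prime,
        (A.filter (fun j => ∃ j' ∈ B, W₁ * (j' - j) + n₀ = p)).card : ℕ) : ℝ) := by
    exact_mod_cast Pair_count W W₁ n₀ ℓ hW hWW g2 A B hA hB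
  have s4 : ((∑ p ∈ (Ioc ℓ (5 * W * ℓ)).filter Nat.Prime,
        (A.filter (fun j => ∃ j' ∈ B, W₁ * (j' - j) + n₀ = p)).card : ℕ) : ℝ) / (5 * W * ℓ) ≤
      ∑ p ∈ (Ioc ℓ (5 * W * ℓ)).filter Nat.Prime,
        ((A.filter (fun j => ∃ j' ∈ B, W₁ * (j' - j) + n₀ = p)).card : ℝ) / p := by
    rw [Nat.cast_sum, Finset.sum_div]
    refine Finset.sum_le_sum fun p hp => ?_
    rw [Finset.mem_filter, Finset.mem_Ioc] at hp
    have hp0 : (0 : ℝ) < p := by exact_mod_cast hp.2.pos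
    have hp1 : (p : ℝ) ≤ 5 * W * ℓ := by exact_mod_cast hp.1.2
    exact div_le_div_of_nonneg_left (Nat.cast_nonneg _) hp0 hp1
  refine le_trans ?_ s4
  rw [le_div_iff₀ (by positivity)]
  have s5 := (s1.trans s2).trans (mul_le_mul_of_nonneg_left s3 (by positivity))
  have s6 : 1 / (20 * W * (m : ℝ) ^ 2) * ℓ / Real.log ℓ * (5 * W * ℓ) =
      (((ℓ : ℝ) / m) ^ 2 / 2) / (2 * Real.log ℓ) := by
    field_simp
    ring
  rw [s6, div_le_iff₀ (by positivity)]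
  linarith

end Pool.Agent.Lib.MP_d57abb_nt.All
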