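import Mathlib
import Pool.Agent.Lib.MP_d57abb_nt.All.Defs

/-!
# Coprime squarefree numbers with prescribed numbers of prime factors
-/

open Finset

namespace Pool.Agent.Lib.MP_d57abb_nt.All

private theorem TypA_seq (Q' : ℕ) (hQ : 0 < Q') (T : ℕ) :
    ∃ q : ℕ → ℕ, Function.Injective q ∧ ∀ n, (q n).Prime ∧ T < q n ∧ q n % Q' = 1 % Q' := by
  have hne : Q' ≠ 0 := hQ.ne'
  obtain ⟨q, hq, hmono⟩ := Nat.exists_strictMono_subsequence
    (P := fun p => p.Prime ∧ T < p ∧ p % Q' = 1 % Q')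
    (fun n => by
      obtain ⟨p, hp, hlt, hmod⟩ := Nat.exists_prime_gt_modEq_one (max n T) hne
      exact ⟨p, lt_of_le_of_lt (le_max_left _ _) hlt, hp, lt_of_le_of_lt (le_max_right _ _) hlt, hmod⟩)
  exact ⟨q, hq.injective, hmono⟩

private theorem TypA_primeFactors_prod (s : Finset ℕ) (g : ℕ → ℕ) (hg : Set.InjOn g s)
    (hp : ∀ k ∈ s, (g k).Prime) :
    (∏ k ∈ s, g k).primeFactors = s.image g := by
  have h1 : ∏ k ∈ s, g k = ∏ p ∈ s.image g, p := by
    rw [Finset.prod_image]
    intro a ha b hb hab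
    exact hg ha hb hab
  rw [h1]
  apply Nat.primeFactors_prod
  intro p hp'
  obtain ⟨k, hk, rfl⟩ := Finset.mem_image.1 hp'
  exact hp k hk

private theorem TypA_squarefree_prod (s : Finset ℕ) (g : ℕ → ℕ) (hg : Set.InjOn g s)
    (hp : ∀ k ∈ s, (g k).Prime) : Squarefree (∏ k ∈ s, g k) := by
  induction s using Finset.induction_on with
  | empty => simp
  | insert a s ha ih =>
    rw [Finset.prod_insert ha]
    have ih' := ih (fun x hx y hy h => hg (by simp [Finset.mem_coe.1 hx]) (by simp [Finset.mem_coe.1 hy]) h)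
      (fun k hk => hp k (Finset.mem_insert_of_mem hk))
    rw [Nat.squarefree_mul]
    · exact ⟨(hp a (Finset.mem_insert_self _ _)).squarefree, ih'⟩
    · apply Nat.Coprime.prod_right
      intro k hk
      rw [Nat.coprime_primes (hp a (Finset.mem_insert_self _ _)) (hp k (Finset.mem_insert_of_mem hk))]
      intro h
      have : a = k := hg (by simp) (by simp [hk]) h
      exact ha (this ▸ hk)

theorem exists_fam (I : Type) [Fintype I] (κ : I → ℕ) (Q' : ℕ) (hQ : 0 < Q') (T : ℕ) :
    ∃ D : I → ℕ, (∀ i, Squarefree (D i)) ∧ (∀ i j, i ≠ j → Nat.Coprime (D i) (D j)) ∧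
      (∀ i, ∀ p : ℕ, p.Prime → p ∣ D i → T < p ∧ p % Q' = 1 % Q') ∧ ∀ i, (D i).primeFactors.card = κ i := by
  classical
  obtain ⟨q, hqi, hq⟩ := TypA_seq Q' hQ T
  set f := Fintype.equivFin I with hf
  set S := ∑ i, κ i with hS
  have hκ : ∀ i, κ i ≤ S := fun i => Finset.single_le_sum (f := κ) (fun _ _ => Nat.zero_le _) (Finset.mem_univ i)
  set g : I → ℕ → ℕ := fun i k => q (S * (f i : ℕ) + k) with hgdef
  have hidx : ∀ i j : I, ∀ k l : ℕ, k < κ i → l < κ j → S * (f i : ℕ) + k = S * (f j : ℕ) + l → i = j ∧ k = l := by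
    intro i j k l hk hl h
    have hk' : k < S := lt_of_lt_of_le hk (hκ i)
    have hl' : l < S := lt_of_lt_of_le hl (hκ j)
    have hSpos : 0 < S := by omega
    have h1 : (S * (f i : ℕ) + k) / S = (f i : ℕ) := by
      rw [Nat.mul_add_div hSpos, Nat.div_eq_of_lt hk', add_zero]
    have h2 : (S * (f j : ℕ) + l) / S = (f j : ℕ) := by
      rw [Nat.mul_add_div hSpos, Nat.div_eq_of_lt hl', add_zero]
    have h3 : (f i : ℕ) = (f j : ℕ) := by rw [← h1, ← h2, h]
    have h4 : i = j := f.injective (Fin.ext h3)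
    subst h4
    exact ⟨rfl, by omega⟩
  have hginj : ∀ i, Set.InjOn (g i) (Finset.range (κ i) : Finset ℕ) := by
    intro i a ha b hb hab
    have ha' := Finset.mem_range.1 (Finset.mem_coe.1 ha)
    have hb' := Finset.mem_range.1 (Finset.mem_coe.1 hb)
    exact (hidx i i a b ha' hb' (hqi hab)).2
  have hgp : ∀ i k, (g i k).Prime := fun i k => (hq _).1
  have hpf : ∀ i, (∏ k ∈ Finset.range (κ i), g i k).primeFactors = (Finset.range (κ i)).image (g i) :=
    fun i => TypA_primeFactors_prod _ _ (hginj i) (fun k _ => hgp i k)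
  refine ⟨fun i => ∏ k ∈ Finset.range (κ i), g i k, ?_, ?_, ?_, ?_⟩
  · intro i
    exact TypA_squarefree_prod _ _ (hginj i) (fun k _ => hgp i k)
  · intro i j hij
    apply Nat.Coprime.prod_left
    intro k hk
    apply Nat.Coprime.prod_right
    intro l hl
    rw [Nat.coprime_primes (hgp i k) (hgp j l)]
    intro h
    exact hij (hidx i j k l (Finset.mem_range.1 hk) (Finset.mem_range.1 hl) (hqi h)).1
  · intro i p hp hdvd
    obtain ⟨k, hk, hpk⟩ := (Prime.dvd_finsetProd_iff hp.prime _).1 hdvd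
    have h := (Nat.prime_dvd_prime_iff_eq hp (hgp i k)).1 hpk
    rw [h]
    exact ⟨(hq _).2.1, (hq _).2.2⟩
  · intro i
    show (∏ k ∈ Finset.range (κ i), g i k).primeFactors.card = κ i
    rw [hpf i, Finset.card_image_of_injOn (hginj i), Finset.card_range]

private theorem TypA_h_prod {m : ℕ} {h : ℕ → ZMod m} (hh : Add h) (s : Finset ℕ) (hs : ∀ p ∈ s, p ≠ 0) :
    h (∏ p ∈ s, p) = ∑ p ∈ s, h p := by
  have h1 : h 1 = 0 := by
    have := hh 1 1 one_pos one_pos
    rw [mul_one] at this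
    exact (left_eq_add.1 this)
  induction s using Finset.induction_on with
  | empty => simpa using h1
  | insert a s ha ih =>
    rw [Finset.prod_insert ha, Finset.sum_insert ha,
      hh a _ (Nat.pos_of_ne_zero (hs a (Finset.mem_insert_self _ _)))
        (Finset.prod_pos (fun p hp => Nat.pos_of_ne_zero (hs p (Finset.mem_insert_of_mem hp)))),
      ih (fun p hp => hs p (Finset.mem_insert_of_mem hp))]

theorem h_squarefree {m : ℕ} {h : ℕ → ZMod m} (hh : Add h) (γ : ZMod m) (D : ℕ) (hD : Squarefree D)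
    (hp : ∀ p : ℕ, p.Prime → p ∣ D → h p = γ) : h D = (D.primeFactors.card : ZMod m) * γ := by
  have h1 := Nat.prod_primeFactors_of_squarefree hD
  have h2 := TypA_h_prod hh D.primeFactors (fun p hp => (Nat.prime_of_mem_primeFactors hp).ne_zero)
  rw [h1] at h2
  rw [h2, Finset.sum_congr rfl (fun p hp' => hp p (Nat.prime_of_mem_primeFactors hp')
    (Nat.dvd_of_mem_primeFactors hp')), Finset.sum_const, nsmul_eq_mul]

theorem mod_one (D Q' : ℕ) (hD : Squarefree D) (hp : ∀ p : ℕ, p.Prime → p ∣ D → p % Q' = 1 % Q') :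
    D % Q' = 1 % Q' := by
  have h1 := Nat.prod_primeFactors_of_squarefree hD
  have h2 : ∀ s : Finset ℕ, (∀ p ∈ s, p % Q' = 1 % Q') → (∏ p ∈ s, p) % Q' = 1 % Q' := by
    intro s
    induction s using Finset.induction_on with
    | empty => intro _; simp
    | insert a s ha ih =>
      intro hs
      rw [Finset.prod_insert ha]
      have ha' : a ≡ 1 [MOD Q'] := hs a (Finset.mem_insert_self _ _)
      have ih' : (∏ p ∈ s, p) ≡ 1 [MOD Q'] := ih (fun p hp => hs p (Finset.mem_insert_of_mem hp))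
      exact (ha'.mul ih').trans (by simp; rfl)
  rw [← h1]
  exact h2 _ (fun p hp' => hp p (Nat.prime_of_mem_primeFactors hp') (Nat.dvd_of_mem_primeFactors hp'))

end Pool.Agent.Lib.MP_d57abb_nt.All
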