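import Mathlib
import Pool.Agent.Lib.MP_d57abb_nt.All.Defs
import Pool.Agent.Lib.MP_d57abb_nt.All.TypA

/-!
# JOB Typ: the residue types

PROOF.  Let `I = ZMod m × (ZMod m → ZMod m)` (a finite type), and `V = 5 * Q * w!`.
(1) For `i = (a, e) ∈ I` there is `κ i : ℕ` with `(κ i : ZMod m) * γ = (e a - c) / 2 - γ` (`γ` and `2` are units of `ZMod m`, `m` odd; `κ i = ZMod.val` of the quotient).
(2) `exists_fam I κ (5 * Q) (max P₀ (max w (5 * Q)))` (file `TypA`) gives `D i`, `i ∈ I`: squarefree, pairwise coprime, every prime `p ∣ D i` has `p % (5 Q) = 1 % (5 Q)`, `p > P₀, w, 5 Q` (so `p > 5`, `p % Q = 1 % Q`, `p % 5 = 1`, `h p = γ`), and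
`h (D i) = κ i * γ` (`h_squarefree`), `D i % (5 Q) = 1 % (5 Q)` (`mod_one`), `Spl (D i)`, `D i > 0`.
(3) `K = ∏ i, D i` (squarefree, prime to `V`, as its primes exceed `w`, `5 Q`, hence divide neither `w!` nor `5 Q`), `W = K² V`, `W₁ a e = W / D (a, e)`.
(4) `Ka = ∏_{e} D (a, e)`, `Ke = ∏_{a} D (a, e)` (divisors of `K`).  By the Chinese remainder theorem (`Nat.chineseRemainder`, moduli `V Ka²` and `(K / Ka)²` are coprime, with product `W`):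
`ρ a < W`, `ρ a ≡ 0 (mod V Ka²)`, `ρ a ≡ 2 (mod (K/Ka)²)`; and `ρ'' e < W`, `ρ'' e ≡ 1 (mod V (K/Ke)²)`, `ρ'' e ≡ Ke (mod Ke²)`; `ρ' e = W + ρ'' e`.
(5) Fix `a, e`, `D = D (a, e)`.  `D ∣ Ka ∣ ρ a`, `D ∣ Ke ∣ ρ'' e`, `D ∣ W`, so `ρ' e = ρ a + D n` with `n = (ρ' e - ρ a) / D` (`ρ a < W ≤ ρ' e`).
(6) `n` is prime to `W₁`: let a prime `p` divide `n` and `W₁`; then `p ∣ W`, so `p ∣ V` or `p ∣ D (a', e')` for some `a', e'`, and `p ∣ D n = ρ' e - ρ a`.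
 * `p ∣ V`: `ρ a ≡ 0`, `ρ' e ≡ 1 (mod p)`: `p ∣ 1`.
 * `p ∣ D (a', e')`, `a' ≠ a`: `p ∣ K / Ka` so `ρ a ≡ 2 (mod p)`; `ρ' e ≡ Ke ≡ 0` if `e' = e`, and `≡ 1` if `e' ≠ e`: `p ∣ 2` or `p ∣ 1`, but `p > 5`.
 * `p ∣ D (a, e')`, `e' ≠ e`: `ρ a ≡ 0`, `ρ' e ≡ 1 (mod p)`.
 * `p ∣ D (a, e)`: `p ∣ D` and `p ∣ n` give `p² ∣ D n = ρ' e - ρ a`; `p² ∣ Ka² ∣ ρ a`, `p² ∣ W`, so `p² ∣ ρ'' e`, and `ρ'' e ≡ Ke (mod Ke²)`, `p² ∣ Ke²`, so `p² ∣ Ke`: contradiction as `Ke` is squarefree.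
(7) `5 Q ∣ V ∣ W₁` (`W₁ = V K (K / D)`), every prime `≤ w` divides `w! ∣ V ∣ W₁`.  `D n ≡ ρ' e - ρ a ≡ 1 (mod 5 Q)` (as `5 Q ∣ V`) and `D ≡ 1 (mod 5 Q)`, so `n ≡ 1 (mod 5 Q)`.
(8) `c + 2 (h D + γ) = c + 2 ((e a - c) / 2) = e a`.
-/

namespace Pool.Agent.Lib.MP_d57abb_nt.All

section
variable {I : Type} [Fintype I] [DecidableEq I] {D : I → ℕ}

private theorem Typ_prod_cop (hc : ∀ i j, i ≠ j → Nat.Coprime (D i) (D j)) (S T : Finset I)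
    (hST : Disjoint S T) : Nat.Coprime (∏ i ∈ S, D i) (∏ i ∈ T, D i) := by
  refine Nat.Coprime.prod_left fun i hi => Nat.Coprime.prod_right fun j hj => hc i j ?_
  rintro rfl
  exact Finset.disjoint_left.1 hST hi hj

private theorem Typ_prod_sqf (hs : ∀ i, Squarefree (D i)) (hc : ∀ i j, i ≠ j → Nat.Coprime (D i) (D j))
    (S : Finset I) : Squarefree (∏ i ∈ S, D i) := by
  induction S using Finset.induction_on with
  | empty => simp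
  | insert a S ha ih =>
    rw [Finset.prod_insert ha, Nat.squarefree_mul]
    · exact ⟨hs a, ih⟩
    · exact Nat.Coprime.prod_right fun j hj => hc a j (by rintro rfl; exact ha hj)

private theorem Typ_split (S : Finset I) : (∏ i ∈ S, D i) * (∏ i ∈ Sᶜ, D i) = ∏ i, D i :=
  Finset.prod_mul_prod_compl S D

private theorem Typ_rho (hs : ∀ i, Squarefree (D i)) (hc : ∀ i j, i ≠ j → Nat.Coprime (D i) (D j))
    {V : ℕ} (hV : 0 < V) (hVc : ∀ i, Nat.Coprime V (D i)) (S : Finset I) :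
    ∃ r : ℕ, r < (∏ i, D i) ^ 2 * V ∧ V ∣ r ∧ (∀ i ∈ S, D i ^ 2 ∣ r) ∧
      ∀ i, i ∉ S → r ≡ 2 [MOD D i] := by
  have hcop : Nat.Coprime (V * (∏ i ∈ S, D i) ^ 2) ((∏ i ∈ Sᶜ, D i) ^ 2) := by
    refine Nat.Coprime.mul_left ?_ ?_
    · exact Nat.Coprime.pow_right 2 (Nat.Coprime.prod_right fun i _ => hVc i)
    · exact Nat.Coprime.pow 2 2 (Typ_prod_cop hc S Sᶜ disjoint_compl_right)
  obtain ⟨k, hk1, hk2⟩ := Nat.chineseRemainder hcop 0 2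
  have hW : (∏ i, D i) ^ 2 * V = (V * (∏ i ∈ S, D i) ^ 2) * (∏ i ∈ Sᶜ, D i) ^ 2 := by
    rw [← Typ_split S]
    ring
  have hW0 : 0 < (∏ i, D i) ^ 2 * V :=
    Nat.mul_pos (pow_pos (Finset.prod_pos fun i _ => Nat.pos_of_ne_zero (hs i).ne_zero) 2) hV
  have hm : k % ((∏ i, D i) ^ 2 * V) ≡ k [MOD (∏ i, D i) ^ 2 * V] := Nat.mod_modEq _ _
  refine ⟨k % ((∏ i, D i) ^ 2 * V), Nat.mod_lt _ hW0, ?_, ?_, ?_⟩
  · have h1 : V ∣ (∏ i, D i) ^ 2 * V := Dvd.intro_left _ rfl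
    have h2 := (hm.of_dvd h1).trans (hk1.of_dvd (Dvd.intro _ rfl))
    exact (Nat.modEq_zero_iff_dvd).1 h2
  · intro i hi
    have h0 : D i ^ 2 ∣ V * (∏ i ∈ S, D i) ^ 2 :=
      (pow_dvd_pow_of_dvd (Finset.dvd_prod_of_mem D hi) 2).trans (Dvd.intro_left _ rfl)
    have h1 : D i ^ 2 ∣ (∏ i, D i) ^ 2 * V := by
      rw [hW]
      exact h0.trans (Dvd.intro _ rfl)
    have h2 := (hm.of_dvd h1).trans (hk1.of_dvd h0)
    exact (Nat.modEq_zero_iff_dvd).1 h2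
  · intro i hi
    have h0 : D i ∣ (∏ i ∈ Sᶜ, D i) ^ 2 :=
      (Finset.dvd_prod_of_mem D (Finset.mem_compl.2 hi)).trans (dvd_pow_self _ two_ne_zero)
    have h1 : D i ∣ (∏ i, D i) ^ 2 * V := by
      rw [hW]
      exact h0.trans (Dvd.intro_left _ rfl)
    exact (hm.of_dvd h1).trans (hk2.of_dvd h0)

private theorem Typ_rho' (hs : ∀ i, Squarefree (D i)) (hc : ∀ i j, i ≠ j → Nat.Coprime (D i) (D j))
    {V : ℕ} (hV : 0 < V) (hVc : ∀ i, Nat.Coprime V (D i)) (S : Finset I) :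
    ∃ r : ℕ, r < (∏ i, D i) ^ 2 * V ∧ r ≡ 1 [MOD V] ∧ (∀ i ∈ S, D i ∣ r) ∧
      (∀ i ∈ S, ∀ p : ℕ, p.Prime → p ∣ D i → ¬ p ^ 2 ∣ r) ∧
      ∀ i, i ∉ S → r ≡ 1 [MOD D i] := by
  have hcop : Nat.Coprime (V * (∏ i ∈ Sᶜ, D i) ^ 2) ((∏ i ∈ S, D i) ^ 2) := by
    refine Nat.Coprime.mul_left ?_ ?_
    · exact Nat.Coprime.pow_right 2 (Nat.Coprime.prod_right fun i _ => hVc i)
    · exact Nat.Coprime.pow 2 2 (Typ_prod_cop hc Sᶜ S disjoint_compl_left)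
  obtain ⟨k, hk1, hk2⟩ := Nat.chineseRemainder hcop 1 (∏ i ∈ S, D i)
  have hW : (∏ i, D i) ^ 2 * V = (V * (∏ i ∈ Sᶜ, D i) ^ 2) * (∏ i ∈ S, D i) ^ 2 := by
    rw [← Typ_split S]
    ring
  have hW0 : 0 < (∏ i, D i) ^ 2 * V :=
    Nat.mul_pos (pow_pos (Finset.prod_pos fun i _ => Nat.pos_of_ne_zero (hs i).ne_zero) 2) hV
  have hm : k % ((∏ i, D i) ^ 2 * V) ≡ k [MOD (∏ i, D i) ^ 2 * V] := Nat.mod_modEq _ _
  have hS : (∏ i ∈ S, D i) ^ 2 ∣ (∏ i, D i) ^ 2 * V := by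
    rw [hW]
    exact Dvd.intro_left _ rfl
  have hmS : k % ((∏ i, D i) ^ 2 * V) ≡ ∏ i ∈ S, D i [MOD (∏ i ∈ S, D i) ^ 2] :=
    (hm.of_dvd hS).trans hk2
  refine ⟨k % ((∏ i, D i) ^ 2 * V), Nat.mod_lt _ hW0, ?_, ?_, ?_, ?_⟩
  · have h1 : V ∣ (∏ i, D i) ^ 2 * V := Dvd.intro_left _ rfl
    exact (hm.of_dvd h1).trans (hk1.of_dvd (Dvd.intro _ rfl))
  · intro i hi
    have h0 : D i ∣ ∏ i ∈ S, D i := Finset.dvd_prod_of_mem D hi
    have h1 := hmS.of_dvd (h0.trans (dvd_pow_self _ two_ne_zero))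
    exact (Nat.modEq_zero_iff_dvd).1 (h1.trans ((Nat.modEq_zero_iff_dvd).2 h0))
  · intro i hi p hp hpi hpr
    have h0 : D i ∣ ∏ i ∈ S, D i := Finset.dvd_prod_of_mem D hi
    have h1 : p ^ 2 ∣ (∏ i ∈ S, D i) ^ 2 := pow_dvd_pow_of_dvd (hpi.trans h0) 2
    have h2 := ((hmS.of_dvd h1).symm.trans ((Nat.modEq_zero_iff_dvd).2 hpr))
    have h3 : p ^ 2 ∣ ∏ i ∈ S, D i := (Nat.modEq_zero_iff_dvd).1 h2
    rw [sq] at h3
    exact hp.not_isUnit (Typ_prod_sqf hs hc S p h3)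
  · intro i hi
    have h0 : D i ∣ V * (∏ i ∈ Sᶜ, D i) ^ 2 :=
      ((Finset.dvd_prod_of_mem D (Finset.mem_compl.2 hi)).trans (dvd_pow_self _ two_ne_zero)).trans
        (Dvd.intro_left _ rfl)
    have h1 : D i ∣ (∏ i, D i) ^ 2 * V := by
      rw [hW]
      exact h0.trans (Dvd.intro _ rfl)
    exact (hm.of_dvd h1).trans (hk1.of_dvd h0)

end

/-- two residues which are different modulo `p` -/
private theorem Typ_ne {p x y a b : ℕ} (hx : x ≡ a [MOD p]) (hy : y ≡ b [MOD p]) (h : x ≡ y [MOD p])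
    (hab : a < b) (hb : b < a + p) : False := by
  have h1 : a ≡ b [MOD p] := hx.symm.trans (h.trans hy)
  have h2 : p ∣ b - a := (Nat.modEq_iff_dvd' hab.le).1 h1
  have h3 := Nat.le_of_dvd (by omega) h2
  omega

theorem exists_types {m : ℕ} [NeZero m] (hm : Odd m) {h : ℕ → ZMod m} (hh : Add h) (Q : ℕ) (hQ : 0 < Q)
    (γ : ZMod m) (hγ : IsUnit γ) (P₀ : ℕ) (hP : ∀ p : ℕ, p.Prime → P₀ ≤ p → p % Q = 1 % Q → h p = γ)
    (c : ZMod m) (w : ℕ) :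
    ∃ (W : ℕ) (ρ : ZMod m → ℕ) (ρ' : (ZMod m → ZMod m) → ℕ) (D W₁ n : ZMod m → (ZMod m → ZMod m) → ℕ),
      0 < W ∧ (∀ a, ρ a < W) ∧ (∀ e, W ≤ ρ' e ∧ ρ' e < 2 * W) ∧
      ∀ a e, W = D a e * W₁ a e ∧ (∀ p : ℕ, p.Prime → p ≤ w → p ∣ W₁ a e) ∧ Spl (D a e) ∧
        D a e ∣ ρ a ∧ ρ' e = ρ a + D a e * n a e ∧ Nat.Coprime (n a e) (W₁ a e) ∧
        5 * Q ∣ W₁ a e ∧ n a e % (5 * Q) = 1 ∧ c + 2 * (h (D a e) + γ) = e a := by
  have hQ5 : 0 < 5 * Q := by omega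
  obtain ⟨u, hu⟩ := hγ
  have h2 : IsUnit ((2 : ℕ) : ZMod m) := by
    rw [ZMod.isUnit_iff_coprime]
    exact Nat.coprime_two_left.2 hm
  obtain ⟨t, ht⟩ := h2
  have ht' : (2 : ZMod m) * ((t⁻¹ : (ZMod m)ˣ) : ZMod m) = 1 := by
    have h3 := t.mul_inv
    rw [ht] at h3
    simpa using h3
  have hu' : ((u⁻¹ : (ZMod m)ˣ) : ZMod m) * γ = 1 := by
    rw [← hu]
    exact u.inv_mul
  set κ : ZMod m × (ZMod m → ZMod m) → ℕ := fun i =>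
    (((i.2 i.1 - c) * ((t⁻¹ : (ZMod m)ˣ) : ZMod m) - γ) * ((u⁻¹ : (ZMod m)ˣ) : ZMod m)).val with hκ
  have hκv : ∀ a e, c + 2 * ((κ (a, e) : ZMod m) * γ + γ) = e a := by
    intro a e
    rw [hκ]
    simp only [ZMod.natCast_zmod_val]
    linear_combination (2 * ((e a - c) * ((t⁻¹ : (ZMod m)ˣ) : ZMod m) - γ)) * hu' + (e a - c) * ht'
  obtain ⟨D, hs, hcop, hpr, hcard⟩ := exists_fam (ZMod m × (ZMod m → ZMod m)) κ (5 * Q) hQ5
    (max P₀ (max w (5 * Q)))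
  have hbig : ∀ i, ∀ p : ℕ, p.Prime → p ∣ D i → P₀ < p ∧ w < p ∧ 5 * Q < p := by
    intro i p hp hpi
    have h3 := (hpr i p hp hpi).1
    simp only [max_lt_iff] at h3
    exact ⟨h3.1, h3.2.1, h3.2.2⟩
  have hmod : ∀ i, ∀ p : ℕ, p.Prime → p ∣ D i → p ≡ 1 [MOD 5 * Q] := fun i p hp hpi =>
    (hpr i p hp hpi).2
  have hγp : ∀ i, ∀ p : ℕ, p.Prime → p ∣ D i → h p = γ := fun i p hp hpi =>
    hP p hp (hbig i p hp hpi).1.le ((hmod i p hp hpi).of_dvd (Dvd.intro_left _ rfl))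
  have hspl : ∀ i, Spl (D i) := fun i => ⟨Nat.pos_of_ne_zero (hs i).ne_zero, fun p hp hpi =>
    Or.inl ((hmod i p hp hpi).of_dvd (Dvd.intro _ rfl))⟩
  have hD1 : ∀ i, D i ≡ 1 [MOD 5 * Q] := fun i =>
    mod_one (D i) (5 * Q) (hs i) (fun p hp hpi => hmod i p hp hpi)
  have hhD : ∀ i, h (D i) = (κ i : ZMod m) * γ := by
    intro i
    rw [h_squarefree hh γ (D i) (hs i) (hγp i), hcard]
  set V : ℕ := 5 * Q * w.factorial with hVdef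
  have hV : 0 < V := Nat.mul_pos hQ5 (Nat.factorial_pos w)
  have hVp : ∀ p : ℕ, p.Prime → p ∣ V → p ≤ w ∨ p ≤ 5 * Q := by
    intro p hp hpV
    rcases (hp.dvd_mul).1 hpV with h3 | h3
    · exact Or.inr (Nat.le_of_dvd hQ5 h3)
    · exact Or.inl ((hp.dvd_factorial).1 h3)
  have hVc : ∀ i, Nat.Coprime V (D i) := by
    intro i
    by_contra hcon
    obtain ⟨p, hp, hpV, hpi⟩ := Nat.Prime.not_coprime_iff_dvd.1 hcon
    have h3 := hbig i p hp hpi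
    rcases hVp p hp hpV with h4 | h4 <;> omega
  set W : ℕ := (∏ i, D i) ^ 2 * V with hWdef
  have hW0 : 0 < W :=
    Nat.mul_pos (pow_pos (Finset.prod_pos fun i _ => Nat.pos_of_ne_zero (hs i).ne_zero) 2) hV
  have hDK : ∀ i, D i ∣ ∏ i, D i := fun i => Finset.dvd_prod_of_mem D (Finset.mem_univ i)
  have hDW : ∀ i, D i ^ 2 ∣ W := fun i => (pow_dvd_pow_of_dvd (hDK i) 2).trans (Dvd.intro _ rfl)
  have hDW1 : ∀ i, D i ∣ W := fun i => (dvd_pow_self _ two_ne_zero).trans (hDW i)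
  have hVW : V ∣ W := Dvd.intro_left _ rfl
  have hrho : ∀ a : ZMod m, ∃ r : ℕ, r < W ∧ V ∣ r ∧ (∀ e, D (a, e) ^ 2 ∣ r) ∧
      ∀ a' e, a' ≠ a → r ≡ 2 [MOD D (a', e)] := by
    intro a
    obtain ⟨r, r1, r2, r3, r4⟩ := Typ_rho hs hcop hV hVc
      ((Finset.univ : Finset (ZMod m × (ZMod m → ZMod m))).filter (fun i => i.1 = a))
    refine ⟨r, r1, r2, fun e => r3 (a, e) ?_, fun a' e h3 => r4 (a', e) ?_⟩
    · simp
    · simpa using h3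
  have hrho' : ∀ e : ZMod m → ZMod m, ∃ r : ℕ, r < W ∧ r ≡ 1 [MOD V] ∧ (∀ a, D (a, e) ∣ r) ∧
      (∀ a, ∀ p : ℕ, p.Prime → p ∣ D (a, e) → ¬ p ^ 2 ∣ r) ∧
      ∀ a e', e' ≠ e → r ≡ 1 [MOD D (a, e')] := by
    intro e
    obtain ⟨r, r1, r2, r3, r4, r5⟩ := Typ_rho' hs hcop hV hVc
      ((Finset.univ : Finset (ZMod m × (ZMod m → ZMod m))).filter (fun i => i.2 = e))
    refine ⟨r, r1, r2, fun a => r3 (a, e) ?_, fun a => r4 (a, e) ?_, fun a e' h3 => r5 (a, e') ?_⟩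
    · simp
    · simp
    · simpa using h3
  choose ρ ρ1 ρ2 ρ3 ρ4 using hrho
  choose ρ'' σ1 σ2 σ3 σ4 σ5 using hrho'
  refine ⟨W, ρ, fun e => W + ρ'' e, fun a e => D (a, e), fun a e => W / D (a, e),
    fun a e => (W + ρ'' e - ρ a) / D (a, e), hW0, ρ1, fun e => ⟨?_, ?_⟩, fun a e => ?_⟩
  · exact Nat.le_add_right _ _
  · have := σ1 e
    show W + ρ'' e < 2 * W
    omega
  have hDρ : D (a, e) ∣ ρ a := (dvd_pow_self _ two_ne_zero).trans (ρ3 a e)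
  have hle : ρ a ≤ W + ρ'' e := by
    have := ρ1 a
    omega
  have hDd : D (a, e) ∣ W + ρ'' e - ρ a :=
    Nat.dvd_sub ((hDW1 (a, e)).add (σ3 e a)) hDρ
  obtain ⟨n, hn⟩ := hDd
  have hD0 : 0 < D (a, e) := (hspl (a, e)).1
  have hnn : (W + ρ'' e - ρ a) / D (a, e) = n := by
    rw [hn, Nat.mul_div_cancel_left n hD0]
  have heq : W + ρ'' e = ρ a + D (a, e) * n := by omega
  have hVW1 : V ∣ W / D (a, e) := by
    rw [Nat.dvd_div_iff_mul_dvd (hDW1 (a, e))]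
    exact Nat.mul_dvd_mul ((hDK (a, e)).trans (dvd_pow_self _ two_ne_zero)) dvd_rfl
  have h5V : 5 * Q ∣ V := Dvd.intro _ rfl
  refine ⟨(Nat.mul_div_cancel' (hDW1 (a, e))).symm, ?_, hspl (a, e), hDρ, ?_, ?_, h5V.trans hVW1,
    ?_, ?_⟩
  · intro p hp hpw
    exact (((hp.dvd_factorial).2 hpw).trans (Dvd.intro_left _ rfl)).trans hVW1
  · show W + ρ'' e = ρ a + D (a, e) * ((W + ρ'' e - ρ a) / D (a, e))
    rw [hnn]
    exact heq
  · show Nat.Coprime ((W + ρ'' e - ρ a) / D (a, e)) (W / D (a, e))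
    rw [hnn]
    by_contra hcon
    obtain ⟨p, hp, hpn, hpW1⟩ := Nat.Prime.not_coprime_iff_dvd.1 hcon
    have hpW : p ∣ W := hpW1.trans (Nat.div_dvd_of_dvd (hDW1 (a, e)))
    have hcong : ρ a ≡ ρ'' e [MOD p] := by
      have h3 : ρ a + D (a, e) * n ≡ ρ a + 0 [MOD p] :=
        Nat.ModEq.add_left _ ((Nat.modEq_zero_iff_dvd).2 (hpn.mul_left _))
      have h4 : W + ρ'' e ≡ 0 + ρ'' e [MOD p] :=
        Nat.ModEq.add_right _ ((Nat.modEq_zero_iff_dvd).2 hpW)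
      rw [← heq, add_zero] at h3
      rw [zero_add] at h4
      exact h3.symm.trans h4
    have h1p : 1 < p := hp.one_lt
    rcases (hp.dvd_mul).1 hpW with hpK | hpV
    · obtain ⟨i, -, hpi⟩ := (hp.prime.dvd_finsetProd_iff D).1 (hp.dvd_of_dvd_pow hpK)
      obtain ⟨a', e'⟩ := i
      have h5p : 5 < p := by
        have := (hbig _ p hp hpi).2.2
        omega
      by_cases ha : a' = a
      · subst ha
        have hρ0 : p ∣ D (a', e') ^ 2 := hpi.trans (dvd_pow_self _ two_ne_zero)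
        have h0 : ρ a' ≡ 0 [MOD p] := (Nat.modEq_zero_iff_dvd).2 (hρ0.trans (ρ3 a' e'))
        by_cases he : e' = e
        · subst he
          apply σ4 e' a' p hp hpi
          have h3 : p ^ 2 ∣ D (a', e') * n := by
            rw [sq]
            exact Nat.mul_dvd_mul hpi hpn
          have h4 : p ^ 2 ∣ D (a', e') ^ 2 := pow_dvd_pow_of_dvd hpi 2
          have h6 : p ^ 2 ∣ W + ρ'' e' := by
            rw [heq]
            exact (h4.trans (ρ3 a' e')).add h3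
          exact (Nat.dvd_add_right (h4.trans (hDW _))).1 h6
        · have h1 := (σ5 e a' e' he).of_dvd hpi
          exact Typ_ne h0 h1 hcong (by norm_num) (by omega)
      · have h2' := (ρ4 a a' e' ha).of_dvd hpi
        by_cases he : e' = e
        · subst he
          have h0 : ρ'' e' ≡ 0 [MOD p] := (Nat.modEq_zero_iff_dvd).2 (hpi.trans (σ3 e' a'))
          exact Typ_ne h0 h2' hcong.symm (by norm_num) (by omega)
        · have h1 := (σ5 e a' e' he).of_dvd hpi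
          exact Typ_ne h1 h2' hcong.symm (by norm_num) (by omega)
    · have h0 : ρ a ≡ 0 [MOD p] := (Nat.modEq_zero_iff_dvd).2 (hpV.trans (ρ2 a))
      have h1 := (σ2 e).of_dvd hpV
      exact Typ_ne h0 h1 hcong (by norm_num) (by omega)
  · show (W + ρ'' e - ρ a) / D (a, e) % (5 * Q) = 1
    rw [hnn]
    have h3 : D (a, e) * n ≡ 1 * n [MOD 5 * Q] := (hD1 (a, e)).mul_right n
    have h4 : ρ a ≡ 0 [MOD 5 * Q] := (Nat.modEq_zero_iff_dvd).2 (h5V.trans (ρ2 a))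
    have h5 : W ≡ 0 [MOD 5 * Q] := (Nat.modEq_zero_iff_dvd).2 (h5V.trans hVW)
    have h6 : ρ'' e ≡ 1 [MOD 5 * Q] := (σ2 e).of_dvd h5V
    have h7 : W + ρ'' e ≡ 0 + 1 [MOD 5 * Q] := h5.add h6
    have h8 : ρ a + D (a, e) * n ≡ 0 + 1 * n [MOD 5 * Q] := h4.add h3
    rw [← heq] at h8
    have h9 : 1 * n ≡ 1 [MOD 5 * Q] := by
      have := h8.symm.trans h7
      simpa using this
    rw [one_mul] at h9
    have h10 : n % (5 * Q) = 1 % (5 * Q) := h9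
    rw [h10]
    exact Nat.mod_eq_of_lt (by omega)
  · rw [hhD]
    exact hκv a e

end Pool.Agent.Lib.MP_d57abb_nt.All
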