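import Mathlib
import Pool.Agent.Lib.MP_d57abb_nt.All.Typ
import Pool.Agent.Lib.MP_d57abb_nt.All.Pair

/-!
# JOB Win: the window theorem

PROOF.  `w` from `fu (1 / (2 m))`; types from `exists_types` with this `w` (and `P₀` from `hP`); `ℓ₀` the maximum over all `(a, e)` (a finite type) of the `ℓ₀` of `pairs m W (W₁ a e) (n a e)` and of `W`, `P₀`, `2` (`Finset.exists_le` or
`Finset.sup univ`); `c₁ = 1 / (20 W m²)`.  Let `ℓ ≥ ℓ₀` and `x`.
For `a : ZMod m` the map `j ↦ x (W j + ρ a)` on `range ℓ` takes some value `α a` at least `ℓ / m` times (`ZMod m` has `m` elements; `Finset.exists_le_card_fiber_of_mul_le_card_of_maps_to` or sum over fibres), `A = {j < ℓ : x (W j + ρ a) = α a}`.  Put `e = fun a => α a + a`.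
The map `j' ↦ x (W j' + ρ' e)` on `Ico (3 ℓ) (4 ℓ)` takes some value `β` at least `ℓ / m` times, `B = {j' : ... = β}`.  Put `a = β`: `α a + β = α a + a = e a`.  Use `D = D a e`, `ρ = ρ a`, `R p = {j ∈ A : ∃ j' ∈ B, W₁ (j' - j) + n = p}` if `p` is prime and
`ℓ < p ≤ 5 W ℓ`, and `∅` otherwise.  For `j ∈ R p` with `j'`: `D p = D W₁ (j' - j) + D n = W (j' - j) + ρ' e - ρ a`, so `W j + ρ + D p = W j' + ρ' e < 4 W ℓ - W + 2 W ≤ 5 W ℓ` (`j' ≤ 4 ℓ - 1`, `ℓ ≥ 1`), and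
`x (W j + ρ) + x (W j + ρ + D p) = α a + β = e a = c + 2 (h D + γ) = c + 2 h (D p)`, because `p ≡ n ≡ 1 (mod 5 Q)` (`5 Q ∣ W₁`; so `p % 5 = 1` and `p % Q = 1 % Q`) and `p > ℓ ≥ P₀`, so `h p = γ`.
The sum is bounded below by `pairs`.
-/

open Finset Filter

namespace Pool.Agent.Lib.MP_d57abb_nt.All

private theorem Win_pig {m : ℕ} [NeZero m] (s : Finset ℕ) (f : ℕ → ZMod m) (ℓ : ℕ)
    (hs : s.card = ℓ) : ∃ α : ZMod m, (ℓ : ℝ) / m ≤ ((s.filter (fun j => f j = α)).card : ℝ) := by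
  have hm0 : (0 : ℝ) < m := by exact_mod_cast Nat.pos_of_ne_zero (NeZero.ne m)
  obtain ⟨y, _, hy⟩ := Finset.exists_le_card_fiber_of_nsmul_le_card_of_maps_to
    (s := s) (t := (Finset.univ : Finset (ZMod m))) (f := f) (b := (ℓ : ℝ) / m)
    (fun _ _ => Finset.mem_univ _) Finset.univ_nonempty (by
      rw [Finset.card_univ, ZMod.card, nsmul_eq_mul, hs, mul_div_cancel₀ _ hm0.ne'])
  exact ⟨y, hy⟩

theorem window {m : ℕ} [NeZero m] (hm : Odd m) {h : ℕ → ZMod m} (hh : Add h) (Q : ℕ) (hQ : 0 < Q)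
    (γ : ZMod m) (hγ : IsUnit γ) (P₀ : ℕ) (hP : ∀ p : ℕ, p.Prime → P₀ ≤ p → p % Q = 1 % Q → h p = γ)
    (c : ZMod m) :
    ∃ (W : ℕ) (c₁ : ℝ) (ℓ₀ : ℕ), 0 < W ∧ 0 < c₁ ∧ 2 ≤ ℓ₀ ∧ W ≤ ℓ₀ ∧ ∀ ℓ : ℕ, ℓ₀ ≤ ℓ → ∀ x : ℕ → ZMod m,
      ∃ (D ρ : ℕ) (R : ℕ → Finset ℕ), D ∣ W ∧ D ∣ ρ ∧ Spl D ∧ (∀ p, R p ⊆ range ℓ) ∧
        (∀ p, ∀ j ∈ R p, p.Prime ∧ p % 5 = 1 ∧ ℓ < p ∧ p ≤ 5 * W * ℓ ∧
          W * j + ρ + D * p < 5 * W * ℓ ∧ x (W * j + ρ) + x (W * j + ρ + D * p) = c + 2 * h (D * p)) ∧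
        c₁ * ℓ / Real.log ℓ ≤ ∑ p ∈ (Ioc ℓ (5 * W * ℓ)).filter Nat.Prime, ((R p).card : ℝ) / p := by
  classical
  have hm0 : 0 < m := Nat.pos_of_ne_zero (NeZero.ne m)
  have hm0' : (0 : ℝ) < m := by exact_mod_cast hm0
  obtain ⟨w, hw0, hw⟩ := fu (1 / (2 * m)) (by positivity)
  obtain ⟨W, ρ, ρ', D, W₁, n, hW, hρ, hρ', hty⟩ := exists_types hm hh Q hQ γ hγ P₀ hP c w
  have hL : ∀ a e, ∃ ℓ₀ : ℕ, ∀ ℓ : ℕ, ℓ₀ ≤ ℓ → ∀ A B : Finset ℕ, A ⊆ range ℓ →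
      B ⊆ Ico (3 * ℓ) (4 * ℓ) → (ℓ : ℝ) / m ≤ A.card → (ℓ : ℝ) / m ≤ B.card →
      1 / (20 * W * (m : ℝ) ^ 2) * ℓ / Real.log ℓ ≤ ∑ p ∈ (Ioc ℓ (5 * W * ℓ)).filter Nat.Prime,
        ((A.filter (fun j => ∃ j' ∈ B, W₁ a e * (j' - j) + n a e = p)).card : ℝ) / p := by
    intro a e
    obtain ⟨h1, h2, h3, h4, h5, h6, h7, h8, h9⟩ := hty a e
    have hpos : 0 < W₁ a e := by
      rcases Nat.eq_zero_or_pos (W₁ a e) with h0 | h0
      · rw [h0, mul_zero] at h1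
        omega
      · exact h0
    have hle : W₁ a e ≤ W := Nat.le_of_dvd hW ⟨D a e, by rw [mul_comm]; exact h1⟩
    exact pairs m W (W₁ a e) (n a e) hm0 hpos hle (hw (W₁ a e) (n a e) hpos h2 h6)
  choose L hL using hL
  refine ⟨W, 1 / (20 * W * (m : ℝ) ^ 2),
    max (max (Finset.univ.sup fun q : ZMod m × (ZMod m → ZMod m) => L q.1 q.2) W) (max P₀ 2),
    hW, ?_, ?_, ?_, ?_⟩
  · have hW' : (0 : ℝ) < W := by exact_mod_cast hW
    positivity
  · exact (le_max_right _ _).trans (le_max_right _ _)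
  · exact (le_max_right _ _).trans (le_max_left _ _)
  intro ℓ hℓ x
  have hℓ1 : (Finset.univ.sup fun q : ZMod m × (ZMod m → ZMod m) => L q.1 q.2) ≤ ℓ :=
    ((le_max_left _ _).trans (le_max_left _ _)).trans hℓ
  have hℓP : P₀ ≤ ℓ := ((le_max_left _ _).trans (le_max_right _ _)).trans hℓ
  have hℓ2 : 2 ≤ ℓ := ((le_max_right _ _).trans (le_max_right _ _)).trans hℓ
  have hα : ∀ a : ZMod m, ∃ α : ZMod m, (ℓ : ℝ) / m ≤
      (((range ℓ).filter (fun j => x (W * j + ρ a) = α)).card : ℝ) := fun a =>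
    Win_pig (range ℓ) (fun j => x (W * j + ρ a)) ℓ (card_range ℓ)
  choose α hα using hα
  obtain ⟨β, hβ⟩ := Win_pig (Ico (3 * ℓ) (4 * ℓ)) (fun j => x (W * j + ρ' fun a => α a + a)) ℓ
    (by rw [Nat.card_Ico]; omega)
  set e : ZMod m → ZMod m := fun a => α a + a with he
  obtain ⟨h1, h2, h3, h4, h5, h6, h7, h8, h9⟩ := hty β e
  set A := (range ℓ).filter (fun j => x (W * j + ρ β) = α β) with hA
  set B := (Ico (3 * ℓ) (4 * ℓ)).filter (fun j => x (W * j + ρ' e) = β) with hB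
  refine ⟨D β e, ρ β, fun p => if p.Prime ∧ ℓ < p ∧ p ≤ 5 * W * ℓ then
    A.filter (fun j => ∃ j' ∈ B, W₁ β e * (j' - j) + n β e = p) else ∅, ⟨W₁ β e, h1⟩, h4, h3,
    ?_, ?_, ?_⟩
  · intro p
    dsimp only
    split_ifs
    · exact (filter_subset _ _).trans (filter_subset _ _)
    · exact Finset.empty_subset _
  · intro p j hj
    dsimp only at hj
    split_ifs at hj with hc
    · obtain ⟨hp, hp1, hp2⟩ := hc
      rw [mem_filter, hA, mem_filter, mem_range] at hj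
      obtain ⟨⟨hj1, hj2⟩, j', hj', hpe⟩ := hj
      rw [hB, mem_filter, mem_Ico] at hj'
      obtain ⟨⟨hj3, hj4⟩, hj5⟩ := hj'
      have hQ5 : 5 * Q ∣ W₁ β e * (j' - j) := h7.mul_right _
      obtain ⟨q, hq⟩ := hQ5
      have hpQ : p % (5 * Q) = 1 := by
        rw [← hpe, hq, Nat.mul_add_mod, h8]
      have hp5 : p % 5 = 1 := by
        have h10 : p % (5 * Q) % 5 = p % 5 := Nat.mod_mod_of_dvd p ⟨Q, rfl⟩
        rw [hpQ] at h10
        omega
      have hpQ' : p % Q = 1 % Q := by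
        have h10 : p % (5 * Q) % Q = p % Q := Nat.mod_mod_of_dvd p ⟨5, mul_comm _ _⟩
        rw [hpQ] at h10
        exact h10.symm
      have hsum : W * j + ρ β + D β e * p = W * j' + ρ' e := by
        have e1 : D β e * p = W * (j' - j) + D β e * n β e := by
          rw [← hpe, mul_add, ← mul_assoc, ← h1]
        have e2 : W * j + W * (j' - j) = W * j' := by
          rw [← mul_add]
          congr 1
          omega
        rw [e1, h5]
        omega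
      refine ⟨hp, hp5, hp1, hp2, ?_, ?_⟩
      · rw [hsum]
        have h11 := (hρ' e).2
        have h12 : W * j' ≤ W * (4 * ℓ - 1) := Nat.mul_le_mul_left _ (by omega)
        have h13 : W * (4 * ℓ - 1) + W = 4 * (W * ℓ) := by
          have : W * (4 * ℓ - 1) + W * 1 = W * (4 * ℓ - 1 + 1) := (mul_add _ _ _).symm
          rw [mul_one] at this
          rw [this, Nat.sub_add_cancel (by omega)]
          ring
        have h14 : 5 * W * ℓ = 5 * (W * ℓ) := by ring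
        have h15 : W * 2 ≤ W * ℓ := Nat.mul_le_mul_left _ hℓ2
        rw [h14]
        omega
      · rw [hsum, hj2, hj5]
        have hhp : h p = γ := hP p hp (hℓP.trans hp1.le) hpQ'
        rw [hh (D β e) p h3.1 hp.pos, hhp, h9]
    · simp at hj
  · have h10 := hL β e ℓ ((Finset.le_sup (f := fun q : ZMod m × (ZMod m → ZMod m) => L q.1 q.2)
      (Finset.mem_univ (β, e))).trans hℓ1) A B (filter_subset _ _) (filter_subset _ _) (hα β) hβ
    refine h10.trans (le_of_eq (Finset.sum_congr rfl fun p hp => ?_))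
    rw [mem_filter, mem_Ioc] at hp
    dsimp only
    rw [if_pos ⟨hp.2, hp.1.1, hp.1.2⟩]

end Pool.Agent.Lib.MP_d57abb_nt.All
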