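import Mathlib
import Pool.Agent.Lib.MP_d57abb_nt.All.Win
import Pool.Agent.Lib.MP_d57abb_nt.All.Decr

/-!
# JOB PB: the Ramsey property

PROOF.  `W, c₁, ℓ₀` from `window`.  `K = Fin W → ZMod m`, `W' = 5 W`.  For `x : ℕ → K` and `ℓ` let `x' : ℕ → ZMod m`, `x' i = if i < 5 W ℓ then x (i / W) ⟨i % W, _⟩ else 0`; choose `D, ρ, R` for `ℓ ≥ ℓ₀` and `x'` by `window` (`choose`).
`F ℓ x p = {r < p : ∃ j ∈ R p, p ∣ W (r + j) + ρ}` if `ℓ₀ ≤ ℓ` and `∅` otherwise.  `Forb (5 W) c₁ ℓ₀ F`: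
* `dep`: if `x i = y i` for `i < 5 ℓ` then `x' = y'` (`i < 5 W ℓ → i / W < 5 ℓ`), so `F ℓ x = F ℓ y`.
* `sum`: it suffices that `|R p| ≤ |F ℓ x p|` for every prime `p > ℓ ≥ ℓ₀ ≥ W`: `p ∤ W`, so for every `j` there is exactly one `r < p` with `p ∣ W (r + j) + ρ` (existence: `W` is a unit mod `p`), and it determines `j` modulo `p`
  (`p ∣ W (j - j')`), `j < ℓ < p`; so `j ↦ r` is injective on `R p` with values in `F ℓ x p` (`Finset.card_le_card_of_injOn`).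
`decr` gives `N₁`; `X = 6 W N₁` (or larger).  Given `b : ℕ → ZMod m` let `β n = fun i : Fin W => b (W n + i)`; `n, ℓ, p` from `decr`, `n < N₁`, `ℓ ≤ N₁`.  For `x = fun i => β (n + i)`: `x' i = b (W n + i)` for `i < 5 W ℓ` (`W (n + i / W) + i % W = W n + i`).
`n % p ∈ F ℓ x p` gives `j ∈ R p` with `p ∣ W (n % p + j) + ρ`, so `p ∣ t := W (n + j) + ρ` (`n % p ≡ n`).  `d = D p`: `D ∣ W`, `D ∣ ρ` so `D ∣ t`; `D` is prime to `p` (`D ∣ W`, `p ∤ W`), so `d ∣ t`.  `Spl d` (primes dividing `D p` divide `D` or equal `p`, `p % 5 = 1`).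
`b t + b (t + d) = x' (W j + ρ) + x' (W j + ρ + D p) = c + 2 h (D p)` (both arguments are `< 5 W ℓ`), and `t + d ≤ W n + 5 W ℓ ≤ 6 W N₁`.
-/

open Finset

namespace Pool.Agent.Lib.MP_d57abb_nt.All

/-- the word of length `5 W ℓ` of a sequence of blocks -/
private def PB_x {m : ℕ} (W : ℕ) (hW : 0 < W) (ℓ : ℕ) (x : ℕ → Fin W → ZMod m) : ℕ → ZMod m :=
  fun i => if i < 5 * W * ℓ then x (i / W) ⟨i % W, Nat.mod_lt _ hW⟩ else 0

private theorem PB_x_congr {m : ℕ} (W : ℕ) (hW : 0 < W) (ℓ : ℕ) (x y : ℕ → Fin W → ZMod m)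
    (h : ∀ i < 5 * ℓ, x i = y i) : PB_x W hW ℓ x = PB_x W hW ℓ y := by
  funext i
  unfold PB_x
  by_cases hi : i < 5 * W * ℓ
  · rw [if_pos hi, if_pos hi, h (i / W)]
    refine Nat.div_lt_of_lt_mul ?_
    calc i < 5 * W * ℓ := hi
      _ = W * (5 * ℓ) := by ring
  · rw [if_neg hi, if_neg hi]

private theorem PB_card {p W ρ ℓ : ℕ} (hp : p.Prime) (hW : ¬ p ∣ W) (hℓ : ℓ < p) {R : Finset ℕ}
    (hR : R ⊆ range ℓ) :
    R.card ≤ ((range p).filter (fun r => ∃ j ∈ R, p ∣ W * (r + j) + ρ)).card := by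
  have : Fact p.Prime := ⟨hp⟩
  have hW0 : (W : ZMod p) ≠ 0 := by
    intro h0
    exact hW ((ZMod.natCast_eq_zero_iff W p).1 h0)
  refine card_le_card_of_injOn (fun j => (-(ρ : ZMod p) * (W : ZMod p)⁻¹ - (j : ZMod p)).val) ?_ ?_
  · intro j hj
    rw [mem_coe] at hj
    rw [mem_coe, mem_filter, mem_range]
    refine ⟨ZMod.val_lt _, j, hj, ?_⟩
    rw [← ZMod.natCast_eq_zero_iff]
    push_cast
    rw [ZMod.natCast_val, ZMod.cast_id]
    field_simp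
    ring
  · intro j hj j' hj' he
    have hj1 := mem_range.1 (hR hj)
    have hj2 := mem_range.1 (hR hj')
    have h1 := ZMod.val_injective p he
    have h2 : (j : ZMod p) = (j' : ZMod p) := by linear_combination -h1
    rw [ZMod.natCast_eq_natCast_iff'] at h2
    rwa [Nat.mod_eq_of_lt (hj1.trans hℓ), Nat.mod_eq_of_lt (hj2.trans hℓ)] at h2


theorem propB {m : ℕ} [NeZero m] (hm : Odd m) {h : ℕ → ZMod m} (hh : Add h) (Q : ℕ) (hQ : 0 < Q)
    (γ : ZMod m) (hγ : IsUnit γ) (P₀ : ℕ) (hP : ∀ p : ℕ, p.Prime → P₀ ≤ p → p % Q = 1 % Q → h p = γ)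
    (c : ZMod m) : PropB h c := by
  classical
  obtain ⟨W, c₁, ℓ₀, hW, hc₁, hℓ2, hWℓ, hw⟩ := window hm hh Q hQ γ hγ P₀ hP c
  choose D ρ R hD1 hD2 hD3 hR1 hR2 hR3 using hw
  let F : ℕ → (ℕ → Fin W → ZMod m) → ℕ → Finset ℕ := fun ℓ x p =>
    if hℓ : ℓ₀ ≤ ℓ then
      (range p).filter (fun r => ∃ j ∈ R ℓ hℓ (PB_x W hW ℓ x) p, p ∣ W * (r + j) + ρ ℓ hℓ (PB_x W hW ℓ x))
    else ∅
  have hF : Forb (5 * W) c₁ ℓ₀ F := by
    refine ⟨by omega, hc₁, hℓ2, ?_, ?_, ?_⟩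
    · intro ℓ hℓ x y hxy
      have h1 := PB_x_congr W hW ℓ x y hxy
      show (fun p => if hℓ : ℓ₀ ≤ ℓ then
        (range p).filter (fun r => ∃ j ∈ R ℓ hℓ (PB_x W hW ℓ x) p, p ∣ W * (r + j) + ρ ℓ hℓ (PB_x W hW ℓ x))
        else ∅) = _
      rw [h1]
    · intro ℓ x p
      show (if hℓ : ℓ₀ ≤ ℓ then
        (range p).filter (fun r => ∃ j ∈ R ℓ hℓ (PB_x W hW ℓ x) p, p ∣ W * (r + j) + ρ ℓ hℓ (PB_x W hW ℓ x))
        else ∅) ⊆ range p
      by_cases hℓ : ℓ₀ ≤ ℓ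
      · rw [dif_pos hℓ]
        exact filter_subset _ _
      · rw [dif_neg hℓ]
        exact empty_subset _
    · intro ℓ hℓ x
      refine (hR3 ℓ hℓ (PB_x W hW ℓ x)).trans ?_
      refine sum_le_sum fun p hp => ?_
      rw [mem_filter, mem_Ioc] at hp
      have hpW : ¬ p ∣ W := by
        intro h1
        have h2 := Nat.le_of_dvd hW h1
        omega
      have h1 : (R ℓ hℓ (PB_x W hW ℓ x) p).card ≤ (F ℓ x p).card := by
        have h2 := PB_card (ρ := ρ ℓ hℓ (PB_x W hW ℓ x)) hp.2 hpW hp.1.1 (hR1 ℓ hℓ (PB_x W hW ℓ x) p)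
        have h3 : F ℓ x p = (range p).filter
            (fun r => ∃ j ∈ R ℓ hℓ (PB_x W hW ℓ x) p, p ∣ W * (r + j) + ρ ℓ hℓ (PB_x W hW ℓ x)) :=
          dif_pos hℓ
        rw [h3]
        exact h2
      have hp0 : (0 : ℝ) ≤ p := Nat.cast_nonneg p
      exact div_le_div_of_nonneg_right (by exact_mod_cast h1) hp0
  obtain ⟨N₁, hN₁⟩ := decr hF
  refine ⟨6 * W * N₁, fun b => ?_⟩
  obtain ⟨n, ℓ, p, hn, hℓ0, hℓN, hpS, hmem⟩ := hN₁ (fun n (i : Fin W) => b (W * n + i))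
  have h3 : F ℓ (fun i => (fun n (i : Fin W) => b (W * n + i)) (n + i)) p = (range p).filter
      (fun r => ∃ j ∈ R ℓ hℓ0 (PB_x W hW ℓ (fun i => (fun n (i : Fin W) => b (W * n + i)) (n + i))) p,
        p ∣ W * (r + j) + ρ ℓ hℓ0 (PB_x W hW ℓ (fun i => (fun n (i : Fin W) => b (W * n + i)) (n + i)))) :=
    dif_pos hℓ0
  rw [h3, mem_filter] at hmem
  obtain ⟨-, j, hj, hdvd⟩ := hmem
  have hx : ∀ i < 5 * W * ℓ,
      PB_x W hW ℓ (fun i => (fun n (i : Fin W) => b (W * n + i)) (n + i)) i = b (W * n + i) := by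
    intro i hi
    unfold PB_x
    rw [if_pos hi]
    show b (W * (n + i / W) + i % W) = b (W * n + i)
    congr 1
    have := Nat.div_add_mod i W
    rw [Nat.mul_add]
    omega
  generalize hyx : PB_x W hW ℓ (fun i => (fun n (i : Fin W) => b (W * n + i)) (n + i)) = y at *
  obtain ⟨hp, hp5, hℓp, hp5W, hlt, hsum⟩ := hR2 ℓ hℓ0 y p j hj
  have hd1 := hD1 ℓ hℓ0 y
  have hd2 := hD2 ℓ hℓ0 y
  have hd3 := hD3 ℓ hℓ0 y
  generalize D ℓ hℓ0 y = D' at *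
  generalize ρ ℓ hℓ0 y = ρ' at *
  have hpW : ¬ p ∣ W := by
    intro h1
    have h2 := Nat.le_of_dvd hW h1
    omega
  have hpt : p ∣ W * (n + j) + ρ' := by
    have h1 : W * (n + j) + ρ' = (W * (n % p + j) + ρ') + p * (W * (n / p)) := by
      have h2 := Nat.div_add_mod n p
      calc W * (n + j) + ρ' = W * ((p * (n / p) + n % p) + j) + ρ' := by rw [h2]
        _ = (W * (n % p + j) + ρ') + p * (W * (n / p)) := by ring
    rw [h1]
    exact dvd_add hdvd (dvd_mul_right _ _)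
  have hDt : D' ∣ W * (n + j) + ρ' := dvd_add (hd1.mul_right _) hd2
  have hcop : Nat.Coprime D' p := by
    rw [Nat.coprime_comm, Nat.Prime.coprime_iff_not_dvd hp]
    exact fun h1 => hpW (h1.trans hd1)
  refine ⟨W * (n + j) + ρ', D' * p, ⟨Nat.mul_pos hd3.1 hp.pos, ?_⟩,
    Nat.Coprime.mul_dvd_of_dvd_of_dvd hcop hDt hpt, ?_, ?_⟩
  · intro q hq hqd
    rcases (hq.dvd_mul).1 hqd with h1 | h1
    · exact hd3.2 q hq h1
    · rw [(Nat.prime_dvd_prime_iff_eq hq hp).1 h1]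
      exact Or.inl hp5
  · have h1 : W * n ≤ W * N₁ := Nat.mul_le_mul_left _ hn.le
    have h2 : 5 * W * ℓ ≤ 5 * W * N₁ := Nat.mul_le_mul_left _ hℓN
    have h4 : 6 * W * N₁ = W * N₁ + 5 * W * N₁ := by ring
    rw [h4, Nat.mul_add]
    omega
  · have h1 : b (W * (n + j) + ρ') = y (W * j + ρ') := by
      rw [hx _ (by omega)]
      congr 1
      rw [Nat.mul_add]
      omega
    have h2 : b (W * (n + j) + ρ' + D' * p) = y (W * j + ρ' + D' * p) := by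
      rw [hx _ hlt]
      congr 1
      rw [Nat.mul_add]
      omega
    rw [h1, h2]
    exact hsum

end Pool.Agent.Lib.MP_d57abb_nt.All
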