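import Mathlib
import Pool.Agent.Lib.MP_d57abb_nt.All.LocB
import Pool.Agent.Lib.MP_d57abb_nt.All.NumA
import Pool.Agent.Lib.MP_d57abb_nt.All.NumB
import Pool.Agent.Lib.MP_d57abb_nt.All.PB

/-!
# The main theorem
-/

namespace Pool.Agent.Lib.MP_d57abb_nt.All

theorem main_all {m : ℕ} (hm : Odd m) (h : ℕ → ZMod m)
    (hh : ∀ a b : ℕ, 0 < a → 0 < b → h (a * b) = h a + h b) (Q : ℕ) (hQ : 0 < Q) (γ : ZMod m)
    (hγ : IsUnit γ) (hP : ∃ P₀ : ℕ, ∀ p : ℕ, p.Prime → P₀ ≤ p → p % Q = 1 % Q → h p = γ) (c : ZMod m) :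
    ∃ N₀ : ℕ, ∀ N : ℕ, N₀ ≤ N → (N : ℝ) / Real.log N ^ 33 ≤
      ((Finset.Icc 1 N).filter (fun k => h (k ^ 2 + 3 * k + 1) = c)).card := by
  haveI : NeZero m := ⟨by rintro rfl; exact absurd hm (by decide)⟩
  obtain ⟨P₀, hP⟩ := hP
  obtain ⟨K₁, K₂, K₃, hK, hA⟩ := card_AQ_le' (c := c) hh (loc_of_propB hh c (propB hm hh Q hQ γ hγ P₀ hP c))
  exact count_of_card K₁ K₂ K₃ hK hA

/-- the case of the number of prime factors -/
theorem omega_all {m : ℕ} (hm : Odd m) (c : ℕ) :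
    ∃ N₀ : ℕ, ∀ N : ℕ, N₀ ≤ N → (N : ℝ) / Real.log N ^ 33 ≤
      ((Finset.Icc 1 N).filter (fun k => ArithmeticFunction.cardFactors (k ^ 2 + 3 * k + 1) ≡ c [MOD m])).card := by
  obtain ⟨N₀, h⟩ := main_all hm (fun n => (ArithmeticFunction.cardFactors n : ZMod m))
    (by
      intro a b ha hb
      rw [ArithmeticFunction.cardFactors_mul ha.ne' hb.ne']
      push_cast; ring) 1 one_pos 1 isUnit_one ⟨0, fun p hp _ _ => by
        rw [ArithmeticFunction.cardFactors_apply_prime hp]; simp⟩ (c : ZMod m)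
  refine ⟨N₀, fun N hN => (h N hN).trans ?_⟩
  apply le_of_eq
  congr 2
  ext k
  simp only [Finset.mem_filter]
  rw [ZMod.natCast_eq_natCast_iff]

end Pool.Agent.Lib.MP_d57abb_nt.All
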